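/-
Project SP, part 2 (helper93, MP_41729c_an): arbitrary II_1 factors N close to M = π(G)''.
Definitions.

* comm π, bi π : commutant and bicommutant of a unitary representation π of G.
* Near M N δ   : every x in M is within δ ‖x‖ of N and vice versa.
* cyc π η, cycN N ξ : the closed subspaces spanned by π(G) η, by N ξ; pcyc, pcycN the projections.
* IsProj p     : p is an orthogonal projection.
* Good K π     : π is mixing and the only elements of π(G)'' commuting with π(K) are the scalars.
* Cls K L      : the class of groups.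
* conjRep w π  : g ↦ w π(g) w*.
* wint μ f     : the weak integral of a bounded function f : K → B(E) with respect to a mean μ.
-/
import Pool.Agent.Helper93.SP.Stmt

set_option autoImplicit false

open scoped InnerProductSpace ComplexConjugate ENNReal NNReal
open Filter Topology

namespace Pool.Agent.Helper93.SP

variable {G : Type*} [Group G] {E : Type*} [NormedAddCommGroup E] [InnerProductSpace ℂ E]
  [CompleteSpace E]

/-- The commutant of π(G), as a von Neumann algebra. -/
noncomputable def comm (π : G →* unitary (E →L[ℂ] E)) : VonNeumannAlgebra E where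
  toStarSubalgebra := StarSubalgebra.centralizer ℂ (Set.range fun g => (π g : E →L[ℂ] E))
  centralizer_centralizer' := by
    change Set.centralizer (Set.centralizer (Set.centralizer _)) = Set.centralizer _
    exact Set.centralizer_centralizer_centralizer _

theorem mem_comm (π : G →* unitary (E →L[ℂ] E)) (T : E →L[ℂ] E) :
    T ∈ comm π ↔ ∀ g, T * (π g : E →L[ℂ] E) = (π g : E →L[ℂ] E) * T := by
  have h : T ∈ comm π ↔
      T ∈ StarSubalgebra.centralizer ℂ (Set.range fun g => (π g : E →L[ℂ] E)) := Iff.rfl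
  rw [h, StarSubalgebra.mem_centralizer_iff]
  constructor
  · intro hT g
    exact ((hT _ ⟨g, rfl⟩).1).symm
  · rintro hT _ ⟨g, rfl⟩
    refine ⟨(hT g).symm, ?_⟩
    have : star (π g : E →L[ℂ] E) = (π g⁻¹ : E →L[ℂ] E) := by
      rw [map_inv]
      rfl
    rw [this]
    exact (hT g⁻¹).symm

/-- The von Neumann algebra π(G)'' generated by π(G). -/
noncomputable def bi (π : G →* unitary (E →L[ℂ] E)) : VonNeumannAlgebra E := (comm π).commutant

theorem mem_bi (π : G →* unitary (E →L[ℂ] E)) (x : E →L[ℂ] E) :
    x ∈ bi π ↔ ∀ T : E →L[ℂ] E, (∀ g, T * (π g : E →L[ℂ] E) = (π g : E →L[ℂ] E) * T) →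
      T * x = x * T := by
  rw [bi, VonNeumannAlgebra.mem_commutant_iff]
  constructor
  · intro h T hT
    exact h T ((mem_comm π T).2 hT)
  · intro h T hT
    exact h T ((mem_comm π T).1 hT)

theorem rep_mem_bi (π : G →* unitary (E →L[ℂ] E)) (g : G) : (π g : E →L[ℂ] E) ∈ bi π := by
  rw [mem_bi]
  intro T hT
  exact hT g

/-- The commutant of a set and its adjoints, as a von Neumann algebra. -/
noncomputable def cenVN (s : Set (E →L[ℂ] E)) : VonNeumannAlgebra E where
  toStarSubalgebra := StarSubalgebra.centralizer ℂ s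
  centralizer_centralizer' := by
    change Set.centralizer (Set.centralizer (Set.centralizer _)) = Set.centralizer _
    exact Set.centralizer_centralizer_centralizer _

theorem mem_cenVN (s : Set (E →L[ℂ] E)) (T : E →L[ℂ] E) :
    T ∈ cenVN s ↔ ∀ x ∈ s, x * T = T * x ∧ star x * T = T * star x := by
  have h : T ∈ cenVN s ↔ T ∈ StarSubalgebra.centralizer ℂ s := Iff.rfl
  rw [h, StarSubalgebra.mem_centralizer_iff]

/-- Kadison-Kastler type closeness of two von Neumann algebras (with all elements, not only the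
unit balls). -/
def Near (M N : VonNeumannAlgebra E) (δ : ℝ) : Prop :=
  (∀ x ∈ M, ∃ y ∈ N, ‖x - y‖ ≤ δ * ‖x‖) ∧ (∀ y ∈ N, ∃ x ∈ M, ‖x - y‖ ≤ δ * ‖y‖)

/-- Orthogonal projections. -/
def IsProj (p : E →L[ℂ] E) : Prop := star p = p ∧ p * p = p

/-- The closed span of π(G) η. -/
noncomputable def cyc (π : G →* unitary (E →L[ℂ] E)) (η : E) : Submodule ℂ E :=
  (Submodule.span ℂ (Set.range fun g => (π g : E →L[ℂ] E) η)).topologicalClosure

/-- The closed span of N ξ. -/
noncomputable def cycN (N : VonNeumannAlgebra E) (ξ : E) : Submodule ℂ E :=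
  (Submodule.span ℂ {v : E | ∃ y ∈ N, v = y ξ}).topologicalClosure

/-- The projection onto the closed span of π(G) η. -/
noncomputable def pcyc (π : G →* unitary (E →L[ℂ] E)) (η : E) : E →L[ℂ] E :=
  (Submodule.span ℂ (Set.range fun g => (π g : E →L[ℂ] E) η)).topologicalClosure.starProjection

/-- The projection onto the closed span of N ξ. -/
noncomputable def pcycN (N : VonNeumannAlgebra E) (ξ : E) : E →L[ℂ] E :=
  (Submodule.span ℂ {v : E | ∃ y ∈ N, v = y ξ}).topologicalClosure.starProjection

/-- π is mixing and π(G)'' contains only scalars commuting with π(K). -/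
structure Good (K : Subgroup G) (π : G →* unitary (E →L[ℂ] E)) : Prop where
  mixing : Mixing π
  irr : ∀ x ∈ bi π, (∀ k ∈ K, x * (π k : E →L[ℂ] E) = (π k : E →L[ℂ] E) * x) →
    ∃ c : ℂ, x = c • (1 : E →L[ℂ] E)

/-- The class of pairs (K, L) of normal subgroups of G: L ≤ K, K amenable with free letters
relative to L, and every nontrivial element of G has infinitely many conjugates under K. -/
structure Cls (K L : Subgroup G) : Prop where
  normK : K.Normal
  normL : L.Normal
  le : L ≤ K
  letters : HasFreeLetters K L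
  amen : Amen K
  icc : ∀ g : G, g ≠ 1 → (Set.range fun k : K => (k : G) * g * (k : G)⁻¹).Infinite

/-- The representation g ↦ w π(g) w*. -/
noncomputable def conjRep (w : unitary (E →L[ℂ] E)) (π : G →* unitary (E →L[ℂ] E)) :
    G →* unitary (E →L[ℂ] E) where
  toFun g := w * π g * w⁻¹
  map_one' := by simp
  map_mul' g h := by simp [mul_assoc]

theorem conjRep_apply (w : unitary (E →L[ℂ] E)) (π : G →* unitary (E →L[ℂ] E)) (g : G) :
    (conjRep w π g : E →L[ℂ] E) = (w : E →L[ℂ] E) * (π g : E →L[ℂ] E) * star (w : E →L[ℂ] E) :=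
  rfl

/-- `ξ` is a unit vector whose vector state is tracial on N. -/
structure TrVec (N : VonNeumannAlgebra E) (ξ : E) : Prop where
  norm : ‖ξ‖ = 1
  tracial : ∀ x ∈ N, ∀ y ∈ N, ⟪ξ, (x * y) ξ⟫_ℂ = ⟪ξ, (y * x) ξ⟫_ℂ

/-- The vectors π(g) ζ_i are orthonormal. -/
def OrbOrth {ι : Type*} (π : G →* unitary (E →L[ℂ] E)) (ζ : ι → E) : Prop :=
  Orthonormal ℂ fun p : G × ι => (π p.1 : E →L[ℂ] E) (ζ p.2)

open Classical in
/-- The weak integral of a bounded operator valued function with respect to a mean. -/
noncomputable def wint {K : Type*} (μ : (K → ℂ) → ℂ) (f : K → E →L[ℂ] E) : E →L[ℂ] E :=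
  if h : ∃ T : E →L[ℂ] E, ∀ θ ζ : E, ⟪θ, T ζ⟫_ℂ = μ (fun k => ⟪θ, f k ζ⟫_ℂ) then h.choose else 0

end Pool.Agent.Helper93.SP
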