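/-
Block SQ-AMP1 (about 200 lines).  Amplification to l2(ℕ; H).

* cst ℕ T acts coordinatewise; ‖cst ℕ T‖ = ‖T‖; ampRep π (g) = cst ℕ (π g) (permOp with the identity
  permutation).  ampVN N = the von Neumann algebra of all cst ℕ y, y in N (defined as a bicommutant).
* mem_ampVN: T in ampVN N iff T = cst ℕ y for some y in N.  The operators θ_ij : f ↦ pt i (f j)
  commute with all cst ℕ y; T commutes with the θ_ij, so T (pt j v) = pt j (T0 v), T0 independent of j,
  T = cst ℕ T0 (finitely supported vectors are dense / coordinates: (T f) j = T0 (f j) from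
  θ_ij T = T θ_ij).  T commutes with cst ℕ S for S in N' (cst ℕ S commutes with all cst ℕ y), so T0 is
  in N'' = N.
* bi_ampRep: x in bi (ampRep π) iff x = cst ℕ x0, x0 in bi π (same argument with π(G)).
* good_ampRep: mixing: ⟪θ, ampRep π g ζ⟫ = Σ_n ⟪θ_n, π(g) ζ_n⟫: normal_mixing (SP/Nrm.lean) for
  the square summable sequences.  irr: x = cst ℕ x0 commutes with cst ℕ (π k), so x0 commutes with
  π(k), x0 = c, x = c.
* near_amp: ‖cst ℕ x - cst ℕ y‖ = ‖x - y‖.
* factor_amp: ampVN N is a factor if N is.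
-/
import Pool.Agent.Helper93.SP2.Defs2
import Pool.Agent.Helper93.SP.Nrm

set_option autoImplicit false

open scoped InnerProductSpace ComplexConjugate ENNReal NNReal
open Filter Topology

namespace Pool.Agent.Helper93.SP

variable {G : Type*} [Group G] {H : Type*} [NormedAddCommGroup H] [InnerProductSpace ℂ H]
  [CompleteSpace H]

/-- The countable multiple of a representation. -/
noncomputable def ampRep (π : G →* unitary (H →L[ℂ] H)) :
    G →* unitary (El ℕ H →L[ℂ] El ℕ H) where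
  toFun g := permOp (Equiv.refl ℕ) (π g)
  map_one' := by
    apply Subtype.ext
    ext f x
    rw [permOp_apply]
    simp
  map_mul' g h := by
    apply Subtype.ext
    ext f x
    rw [permOp_apply, Submonoid.coe_mul, mul_apply_eq_comp, permOp_apply, permOp_apply,
      map_mul]
    rfl

theorem ampRep_apply (π : G →* unitary (H →L[ℂ] H)) (g : G) :
    (ampRep π g : El ℕ H →L[ℂ] El ℕ H) = cst ℕ (π g : H →L[ℂ] H) := by
  ext f x
  rfl

/-- The countable multiple of a von Neumann algebra. -/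
noncomputable def ampVN (N : VonNeumannAlgebra H) : VonNeumannAlgebra (El ℕ H) :=
  (cenVN {T | ∃ y ∈ N, T = cst ℕ y}).commutant

/-- The projection onto the first n coordinates. -/
noncomputable def cutP (H : Type*) [NormedAddCommGroup H] [InnerProductSpace ℂ H]
    [CompleteSpace H] (n : ℕ) : El ℕ H →L[ℂ] El ℕ H :=
  diagOp (fun m => if m < n then (1 : H →L[ℂ] H) else 0) 1 (fun m => by
    split_ifs
    · exact ContinuousLinearMap.norm_id_le
    · simp)

/-- The vector with coordinates η l, l < n. -/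
noncomputable def embv {n : ℕ} (η : Fin n → H) : El ℕ H :=
  ∑ l : Fin n, pt (l : ℕ) (η l)

private theorem cst_pt92 (T : H →L[ℂ] H) (j : ℕ) (v : H) : cst ℕ T (pt j v) = pt j (T v) := by
  ext i
  rw [cst_apply, pt_apply, pt_apply]
  split_ifs
  · rfl
  · exact map_zero T

private theorem cst_inj92 {S T : H →L[ℂ] H} (h : cst ℕ S = cst ℕ T) : S = T := by
  ext v
  have h1 := congrArg (fun R : El ℕ H →L[ℂ] El ℕ H => (R (pt 0 v) : El ℕ H) 0) h
  simpa [cst_apply, pt_apply] using h1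

private theorem cst_sub92 (S T : H →L[ℂ] H) : cst ℕ S - cst ℕ T = cst ℕ (S - T) := by
  ext f x
  rfl

private theorem cst_smul_one92 (c : ℂ) :
    cst ℕ (c • (1 : H →L[ℂ] H)) = c • (1 : El ℕ H →L[ℂ] El ℕ H) := by
  ext f x
  rfl

private theorem pt_eq92 (j : ℕ) (v : H) : (pt j v : El ℕ H) = lp.single 2 j v := by
  ext m
  rw [pt_apply, lp.single_apply]
  by_cases hm : m = j
  · subst hm
    simp
  · simp [hm]

private theorem norm_pt92 (j : ℕ) (v : H) : ‖(pt j v : El ℕ H)‖ = ‖v‖ := by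
  rw [pt_eq92]
  exact lp.norm_single (p := 2) (E := fun _ : ℕ => H) (by norm_num) j v

/-- the operator `f ↦ pt i (f j)` -/
private noncomputable def th92 (H : Type*) [NormedAddCommGroup H] [InnerProductSpace ℂ H]
    [CompleteSpace H] (i j : ℕ) : El ℕ H →L[ℂ] El ℕ H :=
  (lp.singleContinuousLinearMap ℂ (fun _ : ℕ => H) 2 i) ∘L (lp.evalCLM ℂ (fun _ : ℕ => H) 2 j)

private theorem th_apply92 (i j : ℕ) (f : El ℕ H) (m : ℕ) :
    th92 H i j f m = if m = i then f j else 0 := by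
  have h : th92 H i j f = lp.single 2 i (f j) := rfl
  rw [h, lp.single_apply]
  by_cases hm : m = i
  · subst hm
    simp
  · simp [hm]

private theorem th_cst92 (i j : ℕ) (y : H →L[ℂ] H) : th92 H i j * cst ℕ y = cst ℕ y * th92 H i j := by
  ext f m
  rw [mul_apply_eq_comp, mul_apply_eq_comp, th_apply92, cst_apply, cst_apply,
    th_apply92]
  split_ifs
  · rfl
  · exact (map_zero y).symm

private theorem eq_cst92 (T : El ℕ H →L[ℂ] El ℕ H)
    (hT : ∀ i j, th92 H i j * T = T * th92 H i j) : ∃ T0 : H →L[ℂ] H, T = cst ℕ T0 := by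
  let T0 : H →L[ℂ] H := (lp.evalCLM ℂ (fun _ : ℕ => H) 2 0) ∘L T ∘L
    (lp.singleContinuousLinearMap ℂ (fun _ : ℕ => H) 2 0)
  have hT0 : ∀ v : H, T0 v = T (lp.single 2 0 v) 0 := fun v => rfl
  refine ⟨T0, ?_⟩
  ext f j
  rw [cst_apply, hT0]
  have h1 := congrArg (fun R : El ℕ H →L[ℂ] El ℕ H => (R f : El ℕ H) 0) (hT 0 j)
  simp only [mul_apply_eq_comp] at h1
  rw [th_apply92, if_pos rfl] at h1
  exact h1

/-- An operator which commutes with all `cst (π g)` commutes with all `cst x`, x in π(G)''. -/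
private theorem comm_cst92 (π : G →* unitary (H →L[ℂ] H)) (T : El ℕ H →L[ℂ] El ℕ H)
    (hT : ∀ g, T * cst ℕ (π g : H →L[ℂ] H) = cst ℕ (π g : H →L[ℂ] H) * T)
    (x : H →L[ℂ] H) (hx : x ∈ bi π) : T * cst ℕ x = cst ℕ x * T := by
  have key : ∀ (j : ℕ) (ξ : H), T (cst ℕ x (pt j ξ)) = cst ℕ x (T (pt j ξ)) := by
    intro j ξ
    rw [cst_pt92]
    ext i
    rw [cst_apply]
    let S : H →L[ℂ] H := (lp.evalCLM ℂ (fun _ : ℕ => H) 2 i) ∘L T ∘L
      (lp.singleContinuousLinearMap ℂ (fun _ : ℕ => H) 2 j)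
    have hS : ∀ ζ : H, S ζ = T (pt j ζ) i := fun ζ => by
      rw [pt_eq92]
      rfl
    have hSg : ∀ g, S * (π g : H →L[ℂ] H) = (π g : H →L[ℂ] H) * S := by
      intro g
      ext ζ
      rw [mul_apply_eq_comp, mul_apply_eq_comp, hS, hS, ← cst_pt92,
        ← cst_apply (π g : H →L[ℂ] H) (T (pt j ζ)) i, ← mul_apply_eq_comp,
        ← mul_apply_eq_comp, hT]
    have := congrArg (fun R : H →L[ℂ] H => R ξ) ((mem_bi π x).1 hx S hSg)
    simp only [mul_apply_eq_comp, hS] at this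
    exact this
  ext1 f
  rw [mul_apply_eq_comp, mul_apply_eq_comp]
  have h1 : HasSum (fun j => (lp.single 2 j (f j) : El ℕ H)) f :=
    lp.hasSum_single (by norm_num) f
  have h2 := h1.mapL (T ∘L cst ℕ x)
  have h3 := h1.mapL (cst ℕ x ∘L T)
  have h4 : (fun j => (T ∘L cst ℕ x) (lp.single 2 j (f j) : El ℕ H)) =
      fun j => (cst ℕ x ∘L T) (lp.single 2 j (f j) : El ℕ H) := by
    funext j
    rw [← pt_eq92]
    exact key j (f j)
  rw [h4] at h2
  exact h2.unique h3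

theorem norm_cst (T : H →L[ℂ] H) : ‖cst ℕ T‖ = ‖T‖ := by
  refine le_antisymm ?_ ?_
  · have h : ‖diagOp (fun _ : ℕ => T) ‖T‖ (fun _ => le_rfl)‖ ≤ |‖T‖| := by
      unfold diagOp
      exact LinearMap.mkContinuous_norm_le _ (abs_nonneg _) _
    rw [abs_norm] at h
    exact h
  · refine ContinuousLinearMap.opNorm_le_bound _ (norm_nonneg _) fun v => ?_
    have h := (cst ℕ T).le_opNorm (pt 0 v)
    rwa [cst_pt92, norm_pt92, norm_pt92] at h

theorem mem_ampVN (N : VonNeumannAlgebra H) (T : El ℕ H →L[ℂ] El ℕ H) :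
    T ∈ ampVN N ↔ ∃ y ∈ N, T = cst ℕ y := by
  rw [ampVN, VonNeumannAlgebra.mem_commutant_iff]
  constructor
  · intro h
    obtain ⟨T0, hT0⟩ := eq_cst92 T fun i j => h _ (by
      rw [mem_cenVN]
      rintro _ ⟨y, -, rfl⟩
      refine ⟨(th_cst92 i j y).symm, ?_⟩
      rw [star_cst]
      exact (th_cst92 i j _).symm)
    refine ⟨T0, ?_, hT0⟩
    rw [← N.commutant_commutant, VonNeumannAlgebra.mem_commutant_iff]
    intro R hR
    rw [VonNeumannAlgebra.mem_commutant_iff] at hR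
    have h1 := h (cst ℕ R) (by
      rw [mem_cenVN]
      rintro _ ⟨y, hy, rfl⟩
      refine ⟨?_, ?_⟩
      · rw [cst_mul, cst_mul, hR y hy]
      · rw [star_cst, cst_mul, cst_mul, hR (star y) (star_mem hy)])
    rw [hT0, cst_mul, cst_mul] at h1
    exact cst_inj92 h1
  · rintro ⟨y, hy, rfl⟩ g hg
    rw [mem_cenVN] at hg
    exact ((hg _ ⟨y, hy, rfl⟩).1).symm

theorem bi_ampRep (π : G →* unitary (H →L[ℂ] H)) (T : El ℕ H →L[ℂ] El ℕ H) :
    T ∈ bi (ampRep π) ↔ ∃ x ∈ bi π, T = cst ℕ x := by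
  rw [mem_bi]
  constructor
  · intro h
    obtain ⟨T0, hT0⟩ := eq_cst92 T fun i j => h _ (fun g => by
      rw [ampRep_apply]
      exact th_cst92 i j _)
    refine ⟨T0, ?_, hT0⟩
    rw [mem_bi]
    intro R hR
    have h1 := h (cst ℕ R) (fun g => by
      rw [ampRep_apply, cst_mul, cst_mul, hR])
    rw [hT0, cst_mul, cst_mul] at h1
    exact cst_inj92 h1
  · rintro ⟨x, hx, rfl⟩ S hS
    exact comm_cst92 π S (fun g => by rw [← ampRep_apply]; exact hS g) x hx

theorem good_ampRep (K : Subgroup G) (π : G →* unitary (H →L[ℂ] H)) (hπ : Good K π) :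
    Good K (ampRep π) := by
  refine ⟨?_, ?_⟩
  · intro ζ θ ε hε
    have hsum : ∀ f : El ℕ H, Summable fun i => ‖f i‖ ^ 2 := by
      intro f
      have h := lp.memℓp f
      rw [memℓp_gen_iff (by norm_num)] at h
      simpa using h
    have h := normal_mixing π hπ.mixing (fun i => θ i) (fun i => ζ i) (hsum θ) (hsum ζ) ε hε
    refine h.subset fun g hg => ?_
    rw [Set.mem_ofPred_eq] at hg ⊢
    rw [ampRep_apply, lp.inner_eq_tsum] at hg
    exact hg
  · intro x hx hk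
    obtain ⟨x0, hx0, rfl⟩ := (bi_ampRep π x).1 hx
    obtain ⟨c, hc⟩ := hπ.irr x0 hx0 fun k hkK => by
      have h1 := hk k hkK
      rw [ampRep_apply, cst_mul, cst_mul] at h1
      exact cst_inj92 h1
    exact ⟨c, by rw [hc, cst_smul_one92]⟩

theorem near_amp (π : G →* unitary (H →L[ℂ] H)) (N : VonNeumannAlgebra H) (δ : ℝ)
    (hN : Near (bi π) N δ) : Near (bi (ampRep π)) (ampVN N) δ := by
  refine ⟨?_, ?_⟩
  · intro x hx
    obtain ⟨x0, hx0, rfl⟩ := (bi_ampRep π x).1 hx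
    obtain ⟨y, hy, h⟩ := hN.1 x0 hx0
    exact ⟨cst ℕ y, (mem_ampVN N _).2 ⟨y, hy, rfl⟩, by rw [cst_sub92, norm_cst, norm_cst]; exact h⟩
  · intro y hy
    obtain ⟨y0, hy0, rfl⟩ := (mem_ampVN N y).1 hy
    obtain ⟨x, hx, h⟩ := hN.2 y0 hy0
    exact ⟨cst ℕ x, (bi_ampRep π _).2 ⟨x, hx, rfl⟩, by rw [cst_sub92, norm_cst, norm_cst]; exact h⟩

theorem factor_amp (N : VonNeumannAlgebra H)
    (hfac : ∀ x ∈ N, (∀ y ∈ N, x * y = y * x) → ∃ c : ℂ, x = c • (1 : H →L[ℂ] H)) :
    ∀ x ∈ ampVN N, (∀ y ∈ ampVN N, x * y = y * x) →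
      ∃ c : ℂ, x = c • (1 : El ℕ H →L[ℂ] El ℕ H) := by
  intro x hx h
  obtain ⟨x0, hx0, rfl⟩ := (mem_ampVN N x).1 hx
  obtain ⟨c, hc⟩ := hfac x0 hx0 fun y hy => by
    have h1 := h (cst ℕ y) ((mem_ampVN N _).2 ⟨y, hy, rfl⟩)
    rw [cst_mul, cst_mul] at h1
    exact cst_inj92 h1
  exact ⟨c, by rw [hc, cst_smul_one92]⟩

end Pool.Agent.Helper93.SP
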