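/-
Block SQ-AMP2 (about 150 lines).  Amplification, vectors.  Definitions in Amp.lean.
* trvec_amp: for the vectors a_n of IsTrace N τ, the vector (a_n) of l2(ℕ; H) is a TrVec of ampVN N
  and ⟪a, cst ℕ y a⟫ = τ(y) for y in N.
* cutP n: the projection onto the first n coordinates; it commutes with all cst ℕ T.
* embv η: the vector with coordinates η l for l < n and 0 otherwise;
  ⟪embv η, cst ℕ x (embv η')⟫ = Σ_(l < n) ⟪η l, x (η' l)⟫; cutP n (embv η) = embv η; every f with
  cutP n f = f is embv (l ↦ f l).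
-/
import Pool.Agent.Helper93.SP2.Amp

set_option autoImplicit false

open scoped InnerProductSpace ComplexConjugate ENNReal NNReal
open Filter Topology

namespace Pool.Agent.Helper93.SP

variable {G : Type*} [Group G] {H : Type*} [NormedAddCommGroup H] [InnerProductSpace ℂ H]
  [CompleteSpace H]

theorem trvec_amp (N : VonNeumannAlgebra H) (τ : (H →L[ℂ] H) → ℂ) (hτ : IsTrace N τ) :
    ∃ a : El ℕ H, TrVec (ampVN N) a ∧ ∀ y ∈ N, ⟪a, cst ℕ y a⟫_ℂ = τ y := by
  obtain ⟨a, ha, hτa⟩ := hτ.normal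
  have hmem : Memℓp a 2 := by
    rw [memℓp_gen_iff (by norm_num)]
    simpa using ha
  set A : El ℕ H := ⟨a, hmem⟩ with hA
  have hAn : ∀ n, A n = a n := fun n => rfl
  have key : ∀ y ∈ N, ⟪A, cst ℕ y A⟫_ℂ = τ y := by
    intro y hy
    rw [lp.inner_eq_tsum, hτa y hy]
    rfl
  have hone : (1 : H →L[ℂ] H) ∈ N := one_mem N.toStarSubalgebra
  refine ⟨A, ⟨?_, ?_⟩, key⟩
  · have h1 := key 1 hone
    rw [hτ.one] at h1
    have h2 : cst ℕ (1 : H →L[ℂ] H) A = A := by
      ext x
      rfl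
    rw [h2, inner_self_eq_norm_sq_to_K] at h1
    have h3 : (‖A‖ : ℝ) ^ 2 = 1 := by
      have h4 := congrArg Complex.re h1
      rw [← Complex.ofReal_one] at h4
      simpa [← Complex.ofReal_pow] using h4
    nlinarith [norm_nonneg A, sq_nonneg (‖A‖ - 1)]
  · intro x hx y hy
    obtain ⟨x0, hx0, rfl⟩ := (mem_ampVN N x).1 hx
    obtain ⟨y0, hy0, rfl⟩ := (mem_ampVN N y).1 hy
    rw [cst_mul, cst_mul, key _ (mul_mem (S := StarSubalgebra ℂ (H →L[ℂ] H)) (s := N.toStarSubalgebra) hx0 hy0),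
      key _ (mul_mem (S := StarSubalgebra ℂ (H →L[ℂ] H)) (s := N.toStarSubalgebra) hy0 hx0)]
    exact hτ.tracial x0 hx0 y0 hy0

private theorem cutP_apply56 (n : ℕ) (f : El ℕ H) (m : ℕ) :
    cutP H n f m = if m < n then f m else 0 := by
  rw [cutP, diagOp_apply]
  split_ifs <;> simp

private theorem cutP_comm56 (n : ℕ) (T : H →L[ℂ] H) : cutP H n * cst ℕ T = cst ℕ T * cutP H n := by
  ext f m
  rw [mul_apply_eq_comp, mul_apply_eq_comp, cutP_apply56, cst_apply,
    cst_apply, cutP_apply56]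
  split_ifs <;> simp

theorem cutP_facts (π : G →* unitary (H →L[ℂ] H)) (N : VonNeumannAlgebra H) (n : ℕ) :
    IsProj (cutP H n) ∧ cutP H n ∈ comm (ampRep π) ∧ cutP H n ∈ (ampVN N).commutant := by
  refine ⟨⟨?_, ?_⟩, ?_, ?_⟩
  · rw [cutP, star_diagOp]
    ext f m
    rw [diagOp_apply, diagOp_apply]
    split_ifs <;> simp
  · ext f m
    rw [mul_apply_eq_comp, cutP_apply56, cutP_apply56]
    split_ifs <;> rfl
  · rw [mem_comm]
    intro g
    rw [ampRep_apply]
    exact cutP_comm56 n _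
  · rw [VonNeumannAlgebra.mem_commutant_iff]
    intro T hT
    obtain ⟨y, _, rfl⟩ := (mem_ampVN N T).1 hT
    exact (cutP_comm56 n y).symm

private theorem embv_apply56 {n : ℕ} (η : Fin n → H) (m : ℕ) :
    embv η m = if h : m < n then η ⟨m, h⟩ else 0 := by
  rw [embv]
  have h0 : (∑ l : Fin n, (pt (l : ℕ) (η l) : El ℕ H)) m = ∑ l : Fin n, (pt (l : ℕ) (η l) : El ℕ H) m := by
    rw [lp.coeFn_sum]
    simp
  rw [h0]
  simp only [pt_apply]
  split_ifs with h
  · rw [Finset.sum_eq_single (⟨m, h⟩ : Fin n)]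
    · simp
    · intro b _ hb
      rw [if_neg]
      intro hm
      exact hb (Fin.ext hm.symm)
    · intro hh
      exact absurd (Finset.mem_univ _) hh
  · refine Finset.sum_eq_zero fun l _ => ?_
    rw [if_neg]
    intro hm
    exact h (hm ▸ l.2)

theorem cutP_embv {n : ℕ} (η : Fin n → H) : cutP H n (embv η) = embv η := by
  ext m
  rw [cutP_apply56, embv_apply56]
  split_ifs <;> rfl

theorem embv_of_cutP {n : ℕ} (f : El ℕ H) (hf : cutP H n f = f) :
    embv (fun l : Fin n => f (l : ℕ)) = f := by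
  ext m
  rw [embv_apply56]
  have h := congrArg (fun g : El ℕ H => g m) hf
  simp only [cutP_apply56] at h
  split_ifs with hm
  · rfl
  · rw [if_neg hm] at h
    exact h

theorem inner_embv {n : ℕ} (η η' : Fin n → H) (x : H →L[ℂ] H) :
    ⟪embv η, cst ℕ x (embv η')⟫_ℂ = ∑ l, ⟪η l, x (η' l)⟫_ℂ := by
  rw [lp.inner_eq_tsum, tsum_eq_sum (s := Finset.range n)]
  · rw [Finset.sum_range]
    refine Finset.sum_congr rfl fun l _ => ?_
    rw [cst_apply, embv_apply56, embv_apply56, dif_pos l.2, dif_pos l.2]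
  · intro m hm
    rw [Finset.mem_range] at hm
    rw [embv_apply56, dif_neg hm, inner_zero_left]

end Pool.Agent.Helper93.SP
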