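/-
Block SQ-CE (about 250 lines).  Conditional expectation.  C a von Neumann algebra on E, ξ a vector
whose vector state is tracial and faithful on C (a ξ = 0 ⇒ a = 0), T a bounded operator with
 ⟪c ξ, T a b ξ⟫ = ⟪c b* ξ, T a ξ⟫  for a, b, c in C   (T commutes with right multiplications).
Then there is y in C with ⟪c ξ, T a ξ⟫ = ⟪c ξ, y a ξ⟫ for a, c in C.

Proof.  p = projection onto the closure of C ξ (in C'), A = p T p.  J : a ξ ↦ a* ξ extends to an
antiunitary of p E (‖a* ξ‖ = ‖a ξ‖).  (To avoid an antilinear operator one may use approximating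
sequences a_n ξ → v and J v = lim a_n* ξ.)
(1) For S in C' : J p S ξ = p S* ξ, since ⟪J pSξ, bξ⟫ = ⟪J bξ, pSξ⟫ = ⟪b* ξ, S ξ⟫ = ⟪S* ξ, b ξ⟫ conj..
    precisely ⟪b ξ, J p S ξ⟫ = ⟪p S ξ, b* ξ⟫ = ⟪S ξ, b* ξ⟫ = ⟪b S ξ, ξ⟫ = ⟪S b ξ, ξ⟫ = ⟪b ξ, S* ξ⟫.
(2) For B on pE commuting with right multiplications (B = A, B = c* A a, and their adjoints):
    J B ξ = B* ξ: ⟪b ξ, J B ξ⟫ = ⟪B ξ, b* ξ⟫ = ⟪ξ, B* b* ξ⟫ and B* (b* ξ) = right multiplication by b*
    of B* ξ, so = ⟪b ξ, B* ξ⟫.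
(3) Hence for S in C', B as in (2): ⟪ξ, B S ξ⟫ = ⟪B* ξ, S ξ⟫ = ⟪J B ξ, p S ξ⟫ = ⟪J p S ξ, B ξ⟫
    (⟪J u, v⟫ = ⟪J v, u⟫) = ⟪S* ξ, B ξ⟫ = ⟪ξ, S B ξ⟫.  With B = c* A a this gives
    ⟪c ξ, A (p S p) a ξ⟫ = ⟪c ξ, (p S p) A a ξ⟫: A commutes with p S p for all S in C'.
(4) Define y on the span of C' p E by y (Σ S_i ζ_i) = Σ S_i A ζ_i (S_i in C', ζ_i in pE).
    ‖Σ S_i A ζ_i‖^2 = Σ ⟪A ζ_j, (p S_j* S_i p) A ζ_i⟫ = Σ ⟪A ζ_j, A (p S_j* S_i p) ζ_i⟫
    = Σ ⟪A* A ζ_j, (p S_j* S_i p) ζ_i⟫; the matrix X = (p S_j* S_i p) is positive and commutes with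
    A* A ⊗ 1 ≤ ‖A‖^2, so this is ≤ ‖A‖^2 Σ ⟪ζ_j, S_j* S_i ζ_i⟫ = ‖A‖^2 ‖Σ S_i ζ_i‖^2.
    (Equivalently use the square root B of ‖A‖^2 p - A* A, which also commutes with p S p:
    ‖A‖^2 ‖Σ S_i ζ_i‖^2 - ‖Σ S_i A ζ_i‖^2 = ‖Σ S_i B ζ_i‖^2 ≥ 0.)
    The closure of C' p E is E: its projection e is in C'' = C (invariant under C') and
    (1 - e) ξ = 0, so e = 1 by faithfulness.  So y is bounded on E, commutes with C', so y in C,
    and y ζ = A ζ for ζ in pE.
-/
import Pool.Agent.Helper93.SP2.Defs2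

set_option autoImplicit false

open scoped InnerProductSpace ComplexConjugate ENNReal NNReal
open Filter Topology

namespace Pool.Agent.Helper93.SP

variable {E : Type*} [NormedAddCommGroup E] [InnerProductSpace ℂ E] [CompleteSpace E]

section aux32

/-- The vectors a ξ with a in C. -/
private noncomputable def cy32 (C : VonNeumannAlgebra E) (ξ : E) : Submodule ℂ E :=
  (C.toStarSubalgebra.toSubalgebra.toSubmodule.map
    ((ContinuousLinearMap.apply ℂ E ξ : (E →L[ℂ] E) →L[ℂ] E) : (E →L[ℂ] E) →ₗ[ℂ] E))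

private theorem mem_cy32 (C : VonNeumannAlgebra E) (ξ y : E) :
    y ∈ cy32 C ξ ↔ ∃ b ∈ C, b ξ = y := by
  simp only [cy32, Submodule.mem_map]
  rfl

/-- A closed condition on the closure of C ξ. -/
private theorem clos32 (C : VonNeumannAlgebra E) (ξ : E) (P : E → Prop)
    (hP : IsClosed {x | P x}) (h : ∀ a ∈ C, P (a ξ)) :
    ∀ u ∈ (cy32 C ξ).topologicalClosure, P u := by
  intro u hu
  have hu' : u ∈ closure (cy32 C ξ : Set E) := hu
  refine closure_minimal (fun w hw => ?_) hP hu'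
  obtain ⟨b, hb, rfl⟩ := (mem_cy32 C ξ w).1 hw
  exact h b hb

private theorem self32 (C : VonNeumannAlgebra E) (ξ : E) (a : E →L[ℂ] E) (ha : a ∈ C) :
    a ξ ∈ (cy32 C ξ).topologicalClosure :=
  Submodule.le_topologicalClosure _ ((mem_cy32 C ξ _).2 ⟨a, ha, rfl⟩)

private theorem inv32 (C : VonNeumannAlgebra E) (ξ : E) (b : E →L[ℂ] E) (hb : b ∈ C) :
    ∀ v ∈ (cy32 C ξ).topologicalClosure, b v ∈ (cy32 C ξ).topologicalClosure := by
  have hcl : IsClosed ((cy32 C ξ).topologicalClosure : Set E) :=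
    Submodule.isClosed_topologicalClosure _
  exact clos32 C ξ (fun v => b v ∈ (cy32 C ξ).topologicalClosure)
    (hcl.preimage b.continuous) (fun a ha => self32 C ξ (b * a) (mul_mem hb ha))

private theorem nrm32 (C : VonNeumannAlgebra E) (ξ : E)
    (htr : ∀ a ∈ C, ∀ b ∈ C, ⟪ξ, (a * b) ξ⟫_ℂ = ⟪ξ, (b * a) ξ⟫_ℂ) (a : E →L[ℂ] E) (ha : a ∈ C) :
    ‖(star a) ξ‖ = ‖a ξ‖ := by
  have h1 : ⟪(star a) ξ, (star a) ξ⟫_ℂ = ⟪a ξ, a ξ⟫_ℂ := by
    have e1 : ⟪(star a) ξ, (star a) ξ⟫_ℂ = ⟪ξ, (a * star a) ξ⟫_ℂ := by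
      rw [ContinuousLinearMap.star_eq_adjoint, ContinuousLinearMap.adjoint_inner_left]
      rfl
    have e2 : ⟪a ξ, a ξ⟫_ℂ = ⟪ξ, (star a * a) ξ⟫_ℂ := by
      rw [ContinuousLinearMap.star_eq_adjoint, mul_apply_eq_comp,
        ContinuousLinearMap.adjoint_inner_right]
    rw [e1, e2]
    exact htr a ha (star a) (star_mem ha)
  rw [inner_self_eq_norm_sq_to_K, inner_self_eq_norm_sq_to_K] at h1
  have h2 : ‖(star a) ξ‖ ^ 2 = ‖a ξ‖ ^ 2 := by exact_mod_cast h1
  exact (sq_eq_sq₀ (norm_nonneg _) (norm_nonneg _)).1 h2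

/-- A vector of the closure of C ξ which is small against C ξ is small. -/
private theorem small32 (C : VonNeumannAlgebra E) (ξ v : E) (ε : ℝ) (hε : 0 ≤ ε)
    (hv : v ∈ (cy32 C ξ).topologicalClosure) (h : ∀ c ∈ C, ‖⟪c ξ, v⟫_ℂ‖ ≤ ε * ‖c ξ‖) :
    ‖v‖ ≤ ε := by
  have h1 : ‖⟪v, v⟫_ℂ‖ ≤ ε * ‖v‖ :=
    clos32 C ξ (fun u => ‖⟪u, v⟫_ℂ‖ ≤ ε * ‖u‖)
      (isClosed_le (by fun_prop) (by fun_prop)) h v hv
  have h2 : ‖⟪v, v⟫_ℂ‖ = ‖v‖ * ‖v‖ := by
    rw [inner_self_eq_norm_sq_to_K]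
    simp [sq]
  rw [h2] at h1
  by_cases h0 : ‖v‖ = 0
  · rw [h0]
    exact hε
  · exact le_of_mul_le_mul_right h1 (lt_of_le_of_ne (norm_nonneg _) (Ne.symm h0))

/-- Step (3). -/
private theorem key32 (C : VonNeumannAlgebra E) (ξ : E)
    (htr : ∀ a ∈ C, ∀ b ∈ C, ⟪ξ, (a * b) ξ⟫_ℂ = ⟪ξ, (b * a) ξ⟫_ℂ) (B : E →L[ℂ] E)
    (h1 : B ξ ∈ (cy32 C ξ).topologicalClosure) (h2 : (star B) ξ ∈ (cy32 C ξ).topologicalClosure)
    (h3 : ∀ c ∈ C, ⟪ξ, B (c ξ)⟫_ℂ = ⟪(star c) ξ, B ξ⟫_ℂ) (S : E →L[ℂ] E)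
    (hS : S ∈ C.commutant) : ⟪ξ, B (S ξ)⟫_ℂ = ⟪ξ, S (B ξ)⟫_ℂ := by
  have hap : ∀ ε : ℝ, 0 < ε →
      ‖⟪ξ, B (S ξ)⟫_ℂ - ⟪ξ, S (B ξ)⟫_ℂ‖ ≤ ε * (‖S ξ‖ + ‖(star S) ξ‖) := by
    intro ε hε
    have h1' : B ξ ∈ closure (cy32 C ξ : Set E) := h1
    obtain ⟨u, hu, hd⟩ := Metric.mem_closure_iff.1 h1' ε hε
    obtain ⟨b, hb, rfl⟩ := (mem_cy32 C ξ u).1 hu
    rw [dist_eq_norm] at hd
    have hJ : ‖(star B) ξ - (star b) ξ‖ ≤ ε := by
      refine small32 C ξ _ ε hε.le (sub_mem h2 (self32 C ξ _ (star_mem hb))) fun c hc => ?_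
      have e1 : ⟪c ξ, (star B) ξ⟫_ℂ = ⟪B ξ, (star c) ξ⟫_ℂ := by
        rw [ContinuousLinearMap.star_eq_adjoint, ContinuousLinearMap.adjoint_inner_right,
          ← inner_conj_symm, h3 c hc, inner_conj_symm]
      have e2 : ⟪c ξ, (star b) ξ⟫_ℂ = ⟪b ξ, (star c) ξ⟫_ℂ := by
        have e3 : ⟪c ξ, (star b) ξ⟫_ℂ = ⟪(b * c) ξ, ξ⟫_ℂ := by
          rw [ContinuousLinearMap.star_eq_adjoint, ContinuousLinearMap.adjoint_inner_right]
          rfl
        have e4 : ⟪b ξ, (star c) ξ⟫_ℂ = ⟪(c * b) ξ, ξ⟫_ℂ := by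
          rw [ContinuousLinearMap.star_eq_adjoint, ContinuousLinearMap.adjoint_inner_right]
          rfl
        rw [e3, e4, ← inner_conj_symm, htr b hb c hc, inner_conj_symm]
      rw [inner_sub_right, e1, e2, ← inner_sub_left]
      refine (norm_inner_le_norm _ _).trans ?_
      rw [nrm32 C ξ htr c hc]
      exact mul_le_mul_of_nonneg_right hd.le (norm_nonneg _)
    have e5 : ⟪ξ, B (S ξ)⟫_ℂ = ⟪(star B) ξ, S ξ⟫_ℂ := by
      rw [ContinuousLinearMap.star_eq_adjoint, ContinuousLinearMap.adjoint_inner_left]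
    have e6 : ⟪ξ, S (B ξ)⟫_ℂ = ⟪(star S) ξ, B ξ⟫_ℂ := by
      rw [ContinuousLinearMap.star_eq_adjoint, ContinuousLinearMap.adjoint_inner_left]
    have e7 : ⟪(star b) ξ, S ξ⟫_ℂ = ⟪(star S) ξ, b ξ⟫_ℂ := by
      rw [ContinuousLinearMap.star_eq_adjoint, ContinuousLinearMap.adjoint_inner_left,
        ContinuousLinearMap.star_eq_adjoint, ContinuousLinearMap.adjoint_inner_left]
      have e8 : b * S = S * b := VonNeumannAlgebra.mem_commutant_iff.1 hS b hb
      have e9 : b (S ξ) = S (b ξ) := congrArg (fun R : E →L[ℂ] E => R ξ) e8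
      rw [e9]
    have e10 : ⟪ξ, B (S ξ)⟫_ℂ - ⟪ξ, S (B ξ)⟫_ℂ =
        ⟪(star B) ξ - (star b) ξ, S ξ⟫_ℂ - ⟪(star S) ξ, B ξ - b ξ⟫_ℂ := by
      rw [e5, e6, inner_sub_left, inner_sub_right, e7]
      ring
    rw [e10]
    refine (norm_sub_le _ _).trans ?_
    rw [mul_add]
    refine add_le_add ?_ ?_
    · exact (norm_inner_le_norm _ _).trans (mul_le_mul_of_nonneg_right hJ (norm_nonneg _))
    · refine (norm_inner_le_norm _ _).trans ?_
      rw [mul_comm]
      exact mul_le_mul_of_nonneg_right hd.le (norm_nonneg _)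
  have h0 : ‖⟪ξ, B (S ξ)⟫_ℂ - ⟪ξ, S (B ξ)⟫_ℂ‖ ≤ 0 := by
    refine le_of_forall_pos_le_add fun δ hδ => ?_
    have hM : 0 ≤ ‖S ξ‖ + ‖(star S) ξ‖ := by positivity
    refine (hap (δ / (‖S ξ‖ + ‖(star S) ξ‖ + 1)) (by positivity)).trans ?_
    rw [div_mul_eq_mul_div, div_le_iff₀ (by positivity), zero_add]
    nlinarith
  exact sub_eq_zero.1 (norm_le_zero_iff.1 h0)

/-- The linear map f ↦ Σ S X f(S). -/
private noncomputable def phi32 (C : VonNeumannAlgebra E) (X : E →L[ℂ] E) :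
    (C →₀ E) →ₗ[ℂ] E :=
  Finsupp.lsum ℂ (fun S : C => (((S : E →L[ℂ] E) * X : E →L[ℂ] E) : E →ₗ[ℂ] E))

private theorem phi32_single (C : VonNeumannAlgebra E) (X : E →L[ℂ] E) (S : C) (ζ : E) :
    phi32 C X (Finsupp.single S ζ) = (S : E →L[ℂ] E) (X ζ) := by
  simp [phi32]

private theorem phi32_apply (C : VonNeumannAlgebra E) (X : E →L[ℂ] E) (f : C →₀ E) :
    phi32 C X f = ∑ S ∈ f.support, (S : E →L[ℂ] E) (X (f S)) := by
  rw [phi32, Finsupp.lsum_apply, Finsupp.sum]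
  rfl

private theorem phi32_inner (C : VonNeumannAlgebra E) (X : E →L[ℂ] E) (f : C →₀ E) :
    ⟪phi32 C X f, phi32 C X f⟫_ℂ = ∑ S ∈ f.support, ∑ S' ∈ f.support,
      ⟪f S, (star X * (star (S : E →L[ℂ] E) * (S' : E →L[ℂ] E)) * X) (f S')⟫_ℂ := by
  rw [phi32_apply, sum_inner]
  refine Finset.sum_congr rfl fun S _ => ?_
  rw [inner_sum]
  refine Finset.sum_congr rfl fun S' _ => ?_
  simp only [mul_apply_eq_comp, ContinuousLinearMap.star_eq_adjoint]
  rw [ContinuousLinearMap.adjoint_inner_right, ContinuousLinearMap.adjoint_inner_right]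

/-- Step (4), the norm estimate. -/
private theorem bound32 (C : VonNeumannAlgebra E) (p A : E →L[ℂ] E) (hp : star p = p)
    (_hpp : p * p = p) (hpA : p * A = A) (hAp : A * p = A)
    (hc : ∀ R ∈ C, A * (p * R * p) = (p * R * p) * A) (f : C →₀ E) :
    ‖phi32 C A f‖ ≤ ‖A‖ * ‖phi32 C p f‖ := by
  have hpA' : star A * p = star A := by
    have := congrArg star hpA
    rwa [star_mul, hp] at this
  have hAp' : p * star A = star A := by
    have := congrArg star hAp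
    rwa [star_mul, hp] at this
  have hc' : ∀ R ∈ C, star A * (p * R * p) = (p * R * p) * star A := by
    intro R hR
    have := congrArg star (hc (star R) (star_mem hR))
    simp only [star_mul, star_star, hp] at this
    rw [← mul_assoc p R p] at this
    exact this.symm
  set D : E →L[ℂ] E := algebraMap ℝ (E →L[ℂ] E) (‖A‖ ^ 2) - star A * A with hD
  have hD0 : 0 ≤ D := sub_nonneg.2 CStarAlgebra.star_mul_le_algebraMap_norm_sq
  set B : E →L[ℂ] E := CFC.sqrt D with hB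
  have hBB : B * B = D := CFC.sqrt_mul_sqrt_self D hD0
  have hBs : star B = B := (IsSelfAdjoint.of_nonneg (CFC.sqrt_nonneg D)).star_eq
  have hcomm : ∀ Q : E →L[ℂ] E, A * Q = Q * A → star A * Q = Q * star A → B * Q = Q * B := by
    intro Q h1 h2
    have h3 : Commute D Q := by
      refine Commute.sub_left (Algebra.commute_algebraMap_left _ _) ?_
      change star A * A * Q = Q * (star A * A)
      rw [mul_assoc, h1, ← mul_assoc, h2, mul_assoc]
    exact h3.cfcₙ_nnreal _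
  have hBp : B * p = p * B := hcomm p (hAp.trans hpA.symm) (hpA'.trans hAp'.symm)
  have hBR : ∀ R ∈ C, B * (p * R * p) = (p * R * p) * B := fun R hR => hcomm _ (hc R hR) (hc' R hR)
  have hid : ∀ R ∈ C, star (B * p) * R * (B * p) =
      algebraMap ℝ (E →L[ℂ] E) (‖A‖ ^ 2) * (star p * R * p) - star A * R * A := by
    intro R hR
    have e1 : star (B * p) * R * (B * p) = B * (p * R * p) * B := by
      rw [star_mul, hp, hBs, ← hBp]
      rw [hBp]
      simp only [mul_assoc]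
      rw [← mul_assoc p B, ← hBp]
      simp only [mul_assoc]
    have e2 : B * (p * R * p) * B = D * (p * R * p) := by
      rw [mul_assoc, ← hBR R hR, ← mul_assoc, hBB]
    have e3 : star A * A * (p * R * p) = star A * R * A := by
      rw [mul_assoc, hc R hR]
      calc star A * (p * R * p * A) = (star A * p) * R * (p * A) := by simp only [mul_assoc]
        _ = star A * R * A := by rw [hpA', hpA]
    rw [e1, e2, hD, sub_mul, e3, hp]
  have hsum : ⟪phi32 C (B * p) f, phi32 C (B * p) f⟫_ℂ =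
      ((‖A‖ ^ 2 : ℝ) : ℂ) * ⟪phi32 C p f, phi32 C p f⟫_ℂ - ⟪phi32 C A f, phi32 C A f⟫_ℂ := by
    rw [phi32_inner, phi32_inner, phi32_inner, Finset.mul_sum, ← Finset.sum_sub_distrib]
    refine Finset.sum_congr rfl fun S _ => ?_
    rw [Finset.mul_sum, ← Finset.sum_sub_distrib]
    refine Finset.sum_congr rfl fun S' _ => ?_
    rw [hid _ (mul_mem (star_mem S.2) S'.2), sub_apply, inner_sub_right]
    congr 1
    rw [Algebra.algebraMap_eq_smul_one, smul_mul_assoc, one_mul, smul_apply,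
      ← Complex.coe_smul, inner_smul_right]
  rw [inner_self_eq_norm_sq_to_K, inner_self_eq_norm_sq_to_K, inner_self_eq_norm_sq_to_K] at hsum
  have hsum' : ‖phi32 C (B * p) f‖ ^ 2 = ‖A‖ ^ 2 * ‖phi32 C p f‖ ^ 2 - ‖phi32 C A f‖ ^ 2 := by
    have h9 : ((‖phi32 C (B * p) f‖ ^ 2 : ℝ) : ℂ) =
        ((‖A‖ ^ 2 * ‖phi32 C p f‖ ^ 2 - ‖phi32 C A f‖ ^ 2 : ℝ) : ℂ) := by
      push_cast
      push_cast at hsum
      exact hsum
    exact Complex.ofReal_injective h9
  have h1 : ‖phi32 C A f‖ ^ 2 ≤ (‖A‖ * ‖phi32 C p f‖) ^ 2 := by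
    rw [mul_pow]
    nlinarith [sq_nonneg ‖phi32 C (B * p) f‖]
  exact (sq_le_sq₀ (norm_nonneg _) (by positivity)).1 h1

end aux32

theorem ce (C : VonNeumannAlgebra E) (ξ : E)
    (htr : ∀ a ∈ C, ∀ b ∈ C, ⟪ξ, (a * b) ξ⟫_ℂ = ⟪ξ, (b * a) ξ⟫_ℂ)
    (hsep : ∀ a ∈ C, a ξ = 0 → a = 0) (T : E →L[ℂ] E)
    (hT : ∀ a ∈ C, ∀ b ∈ C, ∀ c ∈ C,
      ⟪c ξ, T ((a * b) ξ)⟫_ℂ = ⟪(c * star b) ξ, T (a ξ)⟫_ℂ) :
    ∃ y ∈ C, ∀ a ∈ C, ∀ c ∈ C, ⟪c ξ, T (a ξ)⟫_ℂ = ⟪c ξ, y (a ξ)⟫_ℂ := by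
  have hcl : IsClosed ((cy32 C ξ).topologicalClosure : Set E) :=
    Submodule.isClosed_topologicalClosure _
  set K : Submodule ℂ E := (cy32 C ξ).topologicalClosure with hK
  set p : E →L[ℂ] E := K.starProjection with hpdef
  have hps : star p = p := (isStarProjection_starProjection (U := K)).isSelfAdjoint.star_eq
  have hpp : p * p = p := (isStarProjection_starProjection (U := K)).isIdempotentElem
  have hpK : ∀ x, p x ∈ K := fun x => Submodule.starProjection_apply_mem K x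
  have hpid : ∀ x ∈ K, p x = x := fun x hx => Submodule.starProjection_eq_self_iff.2 hx
  set A : E →L[ℂ] E := p * T * p with hA
  have hpA : p * A = A := by
    rw [hA, ← mul_assoc, ← mul_assoc, hpp]
  have hAp : A * p = A := by
    rw [hA, mul_assoc, hpp]
  have hpsym : ∀ x y : E, ⟪p x, y⟫_ℂ = ⟪x, p y⟫_ℂ := by
    intro x y
    have := ContinuousLinearMap.adjoint_inner_left p y x
    rw [← ContinuousLinearMap.star_eq_adjoint, hps] at this
    exact this
  have hAT : ∀ u ∈ K, ∀ v ∈ K, ⟪u, A v⟫_ℂ = ⟪u, T v⟫_ℂ := by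
    intro u hu v hv
    rw [hA, mul_apply_eq_comp, mul_apply_eq_comp, ← hpsym, hpid u hu,
      hpid v hv]
  have hAs : star A = p * star T * p := by
    rw [hA, star_mul, star_mul, hps, mul_assoc]
  -- step (3)
  have hcomm0 : ∀ S ∈ C.commutant, ∀ a ∈ C, ∀ c ∈ C,
      ⟪c ξ, A (S (a ξ))⟫_ℂ = ⟪c ξ, S (A (a ξ))⟫_ℂ := by
    intro S hS a ha c hc
    have hk := key32 C ξ htr (star c * A * a)
      (inv32 C ξ _ (star_mem hc) _ (hpK _))
      (by
        rw [star_mul, star_mul, star_star, hAs]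
        exact inv32 C ξ _ (star_mem ha) _ (hpK _))
      (by
        intro d hd
        have e1 : ⟪ξ, (star c * A * a) (d ξ)⟫_ℂ = ⟪c ξ, A ((a * d) ξ)⟫_ℂ := by
          rw [mul_apply_eq_comp, mul_apply_eq_comp,
            ContinuousLinearMap.star_eq_adjoint, ContinuousLinearMap.adjoint_inner_right]
          rfl
        have e2 : ⟪(star d) ξ, (star c * A * a) ξ⟫_ℂ = ⟪(c * star d) ξ, A (a ξ)⟫_ℂ := by
          rw [mul_apply_eq_comp, mul_apply_eq_comp,
            ContinuousLinearMap.star_eq_adjoint c, ContinuousLinearMap.adjoint_inner_right]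
          rfl
        rw [e1, e2, hAT _ (self32 C ξ c hc) _ (self32 C ξ (a * d) (mul_mem ha hd)),
          hAT _ (self32 C ξ (c * star d) (mul_mem hc (star_mem hd))) _ (self32 C ξ a ha)]
        exact hT a ha d hd c hc)
      S hS
    have hSa : a (S ξ) = S (a ξ) :=
      congrArg (fun R : E →L[ℂ] E => R ξ) (VonNeumannAlgebra.mem_commutant_iff.1 hS a ha)
    have hSc : ∀ x, (star c) (S x) = S ((star c) x) := fun x =>
      congrArg (fun R : E →L[ℂ] E => R x)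
        (VonNeumannAlgebra.mem_commutant_iff.1 hS (star c) (star_mem hc))
    have e3 : ⟪ξ, (star c * A * a) (S ξ)⟫_ℂ = ⟪c ξ, A (S (a ξ))⟫_ℂ := by
      rw [mul_apply_eq_comp, mul_apply_eq_comp, hSa,
        ContinuousLinearMap.star_eq_adjoint, ContinuousLinearMap.adjoint_inner_right]
    have e4 : ⟪ξ, S ((star c * A * a) ξ)⟫_ℂ = ⟪c ξ, S (A (a ξ))⟫_ℂ := by
      rw [mul_apply_eq_comp, mul_apply_eq_comp, ← hSc,
        ContinuousLinearMap.star_eq_adjoint, ContinuousLinearMap.adjoint_inner_right]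
    rw [← e3, ← e4]
    exact hk
  have hcomm1 : ∀ S ∈ C.commutant, ∀ v ∈ K, ∀ u ∈ K, ⟪u, A (S v)⟫_ℂ = ⟪u, S (A v)⟫_ℂ := by
    intro S hS v hv u hu
    refine clos32 C ξ (fun v => ⟪u, A (S v)⟫_ℂ = ⟪u, S (A v)⟫_ℂ)
      (isClosed_eq (by fun_prop) (by fun_prop)) (fun a ha => ?_) v hv
    exact clos32 C ξ (fun u => ⟪u, A (S (a ξ))⟫_ℂ = ⟪u, S (A (a ξ))⟫_ℂ)
      (isClosed_eq (by fun_prop) (by fun_prop)) (fun c hc => hcomm0 S hS a ha c hc) u hu
  have hASp : ∀ S ∈ C.commutant, A * S * p = p * S * A := by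
    intro S hS
    ext x
    refine ext_inner_left ℂ fun u => ?_
    have h1 : (A * S * p) x = p (A (S (p x))) := by
      have := congrArg (fun R : E →L[ℂ] E => R (S (p x))) hpA
      exact this.symm
    have h2 : (p * S * A) x = p (S (A (p x))) := by
      have := congrArg (fun R : E →L[ℂ] E => R x) hAp
      change p (S (A x)) = _
      rw [← this]
      rfl
    rw [h1, h2, ← hpsym, ← hpsym]
    exact hcomm1 S hS _ (hpK x) _ (hpK u)
  have hc : ∀ R ∈ C.commutant, A * (p * R * p) = (p * R * p) * A := by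
    intro R hR
    calc A * (p * R * p) = (A * p) * R * p := by simp only [mul_assoc]
      _ = p * R * A := by rw [hAp, hASp R hR]
      _ = (p * R * p) * A := by rw [mul_assoc (p * R), hpA]
  -- step (4)
  have hbd := bound32 C.commutant p A hps hpp hpA hAp hc
  have hξ : p ξ = ξ := hpid ξ (by simpa using self32 C ξ 1 (one_mem C))
  have hdense : DenseRange (phi32 C.commutant p) := by
    set V : Submodule ℂ E := (LinearMap.range (phi32 C.commutant p)).topologicalClosure with hV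
    have hVcl : IsClosed (V : Set E) := Submodule.isClosed_topologicalClosure _
    have hVinv : ∀ S ∈ C.commutant, ∀ v ∈ V, S v ∈ V := by
      intro S hS v hv
      have hv' : v ∈ closure ((LinearMap.range (phi32 C.commutant p) : Submodule ℂ E) : Set E) := hv
      refine closure_minimal (s := ((LinearMap.range (phi32 C.commutant p) : Submodule ℂ E) : Set E))
        (t := S ⁻¹' (V : Set E)) ?_ (hVcl.preimage S.continuous) hv'
      rintro _ ⟨f, rfl⟩
      change S (phi32 C.commutant p f) ∈ V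
      rw [phi32_apply, map_sum]
      refine Submodule.sum_mem _ fun R _ => ?_
      refine Submodule.le_topologicalClosure _ ⟨Finsupp.single ⟨S * R, mul_mem hS R.2⟩ (f R), ?_⟩
      rw [phi32_single]
      rfl
    have he : V.starProjection ∈ C := by
      rw [VonNeumannAlgebra.IsStarProjection.mem_iff (isStarProjection_starProjection (U := V))]
      intro y hy
      rw [Module.End.mem_invtSubmodule]
      intro v hv
      have hv2 : v ∈ V := by
        simpa [Submodule.range_starProjection] using hv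
      have := hVinv y hy v hv2
      simpa [Submodule.range_starProjection] using this
    have heξ : V.starProjection ξ = ξ := by
      rw [Submodule.starProjection_eq_self_iff]
      refine Submodule.le_topologicalClosure _ ⟨Finsupp.single ⟨1, one_mem _⟩ ξ, ?_⟩
      rw [phi32_single, hξ]
      rfl
    have h1 : (1 : E →L[ℂ] E) - V.starProjection = 0 := by
      refine hsep _ (sub_mem (one_mem C) he) ?_
      rw [sub_apply, heξ, one_apply_eq_self, sub_self]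
    intro x
    have hx : V.starProjection x = x := by
      rw [← sub_eq_zero.1 h1]
      rfl
    have hxV : x ∈ V := Submodule.starProjection_eq_self_iff.1 hx
    have hxV' : x ∈ closure ((LinearMap.range (phi32 C.commutant p) : Submodule ℂ E) : Set E) := hxV
    rw [LinearMap.coe_range] at hxV'
    exact hxV'
  set y : E →L[ℂ] E := (phi32 C.commutant A).extendOfNorm (phi32 C.commutant p) with hy
  have hyf : ∀ f, y (phi32 C.commutant p f) = phi32 C.commutant A f := fun f =>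
    LinearMap.extendOfNorm_eq hdense ⟨‖A‖, hbd⟩ f
  have hyS : ∀ S ∈ C.commutant, ∀ ζ, y (S (p ζ)) = S (A ζ) := by
    intro S hS ζ
    have := hyf (Finsupp.single ⟨S, hS⟩ ζ)
    rwa [phi32_single, phi32_single] at this
  refine ⟨y, ?_, ?_⟩
  · rw [← C.commutant_commutant, VonNeumannAlgebra.mem_commutant_iff]
    intro S hS
    have hd2 : (fun x => (S * y) x) = fun x => (y * S) x := by
      refine hdense.equalizer (by fun_prop) (by fun_prop) ?_
      funext f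
      change S (y (phi32 C.commutant p f)) = y (S (phi32 C.commutant p f))
      rw [hyf, phi32_apply, phi32_apply, map_sum, map_sum, map_sum]
      refine Finset.sum_congr rfl fun R _ => ?_
      exact (hyS (S * R) (mul_mem hS R.2) (f R)).symm
    ext x
    exact congrFun hd2 x
  · intro a ha c hc
    have h1 : y (a ξ) = A (a ξ) := by
      have h2 := hyS 1 (one_mem _) (a ξ)
      rw [hpid _ (self32 C ξ a ha)] at h2
      simpa using h2
    rw [h1, hAT _ (self32 C ξ c hc) _ (self32 C ξ a ha)]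

end Pool.Agent.Helper93.SP
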