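/-
Block SQ-CJ (about 150 lines).  Near commutants, conjugated representations.
* near_commutant: for T in N', x in grpAlg π (it lies in bi π: span induction) and y in N with
  ‖x - y‖ ≤ δ ‖x‖: T x - x T = T (x - y) - (x - y) T, norm ≤ 2 δ ‖T‖ ‖x‖; then Dk27 gives S commuting
  with π(G), ‖T - S‖ ≤ 27 · 2 δ ‖T‖.
* conjRep w π: comm (conjRep w π) = w (comm π) w*, bi (conjRep w π) = w (bi π) w*; Good is
  preserved; ‖w x w* - x‖ ≤ 2 ‖w - 1‖ ‖x‖.
-/
import Pool.Agent.Helper93.SP2.Defs2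
import Pool.Agent.Helper93.SP.Dk

set_option autoImplicit false

open scoped InnerProductSpace ComplexConjugate ENNReal NNReal
open Filter Topology

namespace Pool.Agent.Helper93.SP

variable {G : Type*} [Group G] {E : Type*} [NormedAddCommGroup E] [InnerProductSpace ℂ E]
  [CompleteSpace E]

private theorem star_mul56 (w : unitary (E →L[ℂ] E)) :
    star (w : E →L[ℂ] E) * (w : E →L[ℂ] E) = 1 := Unitary.star_mul_self_of_mem w.2

private theorem mul_star56 (w : unitary (E →L[ℂ] E)) :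
    (w : E →L[ℂ] E) * star (w : E →L[ℂ] E) = 1 := Unitary.mul_star_self_of_mem w.2

private theorem norm_le_one56 (w : unitary (E →L[ℂ] E)) : ‖(w : E →L[ℂ] E)‖ ≤ 1 := by
  have h1 : ‖star (w : E →L[ℂ] E) * (w : E →L[ℂ] E)‖ = ‖(w : E →L[ℂ] E)‖ * ‖(w : E →L[ℂ] E)‖ :=
    CStarRing.norm_star_mul_self
  rw [star_mul56] at h1
  have h2 : ‖(1 : E →L[ℂ] E)‖ ≤ 1 := ContinuousLinearMap.norm_id_le
  nlinarith [norm_nonneg (w : E →L[ℂ] E)]

private theorem norm_star_le_one56 (w : unitary (E →L[ℂ] E)) : ‖star (w : E →L[ℂ] E)‖ ≤ 1 := by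
  rw [norm_star]
  exact norm_le_one56 w

private theorem norm_conj56 (a b x : E →L[ℂ] E) (ha : ‖a‖ ≤ 1) (hb : ‖b‖ ≤ 1) :
    ‖a * x * b‖ ≤ ‖x‖ := by
  calc ‖a * x * b‖ ≤ ‖a * x‖ * ‖b‖ := norm_mul_le _ _
    _ ≤ ‖a‖ * ‖x‖ * ‖b‖ := mul_le_mul_of_nonneg_right (norm_mul_le _ _) (norm_nonneg _)
    _ ≤ 1 * ‖x‖ * 1 := by gcongr
    _ = ‖x‖ := by ring

private theorem norm_comm56 (a x : E →L[ℂ] E) (η : ℝ) (ha : ‖a - 1‖ ≤ η) :
    ‖a * x - x * a‖ ≤ 2 * η * ‖x‖ := by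
  have h1 : a * x - x * a = (a - 1) * x - x * (a - 1) := by noncomm_ring
  rw [h1]
  calc ‖(a - 1) * x - x * (a - 1)‖ ≤ ‖(a - 1) * x‖ + ‖x * (a - 1)‖ := norm_sub_le _ _
    _ ≤ ‖a - 1‖ * ‖x‖ + ‖x‖ * ‖a - 1‖ := add_le_add (norm_mul_le _ _) (norm_mul_le _ _)
    _ ≤ η * ‖x‖ + ‖x‖ * η := by gcongr
    _ = 2 * η * ‖x‖ := by ring

private theorem grpAlg_le_bi56 (π : G →* unitary (E →L[ℂ] E)) (x : E →L[ℂ] E)
    (hx : x ∈ grpAlg π) : x ∈ bi π := by
  have h1 : grpAlg π ≤ (bi π).toStarSubalgebra := by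
    refine StarAlgebra.adjoin_le ?_
    rintro _ ⟨g, rfl⟩
    exact rep_mem_bi π g
  exact h1 hx

theorem near_commutant (K L : Subgroup G) (hc : Cls K L) (π : G →* unitary (E →L[ℂ] E))
    (hπ : Good K π) (N : VonNeumannAlgebra E) (δ : ℝ) (hδ : 0 ≤ δ) (hN : Near (bi π) N δ)
    (T : E →L[ℂ] E) (hT : T ∈ N.commutant) : ∃ S ∈ comm π, ‖T - S‖ ≤ 54 * δ * ‖T‖ := by
  have := hc.normK
  have := hc.normL
  obtain ⟨S, hS1, hS2⟩ := Dk27 K L hc.le hc.letters hc.amen π hπ.mixing T (2 * δ * ‖T‖)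
    (by positivity) (by
      intro x hx
      obtain ⟨y, hy, hxy⟩ := hN.1 x (grpAlg_le_bi56 π x hx)
      have hTy : y * T = T * y := (VonNeumannAlgebra.mem_commutant_iff.1 hT) y hy
      have h1 : T * x - x * T = T * (x - y) - (x - y) * T := by
        rw [mul_sub, sub_mul, hTy]
        abel
      rw [h1]
      calc ‖T * (x - y) - (x - y) * T‖ ≤ ‖T * (x - y)‖ + ‖(x - y) * T‖ := norm_sub_le _ _
        _ ≤ ‖T‖ * ‖x - y‖ + ‖x - y‖ * ‖T‖ := add_le_add (norm_mul_le _ _) (norm_mul_le _ _)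
        _ ≤ ‖T‖ * (δ * ‖x‖) + (δ * ‖x‖) * ‖T‖ := by gcongr
        _ = 2 * δ * ‖T‖ * ‖x‖ := by ring)
  refine ⟨S, (mem_comm π S).2 hS1, ?_⟩
  linarith

private theorem comm_conj56 (w : unitary (E →L[ℂ] E)) (π : G →* unitary (E →L[ℂ] E))
    (T : E →L[ℂ] E) :
    T ∈ comm (conjRep w π) ↔ star (w : E →L[ℂ] E) * T * (w : E →L[ℂ] E) ∈ comm π := by
  have e1 := star_mul56 w
  have e2 := mul_star56 w
  rw [mem_comm, mem_comm]
  constructor
  · intro h g
    have h1 := h g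
    rw [conjRep_apply] at h1
    calc star (w : E →L[ℂ] E) * T * (w : E →L[ℂ] E) * (π g : E →L[ℂ] E)
        = star (w : E →L[ℂ] E) * (T * ((w : E →L[ℂ] E) * (π g : E →L[ℂ] E) *
            star (w : E →L[ℂ] E))) * (w : E →L[ℂ] E) := by
          simp only [mul_assoc, e1, mul_one]
      _ = star (w : E →L[ℂ] E) * ((w : E →L[ℂ] E) * (π g : E →L[ℂ] E) *
            star (w : E →L[ℂ] E) * T) * (w : E →L[ℂ] E) := by rw [h1]
      _ = (star (w : E →L[ℂ] E) * (w : E →L[ℂ] E)) * (π g : E →L[ℂ] E) *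
            star (w : E →L[ℂ] E) * T * (w : E →L[ℂ] E) := by simp only [mul_assoc]
      _ = (π g : E →L[ℂ] E) * (star (w : E →L[ℂ] E) * T * (w : E →L[ℂ] E)) := by
          rw [e1]; simp only [mul_assoc, one_mul]
  · intro h g
    have h1 := h g
    rw [conjRep_apply]
    calc T * ((w : E →L[ℂ] E) * (π g : E →L[ℂ] E) * star (w : E →L[ℂ] E))
        = ((w : E →L[ℂ] E) * star (w : E →L[ℂ] E)) * T * (w : E →L[ℂ] E) * (π g : E →L[ℂ] E) *
            star (w : E →L[ℂ] E) := by rw [e2]; simp only [mul_assoc, one_mul]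
      _ = (w : E →L[ℂ] E) * (star (w : E →L[ℂ] E) * T * (w : E →L[ℂ] E) * (π g : E →L[ℂ] E)) *
            star (w : E →L[ℂ] E) := by simp only [mul_assoc]
      _ = (w : E →L[ℂ] E) * ((π g : E →L[ℂ] E) * (star (w : E →L[ℂ] E) * T *
            (w : E →L[ℂ] E))) * star (w : E →L[ℂ] E) := by rw [h1]
      _ = (w : E →L[ℂ] E) * (π g : E →L[ℂ] E) * star (w : E →L[ℂ] E) * T := by
          simp only [mul_assoc, e2, mul_one]

private theorem bi_conj56 (w : unitary (E →L[ℂ] E)) (π : G →* unitary (E →L[ℂ] E))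
    (T : E →L[ℂ] E) :
    T ∈ bi (conjRep w π) ↔ star (w : E →L[ℂ] E) * T * (w : E →L[ℂ] E) ∈ bi π := by
  have e1 := star_mul56 w
  have e2 := mul_star56 w
  rw [mem_bi, mem_bi]
  constructor
  · intro h S hS
    have h0 : (w : E →L[ℂ] E) * S * star (w : E →L[ℂ] E) ∈ comm (conjRep w π) := by
      rw [comm_conj56, mem_comm]
      have h2 : star (w : E →L[ℂ] E) * ((w : E →L[ℂ] E) * S * star (w : E →L[ℂ] E)) *
          (w : E →L[ℂ] E) = S := by
        calc star (w : E →L[ℂ] E) * ((w : E →L[ℂ] E) * S * star (w : E →L[ℂ] E)) *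
            (w : E →L[ℂ] E) = (star (w : E →L[ℂ] E) * (w : E →L[ℂ] E)) * S *
              (star (w : E →L[ℂ] E) * (w : E →L[ℂ] E)) := by simp only [mul_assoc]
          _ = S := by rw [e1, one_mul, mul_one]
      rw [h2]
      exact hS
    have h1 := h _ ((mem_comm _ _).1 h0)
    calc S * (star (w : E →L[ℂ] E) * T * (w : E →L[ℂ] E))
        = star (w : E →L[ℂ] E) * ((w : E →L[ℂ] E) * S * star (w : E →L[ℂ] E) * T) *
            (w : E →L[ℂ] E) := by
          calc S * (star (w : E →L[ℂ] E) * T * (w : E →L[ℂ] E))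
              = (star (w : E →L[ℂ] E) * (w : E →L[ℂ] E)) * S * (star (w : E →L[ℂ] E) * T *
                (w : E →L[ℂ] E)) := by rw [e1, one_mul]
            _ = _ := by simp only [mul_assoc]
      _ = star (w : E →L[ℂ] E) * (T * ((w : E →L[ℂ] E) * S * star (w : E →L[ℂ] E))) *
            (w : E →L[ℂ] E) := by rw [h1]
      _ = star (w : E →L[ℂ] E) * T * (w : E →L[ℂ] E) * S * (star (w : E →L[ℂ] E) *
            (w : E →L[ℂ] E)) := by simp only [mul_assoc]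
      _ = star (w : E →L[ℂ] E) * T * (w : E →L[ℂ] E) * S := by rw [e1, mul_one]
  · intro h S hS
    have h0 := (comm_conj56 w π S).1 ((mem_comm _ _).2 hS)
    have h1 := h _ ((mem_comm _ _).1 h0)
    have h2 : star (w : E →L[ℂ] E) * (S * T) * (w : E →L[ℂ] E) =
        star (w : E →L[ℂ] E) * (T * S) * (w : E →L[ℂ] E) := by
      calc star (w : E →L[ℂ] E) * (S * T) * (w : E →L[ℂ] E)
          = star (w : E →L[ℂ] E) * S * ((w : E →L[ℂ] E) * star (w : E →L[ℂ] E)) * T *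
              (w : E →L[ℂ] E) := by rw [e2, mul_one]; simp only [mul_assoc]
        _ = star (w : E →L[ℂ] E) * S * (w : E →L[ℂ] E) * (star (w : E →L[ℂ] E) * T *
              (w : E →L[ℂ] E)) := by simp only [mul_assoc]
        _ = star (w : E →L[ℂ] E) * T * (w : E →L[ℂ] E) * (star (w : E →L[ℂ] E) * S *
              (w : E →L[ℂ] E)) := h1
        _ = star (w : E →L[ℂ] E) * T * ((w : E →L[ℂ] E) * star (w : E →L[ℂ] E)) * S *
              (w : E →L[ℂ] E) := by simp only [mul_assoc]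
        _ = star (w : E →L[ℂ] E) * (T * S) * (w : E →L[ℂ] E) := by
              rw [e2, mul_one]; simp only [mul_assoc]
    have h3 : ∀ A : E →L[ℂ] E, (w : E →L[ℂ] E) * (star (w : E →L[ℂ] E) * A * (w : E →L[ℂ] E)) *
        star (w : E →L[ℂ] E) = A := by
      intro A
      calc (w : E →L[ℂ] E) * (star (w : E →L[ℂ] E) * A * (w : E →L[ℂ] E)) *
          star (w : E →L[ℂ] E) = ((w : E →L[ℂ] E) * star (w : E →L[ℂ] E)) * A *
            ((w : E →L[ℂ] E) * star (w : E →L[ℂ] E)) := by simp only [mul_assoc]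
        _ = A := by rw [e2, one_mul, mul_one]
    rw [← h3 (S * T), h2, h3]

theorem good_conjRep (K : Subgroup G) (w : unitary (E →L[ℂ] E)) (π : G →* unitary (E →L[ℂ] E))
    (hπ : Good K π) : Good K (conjRep w π) := by
  have e1 := star_mul56 w
  have e2 := mul_star56 w
  refine ⟨?_, ?_⟩
  · intro ζ θ ε hε
    have h1 := hπ.mixing (star (w : E →L[ℂ] E) ζ) (star (w : E →L[ℂ] E) θ) ε hε
    refine h1.subset ?_
    intro g hg
    change ε ≤ ‖⟪θ, (conjRep w π g : E →L[ℂ] E) ζ⟫_ℂ‖ at hg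
    change ε ≤ ‖⟪star (w : E →L[ℂ] E) θ, (π g : E →L[ℂ] E) (star (w : E →L[ℂ] E) ζ)⟫_ℂ‖
    rw [conjRep_apply] at hg
    rw [ContinuousLinearMap.star_eq_adjoint, ContinuousLinearMap.adjoint_inner_left]
    exact hg
  · intro x hx hk
    have h1 := (bi_conj56 w π x).1 hx
    obtain ⟨c, hc⟩ := hπ.irr _ h1 (by
      intro k hkK
      have h2 := hk k hkK
      rw [conjRep_apply] at h2
      calc star (w : E →L[ℂ] E) * x * (w : E →L[ℂ] E) * (π k : E →L[ℂ] E)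
          = star (w : E →L[ℂ] E) * (x * ((w : E →L[ℂ] E) * (π k : E →L[ℂ] E) *
              star (w : E →L[ℂ] E))) * (w : E →L[ℂ] E) := by
            simp only [mul_assoc, e1, mul_one]
        _ = star (w : E →L[ℂ] E) * ((w : E →L[ℂ] E) * (π k : E →L[ℂ] E) *
              star (w : E →L[ℂ] E) * x) * (w : E →L[ℂ] E) := by rw [h2]
        _ = (star (w : E →L[ℂ] E) * (w : E →L[ℂ] E)) * (π k : E →L[ℂ] E) *
              star (w : E →L[ℂ] E) * x * (w : E →L[ℂ] E) := by simp only [mul_assoc]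
        _ = (π k : E →L[ℂ] E) * (star (w : E →L[ℂ] E) * x * (w : E →L[ℂ] E)) := by
            rw [e1]; simp only [mul_assoc, one_mul])
    refine ⟨c, ?_⟩
    calc x = ((w : E →L[ℂ] E) * star (w : E →L[ℂ] E)) * x *
          ((w : E →L[ℂ] E) * star (w : E →L[ℂ] E)) := by rw [e2, one_mul, mul_one]
      _ = (w : E →L[ℂ] E) * (star (w : E →L[ℂ] E) * x * (w : E →L[ℂ] E)) *
          star (w : E →L[ℂ] E) := by simp only [mul_assoc]
      _ = (w : E →L[ℂ] E) * (c • (1 : E →L[ℂ] E)) * star (w : E →L[ℂ] E) := by rw [hc]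
      _ = c • (1 : E →L[ℂ] E) := by
          rw [mul_smul_comm, mul_one, smul_mul_assoc, e2]

theorem mem_comm_conjRep (w : unitary (E →L[ℂ] E)) (π : G →* unitary (E →L[ℂ] E))
    (T : E →L[ℂ] E) :
    T ∈ comm (conjRep w π) ↔ star (w : E →L[ℂ] E) * T * (w : E →L[ℂ] E) ∈ comm π :=
  comm_conj56 w π T

theorem mem_bi_conjRep (w : unitary (E →L[ℂ] E)) (π : G →* unitary (E →L[ℂ] E))
    (T : E →L[ℂ] E) :
    T ∈ bi (conjRep w π) ↔ star (w : E →L[ℂ] E) * T * (w : E →L[ℂ] E) ∈ bi π :=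
  bi_conj56 w π T

theorem near_conjRep (w : unitary (E →L[ℂ] E)) (π : G →* unitary (E →L[ℂ] E))
    (N : VonNeumannAlgebra E) (δ η : ℝ) (hδ : 0 ≤ δ) (hη : ‖(w : E →L[ℂ] E) - 1‖ ≤ η)
    (hN : Near (bi π) N δ) : Near (bi (conjRep w π)) N (δ + 2 * η) := by
  have e1 := star_mul56 w
  have e2 := mul_star56 w
  have n1 := norm_le_one56 w
  have n2 := norm_star_le_one56 w
  have hη0 : 0 ≤ η := (norm_nonneg _).trans hη
  constructor
  · intro x hx
    obtain ⟨y, hy, hxy⟩ := hN.1 _ ((bi_conj56 w π x).1 hx)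
    refine ⟨y, hy, ?_⟩
    have h1 : ‖star (w : E →L[ℂ] E) * x * (w : E →L[ℂ] E)‖ ≤ ‖x‖ := norm_conj56 _ _ _ n2 n1
    have h2 : x - star (w : E →L[ℂ] E) * x * (w : E →L[ℂ] E) =
        star (w : E →L[ℂ] E) * ((w : E →L[ℂ] E) * x - x * (w : E →L[ℂ] E)) * 1 := by
      rw [mul_one, mul_sub, ← mul_assoc, e1, one_mul, mul_assoc]
    have h3 : ‖x - star (w : E →L[ℂ] E) * x * (w : E →L[ℂ] E)‖ ≤ 2 * η * ‖x‖ := by
      rw [h2]
      exact (norm_conj56 _ _ _ n2 ContinuousLinearMap.norm_id_le).trans (norm_comm56 _ _ η hη)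
    calc ‖x - y‖ = ‖(x - star (w : E →L[ℂ] E) * x * (w : E →L[ℂ] E)) +
          (star (w : E →L[ℂ] E) * x * (w : E →L[ℂ] E) - y)‖ := by
            congr 1
            abel
      _ ≤ ‖x - star (w : E →L[ℂ] E) * x * (w : E →L[ℂ] E)‖ +
          ‖star (w : E →L[ℂ] E) * x * (w : E →L[ℂ] E) - y‖ := norm_add_le _ _
      _ ≤ 2 * η * ‖x‖ + δ * ‖x‖ :=
          add_le_add h3 (hxy.trans (mul_le_mul_of_nonneg_left h1 hδ))
      _ = (δ + 2 * η) * ‖x‖ := by ring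
  · intro y hy
    obtain ⟨x, hx, hxy⟩ := hN.2 y hy
    refine ⟨(w : E →L[ℂ] E) * x * star (w : E →L[ℂ] E), ?_, ?_⟩
    · rw [bi_conj56]
      have h2 : star (w : E →L[ℂ] E) * ((w : E →L[ℂ] E) * x * star (w : E →L[ℂ] E)) *
          (w : E →L[ℂ] E) = x := by
        calc star (w : E →L[ℂ] E) * ((w : E →L[ℂ] E) * x * star (w : E →L[ℂ] E)) *
            (w : E →L[ℂ] E) = (star (w : E →L[ℂ] E) * (w : E →L[ℂ] E)) * x *
              (star (w : E →L[ℂ] E) * (w : E →L[ℂ] E)) := by simp only [mul_assoc]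
          _ = x := by rw [e1, one_mul, mul_one]
      rw [h2]
      exact hx
    · have h1 : (w : E →L[ℂ] E) * x * star (w : E →L[ℂ] E) - y =
          (w : E →L[ℂ] E) * (x - y) * star (w : E →L[ℂ] E) +
          1 * ((w : E →L[ℂ] E) * y - y * (w : E →L[ℂ] E)) * star (w : E →L[ℂ] E) := by
        rw [one_mul, sub_mul, mul_sub, sub_mul, mul_assoc y, e2, mul_one]
        abel
      rw [h1]
      calc ‖(w : E →L[ℂ] E) * (x - y) * star (w : E →L[ℂ] E) +
          1 * ((w : E →L[ℂ] E) * y - y * (w : E →L[ℂ] E)) * star (w : E →L[ℂ] E)‖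
          ≤ ‖(w : E →L[ℂ] E) * (x - y) * star (w : E →L[ℂ] E)‖ +
            ‖1 * ((w : E →L[ℂ] E) * y - y * (w : E →L[ℂ] E)) * star (w : E →L[ℂ] E)‖ :=
              norm_add_le _ _
        _ ≤ ‖x - y‖ + ‖(w : E →L[ℂ] E) * y - y * (w : E →L[ℂ] E)‖ :=
            add_le_add (norm_conj56 _ _ _ n1 n2)
              (norm_conj56 _ _ _ ContinuousLinearMap.norm_id_le n2)
        _ ≤ δ * ‖y‖ + 2 * η * ‖y‖ := add_le_add hxy (norm_comm56 _ _ η hη)
        _ = (δ + 2 * η) * ‖y‖ := by ring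

end Pool.Agent.Helper93.SP
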