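/-
Project SP, part 2 (helper93, MP_41729c_an): definitions used in the final statement.
-/
import Pool.Agent.Helper93.SP.Stmt

set_option autoImplicit false

open scoped InnerProductSpace ComplexConjugate ENNReal NNReal
open Filter Topology

namespace Pool.Agent.Helper93.SP

variable {H : Type*} [NormedAddCommGroup H] [InnerProductSpace ℂ H] [CompleteSpace H]

/-- The Kadison-Kastler distance of two von Neumann algebras on H: the Hausdorff distance of their
closed unit balls. -/
noncomputable def kkDist (M N : VonNeumannAlgebra H) : ℝ :=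
  Metric.hausdorffDist {x : H →L[ℂ] H | x ∈ M ∧ ‖x‖ ≤ 1} {x : H →L[ℂ] H | x ∈ N ∧ ‖x‖ ≤ 1}

/-- The direct sum of k copies of L^2(M) (M acting from the left) embeds isometrically and
M-linearly in the direct sum of n copies of H: the vectors η_1, ..., η_k of H^n are the images of the
k standard tracial vectors. -/
def EmbL2 (M : VonNeumannAlgebra H) (τ : (H →L[ℂ] H) → ℂ) (k n : ℕ) : Prop :=
  ∃ η : Fin k → Fin n → H, ∀ i j, ∀ x ∈ M, ∑ l, ⟪η i l, x (η j l)⟫_ℂ = if i = j then τ x else 0

/-- The Murray-von Neumann dimension (coupling constant) of H as a left M-module, M a II_1 factor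
with trace τ: the supremum of the numbers k/n such that the direct sum of k copies of L^2(M) embeds
in the direct sum of n copies of H. -/
noncomputable def cDim (M : VonNeumannAlgebra H) (τ : (H →L[ℂ] H) → ℂ) : ℝ≥0∞ :=
  ⨆ (k : ℕ) (n : ℕ) (_ : 0 < n) (_ : EmbL2 M τ k n), (k : ℝ≥0∞) / (n : ℝ≥0∞)

end Pool.Agent.Helper93.SP
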