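/-
Block SQ-CD (about 150 lines).  The supremum defining cDim.

* emb_mono: restrict the family to the first k' vectors, add zero coordinates.
* emb_mul: EmbL2 M τ k n gives EmbL2 M τ (j * k) (j * n): identify Fin (j * k) with Fin j × Fin k
  (finProdFinEquiv) and Fin (j * n) with Fin j × Fin n; η'_(a,i) (b,l) = η i l if a = b, else 0.
* cDim_le_of: if EmbL2 M τM k n implies EmbL2 N τN (k - 1) n for all k, n then
  cDim M τM ≤ cDim N τN: for k, n with EmbL2 M τM k n, n > 0, k > 0 and every j ≥ 1: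
  (j k - 1) / (j n) ≤ cDim N τN, and (j k - 1)/(j n) = k/n - 1/(j n) → k/n.
* spatial: V unitary, N = V M V*, τN(V x V*) = τM(x): EmbL2 M τM k n iff EmbL2 N τN k n (η ↦ V η).
-/
import Pool.Agent.Helper93.SP2.Stmt2

set_option autoImplicit false

open scoped InnerProductSpace ComplexConjugate ENNReal NNReal
open Filter Topology

namespace Pool.Agent.Helper93.SP

variable {H : Type*} [NormedAddCommGroup H] [InnerProductSpace ℂ H] [CompleteSpace H]

theorem emb_mono (M : VonNeumannAlgebra H) (τ : (H →L[ℂ] H) → ℂ) (k n k' n' : ℕ) (hk : k' ≤ k)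
    (hn : n ≤ n') (h : EmbL2 M τ k n) : EmbL2 M τ k' n' := by
  obtain ⟨η, hη⟩ := h
  obtain ⟨d, rfl⟩ := Nat.exists_eq_add_of_le hn
  refine ⟨fun i => Fin.append (η (Fin.castLE hk i)) (fun _ : Fin d => (0 : H)), fun i j x hx => ?_⟩
  rw [Fin.sum_univ_add]
  simp only [Fin.append_left, Fin.append_right, map_zero, inner_zero_right, Finset.sum_const_zero,
    add_zero]
  rw [hη _ _ x hx]
  simp only [(Fin.castLE_injective hk).eq_iff]

theorem emb_mul (M : VonNeumannAlgebra H) (τ : (H →L[ℂ] H) → ℂ) (k n j : ℕ)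
    (h : EmbL2 M τ k n) : EmbL2 M τ (j * k) (j * n) := by
  obtain ⟨η, hη⟩ := h
  set e1 : Fin j × Fin k ≃ Fin (j * k) := finProdFinEquiv with he1
  set e2 : Fin j × Fin n ≃ Fin (j * n) := finProdFinEquiv with he2
  refine ⟨fun p q => if (e1.symm p).1 = (e2.symm q).1 then η (e1.symm p).2 (e2.symm q).2 else 0,
    fun p p' x hx => ?_⟩
  rw [← e2.sum_comp]
  simp only [Equiv.symm_apply_apply]
  rw [Fintype.sum_prod_type]
  have hp : p = p' ↔ (e1.symm p).1 = (e1.symm p').1 ∧ (e1.symm p).2 = (e1.symm p').2 := by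
    rw [← Prod.ext_iff, e1.symm.injective.eq_iff]
  by_cases ha : (e1.symm p).1 = (e1.symm p').1
  · rw [Finset.sum_eq_single (e1.symm p).1]
    · have h1 : ∀ l : Fin n,
          ⟪(if (e1.symm p).1 = (e1.symm p).1 then η (e1.symm p).2 l else 0),
            x (if (e1.symm p').1 = (e1.symm p).1 then η (e1.symm p').2 l else 0)⟫_ℂ =
          ⟪η (e1.symm p).2 l, x (η (e1.symm p').2 l)⟫_ℂ := fun l => by
        rw [if_pos rfl, if_pos ha.symm]
      rw [Finset.sum_congr rfl fun l _ => h1 l, hη _ _ x hx]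
      by_cases hb : (e1.symm p).2 = (e1.symm p').2
      · rw [if_pos hb, if_pos (hp.mpr ⟨ha, hb⟩)]
      · rw [if_neg hb, if_neg fun h => hb (hp.mp h).2]
    · intro b _ hb
      refine Finset.sum_eq_zero fun l _ => ?_
      rw [if_neg fun h => hb h.symm, inner_zero_left]
    · intro h
      exact absurd (Finset.mem_univ _) h
  · rw [if_neg fun h => ha (hp.mp h).1]
    refine Finset.sum_eq_zero fun b _ => Finset.sum_eq_zero fun l _ => ?_
    by_cases hb : (e1.symm p).1 = b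
    · rw [if_neg (show ¬ (e1.symm p').1 = b from fun h => ha (hb.trans h.symm)), map_zero,
        inner_zero_right]
    · rw [if_neg hb, inner_zero_left]

theorem cDim_le_of (M N : VonNeumannAlgebra H) (τM τN : (H →L[ℂ] H) → ℂ)
    (h : ∀ k n, EmbL2 M τM k n → EmbL2 N τN (k - 1) n) : cDim M τM ≤ cDim N τN := by
  refine iSup_le fun k => iSup_le fun n => iSup_le fun hn => iSup_le fun hk => ?_
  by_contra hlt
  rw [not_le] at hlt
  have hctop : cDim N τN ≠ ⊤ := ne_top_of_lt hlt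
  set c : ℝ := (cDim N τN).toReal with hc
  have hcc : cDim N τN = ENNReal.ofReal c := (ENNReal.ofReal_toReal hctop).symm
  have hc0 : 0 ≤ c := ENNReal.toReal_nonneg
  have hn' : (0 : ℝ) < n := by exact_mod_cast hn
  have h1 : c < (k : ℝ) / n := by
    rw [hcc] at hlt
    have h2 : (k : ℝ≥0∞) / (n : ℝ≥0∞) = ENNReal.ofReal ((k : ℝ) / n) := by
      rw [ENNReal.ofReal_div_of_pos hn', ENNReal.ofReal_natCast, ENNReal.ofReal_natCast]
    rw [h2] at hlt
    exact (ENNReal.ofReal_lt_ofReal_iff_of_nonneg hc0).mp hlt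
  rw [lt_div_iff₀ hn'] at h1
  obtain ⟨j, hj⟩ := exists_nat_gt (1 / ((k : ℝ) - c * n))
  have hd : 0 < (k : ℝ) - c * n := by linarith
  have hj0 : (0 : ℝ) < j := lt_trans (by positivity) hj
  rw [div_lt_iff₀ hd] at hj
  have hjn : 0 < j * n := Nat.mul_pos (by exact_mod_cast hj0) hn
  have h3 : ((j * k - 1 : ℕ) : ℝ≥0∞) / ((j * n : ℕ) : ℝ≥0∞) ≤ cDim N τN := by
    refine le_iSup_of_le (j * k - 1) (le_iSup_of_le (j * n) (le_iSup_of_le hjn (le_iSup_of_le ?_ le_rfl)))
    exact h _ _ (emb_mul M τM k n j hk)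
  have hjn' : (0 : ℝ) < ((j * n : ℕ) : ℝ) := by exact_mod_cast hjn
  have h4 : ((j * k - 1 : ℕ) : ℝ≥0∞) / ((j * n : ℕ) : ℝ≥0∞) =
      ENNReal.ofReal (((j * k - 1 : ℕ) : ℝ) / ((j * n : ℕ) : ℝ)) := by
    rw [ENNReal.ofReal_div_of_pos hjn', ENNReal.ofReal_natCast, ENNReal.ofReal_natCast]
  rw [h4, hcc, ENNReal.ofReal_le_ofReal_iff hc0, div_le_iff₀ hjn'] at h3
  have h5 : ((j * k : ℕ) : ℝ) ≤ ((j * k - 1 : ℕ) : ℝ) + 1 := by
    have : j * k ≤ j * k - 1 + 1 := by omega
    exact_mod_cast this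
  push_cast at h3 h5
  nlinarith

theorem emb_spatial99 (M N : VonNeumannAlgebra H) (V : H →L[ℂ] H)
    (hV : V ∈ unitary (H →L[ℂ] H)) (hMN : ∀ x, x ∈ M ↔ V * x * star V ∈ N)
    (τM τN : (H →L[ℂ] H) → ℂ) (hτ : ∀ x ∈ M, τN (V * x * star V) = τM x) (k n : ℕ) :
    EmbL2 M τM k n ↔ EmbL2 N τN k n := by
  have h1 : star V * V = 1 := (Unitary.mem_iff.mp hV).1
  have h2 : V * star V = 1 := (Unitary.mem_iff.mp hV).2
  constructor
  · rintro ⟨η, hη⟩
    refine ⟨fun i l => V (η i l), fun i j y hy => ?_⟩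
    have hy' : V * (star V * y * V) * star V = y := by
      have : V * (star V * y * V) * star V = (V * star V) * y * (V * star V) := by
        simp only [mul_assoc]
      rw [this, h2, one_mul, mul_one]
    have hx : star V * y * V ∈ M := by
      rw [hMN, hy']
      exact hy
    have h3 := hη i j _ hx
    rw [← hτ _ hx, hy'] at h3
    rw [← h3]
    refine Finset.sum_congr rfl fun l _ => ?_
    have e : (star V * y * V) (η j l) = (ContinuousLinearMap.adjoint V) (y (V (η j l))) := rfl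
    rw [e, ContinuousLinearMap.adjoint_inner_right]
  · rintro ⟨η, hη⟩
    refine ⟨fun i l => star V (η i l), fun i j x hx => ?_⟩
    have h3 := hη i j _ ((hMN x).mp hx)
    rw [hτ x hx] at h3
    rw [← h3]
    refine Finset.sum_congr rfl fun l _ => ?_
    have e1 : star V (η i l) = (ContinuousLinearMap.adjoint V) (η i l) := rfl
    have e : (V * x * star V) (η j l) = V (x (star V (η j l))) := rfl
    rw [e]
    change ⟪star V (η i l), x (star V (η j l))⟫_ℂ = _
    rw [e1, ContinuousLinearMap.adjoint_inner_left]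

theorem cDim_spatial (M N : VonNeumannAlgebra H) (V : H →L[ℂ] H)
    (hV : V ∈ unitary (H →L[ℂ] H)) (hMN : ∀ x, x ∈ M ↔ V * x * star V ∈ N)
    (τM τN : (H →L[ℂ] H) → ℂ) (hτ : ∀ x ∈ M, τN (V * x * star V) = τM x) :
    cDim M τM = cDim N τN := by
  simp only [cDim, emb_spatial99 M N V hV hMN τM τN hτ]

end Pool.Agent.Helper93.SP
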