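/-
Block SQ-UNI (about 200 lines).  Unitary parts, near projections, partial isometries.

* uni_part: T with ‖T - U‖ ≤ ε ≤ 1/10, U unitary.  T* T is within 2ε + ε^2 of 1, so positive
  invertible, T invertible; V = T |T|⁻¹, |T| = (T* T)^(1/2) (cfc: V = T (cfc (t ↦ t^(-1/2)) (T* T))).
  V is unitary; ‖V - T‖ = ‖1 - |T|‖ ≤ 2ε + ε^2 (|1 - sqrt t| ≤ |1 - t|), ‖V - U‖ ≤ 4ε.
  V is in every von Neumann algebra containing T (closed star algebra, cfc_mem_elemental).  If
  T a = b T with a, b unitary then T* b = a T*, T* T commutes with a, so V a = b V.  If x commutes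
  with T and T* then with V.
* near_proj: P projection, S in A with ‖P - S‖ ≤ ε ≤ 1/10: h = (S + S*)/2 in A is within ε of P, its
  spectrum is within ε of {0, 1}, Q = χ(h) (cfc of a continuous function equal to 0 near 0 and 1
  near 1) is a projection in A, ‖Q - h‖ ≤ ε, so ‖Q - P‖ ≤ 2ε.
  (To see the spectrum statement: ‖h^2 - h‖ ≤ ε(2 + ε) + ε ≤ 4ε, then t^2 - t small implies t near 0
  or 1; any bound ‖Q - P‖ ≤ 4ε is enough.)
* proj_conj: P, Q projections, ‖P - Q‖ ≤ ε ≤ 1/10.  T = P Q + (1-P)(1-Q) satisfies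
  T - 1 = (2P-1)(Q-P), T (2Q-1) = (2P-1) T (2P-1, 2Q-1 unitaries), so uni_part with U = 1 gives w
  with ‖w - 1‖ ≤ 4ε and w Q = P w.
* iso_of_near: Q, Q' projections in A, ‖(1-Q') Q‖ ≤ ε ≤ 1/2.  T = Q' Q, T* T = Q Q' Q ≥ (1-ε^2) Q.
  V = T f(T* T), f(t) = t^(-1/2) for t ≥ 1/2 (f continuous, f(0) = 0): V* V = Q, Q' V = V,
  ‖V - T‖ = ‖Q - |T|‖ ≤ ε^2, ‖T - Q‖ = ‖(1-Q')Q‖ ≤ ε, so ‖V - Q‖ ≤ 2ε.
* iso_of_bdd_below: A1 in A with Q' A1 Q = A1 and ‖A1 ζ‖ ≥ c ‖ζ‖ for ζ = Q ζ (c > 0): V = A1 f(A1* A1)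
  with f(t) = t^(-1/2) for t ≥ c^2, f(0) = 0: V* V = Q, Q' V = V.
-/
import Pool.Agent.Helper93.SP2.Defs2

set_option autoImplicit false

open scoped InnerProductSpace ComplexConjugate ENNReal NNReal
open Filter Topology

namespace Pool.Agent.Helper93.SP

variable {E : Type*} [NormedAddCommGroup E] [InnerProductSpace ℂ E] [CompleteSpace E]

/-- inverse square root of a selfadjoint operator with positive spectrum -/
private theorem sqrt15 (c : E →L[ℂ] E) (hc : IsSelfAdjoint c) (hpos : ∀ t ∈ spectrum ℝ c, 0 < t) :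
    ∃ b s : E →L[ℂ] E, IsSelfAdjoint b ∧ IsSelfAdjoint s ∧ b * s = 1 ∧ s * b = 1 ∧ s * s = c ∧
      s = cfc (fun t : ℝ => √t) c ∧ (∀ x : E →L[ℂ] E, x * c = c * x → x * b = b * x) := by
  have hcont : ContinuousOn (fun t : ℝ => (√t)⁻¹) (spectrum ℝ c) :=
    Real.continuous_sqrt.continuousOn.inv₀ (fun t ht => (Real.sqrt_pos.2 (hpos t ht)).ne')
  have hcont2 : ContinuousOn (fun t : ℝ => √t) (spectrum ℝ c) := Real.continuous_sqrt.continuousOn
  have h1 : cfc (fun t : ℝ => (√t)⁻¹) c * cfc (fun t : ℝ => √t) c = 1 := by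
    rw [← cfc_mul _ _ c hcont hcont2]
    rw [← cfc_one (R := ℝ) (a := c) (ha := hc)]
    refine cfc_congr fun t ht => ?_
    simp only [Pi.one_apply]
    exact inv_mul_cancel₀ (Real.sqrt_pos.2 (hpos t ht)).ne'
  have h2 : cfc (fun t : ℝ => √t) c * cfc (fun t : ℝ => (√t)⁻¹) c = 1 := by
    rw [(cfc_commute_cfc _ _ c).eq, h1]
  have h3 : cfc (fun t : ℝ => √t) c * cfc (fun t : ℝ => √t) c = c := by
    rw [← cfc_mul _ _ c hcont2 hcont2]
    conv_rhs => rw [← cfc_id' ℝ c hc]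
    refine cfc_congr fun t ht => ?_
    exact Real.mul_self_sqrt (hpos t ht).le
  refine ⟨cfc (fun t : ℝ => (√t)⁻¹) c, cfc (fun t : ℝ => √t) c, cfc_predicate _ _,
    cfc_predicate _ _, h1, h2, h3, rfl, ?_⟩
  intro x hx
  exact ((Commute.cfc_real (show Commute c x from hx.symm) _).eq).symm

/-- near the identity -/
private theorem near_one15 (c : E →L[ℂ] E) (hc : IsSelfAdjoint c) (δ : ℝ) (hδ : δ < 1)
    (h : ‖c - 1‖ ≤ δ) :
    ∃ b s : E →L[ℂ] E, IsSelfAdjoint b ∧ IsSelfAdjoint s ∧ b * s = 1 ∧ s * b = 1 ∧ s * s = c ∧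
      ‖1 - s‖ ≤ δ ∧ (∀ x : E →L[ℂ] E, x * c = c * x → x * b = b * x) := by
  have hδ0 : 0 ≤ δ := (norm_nonneg _).trans h
  have hsub : cfc (fun t : ℝ => t - 1) c = c - 1 := by
    rw [cfc_sub (fun t : ℝ => t) (fun _ => (1 : ℝ)) c, cfc_id' ℝ c hc]
    congr 1
    exact cfc_const_one ℝ c hc
  have hsp : ∀ t ∈ spectrum ℝ c, |t - 1| ≤ δ := by
    intro t ht
    have := norm_apply_le_norm_cfc (fun t : ℝ => t - 1) c ht (by fun_prop) hc
    rw [hsub] at this
    exact this.trans h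
  have hpos : ∀ t ∈ spectrum ℝ c, 0 < t := by
    intro t ht
    have := abs_le.1 (hsp t ht)
    linarith
  obtain ⟨b, s, hb, hs, h1, h2, h3, h4, h5⟩ := sqrt15 c hc hpos
  refine ⟨b, s, hb, hs, h1, h2, h3, ?_, h5⟩
  have h6 : cfc (fun t : ℝ => 1 - √t) c = 1 - s := by
    rw [cfc_sub (fun _ : ℝ => (1 : ℝ)) (fun t => √t) c, ← h4]
    congr 1
    exact cfc_const_one ℝ c hc
  rw [← h6]
  refine norm_cfc_le hδ0 fun t ht => ?_
  have ht1 := hsp t ht
  have ht0 := hpos t ht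
  have h7 : 0 ≤ √t := Real.sqrt_nonneg t
  have h8 : √t * √t = t := Real.mul_self_sqrt ht0.le
  have h9 : |t - 1| = |1 - √t| * (1 + √t) := by
    rw [← abs_of_nonneg (show 0 ≤ 1 + √t by linarith), ← abs_mul, ← abs_neg]
    congr 1
    linear_combination h8
  rw [Real.norm_eq_abs]
  have h10 := abs_nonneg (1 - √t)
  nlinarith

/-- membership in a von Neumann algebra -/
private theorem mem_vn15 (A : VonNeumannAlgebra E) (c b : E →L[ℂ] E) (hc : c ∈ A)
    (h : ∀ x : E →L[ℂ] E, x * c = c * x → x * b = b * x) : b ∈ A := by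
  rw [← VonNeumannAlgebra.commutant_commutant A, VonNeumannAlgebra.mem_commutant_iff]
  intro g hg
  rw [VonNeumannAlgebra.mem_commutant_iff] at hg
  exact h g (hg c hc).symm

private theorem star_mem15 (A : VonNeumannAlgebra E) {x : E →L[ℂ] E} (hx : x ∈ A) : star x ∈ A :=
  star_mem hx

private theorem norm_le_one15 (x : E →L[ℂ] E) (h : star x * x = 1) : ‖x‖ ≤ 1 := by
  have h1 := CStarRing.norm_star_mul_self (x := x)
  rw [h] at h1
  have h2 : ‖(1 : E →L[ℂ] E)‖ ≤ 1 := ContinuousLinearMap.norm_id_le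
  nlinarith [norm_nonneg x]

private theorem proj_norm15 {P : E →L[ℂ] E} (hP : IsProj P) : ‖P‖ ≤ 1 := by
  have h1 := CStarRing.norm_star_mul_self (x := P)
  rw [hP.1, hP.2] at h1
  by_contra h
  push Not at h
  nlinarith [norm_nonneg P]

theorem uni_part (T U : E →L[ℂ] E) (hU : U ∈ unitary (E →L[ℂ] E)) (ε : ℝ) (hε : ε ≤ 1 / 10)
    (h : ‖T - U‖ ≤ ε) :
    ∃ V : unitary (E →L[ℂ] E), ‖(V : E →L[ℂ] E) - U‖ ≤ 4 * ε ∧
      (∀ A : VonNeumannAlgebra E, T ∈ A → (V : E →L[ℂ] E) ∈ A) ∧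
      (∀ a ∈ unitary (E →L[ℂ] E), ∀ b ∈ unitary (E →L[ℂ] E), T * a = b * T →
        (V : E →L[ℂ] E) * a = b * (V : E →L[ℂ] E)) ∧
      (∀ x : E →L[ℂ] E, x * T = T * x → x * star T = star T * x →
        x * (V : E →L[ℂ] E) = (V : E →L[ℂ] E) * x) := by
  have hε0 : 0 ≤ ε := (norm_nonneg _).trans h
  have hU1 : star U * U = 1 := (Unitary.mem_iff.1 hU).1
  have hU2 : U * star U = 1 := (Unitary.mem_iff.1 hU).2
  have hUn : ‖U‖ ≤ 1 := norm_le_one15 U hU1
  have hTn : ‖T‖ ≤ 1 + ε := by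
    calc ‖T‖ = ‖(T - U) + U‖ := by rw [sub_add_cancel]
      _ ≤ ‖T - U‖ + ‖U‖ := norm_add_le _ _
      _ ≤ _ := by linarith
  have hTs : ‖star (T - U)‖ ≤ ε := by rw [norm_star]; exact h
  have hδ : ‖star T * T - 1‖ ≤ 2 * ε + ε ^ 2 := by
    have e : star T * T - 1 = star T * (T - U) + star (T - U) * U := by
      rw [star_sub, sub_mul, mul_sub, hU1]
      abel
    rw [e]
    calc _ ≤ ‖star T * (T - U)‖ + ‖star (T - U) * U‖ := norm_add_le _ _
      _ ≤ ‖star T‖ * ‖T - U‖ + ‖star (T - U)‖ * ‖U‖ := add_le_add (norm_mul_le _ _) (norm_mul_le _ _)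
      _ ≤ (1 + ε) * ε + ε * 1 := by
        rw [norm_star T]
        exact add_le_add (mul_le_mul hTn h (norm_nonneg _) (by linarith))
          (mul_le_mul hTs hUn (norm_nonneg _) hε0)
      _ = _ := by ring
  have hsa : IsSelfAdjoint (star T * T) := IsSelfAdjoint.star_mul_self T
  obtain ⟨b, s, hb, hs, hbs, hsb, hss, hn, hcomm⟩ :=
    near_one15 (star T * T) hsa (2 * ε + ε ^ 2) (by nlinarith) hδ
  have hbb : b * (star T * T) * b = 1 := by
    rw [← hss, ← mul_assoc, hbs, one_mul, hsb]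
  have hV1 : star (T * b) * (T * b) = 1 := by
    rw [star_mul, hb.star_eq]
    calc b * star T * (T * b) = b * (star T * T) * b := by simp only [mul_assoc]
      _ = 1 := hbb
  -- T is invertible
  obtain ⟨T', hT'⟩ : ∃ T' : E →L[ℂ] E, T * T' = 1 := by
    have h1 : ‖1 - T * star U‖ < 1 := by
      have e : 1 - T * star U = -((T - U) * star U) := by
        rw [sub_mul, hU2]
        abel
      rw [e, norm_neg]
      calc _ ≤ ‖T - U‖ * ‖star U‖ := norm_mul_le _ _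
        _ ≤ ε * 1 := mul_le_mul h (by rw [norm_star]; exact hUn) (norm_nonneg _) hε0
        _ < 1 := by linarith
    have h2 : IsUnit (T * star U) := by
      have := isUnit_one_sub_of_norm_lt_one h1
      rwa [sub_sub_cancel] at this
    obtain ⟨w, hw⟩ := h2
    refine ⟨star U * (↑w⁻¹ : E →L[ℂ] E), ?_⟩
    rw [← mul_assoc, ← hw, Units.mul_inv]
  have hTV : T * b * s = T := by rw [mul_assoc, hbs, mul_one]
  have hV2 : (T * b) * star (T * b) = 1 := by
    have h1 : (T * b) * (s * T') = 1 := by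
      rw [← mul_assoc, hTV, hT']
    have h2 : star (T * b) = s * T' := by
      calc star (T * b) = star (T * b) * ((T * b) * (s * T')) := by rw [h1, mul_one]
        _ = (star (T * b) * (T * b)) * (s * T') := by simp only [mul_assoc]
        _ = _ := by rw [hV1, one_mul]
    rw [h2, h1]
  have hVn : ‖T * b‖ ≤ 1 := norm_le_one15 _ hV1
  refine ⟨⟨T * b, Unitary.mem_iff.2 ⟨hV1, hV2⟩⟩, ?_, ?_, ?_, ?_⟩
  · show ‖T * b - U‖ ≤ 4 * ε
    have e : T * b - U = (T * b) * (1 - s) + (T - U) := by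
      rw [mul_sub, mul_one, hTV]
      abel
    rw [e]
    calc _ ≤ ‖(T * b) * (1 - s)‖ + ‖T - U‖ := norm_add_le _ _
      _ ≤ ‖T * b‖ * ‖1 - s‖ + ‖T - U‖ := add_le_add (norm_mul_le _ _) le_rfl
      _ ≤ 1 * (2 * ε + ε ^ 2) + ε :=
        add_le_add (mul_le_mul hVn hn (norm_nonneg _) zero_le_one) h
      _ ≤ _ := by nlinarith
  · intro A hT
    show T * b ∈ A
    exact mul_mem hT (mem_vn15 A _ b (mul_mem (star_mem15 A hT) hT) hcomm)
  · intro a ha d hd hTa
    show T * b * a = d * (T * b)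
    have ha2 : a * star a = 1 := (Unitary.mem_iff.1 ha).2
    have hd1 : star d * d = 1 := (Unitary.mem_iff.1 hd).1
    have ha1 : star a * a = 1 := (Unitary.mem_iff.1 ha).1
    have h1 : star T * d = a * star T := by
      have h2 : star a * star T = star T * star d := by
        rw [← star_mul, hTa, star_mul]
      calc star T * d = (a * star a) * star T * d := by rw [ha2, one_mul]
        _ = a * (star a * star T) * d := by simp only [mul_assoc]
        _ = a * star T * (star d * d) := by rw [h2]; simp only [mul_assoc]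
        _ = _ := by rw [hd1, mul_one]
    have h3 : a * (star T * T) = (star T * T) * a := by
      calc a * (star T * T) = (a * star T) * T := by rw [mul_assoc]
        _ = star T * (d * T) := by rw [← h1, mul_assoc]
        _ = _ := by rw [← hTa, mul_assoc]
    have h4 := hcomm a h3
    calc T * b * a = T * (a * b) := by rw [mul_assoc, h4]
      _ = (T * a) * b := by rw [mul_assoc]
      _ = _ := by rw [hTa, mul_assoc]
  · intro x hx hx'
    show x * (T * b) = T * b * x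
    have h3 : x * (star T * T) = (star T * T) * x := by
      rw [← mul_assoc, hx', mul_assoc, hx, mul_assoc]
    have h4 := hcomm x h3
    calc x * (T * b) = (x * T) * b := by rw [mul_assoc]
      _ = T * (x * b) := by rw [hx, mul_assoc]
      _ = _ := by rw [h4, mul_assoc]

theorem near_proj (A : VonNeumannAlgebra E) (P S : E →L[ℂ] E) (hP : IsProj P) (hS : S ∈ A)
    (ε : ℝ) (hε : ε ≤ 1 / 20) (h : ‖P - S‖ ≤ ε) :
    ∃ Q ∈ A, IsProj Q ∧ ‖P - Q‖ ≤ 4 * ε := by
  have hε0 : 0 ≤ ε := (norm_nonneg _).trans h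
  obtain ⟨a, ha⟩ : ∃ a : E →L[ℂ] E, a = (2 : ℂ)⁻¹ • (S + star S) := ⟨_, rfl⟩
  have haA : a ∈ A := by
    rw [ha]
    exact A.toStarSubalgebra.smul_mem (add_mem hS (star_mem15 A hS)) _
  have hasa : IsSelfAdjoint a := by
    rw [ha, IsSelfAdjoint, star_smul, star_add, star_star, add_comm (star S)]
    simp
  have haP : ‖a - P‖ ≤ ε := by
    have e : a - P = (2 : ℂ)⁻¹ • (-(P - S) - star (P - S)) := by
      rw [ha, star_sub, hP.1]
      module
    rw [e, norm_smul]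
    have h2 : ‖-(P - S) - star (P - S)‖ ≤ ε + ε := by
      calc _ ≤ ‖-(P - S)‖ + ‖star (P - S)‖ := norm_sub_le _ _
        _ ≤ _ := by rw [norm_neg, norm_star]; exact add_le_add h h
    have h3 : ‖(2 : ℂ)⁻¹‖ = 1 / 2 := by simp
    rw [h3]
    linarith
  -- the square
  have hsq : ‖a * a - a‖ ≤ ε + ε ^ 2 := by
    obtain ⟨d, hd⟩ : ∃ d : E →L[ℂ] E, d = a - P := ⟨_, rfl⟩
    have hdn : ‖d‖ ≤ ε := by rw [hd]; exact haP
    have hR : ‖(2 : ℂ) • P - 1‖ ≤ 1 := by
      apply norm_le_one15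
      rw [star_sub, star_smul, hP.1, star_one]
      simp only [RCLike.star_def, Complex.conj_ofNat]
      have : ((2 : ℂ) • P - 1) * ((2 : ℂ) • P - 1) = (4 : ℂ) • (P * P) - (4 : ℂ) • P + 1 := by
        rw [sub_mul, mul_sub, smul_mul_assoc, mul_smul_comm, one_mul, mul_one]
        module
      rw [this, hP.2]
      module
    have e : a * a - a = (2 : ℂ)⁻¹ • (((2 : ℂ) • P - 1) * d + d * ((2 : ℂ) • P - 1)) + d * d := by
      have ea : a = P + d := by rw [hd]; abel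
      rw [ea, add_mul, mul_add, mul_add, hP.2, sub_mul, mul_sub, smul_mul_assoc, mul_smul_comm,
        one_mul, mul_one]
      module
    rw [e]
    have h1 : ‖((2 : ℂ) • P - 1) * d + d * ((2 : ℂ) • P - 1)‖ ≤ ε + ε := by
      calc _ ≤ ‖((2 : ℂ) • P - 1) * d‖ + ‖d * ((2 : ℂ) • P - 1)‖ := norm_add_le _ _
        _ ≤ ‖(2 : ℂ) • P - 1‖ * ‖d‖ + ‖d‖ * ‖(2 : ℂ) • P - 1‖ :=
          add_le_add (norm_mul_le _ _) (norm_mul_le _ _)
        _ ≤ 1 * ε + ε * 1 := add_le_add (mul_le_mul hR hdn (norm_nonneg _) zero_le_one)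
          (mul_le_mul hdn hR (norm_nonneg _) hε0)
        _ = _ := by ring
    have h3 : ‖(2 : ℂ)⁻¹‖ = 1 / 2 := by simp
    calc _ ≤ ‖(2 : ℂ)⁻¹ • (((2 : ℂ) • P - 1) * d + d * ((2 : ℂ) • P - 1))‖ + ‖d * d‖ :=
          norm_add_le _ _
      _ ≤ 1 / 2 * (ε + ε) + ε * ε := by
        rw [norm_smul, h3]
        exact add_le_add (mul_le_mul_of_nonneg_left h1 (by norm_num))
          ((norm_mul_le _ _).trans (mul_le_mul hdn hdn (norm_nonneg _) hε0))
      _ = _ := by ring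
  have hcfc : cfc (fun t : ℝ => t * t - t) a = a * a - a := by
    rw [cfc_sub (fun t : ℝ => t * t) (fun t => t) a, cfc_mul (fun t : ℝ => t) (fun t => t) a,
      cfc_id' ℝ a hasa]
  have hsp : ∀ t ∈ spectrum ℝ a, |t * t - t| ≤ ε + ε ^ 2 := by
    intro t ht
    have := norm_apply_le_norm_cfc (fun t : ℝ => t * t - t) a ht (by fun_prop) hasa
    rw [hcfc] at this
    exact this.trans hsq
  have hcontχ : Continuous fun t : ℝ => max 0 (min 1 (3 * t - 1)) := by fun_prop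
  have hχ : ∀ t ∈ spectrum ℝ a, (max 0 (min 1 (3 * t - 1)) = 0 ∧ |t| ≤ 3 * ε) ∨
      (max 0 (min 1 (3 * t - 1)) = 1 ∧ |1 - t| ≤ 3 * ε) := by
    intro t ht
    have h1 := hsp t ht
    have h2 : |t| * |1 - t| ≤ ε + ε ^ 2 := by
      rw [← abs_mul]
      have : t * (1 - t) = -(t * t - t) := by ring
      rw [this, abs_neg]
      exact h1
    have h3 : ε + ε ^ 2 ≤ 21 / 20 * ε := by nlinarith
    rcases le_total t (1 / 2) with h4 | h4
    · left
      have h5 : 1 / 2 ≤ |1 - t| := by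
        rw [le_abs]
        left
        linarith
      have h6 : |t| ≤ 21 / 10 * ε := by
        have := abs_nonneg t
        nlinarith
      have h7 := (abs_le.1 h6).2
      refine ⟨?_, by linarith⟩
      rw [max_eq_left]
      exact (min_le_right _ _).trans (by linarith)
    · right
      have h5 : 1 / 2 ≤ |t| := by
        rw [le_abs]
        left
        linarith
      have h6 : |1 - t| ≤ 21 / 10 * ε := by
        have := abs_nonneg (1 - t)
        nlinarith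
      have h7 := (abs_le.1 h6).2
      refine ⟨?_, by linarith⟩
      rw [min_eq_left (by linarith), max_eq_right zero_le_one]
  refine ⟨cfc (fun t : ℝ => max 0 (min 1 (3 * t - 1))) a, ?_, ⟨?_, ?_⟩, ?_⟩
  · refine mem_vn15 A a _ haA fun x hx => ?_
    exact ((Commute.cfc_real (show Commute a x from hx.symm) _).eq).symm
  · exact (cfc_predicate (R := ℝ) (fun t : ℝ => max 0 (min 1 (3 * t - 1))) a :
      IsSelfAdjoint _).star_eq
  · rw [← cfc_mul _ _ a hcontχ.continuousOn hcontχ.continuousOn]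
    refine cfc_congr fun t ht => ?_
    rcases hχ t ht with h1 | h1
    · simp only [h1.1]
      norm_num
    · simp only [h1.1]
      norm_num
  · have h1 : ‖a - cfc (fun t : ℝ => max 0 (min 1 (3 * t - 1))) a‖ ≤ 3 * ε := by
      have e : a - cfc (fun t : ℝ => max 0 (min 1 (3 * t - 1))) a =
          cfc (fun t : ℝ => t - max 0 (min 1 (3 * t - 1))) a := by
        rw [cfc_sub (fun t : ℝ => t) _ a (by fun_prop) hcontχ.continuousOn, cfc_id' ℝ a hasa]
      rw [e]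
      refine norm_cfc_le (by linarith) fun t ht => ?_
      rw [Real.norm_eq_abs]
      rcases hχ t ht with h1 | h1
      · rw [h1.1, sub_zero]
        exact h1.2
      · rw [h1.1, abs_sub_comm]
        exact h1.2
    calc ‖P - cfc (fun t : ℝ => max 0 (min 1 (3 * t - 1))) a‖ =
        ‖-(a - P) + (a - cfc (fun t : ℝ => max 0 (min 1 (3 * t - 1))) a)‖ := by
          congr 1
          abel
      _ ≤ ‖-(a - P)‖ + ‖a - cfc (fun t : ℝ => max 0 (min 1 (3 * t - 1))) a‖ := norm_add_le _ _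
      _ ≤ ε + 3 * ε := by
        rw [norm_neg]
        exact add_le_add haP h1
      _ = _ := by ring

theorem proj_conj (P Q : E →L[ℂ] E) (hP : IsProj P) (hQ : IsProj Q) (ε : ℝ) (hε : ε ≤ 1 / 10)
    (h : ‖P - Q‖ ≤ ε) :
    ∃ w : unitary (E →L[ℂ] E), ‖(w : E →L[ℂ] E) - 1‖ ≤ 4 * ε ∧
      (w : E →L[ℂ] E) * Q = P * (w : E →L[ℂ] E) := by
  have hε0 : 0 ≤ ε := (norm_nonneg _).trans h
  have hrefl : ∀ R : E →L[ℂ] E, IsProj R → star ((2 : ℂ) • R - 1) = (2 : ℂ) • R - 1 ∧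
      ((2 : ℂ) • R - 1) * ((2 : ℂ) • R - 1) = 1 := by
    intro R hR
    constructor
    · rw [star_sub, star_smul, hR.1, star_one]
      simp only [RCLike.star_def, Complex.conj_ofNat]
    · have : ((2 : ℂ) • R - 1) * ((2 : ℂ) • R - 1) = (4 : ℂ) • (R * R) - (4 : ℂ) • R + 1 := by
        rw [sub_mul, mul_sub, smul_mul_assoc, mul_smul_comm, one_mul, mul_one]
        module
      rw [this, hR.2]
      module
  have hunit : ∀ R : E →L[ℂ] E, IsProj R → (2 : ℂ) • R - 1 ∈ unitary (E →L[ℂ] E) := by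
    intro R hR
    obtain ⟨h1, h2⟩ := hrefl R hR
    rw [Unitary.mem_iff, h1]
    exact ⟨h2, h2⟩
  obtain ⟨T, hT⟩ : ∃ T : E →L[ℂ] E, T = P * Q + (1 - P) * (1 - Q) := ⟨_, rfl⟩
  have hT1 : T = (2 : ℂ) • (P * Q) - P - Q + 1 := by
    rw [hT]
    simp only [mul_sub, sub_mul, one_mul, mul_one]
    module
  have hTn : ‖T - 1‖ ≤ ε := by
    have e : T - 1 = ((2 : ℂ) • P - 1) * (Q - P) := by
      rw [hT1, sub_mul, mul_sub, one_mul, smul_mul_assoc, smul_mul_assoc, hP.2]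
      module
    rw [e]
    have hR : ‖(2 : ℂ) • P - 1‖ ≤ 1 := norm_le_one15 _ (by rw [(hrefl P hP).1, (hrefl P hP).2])
    calc _ ≤ ‖(2 : ℂ) • P - 1‖ * ‖Q - P‖ := norm_mul_le _ _
      _ ≤ 1 * ε := mul_le_mul hR (by rw [norm_sub_rev]; exact h) (norm_nonneg _) zero_le_one
      _ = ε := one_mul _
  obtain ⟨w, hw1, _, hw3, _⟩ := uni_part T 1 (one_mem _) ε hε hTn
  refine ⟨w, hw1, ?_⟩
  have h1 := hw3 _ (hunit Q hQ) _ (hunit P hP) (by
    rw [hT1]
    simp only [mul_sub, sub_mul, mul_add, add_mul, mul_smul_comm, smul_mul_assoc, mul_one, one_mul]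
    simp only [mul_assoc, hQ.2]
    simp only [← mul_assoc, hP.2]
    module)
  rw [mul_sub, sub_mul, mul_smul_comm, smul_mul_assoc, mul_one, one_mul] at h1
  have h2 : (2 : ℂ) • ((w : E →L[ℂ] E) * Q) = (2 : ℂ) • (P * (w : E →L[ℂ] E)) := sub_left_injective h1
  exact smul_right_injective _ (two_ne_zero) h2

/-- common part of the last two theorems -/
private theorem iso_part15 (A : VonNeumannAlgebra E) (Q Q' T c b : E →L[ℂ] E) (hQ : IsProj Q)
    (hTA : T ∈ A) (hcA : c ∈ A) (hb : IsSelfAdjoint b) (hbc : b * c * b = 1)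
    (hcomm : ∀ x : E →L[ℂ] E, x * c = c * x → x * b = b * x) (hcQ : c * Q = star T * T)
    (hQc : Q * c = star T * T) (hQT : Q' * T = T) :
    T * b ∈ A ∧ star (T * b) * (T * b) = Q ∧ Q' * (T * b) = T * b ∧ ‖T * b‖ ≤ 1 := by
  have h1 := hcomm Q (by rw [hQc, hcQ])
  have h2 : star (T * b) * (T * b) = Q := by
    rw [star_mul, hb.star_eq]
    calc b * star T * (T * b) = b * (star T * T) * b := by simp only [mul_assoc]
      _ = b * c * (Q * b) := by rw [← hcQ]; simp only [mul_assoc]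
      _ = (b * c * b) * Q := by rw [h1]; simp only [mul_assoc]
      _ = Q := by rw [hbc, one_mul]
  refine ⟨mul_mem hTA (mem_vn15 A c b hcA hcomm), h2, by rw [← mul_assoc, hQT], ?_⟩
  have h3 := CStarRing.norm_star_mul_self (x := T * b)
  rw [h2] at h3
  have h4 := proj_norm15 hQ
  nlinarith [norm_nonneg (T * b)]

theorem iso_of_near (A : VonNeumannAlgebra E) (Q Q' : E →L[ℂ] E) (hQ : IsProj Q)
    (hQ' : IsProj Q') (hQA : Q ∈ A) (hQA' : Q' ∈ A) (ε : ℝ) (hε : ε ≤ 1 / 2)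
    (h : ‖(1 - Q') * Q‖ ≤ ε) :
    ∃ V ∈ A, star V * V = Q ∧ Q' * V = V ∧ ‖V - Q‖ ≤ 2 * ε := by
  have hε0 : 0 ≤ ε := (norm_nonneg _).trans h
  have hTT : star (Q' * Q) * (Q' * Q) = Q * Q' * Q := by
    rw [star_mul, hQ.1, hQ'.1]
    calc Q * Q' * (Q' * Q) = Q * (Q' * Q') * Q := by simp only [mul_assoc]
      _ = _ := by rw [hQ'.2]
  obtain ⟨c, hc⟩ : ∃ c : E →L[ℂ] E, c = Q * Q' * Q + (1 - Q) := ⟨_, rfl⟩
  have hcA : c ∈ A := by
    rw [hc]
    exact add_mem (mul_mem (mul_mem hQA hQA') hQA) (sub_mem (one_mem _) hQA)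
  have hcsa : IsSelfAdjoint c := by
    rw [hc, IsSelfAdjoint, star_add, star_mul, star_mul, star_sub, star_one, hQ.1, hQ'.1, mul_assoc]
  have hcQ : c * Q = star (Q' * Q) * (Q' * Q) := by
    rw [hTT, hc, add_mul, sub_mul, one_mul, hQ.2, sub_self, add_zero, mul_assoc, hQ.2]
  have hQc : Q * c = star (Q' * Q) * (Q' * Q) := by
    rw [hTT, hc, mul_add, mul_sub, mul_one, hQ.2, sub_self, add_zero, ← mul_assoc, ← mul_assoc, hQ.2]
  have hcn : ‖c - 1‖ ≤ ε ^ 2 := by
    have e : c - 1 = -(star ((1 - Q') * Q) * ((1 - Q') * Q)) := by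
      rw [star_mul, star_sub, star_one, hQ.1, hQ'.1, hc]
      have : Q * (1 - Q') * ((1 - Q') * Q) = Q - Q * Q' * Q := by
        calc Q * (1 - Q') * ((1 - Q') * Q) = Q * ((1 - Q') * (1 - Q')) * Q := by
              simp only [mul_assoc]
          _ = Q * (1 - Q') * Q := by
            congr 2
            rw [mul_sub, sub_mul, sub_mul, one_mul, hQ'.2, mul_one, one_mul]
            abel
          _ = _ := by rw [mul_sub, sub_mul, mul_one, hQ.2]
      rw [this]
      abel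
    rw [e, norm_neg, CStarRing.norm_star_mul_self, ← pow_two]
    exact pow_le_pow_left₀ (norm_nonneg _) h 2
  obtain ⟨b, s, hb, hs, hbs, hsb, hss, hn, hcomm⟩ := near_one15 c hcsa (ε ^ 2) (by nlinarith) hcn
  have hbc : b * c * b = 1 := by
    rw [← hss, ← mul_assoc, hbs, one_mul, hsb]
  obtain ⟨h1, h2, h3, h4⟩ := iso_part15 A Q Q' (Q' * Q) c b hQ (mul_mem hQA' hQA) hcA hb hbc hcomm
    hcQ hQc (by rw [← mul_assoc, hQ'.2])
  refine ⟨Q' * Q * b, h1, h2, h3, ?_⟩
  have hTV : Q' * Q * b * s = Q' * Q := by rw [mul_assoc, hbs, mul_one]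
  have e : Q' * Q * b - Q = (Q' * Q * b) * (1 - s) - (1 - Q') * Q := by
    rw [mul_sub, mul_one, hTV, sub_mul, one_mul]
    abel
  rw [e]
  calc _ ≤ ‖(Q' * Q * b) * (1 - s)‖ + ‖(1 - Q') * Q‖ := norm_sub_le _ _
    _ ≤ ‖Q' * Q * b‖ * ‖1 - s‖ + ε := add_le_add (norm_mul_le _ _) h
    _ ≤ 1 * ε ^ 2 + ε := add_le_add (mul_le_mul h4 hn (norm_nonneg _) zero_le_one) le_rfl
    _ ≤ _ := by nlinarith

theorem iso_of_bdd_below (A : VonNeumannAlgebra E) (Q Q' B : E →L[ℂ] E) (hQ : IsProj Q)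
    (hQ' : IsProj Q') (hQA : Q ∈ A) (hQA' : Q' ∈ A) (hB : B ∈ A) (hB' : Q' * B * Q = B) (c : ℝ)
    (hc : 0 < c) (h : ∀ ζ : E, Q ζ = ζ → c * ‖ζ‖ ≤ ‖B ζ‖) :
    ∃ V ∈ A, star V * V = Q ∧ Q' * V = V := by
  have hQB : Q' * B = B := by
    calc Q' * B = Q' * (Q' * B * Q) := by rw [hB']
      _ = Q' * Q' * B * Q := by simp only [mul_assoc]
      _ = _ := by rw [hQ'.2, hB']
  have hBQ : B * Q = B := by
    calc B * Q = Q' * B * Q * Q := by rw [hB']
      _ = Q' * B * (Q * Q) := by simp only [mul_assoc]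
      _ = _ := by rw [hQ.2, hB']
  have hQBs : Q * star B = star B := by
    have := congrArg star hBQ
    rwa [star_mul, hQ.1] at this
  obtain ⟨C, hC⟩ : ∃ C : E →L[ℂ] E, C = star B * B + ((c ^ 2 : ℝ) : ℂ) • (1 - Q) := ⟨_, rfl⟩
  have hCA : C ∈ A := by
    rw [hC]
    exact add_mem (mul_mem (star_mem15 A hB) hB)
      (A.toStarSubalgebra.smul_mem (sub_mem (one_mem _) hQA) _)
  have hCsa : IsSelfAdjoint C := by
    rw [hC, IsSelfAdjoint, star_add, star_mul, star_star, star_smul, star_sub, star_one, hQ.1]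
    simp
  have hCQ : C * Q = star B * B := by
    rw [hC, add_mul, mul_assoc, hBQ, smul_mul_assoc, sub_mul, one_mul, hQ.2, sub_self, smul_zero,
      add_zero]
  have hQC : Q * C = star B * B := by
    rw [hC, mul_add, ← mul_assoc, hQBs, mul_smul_comm, mul_sub, mul_one, hQ.2, sub_self, smul_zero,
      add_zero]
  have hle : algebraMap ℝ (E →L[ℂ] E) (c ^ 2) ≤ C := by
    rw [ContinuousLinearMap.le_def, ContinuousLinearMap.isPositive_def']
    refine ⟨hCsa.sub (IsSelfAdjoint.algebraMap _ (IsSelfAdjoint.all (c ^ 2 : ℝ))), fun x => ?_⟩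
    rw [ContinuousLinearMap.reApplyInnerSelf_apply]
    have e : (C - algebraMap ℝ (E →L[ℂ] E) (c ^ 2)) x =
        (star B) (B x) - ((c ^ 2 : ℝ) : ℂ) • Q x := by
      rw [hC, Algebra.algebraMap_eq_smul_one]
      simp only [sub_apply, add_apply, smul_apply, mul_apply_eq_comp,
        one_apply_eq_self, smul_sub, Complex.coe_smul]
      abel
    have h1 : ⟪(star B) (B x), x⟫_ℂ = ⟪B x, B x⟫_ℂ := by
      rw [ContinuousLinearMap.star_eq_adjoint, ContinuousLinearMap.adjoint_inner_left]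
    have hQQ : Q (Q x) = Q x := by
      have := congrArg (fun T : E →L[ℂ] E => T x) hQ.2
      exact this
    have h2 : ⟪Q x, x⟫_ℂ = ⟪Q x, Q x⟫_ℂ := by
      calc ⟪Q x, x⟫_ℂ = ⟪(star Q) (Q x), x⟫_ℂ := by rw [hQ.1, hQQ]
        _ = _ := by rw [ContinuousLinearMap.star_eq_adjoint, ContinuousLinearMap.adjoint_inner_left]
    have hBx : B (Q x) = B x := by
      have := congrArg (fun T : E →L[ℂ] E => T x) hBQ
      exact this
    have h3 := h (Q x) hQQ
    rw [hBx] at h3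
    rw [e, inner_sub_left, inner_smul_left, h1, h2, Complex.conj_ofReal, map_sub,
      inner_self_eq_norm_sq_to_K, inner_self_eq_norm_sq_to_K]
    have h4 : (c * ‖Q x‖) ^ 2 ≤ ‖B x‖ ^ 2 := pow_le_pow_left₀ (by positivity) h3 2
    have h5 : RCLike.re ((‖B x‖ : ℂ) ^ 2) = ‖B x‖ ^ 2 := by
      rw [← Complex.ofReal_pow]
      exact Complex.ofReal_re _
    have h6 : RCLike.re (((c ^ 2 : ℝ) : ℂ) * (‖Q x‖ : ℂ) ^ 2) = (c * ‖Q x‖) ^ 2 := by
      rw [← Complex.ofReal_pow, ← Complex.ofReal_mul, mul_pow]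
      exact Complex.ofReal_re _
    have h7 := h5
    simp only [Complex.coe_algebraMap] at *
    rw [h5, h6]
    linarith
  have hpos : ∀ t ∈ spectrum ℝ C, 0 < t := by
    intro t ht
    have := (algebraMap_le_iff_le_spectrum (r := c ^ 2) (a := C) hCsa).1 hle t ht
    have : 0 < c ^ 2 := by positivity
    linarith
  obtain ⟨b, s, hb, hs, hbs, hsb, hss, _, hcomm⟩ := sqrt15 C hCsa hpos
  have hbc : b * C * b = 1 := by
    rw [← hss, ← mul_assoc, hbs, one_mul, hsb]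
  obtain ⟨h1, h2, h3, h4⟩ := iso_part15 A Q Q' B C b hQ hB hCA hb hbc hcomm hCQ hQC hQB
  exact ⟨B * b, h1, h2, h3⟩

end Pool.Agent.Helper93.SP
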