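/-
Block SQ-PI (about 120 lines).  Every nonzero operator in a von Neumann algebra A dominates a nonzero
partial isometry.

* range_proj_mem: T in A, Q = projection onto the closure of the range of T.  Q is in A: for S in A'
  the range of T and its closure are invariant under S and S* (S T = T S), so Q commutes with S;
  A = (A')'.
* pi_of_ne_zero: B in A, B ≠ 0, h = B* B, ‖h‖ = ‖B‖^2 > 0, ε = ‖h‖ / 2, f(t) = max(t - ε, 0),
  f(h) = cfc f h ≠ 0 (h is selfadjoint and ≥ 0, ‖h‖ is in its spectrum; e.g. if f(h) = 0 then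
  spectrum of h is in [0, ε] and ‖h‖ ≤ ε).  f(h) is in A (A is norm closed, cfc_mem_elemental or
  commute with A').  Q = projection onto the closure of the range of f(h); Q in A, Q ≠ 0, and Q ≤ the
  projection p whenever B p = B (then h p = h, f(h) p = f(h) = p f(h), since f(0) = 0; write
  f(h) as a limit of polynomials without constant term or use cfcₙ or the fact that
  f(h) commutes with p and (1 - p) h = 0 gives ... ; alternatively use h² ≥ ... choose any proof).
  On the range of Q: ε ‖η‖^2 ≤ ‖B η‖^2 (for η = f(h) ζ: ⟪η, (h - ε) η⟫ = ⟪ζ, f(h)(h - ε) f(h) ζ⟫ ≥ 0 as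
  f(t)^2 (t - ε) ≥ 0; closure).  iso_of_bdd_below with B Q and q gives V in A with V* V = Q, q V = V.
-/
import Pool.Agent.Helper93.SP2.Uni

set_option autoImplicit false

open scoped InnerProductSpace ComplexConjugate ENNReal NNReal
open Filter Topology

namespace Pool.Agent.Helper93.SP

variable {E : Type*} [NormedAddCommGroup E] [InnerProductSpace ℂ E] [CompleteSpace E]

private theorem mem_vn86 (A : VonNeumannAlgebra E) (b : E →L[ℂ] E)
    (h : ∀ x : E →L[ℂ] E, (∀ c ∈ A, x * c = c * x) → x * b = b * x) : b ∈ A := by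
  rw [← VonNeumannAlgebra.commutant_commutant A, VonNeumannAlgebra.mem_commutant_iff]
  intro g hg
  rw [VonNeumannAlgebra.mem_commutant_iff] at hg
  exact h g fun c hc => (hg c hc).symm

/-- The projection onto a closed subspace invariant under `g` and its adjoint commutes with `g`. -/
private theorem proj_comm86 (W : Submodule ℂ E) [W.HasOrthogonalProjection] (g : E →L[ℂ] E)
    (h1 : ∀ v ∈ W, g v ∈ W) (h2 : ∀ v ∈ W, (star g) v ∈ W) :
    g * W.starProjection = W.starProjection * g := by
  ext v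
  show g (W.starProjection v) = W.starProjection (g v)
  symm
  refine Submodule.eq_starProjection_of_mem_orthogonal ?_ ?_
  · exact h1 _ (W.starProjection_apply_mem v)
  · rw [← map_sub, Submodule.mem_orthogonal]
    intro u hu
    rw [← ContinuousLinearMap.adjoint_inner_left, ← ContinuousLinearMap.star_eq_adjoint]
    exact (Submodule.mem_orthogonal _ _).1 (W.sub_starProjection_mem_orthogonal v) _ (h2 u hu)

/-- The range projection, with a description of its range. -/
private theorem range_proj86 (A : VonNeumannAlgebra E) (T : E →L[ℂ] E) (hT : T ∈ A) :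
    ∃ Q ∈ A, IsProj Q ∧ Q * T = T ∧ (∀ v, Q v ∈ closure (Set.range T)) := by
  let W : Submodule ℂ E := (LinearMap.range T.toLinearMap).topologicalClosure
  have hWc : IsClosed (W : Set E) := Submodule.isClosed_topologicalClosure _
  have : CompleteSpace W := hWc.completeSpace_coe
  have hWset : (W : Set E) = closure (Set.range T) := by
    rw [Submodule.topologicalClosure_coe]
    congr 1
  have hinv : ∀ g : E →L[ℂ] E, g * T = T * g → ∀ v ∈ W, g v ∈ W := by
    intro g hg v hv
    have hsub : LinearMap.range T.toLinearMap ≤ W.comap g.toLinearMap := by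
      rintro _ ⟨u, rfl⟩
      have h1 : g (T u) = T (g u) := congrArg (fun S : E →L[ℂ] E => S u) hg
      show g (T u) ∈ W
      rw [h1]
      exact Submodule.le_topologicalClosure _ ⟨g u, rfl⟩
    have hcl : IsClosed ((W.comap g.toLinearMap : Submodule ℂ E) : Set E) :=
      hWc.preimage g.continuous
    exact Submodule.topologicalClosure_minimal _ hsub hcl hv
  refine ⟨W.starProjection, ?_, ⟨?_, ?_⟩, ?_, ?_⟩
  · refine mem_vn86 A _ fun g hg => ?_
    refine proj_comm86 W g (hinv g (hg T hT)) (hinv (star g) ?_)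
    have h1 := congrArg star (hg (star T) (star_mem hT))
    rw [star_mul, star_mul, star_star] at h1
    exact h1.symm
  · exact isSelfAdjoint_starProjection W
  · exact Submodule.isIdempotentElem_starProjection W
  · ext v
    exact Submodule.starProjection_eq_self_iff.2 (Submodule.le_topologicalClosure _ ⟨v, rfl⟩)
  · intro v
    rw [← hWset]
    exact W.starProjection_apply_mem v

private theorem range_min86 (T Q R : E →L[ℂ] E) (hcl : ∀ v, Q v ∈ closure (Set.range T))
    (hR : R * T = T) : R * Q = Q := by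
  ext v
  show R (Q v) = Q v
  have h1 : closure (Set.range T) ⊆ {w : E | R w = w} := by
    refine closure_minimal ?_ (isClosed_eq R.continuous continuous_id)
    rintro _ ⟨u, rfl⟩
    exact congrArg (fun S : E →L[ℂ] E => S u) hR
  exact h1 (hcl v)

theorem range_proj_mem (A : VonNeumannAlgebra E) (T : E →L[ℂ] E) (hT : T ∈ A) :
    ∃ Q ∈ A, IsProj Q ∧ Q * T = T ∧
      ∀ R : E →L[ℂ] E, IsProj R → R * T = T → R * Q = Q := by
  obtain ⟨Q, hQA, hQ, hQT, hcl⟩ := range_proj86 A T hT
  exact ⟨Q, hQA, hQ, hQT, fun R _ hR => range_min86 T Q R hcl hR⟩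

theorem pi_of_ne_zero (A : VonNeumannAlgebra E) (p q B : E →L[ℂ] E) (hp : IsProj p)
    (hq : IsProj q) (hpA : p ∈ A) (hqA : q ∈ A) (hB : B ∈ A) (h0 : B ≠ 0) (h1 : B * p = B)
    (h2 : q * B = B) :
    ∃ V ∈ A, V ≠ 0 ∧ IsProj (star V * V) ∧ p * (star V * V) = star V * V ∧ q * V = V := by
  obtain ⟨a, ha⟩ : ∃ a : E →L[ℂ] E, a = star B * B := ⟨_, rfl⟩
  have haA : a ∈ A := by
    rw [ha]
    exact mul_mem (star_mem hB) hB
  have hsa : IsSelfAdjoint a := by
    rw [ha]
    exact IsSelfAdjoint.star_mul_self B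
  have hnn : 0 ≤ a := by
    rw [ha]
    exact star_mul_self_nonneg B
  have hnorm : ‖a‖ = ‖B‖ * ‖B‖ := by rw [ha, CStarRing.norm_star_mul_self]
  have hBpos : 0 < ‖B‖ := norm_pos_iff.2 h0
  obtain ⟨ε, hε⟩ : ∃ ε : ℝ, ε = ‖a‖ / 2 := ⟨_, rfl⟩
  have hapos : 0 < ‖a‖ := by rw [hnorm]; positivity
  have hεpos : 0 < ε := by rw [hε]; positivity
  obtain ⟨f, hf⟩ : ∃ f : ℝ → ℝ, f = fun t => max (t - ε) 0 := ⟨_, rfl⟩
  obtain ⟨g, hg⟩ : ∃ g : ℝ → ℝ, g = fun t => max (t - ε) 0 / max t ε := ⟨_, rfl⟩
  have hfc : Continuous f := by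
    rw [hf]
    fun_prop
  have hgc : Continuous g := by
    rw [hg]
    refine Continuous.div (by fun_prop) (by fun_prop) fun t => ?_
    exact (lt_of_lt_of_le hεpos (le_max_right _ _)).ne'
  have hfg : ∀ t, f t = t * g t := by
    intro t
    rw [hf, hg]
    simp only
    rcases le_total t ε with h | h
    · rw [max_eq_right (by linarith : t - ε ≤ 0)]
      simp
    · rw [max_eq_left h, max_eq_left (by linarith : 0 ≤ t - ε)]
      have : t ≠ 0 := by linarith
      field_simp
  obtain ⟨F, hF⟩ : ∃ F : E →L[ℂ] E, F = cfc f a := ⟨_, rfl⟩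
  have hFA : F ∈ A := by
    refine mem_vn86 A F fun x hx => ?_
    rw [hF]
    exact ((Commute.cfc_real (show Commute a x from (hx a haA).symm) _).eq).symm
  have hFsa : IsSelfAdjoint F := by
    rw [hF]
    exact cfc_predicate (R := ℝ) f a
  have hFne : F ≠ 0 := by
    intro hF0
    have hsp : ∀ t ∈ spectrum ℝ a, ‖t‖ ≤ ε := by
      intro t ht
      have h3 := norm_apply_le_norm_cfc f a ht hfc.continuousOn hsa
      rw [← hF, hF0, norm_zero] at h3
      have h4 : f t = 0 := norm_le_zero_iff.1 h3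
      have h5 : t - ε ≤ 0 := by
        have h6 : t - ε ≤ f t := by
          rw [hf]
          exact le_max_left _ _
        rw [h4] at h6
        exact h6
      have h6 : 0 ≤ t := spectrum_nonneg_of_nonneg hnn ht
      rw [Real.norm_eq_abs, abs_of_nonneg h6]
      linarith
    have h7 : ‖a‖ ≤ ε := by
      have h8 := norm_cfc_le (f := fun t : ℝ => t) (a := a) hεpos.le hsp
      rwa [cfc_id' ℝ a hsa] at h8
    rw [hε] at h7
    linarith
  have hFh : F = a * cfc g a := by
    rw [hF]
    calc cfc f a = cfc (fun t => t * g t) a := by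
          congr 1
          funext t
          exact hfg t
      _ = cfc (fun t : ℝ => t) a * cfc g a :=
          cfc_mul (fun t : ℝ => t) g a (by fun_prop) hgc.continuousOn
      _ = a * cfc g a := by rw [cfc_id' ℝ a hsa]
  have hpa : p * a = a := by
    have h3 := congrArg star h1
    rw [star_mul, hp.1] at h3
    rw [ha, ← mul_assoc, h3]
  have hpF : p * F = F := by rw [hFh, ← mul_assoc, hpa]
  obtain ⟨Q, hQA, hQ, hQF, hcl⟩ := range_proj86 A F hFA
  have hpQ : p * Q = Q := range_min86 F Q p hcl hpF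
  have hQne : Q ≠ 0 := by
    rintro rfl
    rw [zero_mul] at hQF
    exact hFne hQF.symm
  -- the lower bound on the range of Q
  have hk : 0 ≤ F * (a - algebraMap ℝ (E →L[ℂ] E) ε) * F := by
    have h3 : F * (a - algebraMap ℝ (E →L[ℂ] E) ε) * F = cfc (fun t => f t * (t - ε) * f t) a := by
      rw [cfc_mul (fun t => f t * (t - ε)) f a (by fun_prop) hfc.continuousOn,
        cfc_mul f (fun t => t - ε) a hfc.continuousOn (by fun_prop),
        cfc_sub (fun t : ℝ => t) (fun _ => ε) a, cfc_id' ℝ a hsa, cfc_const ε a hsa, ← hF]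
    rw [h3]
    refine cfc_nonneg fun t _ => ?_
    rw [hf]
    simp only
    rcases le_total t ε with h | h
    · rw [max_eq_right (by linarith : t - ε ≤ 0)]
      simp
    · rw [max_eq_left (by linarith : 0 ≤ t - ε)]
      have : 0 ≤ t - ε := by linarith
      positivity
  have hrange : ∀ ζ : E, ε * ‖F ζ‖ ^ 2 ≤ ‖B (F ζ)‖ ^ 2 := by
    intro ζ
    have h3 := (ContinuousLinearMap.nonneg_iff_isPositive _).1 hk
    have h4 := h3.re_inner_nonneg_left ζ
    have e : (F * (a - algebraMap ℝ (E →L[ℂ] E) ε) * F) ζ =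
        F (star B (B (F ζ))) - ((ε : ℝ) : ℂ) • F (F ζ) := by
      rw [ha, Algebra.algebraMap_eq_smul_one]
      show F ((star B * B - ε • (1 : E →L[ℂ] E)) (F ζ)) = _
      rw [← map_smul, ← map_sub]
      congr 1
    have hFadj : ∀ u v : E, ⟪F u, v⟫_ℂ = ⟪u, F v⟫_ℂ := by
      intro u v
      have h5 : F = star F := hFsa.star_eq.symm
      conv_lhs => rw [h5]
      rw [ContinuousLinearMap.star_eq_adjoint, ContinuousLinearMap.adjoint_inner_left]
    rw [e, inner_sub_left, inner_smul_left, hFadj, hFadj, ContinuousLinearMap.star_eq_adjoint,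
      ContinuousLinearMap.adjoint_inner_left, Complex.conj_ofReal, map_sub,
      inner_self_eq_norm_sq_to_K, inner_self_eq_norm_sq_to_K] at h4
    have h5 : RCLike.re ((‖B (F ζ)‖ : ℂ) ^ 2) = ‖B (F ζ)‖ ^ 2 := by
      rw [← Complex.ofReal_pow]
      exact Complex.ofReal_re _
    have h6 : RCLike.re ((ε : ℂ) * (‖F ζ‖ : ℂ) ^ 2) = ε * ‖F ζ‖ ^ 2 := by
      rw [← Complex.ofReal_pow, ← Complex.ofReal_mul]
      exact Complex.ofReal_re _
    simp only [Complex.coe_algebraMap] at h4
    rw [h5, h6] at h4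
    linarith
  have hlow : ∀ ζ : E, Q ζ = ζ → √ε * ‖ζ‖ ≤ ‖(B * Q) ζ‖ := by
    intro ζ hζ
    have h3 : closure (Set.range F) ⊆ {w : E | ε * ‖w‖ ^ 2 ≤ ‖B w‖ ^ 2} := by
      refine closure_minimal ?_ (isClosed_le (by fun_prop) (by fun_prop))
      rintro _ ⟨u, rfl⟩
      exact hrange u
    have h4 : ζ ∈ closure (Set.range F) := by
      rw [← hζ]
      exact hcl ζ
    have h5 : ε * ‖ζ‖ ^ 2 ≤ ‖B ζ‖ ^ 2 := h3 h4
    have h6 : (B * Q) ζ = B ζ := by
      show B (Q ζ) = B ζ
      rw [hζ]
    rw [h6]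
    refine (pow_le_pow_iff_left₀ (by positivity) (norm_nonneg _) two_ne_zero).1 ?_
    rw [mul_pow, Real.sq_sqrt hεpos.le]
    exact h5
  obtain ⟨V, hVA, hVV, hqV⟩ := iso_of_bdd_below A Q q (B * Q) hQ hq hQA hqA (mul_mem hB hQA)
    (by rw [← mul_assoc, h2, mul_assoc, hQ.2]) (√ε) (Real.sqrt_pos.2 hεpos) hlow
  refine ⟨V, hVA, ?_, ?_, ?_, hqV⟩
  · rintro rfl
    rw [mul_zero] at hVV
    exact hQne hVV.symm
  · rw [hVV]
    exact hQ
  · rw [hVV]
    exact hpQ

end Pool.Agent.Helper93.SP
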