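/-
Block SQ-CMP (about 250 lines).  Comparability of projections in a factor A.

For projections p, q in A there is V in A with (V* V = p and q V = V) or (V* V = q and p V = V).
Proof.  S = {V in A : V V* V = V, V p = V, q V = V} (partial isometries from below p to below q),
ordered by V ≤ W iff W V* V = V.  (A partial order: antisymmetric since W V*V = V, V W*W = W give
V*V W*W ... V*V ≤ W*W and W*W ≤ V*V; to avoid the order type use zorn_le on a suitable subtype, or
`zorn_subset` for the sets {V in A : ...}.)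
 Chains: c a nonempty chain in S.  For V ≤ W: V* V = V* V W* W (V*V ≤ W*W), W* V = W* W V* V = V* V, and
 ‖W ζ - V ζ‖^2 = ‖W ζ‖^2 - ‖V ζ‖^2, ‖V ζ‖^2 increases and is bounded by ‖ζ‖^2, so V ζ converges along c
 (Cauchy net); the limit U ζ is a bounded operator in A (A is closed under strong limits: it is a
 commutant), U V* V = V for V in c, U p = U, q U = U.  U* U is a projection: U* V = V* V (limit of
 W* V: ⟪ζ, U* V η⟫ = ⟪U ζ, V η⟫ = lim ⟪W ζ, V η⟫ = ⟪ζ, V* V η⟫), so U* U V* V = U* V = V* V, and
 ⟪ζ, U* U ζ⟫ = ‖U ζ‖^2 = lim ‖V ζ‖^2 = lim ⟪ζ, V* V ζ⟫, by polarisation U* U = weak lim V* V, so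
 (U* U)^2 = weak lim U* U V* V = weak lim V* V = U* U.  Hence U U* U = U (‖U(1 - U*U) ζ‖^2 = 0).
 So U is an upper bound.
 Maximal V: let p' = p - V* V, q' = q - V V* (projections in A).  If p' = 0: V* V = p, done.  If
 q' = 0: W = V* has W* W = V V* = q, p W = W, done.  If both are ≠ 0: there is a in A with
 q' a p' ≠ 0: otherwise the projection z onto the closure of the span of A p' E is invariant under
 A and A', so z is in A ∩ A' (A' ∩ A'' ), z ≠ 0, so z = 1 (hA), but q' z = 0: contradiction.
 pi_of_ne_zero for B = q' a p' gives a partial isometry W ≠ 0 in A, W* W ≤ p', q' W = W; V + W is in S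
 and is strictly larger (V* W = 0, V W* = 0).
-/
import Pool.Agent.Helper93.SP2.Pi1

set_option autoImplicit false

open scoped InnerProductSpace ComplexConjugate ENNReal NNReal
open Filter Topology

namespace Pool.Agent.Helper93.SP

variable {E : Type*} [NormedAddCommGroup E] [InnerProductSpace ℂ E] [CompleteSpace E]

private theorem mem_vn1 (A : VonNeumannAlgebra E) (b : E →L[ℂ] E)
    (h : ∀ x : E →L[ℂ] E, (∀ c ∈ A, x * c = c * x) → x * b = b * x) : b ∈ A := by
  rw [← VonNeumannAlgebra.commutant_commutant A, VonNeumannAlgebra.mem_commutant_iff]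
  intro g hg
  rw [VonNeumannAlgebra.mem_commutant_iff] at hg
  exact h g fun c hc => (hg c hc).symm

private theorem proj_comm1 (W : Submodule ℂ E) [W.HasOrthogonalProjection] (g : E →L[ℂ] E)
    (h1 : ∀ v ∈ W, g v ∈ W) (h2 : ∀ v ∈ W, (star g) v ∈ W) :
    g * W.starProjection = W.starProjection * g := by
  ext v
  show g (W.starProjection v) = W.starProjection (g v)
  symm
  refine Submodule.eq_starProjection_of_mem_orthogonal ?_ ?_
  · exact h1 _ (W.starProjection_apply_mem v)
  · rw [← map_sub, Submodule.mem_orthogonal]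
    intro u hu
    rw [← ContinuousLinearMap.adjoint_inner_left, ← ContinuousLinearMap.star_eq_adjoint]
    exact (Submodule.mem_orthogonal _ _).1 (W.sub_starProjection_mem_orthogonal v) _ (h2 u hu)

/-- In a factor, `q A p` is nonzero for nonzero projections `p`, `q` in `A`. -/
private theorem corner1 (A : VonNeumannAlgebra E)
    (hA : ∀ x ∈ A, (∀ y ∈ A, x * y = y * x) → ∃ c : ℂ, x = c • (1 : E →L[ℂ] E))
    (p q : E →L[ℂ] E) (hpA : p ∈ A) (hq : ∀ a ∈ A, q * a * p = 0) (hp : p ≠ 0) : q = 0 := by
  let S : Set E := {v | ∃ a ∈ A, ∃ ζ, v = a (p ζ)}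
  let W : Submodule ℂ E := (Submodule.span ℂ S).topologicalClosure
  have hWc : IsClosed (W : Set E) := Submodule.isClosed_topologicalClosure _
  have : CompleteSpace W := hWc.completeSpace_coe
  have hinv : ∀ g : E →L[ℂ] E, (∀ v ∈ S, g v ∈ S) → ∀ v ∈ W, g v ∈ W := by
    intro g hg v hv
    have hsub : Submodule.span ℂ S ≤ W.comap g.toLinearMap := by
      rw [Submodule.span_le]
      intro u hu
      exact Submodule.le_topologicalClosure _ (Submodule.subset_span (hg u hu))
    have hcl : IsClosed ((W.comap g.toLinearMap : Submodule ℂ E) : Set E) :=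
      hWc.preimage g.continuous
    exact Submodule.topologicalClosure_minimal _ hsub hcl hv
  have hgA : ∀ g ∈ A, ∀ v ∈ W, g v ∈ W := by
    intro g hg
    refine hinv g ?_
    rintro _ ⟨a, ha, ζ, rfl⟩
    exact ⟨g * a, mul_mem hg ha, ζ, rfl⟩
  have hgC : ∀ g : E →L[ℂ] E, (∀ c ∈ A, g * c = c * g) → ∀ v ∈ W, g v ∈ W := by
    intro g hg
    refine hinv g ?_
    rintro _ ⟨a, ha, ζ, rfl⟩
    refine ⟨a, ha, g ζ, ?_⟩
    have h1 := congrArg (fun T : E →L[ℂ] E => T ζ) (hg (a * p) (mul_mem ha hpA))
    exact h1
  have hz : W.starProjection ∈ A := by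
    refine mem_vn1 A _ fun g hg => proj_comm1 W g (hgC g hg) (hgC (star g) ?_)
    intro c hc
    have h1 := congrArg star (hg (star c) (star_mem hc))
    rw [star_mul, star_mul, star_star] at h1
    exact h1.symm
  obtain ⟨c, hc⟩ := hA _ hz fun y hy =>
    (proj_comm1 W y (hgA y hy) (hgA (star y) (star_mem hy))).symm
  obtain ⟨ζ, hζ⟩ : ∃ ζ, p ζ ≠ 0 := by
    by_contra h
    push Not at h
    exact hp (ContinuousLinearMap.ext fun v => h v)
  have h1 : W.starProjection (p ζ) = p ζ := Submodule.starProjection_eq_self_iff.2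
    (Submodule.le_topologicalClosure _ (Submodule.subset_span ⟨1, one_mem _, ζ, rfl⟩))
  rw [hc] at h1
  have h2 : c • (p ζ) = p ζ := h1
  have hc1 : c = 1 := by
    have h3 : (c - 1) • (p ζ) = 0 := by rw [sub_smul, one_smul, h2, sub_self]
    rcases smul_eq_zero.1 h3 with h4 | h4
    · exact sub_eq_zero.1 h4
    · exact absurd h4 hζ
  have h3 : ∀ v, v ∈ W := by
    intro v
    rw [← Submodule.starProjection_eq_self_iff, hc, hc1, one_smul]
    rfl
  have h4 : ∀ v ∈ W, q v = 0 := by
    intro v hv
    have hsub : Submodule.span ℂ S ≤ LinearMap.ker q.toLinearMap := by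
      rw [Submodule.span_le]
      rintro _ ⟨a, ha, ζ, rfl⟩
      have h5 := congrArg (fun T : E →L[ℂ] E => T ζ) (hq a ha)
      exact h5
    have hcl : IsClosed ((LinearMap.ker q.toLinearMap : Submodule ℂ E) : Set E) :=
      q.isClosed_ker
    exact Submodule.topologicalClosure_minimal _ hsub hcl hv
  exact ContinuousLinearMap.ext fun v => h4 v (h3 v)

/-- `V V* V = V` as soon as `V* V` is a projection. -/
private theorem pi_id1 (V : E →L[ℂ] E) (h : IsProj (star V * V)) : V * (star V * V) = V := by
  have h1 : star (V * (star V * V) - V) * (V * (star V * V) - V) = 0 := by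
    have e : star (V * (star V * V) - V) = star V * V * star V - star V := by
      rw [star_sub, star_mul, star_mul, star_star]
    rw [e]
    have h2 : star V * V * (star V * V) = star V * V := h.2
    calc (star V * V * star V - star V) * (V * (star V * V) - V)
        = (star V * V * (star V * V)) * (star V * V) - star V * V * (star V * V)
          - star V * V * (star V * V) + star V * V := by noncomm_ring
      _ = 0 := by rw [h2, h2]; abel
  exact sub_eq_zero.1 ((CStarRing.star_mul_self_eq_zero_iff _).1 h1)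

/-- For `W V* V = V` one has `W* V = V* V`. -/
private theorem ord1 {V W : E →L[ℂ] E} (hV : V * (star V * V) = V) (hW : W * (star W * W) = W)
    (h : W * (star V * V) = V) : star W * V = star V * V := by
  have e1 : star V * V * (star W * W) * (star V * V) = star V * V := by
    have h2 : star V * V * star W = star V := by
      have := congrArg star h
      rw [star_mul, star_mul, star_star] at this
      exact this
    calc star V * V * (star W * W) * (star V * V)
        = (star V * V * star W) * (W * (star V * V)) := by noncomm_ring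
      _ = star V * V := by rw [h2, h]
  have hPP : star V * V * (star V * V) = star V * V := by
    rw [mul_assoc, hV]
  have hQQ : star W * W * (star W * W) = star W * W := by
    rw [mul_assoc, hW]
  have hQP : star W * W * (star V * V) = star V * V := by
    have h1 : star (star V * V - star W * W * (star V * V)) *
        (star V * V - star W * W * (star V * V)) = 0 := by
      have e : star (star V * V - star W * W * (star V * V))
          = star V * V - star V * V * (star W * W) := by
        rw [star_sub, star_mul (star W * W), star_mul (star V), star_star, star_mul (star W),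
          star_star]
      rw [e]
      calc (star V * V - star V * V * (star W * W)) * (star V * V - star W * W * (star V * V))
          = star V * V * (star V * V) - star V * V * (star W * W) * (star V * V)
            - star V * V * (star W * W) * (star V * V)
            + star V * V * (star W * W * (star W * W)) * (star V * V) := by noncomm_ring
        _ = 0 := by rw [hQQ, e1, hPP]; abel
    exact (sub_eq_zero.1 ((CStarRing.star_mul_self_eq_zero_iff _).1 h1)).symm
  calc star W * V = star W * (W * (star V * V)) := by rw [h]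
    _ = star W * W * (star V * V) := by noncomm_ring
    _ = star V * V := hQP

/-- Partial isometries from below `p` to below `q`. -/
private structure PI1 (A : VonNeumannAlgebra E) (p q : E →L[ℂ] E) where
  V : E →L[ℂ] E
  mem : V ∈ A
  pi : V * (star V * V) = V
  right : V * p = V
  left : q * V = V

private instance preord1 (A : VonNeumannAlgebra E) (p q : E →L[ℂ] E) : Preorder (PI1 A p q) where
  le X Y := Y.V * (star X.V * X.V) = X.V
  le_refl X := X.pi
  le_trans X Y Z h1 h2 := by
    have h3 : star Y.V * X.V = star X.V * X.V := ord1 X.pi Y.pi h1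
    have h4 : star Y.V * Y.V * (star X.V * X.V) = star X.V * X.V := by
      rw [mul_assoc, h1, h3]
    show Z.V * (star X.V * X.V) = X.V
    rw [← h4, ← mul_assoc, h2, h1]

private theorem le_iff1 {A : VonNeumannAlgebra E} {p q : E →L[ℂ] E} {X Y : PI1 A p q} :
    X ≤ Y ↔ Y.V * (star X.V * X.V) = X.V := Iff.rfl

private theorem norm_pi1 {V : E →L[ℂ] E} (hV : V * (star V * V) = V) (ζ : E) : ‖V ζ‖ ≤ ‖ζ‖ := by
  have h1 : ‖V‖ * ‖V‖ = ‖star V * V‖ := (CStarRing.norm_star_mul_self).symm
  have h2 : ‖star V * V‖ * ‖star V * V‖ = ‖star V * V‖ := by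
    have h3 := CStarRing.norm_star_mul_self (x := star V * V)
    have h4 : star (star V * V) * (star V * V) = star V * V := by
      rw [star_mul, star_star, mul_assoc, hV]
    rw [h4] at h3
    exact h3.symm
  have h5 : ‖V‖ ≤ 1 := by
    have h6 : ‖star V * V‖ ≤ 1 := by
      by_contra h
      push Not at h
      nlinarith
    nlinarith [norm_nonneg V]
  calc ‖V ζ‖ ≤ ‖V‖ * ‖ζ‖ := V.le_opNorm ζ
    _ ≤ 1 * ‖ζ‖ := mul_le_mul_of_nonneg_right h5 (norm_nonneg _)
    _ = ‖ζ‖ := one_mul _

private theorem inner_star1 (W V : E →L[ℂ] E) (ζ η : E) : ⟪W ζ, V η⟫_ℂ = ⟪ζ, (star W * V) η⟫_ℂ := by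
  show _ = ⟪ζ, (star W) (V η)⟫_ℂ
  rw [ContinuousLinearMap.star_eq_adjoint, ContinuousLinearMap.adjoint_inner_right]

private theorem norm_diff1 {V W : E →L[ℂ] E} (h : star W * V = star V * V) (ζ : E) :
    ‖W ζ - V ζ‖ ^ 2 = ‖W ζ‖ ^ 2 - ‖V ζ‖ ^ 2 := by
  have h1 : ⟪W ζ, V ζ⟫_ℂ = ⟪V ζ, V ζ⟫_ℂ := by
    rw [inner_star1, h, ← inner_star1]
  rw [@norm_sub_sq ℂ, h1, inner_self_eq_norm_sq_to_K]
  have h2 : RCLike.re ((‖V ζ‖ : ℂ) ^ 2) = ‖V ζ‖ ^ 2 := by
    rw [← Complex.ofReal_pow]
    exact Complex.ofReal_re _
  have h3 : RCLike.re (((‖V ζ‖ : ℝ) : ℂ) ^ 2) = ‖V ζ‖ ^ 2 := h2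
  simp only [Complex.coe_algebraMap] at *
  linarith

/-- Chains of partial isometries have upper bounds. -/
private theorem chain1 {A : VonNeumannAlgebra E} {p q : E →L[ℂ] E} (c : Set (PI1 A p q))
    (hc : IsChain (· ≤ ·) c) (hne : c.Nonempty) : BddAbove c := by
  have : Nonempty c := hne.to_subtype
  have hdir : IsDirectedOrder c := by
    refine ⟨fun X Y => ?_⟩
    rcases hc.total X.2 Y.2 with h | h
    · exact ⟨Y, h, le_refl _⟩
    · exact ⟨X, le_refl _, h⟩
  have hord : ∀ X Y : c, X ≤ Y → star Y.1.V * X.1.V = star X.1.V * X.1.V :=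
    fun X Y h => ord1 X.1.pi Y.1.pi h
  have hcau : ∀ ζ : E, Cauchy (map (fun X : c => X.1.V ζ) atTop) := by
    intro ζ
    rw [Metric.cauchy_iff]
    refine ⟨map_neBot, fun ε hε => ?_⟩
    have hbdd : BddAbove (Set.range fun X : c => ‖X.1.V ζ‖ ^ 2) := by
      refine ⟨‖ζ‖ ^ 2, ?_⟩
      rintro _ ⟨X, rfl⟩
      exact pow_le_pow_left₀ (norm_nonneg _) (norm_pi1 X.1.pi ζ) 2
    obtain ⟨s, hs⟩ : ∃ s, s = ⨆ X : c, ‖X.1.V ζ‖ ^ 2 := ⟨_, rfl⟩
    have hlt : s - (ε / 2) ^ 2 < ⨆ X : c, ‖X.1.V ζ‖ ^ 2 := by
      rw [← hs]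
      have : 0 < (ε / 2) ^ 2 := by positivity
      linarith
    obtain ⟨X0, hX0⟩ := exists_lt_of_lt_ciSup hlt
    have key : ∀ Y : c, X0 ≤ Y → ‖Y.1.V ζ - X0.1.V ζ‖ < ε / 2 := by
      intro Y hY
      have h1 := norm_diff1 (hord X0 Y hY) ζ
      have h2 : ‖Y.1.V ζ‖ ^ 2 ≤ s := by
        rw [hs]
        exact le_ciSup hbdd Y
      have h3 : ‖Y.1.V ζ - X0.1.V ζ‖ ^ 2 < (ε / 2) ^ 2 := by linarith
      exact lt_of_pow_lt_pow_left₀ 2 (by positivity) h3
    refine ⟨(fun X : c => X.1.V ζ) '' Set.Ici X0, image_mem_map (Ici_mem_atTop X0), ?_⟩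
    rintro _ ⟨Y, hY, rfl⟩ _ ⟨Z, hZ, rfl⟩
    have h1 := key Y hY
    have h2 := key Z hZ
    simp only
    calc dist (Y.1.V ζ) (Z.1.V ζ) ≤ dist (Y.1.V ζ) (X0.1.V ζ) + dist (X0.1.V ζ) (Z.1.V ζ) :=
          dist_triangle _ _ _
      _ < ε / 2 + ε / 2 := by
          rw [dist_eq_norm, dist_comm, dist_eq_norm]
          exact add_lt_add h1 h2
      _ = ε := by ring
  have hlim : ∀ ζ : E, ∃ v, Tendsto (fun X : c => X.1.V ζ) atTop (𝓝 v) := fun ζ =>
    CompleteSpace.complete (hcau ζ)
  choose f hf using hlim
  have hbound : Bornology.IsBounded (Set.range fun X : c => X.1.V) := by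
    rw [isBounded_iff_forall_norm_le]
    refine ⟨1, ?_⟩
    rintro _ ⟨X, rfl⟩
    refine ContinuousLinearMap.opNorm_le_bound _ zero_le_one fun ζ => ?_
    rw [one_mul]
    exact norm_pi1 X.1.pi ζ
  let U : E →L[ℂ] E := ContinuousLinearMap.ofTendstoOfBoundedRange (l := atTop) f
    (fun X : c => X.1.V) (tendsto_pi_nhds.2 hf) hbound
  have hU : ∀ ζ, Tendsto (fun X : c => X.1.V ζ) atTop (𝓝 (U ζ)) := hf
  -- limits of equalities
  have hUV : ∀ X : c, U * (star X.1.V * X.1.V) = X.1.V := by
    intro X
    ext ζ
    refine tendsto_nhds_unique (hU ((star X.1.V * X.1.V) ζ)) ?_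
    refine tendsto_const_nhds.congr' ?_
    filter_upwards [Ici_mem_atTop X] with Y hY
    exact (congrArg (fun T : E →L[ℂ] E => T ζ) (show Y.1.V * (star X.1.V * X.1.V) = X.1.V from hY)).symm
  have hsUV : ∀ X : c, star U * X.1.V = star X.1.V * X.1.V := by
    intro X
    ext ζ
    refine ext_inner_left ℂ fun η => ?_
    rw [← inner_star1]
    have h1 : Tendsto (fun Y : c => ⟪Y.1.V η, X.1.V ζ⟫_ℂ) atTop (𝓝 ⟪U η, X.1.V ζ⟫_ℂ) :=
      (hU η).inner tendsto_const_nhds
    refine tendsto_nhds_unique h1 (tendsto_const_nhds.congr' ?_)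
    filter_upwards [Ici_mem_atTop X] with Y hY
    rw [inner_star1, hord X Y hY]
  have hUUV : ∀ X : c, U * star U * X.1.V = X.1.V := by
    intro X
    rw [mul_assoc, hsUV, hUV]
  have hpi : U * (star U * U) = U := by
    ext ζ
    show U ((star U) (U ζ)) = U ζ
    refine tendsto_nhds_unique (((U.continuous.comp (star U).continuous).tendsto _).comp (hU ζ)) ?_
    refine (hU ζ).congr fun X => ?_
    exact (congrArg (fun T : E →L[ℂ] E => T ζ) (hUUV X)).symm
  have hmem : U ∈ A := by
    refine mem_vn1 A U fun x hx => ?_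
    ext ζ
    show x (U ζ) = U (x ζ)
    refine tendsto_nhds_unique ((x.continuous.tendsto _).comp (hU ζ)) ?_
    refine (hU (x ζ)).congr fun X => ?_
    exact (congrArg (fun T : E →L[ℂ] E => T ζ) (hx X.1.V X.1.mem)).symm
  have hUp : U * p = U := by
    ext ζ
    refine tendsto_nhds_unique (hU (p ζ)) ((hU ζ).congr fun X => ?_)
    exact (congrArg (fun T : E →L[ℂ] E => T ζ) X.1.right).symm
  have hqU : q * U = U := by
    ext ζ
    refine tendsto_nhds_unique ((q.continuous.tendsto _).comp (hU ζ)) ((hU ζ).congr fun X => ?_)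
    exact (congrArg (fun T : E →L[ℂ] E => T ζ) X.1.left).symm
  exact ⟨⟨U, hmem, hpi, hUp, hqU⟩, fun X hX => hUV ⟨X, hX⟩⟩

theorem comparability (A : VonNeumannAlgebra E)
    (hA : ∀ x ∈ A, (∀ y ∈ A, x * y = y * x) → ∃ c : ℂ, x = c • (1 : E →L[ℂ] E))
    (p q : E →L[ℂ] E) (hp : IsProj p) (hq : IsProj q) (hpA : p ∈ A) (hqA : q ∈ A) :
    (∃ V ∈ A, star V * V = p ∧ q * V = V) ∨ (∃ V ∈ A, star V * V = q ∧ p * V = V) := by
  have : Nonempty (PI1 A p q) := ⟨⟨0, zero_mem _, by simp, by simp, by simp⟩⟩
  obtain ⟨M, hM⟩ := zorn_le_nonempty (α := PI1 A p q) chain1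
  obtain ⟨V, hVA, hVpi, hVp, hqV⟩ := M
  have hsVq : star V * q = star V := by
    have := congrArg star hqV
    rwa [star_mul, hq.1] at this
  have hpsV : p * star V = star V := by
    have := congrArg star hVp
    rwa [star_mul, hp.1] at this
  have hPP : star V * V * (star V * V) = star V * V := by rw [mul_assoc, hVpi]
  have hQQ : V * star V * (V * star V) = V * star V := by
    calc V * star V * (V * star V) = V * (star V * V) * star V := by noncomm_ring
      _ = V * star V := by rw [hVpi]
  have hp' : IsProj (p - star V * V) := by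
    refine ⟨by rw [star_sub, hp.1, star_mul, star_star], ?_⟩
    have e1 : p * (star V * V) = star V * V := by rw [← mul_assoc, hpsV]
    have e2 : star V * V * p = star V * V := by rw [mul_assoc, hVp]
    calc (p - star V * V) * (p - star V * V)
        = p * p - p * (star V * V) - star V * V * p + star V * V * (star V * V) := by noncomm_ring
      _ = p - star V * V := by rw [hp.2, e1, e2, hPP]; abel
  have hq' : IsProj (q - V * star V) := by
    refine ⟨by rw [star_sub, hq.1, star_mul, star_star], ?_⟩
    have e1 : q * (V * star V) = V * star V := by rw [← mul_assoc, hqV]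
    have e2 : V * star V * q = V * star V := by rw [mul_assoc, hsVq]
    calc (q - V * star V) * (q - V * star V)
        = q * q - q * (V * star V) - V * star V * q + V * star V * (V * star V) := by noncomm_ring
      _ = q - V * star V := by rw [hq.2, e1, e2, hQQ]; abel
  by_cases h1 : p - star V * V = 0
  · exact Or.inl ⟨V, hVA, (sub_eq_zero.1 h1).symm, hqV⟩
  by_cases h2 : q - V * star V = 0
  · refine Or.inr ⟨star V, star_mem hVA, ?_, hpsV⟩
    rw [star_star]
    exact (sub_eq_zero.1 h2).symm
  exfalso
  have hp'A : p - star V * V ∈ A := sub_mem hpA (mul_mem (star_mem hVA) hVA)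
  have hq'A : q - V * star V ∈ A := sub_mem hqA (mul_mem hVA (star_mem hVA))
  obtain ⟨a, ha, hne⟩ : ∃ a ∈ A, (q - V * star V) * a * (p - star V * V) ≠ 0 := by
    by_contra h
    push Not at h
    exact h2 (corner1 A hA _ _ hp'A h h1)
  obtain ⟨X, hXA, hX0, hXP, hpX, hqX⟩ := pi_of_ne_zero A (p - star V * V) (q - V * star V)
    ((q - V * star V) * a * (p - star V * V)) hp' hq' hp'A hq'A
    (mul_mem (mul_mem hq'A ha) hp'A) hne (by rw [mul_assoc, hp'.2])
    (by rw [← mul_assoc, ← mul_assoc, hq'.2])
  have hXpi : X * (star X * X) = X := pi_id1 X hXP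
  have hXp' : X * (p - star V * V) = X := by
    have h3 : star X * X * (p - star V * V) = star X * X := by
      have := congrArg star hpX
      rw [star_mul, hp'.1, star_mul, star_star] at this
      exact this
    calc X * (p - star V * V) = X * (star X * X) * (p - star V * V) := by rw [hXpi]
      _ = X * (star X * X * (p - star V * V)) := by noncomm_ring
      _ = X := by rw [h3, hXpi]
  have hVsX : V * star X = 0 := by
    have h3 : V * (p - star V * V) = 0 := by
      rw [mul_sub, hVp, hVpi, sub_self]
    have h4 : (p - star V * V) * star X = star X := by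
      have := congrArg star hXp'
      rwa [star_mul, hp'.1] at this
    rw [← h4, ← mul_assoc, h3, zero_mul]
  have hXsV : X * star V = 0 := by
    have := congrArg star hVsX
    rwa [star_mul, star_star, star_zero] at this
  have hsVX : star V * X = 0 := by
    have h3 : star V * (q - V * star V) = 0 := by
      have h4 : star V * (V * star V) = star V := by
        have := congrArg star hVpi
        rw [star_mul, star_mul, star_star] at this
        rw [← mul_assoc]
        exact this
      rw [mul_sub, hsVq, h4, sub_self]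
    rw [← hqX, ← mul_assoc, h3, zero_mul]
  have hsXV : star X * V = 0 := by
    have := congrArg star hsVX
    rwa [star_mul, star_star, star_zero] at this
  have hss : star (V + X) * (V + X) = star V * V + star X * X := by
    rw [star_add, add_mul, mul_add, mul_add, hsVX, hsXV]
    abel
  have hpi' : (V + X) * (star (V + X) * (V + X)) = V + X := by
    rw [hss]
    calc (V + X) * (star V * V + star X * X)
        = V * (star V * V) + V * star X * X + X * star V * V + X * (star X * X) := by noncomm_ring
      _ = V + X := by rw [hVpi, hXpi, hVsX, hXsV]; simp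
  have hr' : (V + X) * p = V + X := by
    have h3 : X * p = X := by
      have h4 : (p - star V * V) * p = p - star V * V := by
        rw [sub_mul, hp.2, mul_assoc, hVp]
      calc X * p = X * (p - star V * V) * p := by rw [hXp']
        _ = X * ((p - star V * V) * p) := by noncomm_ring
        _ = X := by rw [h4, hXp']
    rw [add_mul, hVp, h3]
  have hl' : q * (V + X) = V + X := by
    have h3 : q * X = X := by
      have h4 : q * (q - V * star V) = q - V * star V := by
        rw [mul_sub, hq.2, ← mul_assoc, hqV]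
      calc q * X = q * ((q - V * star V) * X) := by rw [hqX]
        _ = q * (q - V * star V) * X := by noncomm_ring
        _ = X := by rw [h4, hqX]
    rw [mul_add, hqV, h3]
  have hle := hM (b := ⟨V + X, add_mem hVA hXA, hpi', hr', hl'⟩) (by
    show (V + X) * (star V * V) = V
    calc (V + X) * (star V * V) = V * (star V * V) + X * star V * V := by noncomm_ring
      _ = V := by rw [hVpi, hXsV]; simp)
  have hle' : V * (star (V + X) * (V + X)) = V + X := hle
  rw [hss] at hle'
  have h5 : V = V + X := by
    calc V = V * (star V * V) + V * star X * X := by rw [hVpi, hVsX]; simp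
      _ = V * (star V * V + star X * X) := by noncomm_ring
      _ = V + X := hle'
  exact hX0 (left_eq_add.1 h5)

end Pool.Agent.Helper93.SP
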