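/-
Block SQ-DIM (about 200 lines).  Dimension counting over M = π(G)''.

Facts on p = pcyc π c: it is a projection, in comm π (its range is invariant under all π(g)), p c = c.
If the π(g) c are orthonormal they are a Hilbert basis of the range of p: for v = p v,
 ‖v‖^2 = Σ_g |⟪π(g) c, v⟫|^2.
Small π Z j: there are vectors c_i (i < j) with orthonormal orbits and operators A_i in comm π with
 p_i A_i = A_i (p_i = pcyc π c_i) and Σ A_i* A_i = Z  (Z embeds in the sum of the p_i).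
* orb_comm: V in comm π with V* V = pcyc π c (π(g) c orthonormal), then the π(g) V c are orthonormal:
  ⟪V π(g) c, V π(h) c⟫ = ⟪π(g) c, V*V π(h) c⟫ = ⟪π(g) c, π(h) c⟫.
* small_sub: A_i' = A_i V (Z V = V, W = V* V: Σ V* A_i* A_i V = V* Z V = V* V).
* small_add: append (Fin.snoc or Fin.cons).
* dimk: ζ_1..ζ_k with OrbOrth, Z ζ_l = ζ_l.  k = Σ_l ‖ζ_l‖^2 = Σ_l ⟪ζ_l, Z ζ_l⟫ = Σ_i Σ_l ‖A_i ζ_l‖^2 and
  for fixed i, Σ_l ‖A_i ζ_l‖^2 = Σ_l Σ_g |⟪π(g) c_i, A_i ζ_l⟫|^2 = Σ_(l,g) |⟪A_i* c_i, π(g⁻¹) ζ_l⟫|^2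
  ≤ ‖A_i* c_i‖^2 ≤ 1 (Bessel for the orthonormal family (g, l) ↦ π(g) ζ_l; ‖A_i‖ ≤ 1 since
  A_i* A_i ≤ Z; in fact ‖A_i ζ‖^2 ≤ ⟪ζ, Z ζ⟫ ≤ ‖ζ‖^2).  So k ≤ j.  (Finite sums over finite subsets of G
  suffice: ‖v‖^2 = supremum.)
-/
import Pool.Agent.Helper93.SP2.Defs2

set_option autoImplicit false

open scoped InnerProductSpace ComplexConjugate ENNReal NNReal
open Filter Topology

namespace Pool.Agent.Helper93.SP

variable {G : Type*} [Group G] {E : Type*} [NormedAddCommGroup E] [InnerProductSpace ℂ E]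
  [CompleteSpace E]

/-- The projection Z (in the commutant of π) embeds in a sum of j copies of the regular
representation. -/
def Small (π : G →* unitary (E →L[ℂ] E)) (Z : E →L[ℂ] E) (j : ℕ) : Prop :=
  ∃ (c : Fin j → E) (A : Fin j → E →L[ℂ] E),
    (∀ i, Orthonormal ℂ fun g : G => (π g : E →L[ℂ] E) (c i)) ∧ (∀ i, A i ∈ comm π) ∧
    (∀ i, pcyc π (c i) * A i = A i) ∧ ∑ i, star (A i) * A i = Z

private theorem star_rep30 (π : G →* unitary (E →L[ℂ] E)) (g : G) :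
    star (π g : E →L[ℂ] E) = (π g⁻¹ : E →L[ℂ] E) := by
  rw [map_inv]
  rfl

private theorem rep_mul30 (π : G →* unitary (E →L[ℂ] E)) (g h : G) (v : E) :
    (π (g * h) : E →L[ℂ] E) v = (π g : E →L[ℂ] E) ((π h : E →L[ℂ] E) v) := by
  rw [map_mul]
  rfl

private theorem rep_one30 (π : G →* unitary (E →L[ℂ] E)) (v : E) : (π 1 : E →L[ℂ] E) v = v := by
  rw [map_one]
  rfl

private theorem inner_star30 (T : E →L[ℂ] E) (x y : E) : ⟪x, star T y⟫_ℂ = ⟪T x, y⟫_ℂ := by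
  rw [ContinuousLinearMap.star_eq_adjoint, ContinuousLinearMap.adjoint_inner_right]

private theorem inner_star30' (T : E →L[ℂ] E) (x y : E) : ⟪star T x, y⟫_ℂ = ⟪x, T y⟫_ℂ := by
  rw [ContinuousLinearMap.star_eq_adjoint, ContinuousLinearMap.adjoint_inner_left]

private theorem inner_rep30 (π : G →* unitary (E →L[ℂ] E)) (g : G) (x y : E) :
    ⟪(π g : E →L[ℂ] E) x, y⟫_ℂ = ⟪x, (π g⁻¹ : E →L[ℂ] E) y⟫_ℂ := by
  rw [← star_rep30, inner_star30]

theorem isProj_pcyc (π : G →* unitary (E →L[ℂ] E)) (c : E) : IsProj (pcyc π c) := by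
  have h := isStarProjection_starProjection
    (U := (Submodule.span ℂ (Set.range fun g => (π g : E →L[ℂ] E) c)).topologicalClosure)
  exact ⟨h.isSelfAdjoint, h.isIdempotentElem⟩

private theorem pcyc_eq_self30 (π : G →* unitary (E →L[ℂ] E)) (c v : E) :
    pcyc π c v = v ↔ v ∈ cyc π c := by
  unfold pcyc cyc
  exact Submodule.starProjection_eq_self_iff

private theorem orb_mem_cyc30 (π : G →* unitary (E →L[ℂ] E)) (c : E) (g : G) :
    (π g : E →L[ℂ] E) c ∈ cyc π c :=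
  Submodule.le_topologicalClosure _ (Submodule.subset_span ⟨g, rfl⟩)

/-- The closed span of the orbit is invariant. -/
private theorem cyc_inv30 (π : G →* unitary (E →L[ℂ] E)) (c : E) (g : G) {v : E} (hv : v ∈ cyc π c) :
    (π g : E →L[ℂ] E) v ∈ cyc π c := by
  set K := Submodule.span ℂ (Set.range fun g => (π g : E →L[ℂ] E) c) with hK
  have h1 : K ≤ Submodule.comap ((π g : E →L[ℂ] E) : E →ₗ[ℂ] E) (cyc π c) := by
    rw [hK, Submodule.span_le]
    rintro _ ⟨h, rfl⟩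
    change (π g : E →L[ℂ] E) ((π h : E →L[ℂ] E) c) ∈ cyc π c
    rw [← rep_mul30]
    exact orb_mem_cyc30 π c _
  have hcl : IsClosed ((cyc π c : Submodule ℂ E) : Set E) := Submodule.isClosed_topologicalClosure _
  have h2 : closure (K : Set E) ⊆ (π g : E →L[ℂ] E) ⁻¹' (cyc π c : Set E) :=
    closure_minimal (fun v hv => h1 hv) (hcl.preimage (π g : E →L[ℂ] E).continuous)
  have h3 : v ∈ closure (K : Set E) := by
    have h4 : v ∈ K.topologicalClosure := hv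
    rwa [← SetLike.mem_coe, Submodule.topologicalClosure_coe] at h4
  exact h2 h3

theorem pcyc_mem (π : G →* unitary (E →L[ℂ] E)) (c : E) : pcyc π c ∈ comm π := by
  rw [mem_comm]
  intro g
  ext v
  change pcyc π c ((π g : E →L[ℂ] E) v) = (π g : E →L[ℂ] E) (pcyc π c v)
  have hmem : pcyc π c v ∈ cyc π c := by
    unfold pcyc cyc
    exact Submodule.starProjection_apply_mem _ v
  have h1 : (π g : E →L[ℂ] E) (pcyc π c v) ∈ cyc π c := cyc_inv30 π c g hmem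
  refine (Submodule.eq_starProjection_of_mem_of_inner_eq_zero (K := (Submodule.span ℂ (Set.range fun g =>
    (π g : E →L[ℂ] E) c)).topologicalClosure) h1 fun w hw => ?_)
  have hw2 : (π g⁻¹ : E →L[ℂ] E) w ∈ cyc π c := cyc_inv30 π c g⁻¹ hw
  have h2 : (π g : E →L[ℂ] E) v - (π g : E →L[ℂ] E) (pcyc π c v) =
      (π g : E →L[ℂ] E) (v - pcyc π c v) := by rw [map_sub]
  rw [h2, inner_rep30]
  exact Submodule.starProjection_inner_eq_zero v _ hw2

theorem pcyc_self (π : G →* unitary (E →L[ℂ] E)) (c : E) : pcyc π c c = c := by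
  rw [pcyc_eq_self30]
  have h := orb_mem_cyc30 π c 1
  rwa [rep_one30] at h

theorem orb_comm (π : G →* unitary (E →L[ℂ] E)) (c : E)
    (hc : Orthonormal ℂ fun g : G => (π g : E →L[ℂ] E) c) (V : E →L[ℂ] E) (hV : V ∈ comm π)
    (h : star V * V = pcyc π c) : Orthonormal ℂ fun g : G => (π g : E →L[ℂ] E) (V c) := by
  classical
  have h1 : ∀ g : G, (π g : E →L[ℂ] E) (V c) = V ((π g : E →L[ℂ] E) c) := fun g => by
    have h2 := (mem_comm π V).1 hV g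
    exact (congrArg (fun T : E →L[ℂ] E => T c) h2).symm
  rw [orthonormal_iff_ite] at hc ⊢
  intro g k
  rw [← hc g k, h1, h1, ← inner_star30]
  have h3 : star V (V ((π k : E →L[ℂ] E) c)) = pcyc π c ((π k : E →L[ℂ] E) c) := by
    rw [← h]
    rfl
  rw [h3, (pcyc_eq_self30 π c _).2 (orb_mem_cyc30 π c k)]

theorem small_zero (π : G →* unitary (E →L[ℂ] E)) : Small π 0 0 :=
  ⟨Fin.elim0, Fin.elim0, fun i => i.elim0, fun i => i.elim0, fun i => i.elim0, by simp⟩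

theorem small_sub (π : G →* unitary (E →L[ℂ] E)) (Z W V : E →L[ℂ] E) (j : ℕ)
    (h : Small π Z j) (hV : V ∈ comm π) (h1 : star V * V = W) (h2 : Z * V = V) :
    Small π W j := by
  obtain ⟨c, A, hc, hA, hp, hs⟩ := h
  refine ⟨c, fun i => A i * V, hc, fun i => mul_mem (hA i) hV, fun i => ?_, ?_⟩
  · rw [← mul_assoc, hp i]
  · have h3 : ∀ i, star (A i * V) * (A i * V) = star V * (star (A i) * A i) * V := by
      intro i
      rw [star_mul]
      simp only [mul_assoc]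
    rw [Finset.sum_congr rfl fun i _ => h3 i, ← Finset.sum_mul, ← Finset.mul_sum, hs, mul_assoc, h2, h1]

theorem small_add (π : G →* unitary (E →L[ℂ] E)) (Z W V : E →L[ℂ] E) (c : E) (j : ℕ)
    (h : Small π Z j) (hc : Orthonormal ℂ fun g : G => (π g : E →L[ℂ] E) c) (hV : V ∈ comm π)
    (h1 : star V * V = W) (h2 : pcyc π c * V = V) : Small π (Z + W) (j + 1) := by
  obtain ⟨c', A, hc', hA, hp, hs⟩ := h
  refine ⟨Fin.cons c c', Fin.cons V A, fun i => ?_, fun i => ?_, fun i => ?_, ?_⟩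
  · refine Fin.cases ?_ (fun i => ?_) i
    · simpa using hc
    · simpa using hc' i
  · refine Fin.cases ?_ (fun i => ?_) i
    · simpa using hV
    · simpa using hA i
  · refine Fin.cases ?_ (fun i => ?_) i
    · simpa using h2
    · simpa using hp i
  · rw [Fin.sum_univ_succ]
    simp only [Fin.cons_zero, Fin.cons_succ]
    rw [h1, hs, add_comm]

/-- Parseval for a vector in the closed span of an orthonormal orbit. -/
private theorem parseval30 (π : G →* unitary (E →L[ℂ] E)) (c : E)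
    (hc : Orthonormal ℂ fun g : G => (π g : E →L[ℂ] E) c) (v : E) (hv : v ∈ cyc π c) :
    ‖v‖ ^ 2 = ∑' g : G, ‖⟪(π g : E →L[ℂ] E) c, v⟫_ℂ‖ ^ 2 := by
  set u : G → cyc π c := fun g => ⟨(π g : E →L[ℂ] E) c, orb_mem_cyc30 π c g⟩ with hu
  have : CompleteSpace (cyc π c) := by
    unfold cyc
    infer_instance
  have hou : Orthonormal ℂ u := by
    have h1 : Orthonormal ℂ ((cyc π c).subtypeₗᵢ ∘ u) := hc
    exact (cyc π c).subtypeₗᵢ.orthonormal_comp_iff.1 h1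
  have hbot : (Submodule.span ℂ (Set.range u))ᗮ = ⊥ := by
    rw [Submodule.eq_bot_iff]
    rintro ⟨x, hx⟩ hx2
    have h1 : ∀ g : G, ⟪(π g : E →L[ℂ] E) c, x⟫_ℂ = 0 := by
      intro g
      have h2 := (Submodule.mem_orthogonal _ _).1 hx2 (u g) (Submodule.subset_span ⟨g, rfl⟩)
      exact h2
    have h3 : x ∈ (cyc π c)ᗮ := by
      unfold cyc
      rw [Submodule.orthogonal_closure, Submodule.mem_orthogonal]
      intro w hw
      induction hw using Submodule.span_induction with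
      | mem w hw =>
        obtain ⟨g, rfl⟩ := hw
        exact h1 g
      | zero => exact inner_zero_left _
      | add a b _ _ ha hb => rw [inner_add_left, ha, hb, add_zero]
      | smul r a _ ha => rw [inner_smul_left, ha, mul_zero]
    have h4 : ⟪x, x⟫_ℂ = 0 := (Submodule.mem_orthogonal _ _).1 h3 x hx
    rw [inner_self_eq_zero] at h4
    exact Subtype.ext h4
  have h5 := (HilbertBasis.mkOfOrthogonalEqBot hou hbot).hasSum_inner_mul_inner ⟨v, hv⟩ ⟨v, hv⟩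
  rw [HilbertBasis.coe_mkOfOrthogonalEqBot] at h5
  have h6 : ∀ g : G, ⟪(⟨v, hv⟩ : cyc π c), u g⟫_ℂ * ⟪u g, (⟨v, hv⟩ : cyc π c)⟫_ℂ =
      ((‖⟪(π g : E →L[ℂ] E) c, v⟫_ℂ‖ ^ 2 : ℝ) : ℂ) := by
    intro g
    have h7 : ⟪(⟨v, hv⟩ : cyc π c), u g⟫_ℂ = ⟪v, (π g : E →L[ℂ] E) c⟫_ℂ := rfl
    have h8 : ⟪u g, (⟨v, hv⟩ : cyc π c)⟫_ℂ = ⟪(π g : E →L[ℂ] E) c, v⟫_ℂ := rfl
    rw [h7, h8, ← inner_conj_symm, RCLike.conj_mul]
    push_cast
    rfl
  have h9 : ⟪(⟨v, hv⟩ : cyc π c), (⟨v, hv⟩ : cyc π c)⟫_ℂ = ((‖v‖ ^ 2 : ℝ) : ℂ) := by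
    have h10 : ⟪(⟨v, hv⟩ : cyc π c), (⟨v, hv⟩ : cyc π c)⟫_ℂ = ⟪v, v⟫_ℂ := rfl
    rw [h10, inner_self_eq_norm_sq_to_K]
    push_cast
    rfl
  simp only [h6] at h5
  rw [h9] at h5
  exact (Complex.hasSum_ofReal.1 h5).tsum_eq.symm

theorem dimk (π : G →* unitary (E →L[ℂ] E)) (Z : E →L[ℂ] E) (hZ : IsProj Z) (j k : ℕ)
    (h : Small π Z j) (ζ : Fin k → E) (hζ : OrbOrth π ζ) (hZζ : ∀ i, Z (ζ i) = ζ i) : k ≤ j := by
  obtain ⟨c, A, hc, hA, hp, hs⟩ := h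
  -- the sum of the squares of the norms
  have hsq : ∀ v : E, ∑ i, ‖A i v‖ ^ 2 = RCLike.re ⟪v, Z v⟫_ℂ := by
    intro v
    rw [← hs, sum_apply, inner_sum, map_sum]
    refine Finset.sum_congr rfl fun i _ => ?_
    have h1 : (star (A i) * A i) v = star (A i) (A i v) := rfl
    rw [h1, inner_star30, inner_self_eq_norm_sq]
  have hZn : ∀ v : E, ‖Z v‖ ≤ ‖v‖ := by
    intro v
    have h1 : ‖Z v‖ ^ 2 = RCLike.re ⟪v, Z v⟫_ℂ := by
      rw [← inner_self_eq_norm_sq (𝕜 := ℂ), ← inner_star30, hZ.1]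
      have h2 : Z (Z v) = Z v := congrArg (fun T : E →L[ℂ] E => T v) hZ.2
      rw [h2]
    have h2 : RCLike.re ⟪v, Z v⟫_ℂ ≤ ‖v‖ * ‖Z v‖ :=
      (RCLike.re_le_norm _).trans (norm_inner_le_norm _ _)
    by_contra hlt
    push Not at hlt
    have h3 : 0 < ‖Z v‖ := (norm_nonneg v).trans_lt hlt
    nlinarith
  have hAn : ∀ i v, ‖A i v‖ ^ 2 ≤ ‖v‖ ^ 2 := by
    intro i v
    have h1 : ‖A i v‖ ^ 2 ≤ ∑ i, ‖A i v‖ ^ 2 :=
      Finset.single_le_sum (f := fun i => ‖A i v‖ ^ 2) (fun i _ => by positivity) (Finset.mem_univ i)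
    have h2 : RCLike.re ⟪v, Z v⟫_ℂ ≤ ‖v‖ * ‖Z v‖ :=
      (RCLike.re_le_norm _).trans (norm_inner_le_norm _ _)
    have h3 := hZn v
    have h4 := hsq v
    nlinarith [norm_nonneg v, norm_nonneg (Z v)]
  have hAnorm : ∀ i, ‖A i‖ ≤ 1 := by
    intro i
    refine ContinuousLinearMap.opNorm_le_bound _ zero_le_one fun v => ?_
    rw [one_mul]
    exact (sq_le_sq₀ (norm_nonneg _) (norm_nonneg _)).1 (hAn i v)
  have hc1 : ∀ i, ‖c i‖ = 1 := by
    intro i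
    have h1 := (hc i).1 1
    simp only [rep_one30] at h1
    exact h1
  -- one index i
  have hone : ∀ i, ∑ l, ‖A i (ζ l)‖ ^ 2 ≤ 1 := by
    intro i
    set x : E := star (A i) (c i) with hx
    have hx1 : ‖x‖ ≤ 1 := by
      have h1 : ‖star (A i) (c i)‖ ≤ ‖star (A i)‖ * ‖c i‖ := ContinuousLinearMap.le_opNorm _ _
      rw [norm_star, hc1 i, mul_one] at h1
      exact h1.trans (hAnorm i)
    have hmem : ∀ l, A i (ζ l) ∈ cyc π (c i) := by
      intro l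
      rw [← pcyc_eq_self30]
      exact congrArg (fun T : E →L[ℂ] E => T (ζ l)) (hp i)
    have hcoef : ∀ l (g : G), ⟪(π g : E →L[ℂ] E) (c i), A i (ζ l)⟫_ℂ =
        conj ⟪(π g⁻¹ : E →L[ℂ] E) (ζ l), x⟫_ℂ := by
      intro l g
      rw [inner_conj_symm, hx, inner_star30', inner_rep30]
      have h2 := (mem_comm π (A i)).1 (hA i) g⁻¹
      have h3 : A i ((π g⁻¹ : E →L[ℂ] E) (ζ l)) = (π g⁻¹ : E →L[ℂ] E) (A i (ζ l)) :=
        congrArg (fun T : E →L[ℂ] E => T (ζ l)) h2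
      rw [h3]
    have hl : ∀ l, ‖A i (ζ l)‖ ^ 2 = ∑' g : G, ‖⟪(π g : E →L[ℂ] E) (ζ l), x⟫_ℂ‖ ^ 2 := by
      intro l
      rw [parseval30 π (c i) (hc i) _ (hmem l), ← (Equiv.inv G).tsum_eq]
      refine tsum_congr fun g => ?_
      rw [hcoef, Equiv.inv_apply, inv_inv, RCLike.norm_conj]
    have hsum := hζ.inner_products_summable (x := x)
    have hle := hζ.tsum_inner_products_le (x := x)
    have hsum2 : Summable fun q : Fin k × G => ‖⟪(π q.2 : E →L[ℂ] E) (ζ q.1), x⟫_ℂ‖ ^ 2 :=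
      (Equiv.prodComm (Fin k) G).summable_iff.2 hsum
    have h5 : ∑' q : Fin k × G, ‖⟪(π q.2 : E →L[ℂ] E) (ζ q.1), x⟫_ℂ‖ ^ 2 =
        ∑' p : G × Fin k, ‖⟪(π p.1 : E →L[ℂ] E) (ζ p.2), x⟫_ℂ‖ ^ 2 :=
      (Equiv.prodComm (Fin k) G).tsum_eq fun p : G × Fin k => ‖⟪(π p.1 : E →L[ℂ] E) (ζ p.2), x⟫_ℂ‖ ^ 2
    have h6 : ∑ l, ‖A i (ζ l)‖ ^ 2 =
        ∑' q : Fin k × G, ‖⟪(π q.2 : E →L[ℂ] E) (ζ q.1), x⟫_ℂ‖ ^ 2 := by
      rw [hsum2.tsum_prod, tsum_fintype]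
      exact Finset.sum_congr rfl fun l _ => hl l
    rw [h6, h5]
    refine hle.trans ?_
    nlinarith [norm_nonneg x]
  have hζ1 : ∀ l, ‖ζ l‖ = 1 := by
    intro l
    have h1 := hζ.1 (1, l)
    simp only [rep_one30] at h1
    exact h1
  have hk : (k : ℝ) = ∑ i, ∑ l, ‖A i (ζ l)‖ ^ 2 := by
    rw [Finset.sum_comm]
    have h1 : ∀ l, ∑ i, ‖A i (ζ l)‖ ^ 2 = 1 := by
      intro l
      rw [hsq, hZζ, inner_self_eq_norm_sq, hζ1, one_pow]
    rw [Finset.sum_congr rfl fun l _ => h1 l]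
    simp
  have hj : ∑ i, ∑ l, ‖A i (ζ l)‖ ^ 2 ≤ (j : ℝ) := by
    refine (Finset.sum_le_sum fun i _ => hone i).trans ?_
    simp
  have : (k : ℝ) ≤ j := hk.trans_le hj
  exact_mod_cast this

end Pool.Agent.Helper93.SP
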