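/-
Block SQ-IRR (about 120 lines).
* irr_of_group: M = bi π with trace τ, τ(π g) = 0 for g ≠ 1, infinite K-classes: x in bi π commuting
  with π(K): for g ≠ 1, τ(x π(g)*) = τ(x π(kgk⁻¹)*) for k in K (traciality); the set of h with
  ε ≤ |τ(x π(h)*)| is finite (normal_mixing with vectors a_i, x* a_i ...), so τ(x π(g)*) = 0.
  Then with x0 = x - τ(x) 1: τ(x0 π(g)*) = 0 for all g; by normal_zero (the functional
  z ↦ τ(x0 z) = Σ ⟪x0* a_i, z a_i⟫ on bi π) τ(x0 x0*) = 0, so x0 = 0 (faithful).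
-/
import Pool.Agent.Helper93.SP2.Defs2
import Pool.Agent.Helper93.SP.Nrm
import Pool.Agent.Helper93.SP.Tr

set_option autoImplicit false

open scoped InnerProductSpace ComplexConjugate ENNReal NNReal
open Filter Topology

namespace Pool.Agent.Helper93.SP

variable {G : Type*} [Group G] {E : Type*} [NormedAddCommGroup E] [InnerProductSpace ℂ E]
  [CompleteSpace E]

omit [CompleteSpace E] in
private theorem summsq57 {a : ℕ → E} (ha : Summable fun i => ‖a i‖ ^ 2) (T : E →L[ℂ] E) :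
    Summable fun i => ‖T (a i)‖ ^ 2 := by
  refine Summable.of_nonneg_of_le (fun i => by positivity) (fun i => ?_) (ha.mul_left (‖T‖ ^ 2))
  rw [← mul_pow]
  exact pow_le_pow_left₀ (norm_nonneg _) (T.le_opNorm _) 2

theorem irr_of_group (K : Subgroup G)
    (hicc : ∀ g : G, g ≠ 1 → (Set.range fun k : K => (k : G) * g * (k : G)⁻¹).Infinite)
    (π : G →* unitary (E →L[ℂ] E)) (τ : (E →L[ℂ] E) → ℂ) (hτ : IsTrace (bi π) τ)
    (h0 : ∀ g, g ≠ 1 → τ (π g : E →L[ℂ] E) = 0) (x : E →L[ℂ] E) (hx : x ∈ bi π)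
    (h : ∀ k ∈ K, x * (π k : E →L[ℂ] E) = (π k : E →L[ℂ] E) * x) :
    ∃ c : ℂ, x = c • (1 : E →L[ℂ] E) := by
  have hmem : ∀ g, (π g : E →L[ℂ] E) ∈ bi π := rep_mem_bi π
  have hmix : Mixing π := mixing_of_trace hτ π hmem h0
  obtain ⟨a, ha, hf⟩ := hτ.normal
  have hpi : ∀ g k : G, (π (g * k) : E →L[ℂ] E) = (π g : E →L[ℂ] E) * (π k : E →L[ℂ] E) := by
    intro g k
    rw [map_mul]
    rfl
  have hpi1 : (π (1 : G) : E →L[ℂ] E) = 1 := by
    rw [map_one]
    rfl
  have hsq : ∀ T : E →L[ℂ] E, Summable fun i => ‖T (a i)‖ ^ 2 := summsq57 ha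
  have hform : ∀ y ∈ bi π, ∀ z ∈ bi π,
      τ (y * z) = ∑' i, ⟪(star y) (a i), z (a i)⟫_ℂ := by
    intro y hy z hz
    rw [hf _ (mul_mem hy hz)]
    refine tsum_congr fun i => ?_
    rw [ContinuousLinearMap.star_eq_adjoint, ContinuousLinearMap.adjoint_inner_left]
    rfl
  -- invariance under conjugation by K
  have hinv : ∀ k ∈ K, ∀ g : G, τ (x * (π (k * g * k⁻¹) : E →L[ℂ] E)) =
      τ (x * (π g : E →L[ℂ] E)) := by
    intro k hk g
    have e1 : x * (π (k * g * k⁻¹) : E →L[ℂ] E) =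
        (π k : E →L[ℂ] E) * (x * (π g : E →L[ℂ] E) * (π k⁻¹ : E →L[ℂ] E)) := by
      rw [hpi, hpi, ← mul_assoc, ← mul_assoc, h k hk, mul_assoc (π k : E →L[ℂ] E) x, mul_assoc,
        mul_assoc]
    rw [e1, hτ.tracial _ (hmem k) _ (mul_mem (mul_mem hx (hmem g)) (hmem _)), mul_assoc, ← hpi,
      inv_mul_cancel, hpi1, mul_one]
  -- vanishing of the Fourier coefficients
  have hzero : ∀ g : G, g ≠ 1 → τ (x * (π g : E →L[ℂ] E)) = 0 := by
    intro g hg
    by_contra hne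
    have hpos : 0 < ‖τ (x * (π g : E →L[ℂ] E))‖ := norm_pos_iff.2 hne
    have hfin := normal_mixing π hmix (fun i => (star x) (a i)) a (hsq (star x)) ha _ hpos
    refine hicc g hg (hfin.subset ?_)
    rintro _ ⟨k, rfl⟩
    simp only [Set.mem_setOf_eq]
    rw [← hform x hx _ (hmem _), hinv k k.2 g]
  -- the operator x - τ(x)
  refine ⟨τ x, ?_⟩
  have hx1 : τ x • (1 : E →L[ℂ] E) ∈ bi π := by
    exact (bi π).toStarSubalgebra.toSubalgebra.smul_mem (one_mem _) _
  set y : E →L[ℂ] E := x - τ x • (1 : E →L[ℂ] E) with hy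
  have hyM : y ∈ bi π := sub_mem hx hx1
  have hcoef : ∀ g : G, τ (y * (π g : E →L[ℂ] E)) = 0 := by
    intro g
    have e2 : y * (π g : E →L[ℂ] E) =
        x * (π g : E →L[ℂ] E) + (-τ x) • (π g : E →L[ℂ] E) := by
      rw [hy, sub_mul, smul_mul_assoc, one_mul, neg_smul, sub_eq_add_neg]
    have hs : (-τ x) • (π g : E →L[ℂ] E) ∈ bi π :=
      (bi π).toStarSubalgebra.toSubalgebra.smul_mem (hmem g) _
    rw [e2, trace_add hτ _ _ (mul_mem hx (hmem g)) hs, trace_smul hτ _ _ (hmem g)]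
    by_cases hg : g = 1
    · subst hg
      rw [hpi1, mul_one, hτ.one]
      ring
    · rw [hzero g hg, h0 g hg]
      ring
  have hgen : ∀ z ∈ bi π, ∀ T : E →L[ℂ] E,
      (∀ g, T * (π g : E →L[ℂ] E) = (π g : E →L[ℂ] E) * T) → T * z = z * T := by
    intro z hz T hT
    exact (mem_bi π z).1 hz T hT
  have hnz := normal_zero (bi π) π hgen (fun i => (star y) (a i)) a (hsq (star y)) ha
    (fun g => by rw [← hform y hyM _ (hmem g)]; exact hcoef g) (star y) (star_mem hyM)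
  have hy0 : τ (star (star y) * star y) = 0 := by
    rw [star_star, hform y hyM _ (star_mem hyM)]
    exact hnz
  have hsy := hτ.faithful _ (star_mem hyM) hy0
  have hyz : y = 0 := by
    rw [← star_star y, hsy, star_zero]
  exact sub_eq_zero.1 hyz

end Pool.Agent.Helper93.SP
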