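/-
Block SQ-FNA (about 120 lines).  Kadison-Kastler distance, M = bi π, Good.
* near_of_kk: kkDist M N < δ gives Near M N δ: scale x to norm 1,
  Metric.exists_dist_lt_of_hausdorffDist_lt (the edist is finite: bounded nonempty sets); x = 0 is
  trivial; the two directions by symmetry (hausdorffDist_comm).
* eq_bi: M = bi π if IsGroupVN M π: field gen gives M ≤ bi π; π(G) ⊆ M gives M' ≤ comm π, so
  bi π = (comm π)' ≤ M'' = M.
* good_of_group: Good K π: mixing_of_trace, irr_of_group (M = bi π).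
-/
import Pool.Agent.Helper93.SP2.Stmt2
import Pool.Agent.Helper93.SP2.IRR
import Pool.Agent.Helper93.SP.Trc

set_option autoImplicit false

open scoped InnerProductSpace ComplexConjugate ENNReal NNReal
open Filter Topology

namespace Pool.Agent.Helper93.SP

variable {G : Type*} [Group G] {H : Type*} [NormedAddCommGroup H] [InnerProductSpace ℂ H]
  [CompleteSpace H]

private theorem smem32 (M : VonNeumannAlgebra H) (c : ℂ) (x : H →L[ℂ] H) (hx : x ∈ M) :
    c • x ∈ M :=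
  M.toStarSubalgebra.toSubalgebra.smul_mem hx c

private theorem fin32 (M N : VonNeumannAlgebra H) :
    Metric.hausdorffEDist {x : H →L[ℂ] H | x ∈ M ∧ ‖x‖ ≤ 1} {x : H →L[ℂ] H | x ∈ N ∧ ‖x‖ ≤ 1} ≠
      ⊤ := by
  have hb : ∀ M : VonNeumannAlgebra H,
      Bornology.IsBounded {x : H →L[ℂ] H | x ∈ M ∧ ‖x‖ ≤ 1} := fun M =>
    (Metric.isBounded_closedBall (x := (0 : H →L[ℂ] H)) (r := 1)).subset fun x hx => by
      rw [mem_closedBall_zero_iff]
      exact hx.2
  exact Metric.hausdorffEDist_ne_top_of_nonempty_of_bounded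
    ⟨0, zero_mem M, by simp⟩ ⟨0, zero_mem N, by simp⟩ (hb M) (hb N)

private theorem half32 (M N : VonNeumannAlgebra H) (δ : ℝ)
    (h : kkDist M N < δ) (x : H →L[ℂ] H) (hx : x ∈ M) : ∃ y ∈ N, ‖x - y‖ ≤ δ * ‖x‖ := by
  by_cases h0 : ‖x‖ = 0
  · refine ⟨0, zero_mem N, ?_⟩
    rw [sub_zero, h0, mul_zero]
  · have hpos : 0 < ‖x‖ := lt_of_le_of_ne (norm_nonneg _) (Ne.symm h0)
    have hc : (‖x‖ : ℂ) ≠ 0 := by exact_mod_cast h0
    have hx1 : ((‖x‖ : ℂ)⁻¹ • x) ∈ {x : H →L[ℂ] H | x ∈ M ∧ ‖x‖ ≤ 1} := by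
      refine ⟨smem32 M _ x hx, ?_⟩
      rw [norm_smul, norm_inv, Complex.norm_real, norm_norm, inv_mul_cancel₀ h0]
    obtain ⟨y, ⟨hyN, _⟩, hy⟩ := Metric.exists_dist_lt_of_hausdorffDist_lt hx1 h (fin32 M N)
    refine ⟨(‖x‖ : ℂ) • y, smem32 N _ y hyN, ?_⟩
    have e1 : x - (‖x‖ : ℂ) • y = (‖x‖ : ℂ) • ((‖x‖ : ℂ)⁻¹ • x - y) := by
      rw [smul_sub, smul_smul, mul_inv_cancel₀ hc, one_smul]
    rw [e1, norm_smul, Complex.norm_real, norm_norm, mul_comm, ← dist_eq_norm]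
    exact mul_le_mul_of_nonneg_right hy.le (norm_nonneg _)

theorem near_of_kk (M N : VonNeumannAlgebra H) (δ : ℝ) (h : kkDist M N < δ) : Near M N δ := by
  refine ⟨fun x hx => half32 M N δ h x hx, fun y hy => ?_⟩
  have h' : kkDist N M < δ := by
    rw [kkDist, Metric.hausdorffDist_comm]
    exact h
  obtain ⟨x, hx, hxy⟩ := half32 N M δ h' y hy
  exact ⟨x, hx, by rwa [norm_sub_rev]⟩

theorem eq_bi (M : VonNeumannAlgebra H) (π : G →* unitary (H →L[ℂ] H)) (hG : IsGroupVN M π) :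
    bi π = M := by
  refine VonNeumannAlgebra.ext fun x => ⟨fun hx => ?_, fun hx => ?_⟩
  · rw [← M.commutant_commutant, VonNeumannAlgebra.mem_commutant_iff]
    intro T hT
    refine (mem_bi π x).1 hx T fun g => ?_
    exact ((VonNeumannAlgebra.mem_commutant_iff.1 hT) _ (hG.mem g)).symm
  · rw [mem_bi]
    exact hG.gen x hx

theorem good_of_group (K L : Subgroup G) (hc : Cls K L) (M : VonNeumannAlgebra H)
    (π : G →* unitary (H →L[ℂ] H)) (hG : IsGroupVN M π) : Good K π := by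
  obtain ⟨τ, hτ, h0⟩ := hG.trace
  have hbi := eq_bi M π hG
  refine ⟨mixing_of_trace hτ π hG.mem h0, fun x hx hK => ?_⟩
  exact irr_of_group K hc.icc π τ (by rw [hbi]; exact hτ) h0 x hx hK

end Pool.Agent.Helper93.SP
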