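/-
Block SQ-RM (about 200 lines).  Right multiplications.  N a von Neumann algebra, ξ a unit vector
with tracial vector state, P = pcycN N ξ the projection onto the closure of N ξ.

For b in N the map y ξ ↦ y b ξ on N ξ is well defined and bounded by ‖b‖:
 ‖y b ξ‖^2 = τ(b* y* y b) = τ(y b b* y*) ≤ ‖b‖^2 τ(y y*) = ‖b‖^2 τ(y* y) = ‖b‖^2 ‖y ξ‖^2
(τ(x) = ⟪ξ, x ξ⟫; b b* ≤ ‖b‖^2: ‖b* y* ξ‖ ≤ ‖b‖ ‖y* ξ‖).  It extends to the closure of N ξ; R(b) = this
extension composed with P.  R(b) commutes with N (N leaves N ξ and its complement invariant), and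
with P; R(b) R(c) = R(c b); R(b)* = R(b*) (check on vectors y ξ, z ξ: ⟪z ξ, y b ξ⟫ = τ(z* y b) =
τ(b z* y) = ⟪z b* ξ, y ξ⟫); R(1) = P.  For a unitary representation σ of K with values in N put
 ρ0(k) = R(σ(k)*) + (1 - P): a unitary representation in N'.
-/
import Pool.Agent.Helper93.SP2.Defs2

set_option autoImplicit false

open scoped InnerProductSpace ComplexConjugate ENNReal NNReal
open Filter Topology

namespace Pool.Agent.Helper93.SP

variable {E : Type*} [NormedAddCommGroup E] [InnerProductSpace ℂ E] [CompleteSpace E]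

private theorem rm_mem (N : VonNeumannAlgebra E) (ξ : E) (v : E) :
    v ∈ Submodule.span ℂ {v : E | ∃ y ∈ N, v = y ξ} ↔ ∃ y ∈ N, v = y ξ := by
  constructor
  · intro hv
    induction hv using Submodule.span_induction with
    | mem x hx => exact hx
    | zero => exact ⟨0, zero_mem N, by simp⟩
    | add x y _ _ hx hy =>
      obtain ⟨a, ha, rfl⟩ := hx
      obtain ⟨b, hb, rfl⟩ := hy
      exact ⟨a + b, add_mem ha hb, by simp⟩
    | smul c x _ hx =>
      obtain ⟨a, ha, rfl⟩ := hx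
      refine ⟨c • a, ?_, by simp⟩
      exact N.toStarSubalgebra.smul_mem ha c
  · rintro ⟨y, hy, rfl⟩
    exact Submodule.subset_span ⟨y, hy, rfl⟩

private theorem rm_mem' (N : VonNeumannAlgebra E) (ξ : E) (y : E →L[ℂ] E) (hy : y ∈ N) :
    y ξ ∈ (Submodule.span ℂ {v : E | ∃ y ∈ N, v = y ξ}).topologicalClosure :=
  Submodule.le_topologicalClosure _ ((rm_mem N ξ _).2 ⟨y, hy, rfl⟩)

theorem isProj_pcycN (N : VonNeumannAlgebra E) (ξ : E) : IsProj (pcycN N ξ) := by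
  have h := isStarProjection_starProjection
    (U := (Submodule.span ℂ {v : E | ∃ y ∈ N, v = y ξ}).topologicalClosure)
  exact ⟨h.isSelfAdjoint.star_eq, h.isIdempotentElem.eq⟩

private theorem rm_proj_comm (V : Submodule ℂ E) [V.HasOrthogonalProjection] (b : E →L[ℂ] E)
    (h1 : ∀ v ∈ V, b v ∈ V) (h2 : ∀ v ∈ V, (star b) v ∈ V) :
    V.starProjection * b = b * V.starProjection := by
  ext x
  rw [mul_apply_eq_comp, mul_apply_eq_comp]
  refine Submodule.eq_starProjection_of_mem_of_inner_eq_zero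
    (h1 _ (Submodule.starProjection_apply_mem V x)) fun w hw => ?_
  have h3 : b x - b (V.starProjection x) = b (x - V.starProjection x) := by rw [map_sub]
  rw [h3, ← ContinuousLinearMap.adjoint_inner_right, ← ContinuousLinearMap.star_eq_adjoint]
  exact Submodule.starProjection_inner_eq_zero x _ (h2 w hw)

private theorem rm_inv (N : VonNeumannAlgebra E) (ξ : E) (x : E →L[ℂ] E) (hx : x ∈ N) :
    ∀ v ∈ (Submodule.span ℂ {v : E | ∃ y ∈ N, v = y ξ}).topologicalClosure,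
      x v ∈ (Submodule.span ℂ {v : E | ∃ y ∈ N, v = y ξ}).topologicalClosure := by
  intro v hv
  have hv' : v ∈ closure ((Submodule.span ℂ {v : E | ∃ y ∈ N, v = y ξ} : Submodule ℂ E) : Set E) :=
    hv
  have h1 : x v ∈ closure ((Submodule.span ℂ {v : E | ∃ y ∈ N, v = y ξ} : Submodule ℂ E) : Set E) := by
    refine map_mem_closure x.continuous hv' fun w hw => ?_
    obtain ⟨c, hc, rfl⟩ := (rm_mem N ξ w).1 hw
    exact (rm_mem N ξ _).2 ⟨x * c, mul_mem hx hc, rfl⟩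
  exact h1

theorem pcycN_mem (N : VonNeumannAlgebra E) (ξ : E) : pcycN N ξ ∈ N.commutant := by
  rw [VonNeumannAlgebra.mem_commutant_iff]
  intro x hx
  exact (rm_proj_comm _ x (rm_inv N ξ x hx) (rm_inv N ξ (star x) (star_mem hx))).symm

theorem pcycN_apply (N : VonNeumannAlgebra E) (ξ : E) (y : E →L[ℂ] E) (hy : y ∈ N) :
    pcycN N ξ (y ξ) = y ξ := by
  rw [pcycN, Submodule.starProjection_eq_self_iff]
  exact rm_mem' N ξ y hy

/-- Bounded operators agreeing on N ξ agree on the range of the projection. -/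
theorem eq_of_eq_on (N : VonNeumannAlgebra E) (ξ : E) (S T : E →L[ℂ] E)
    (h : ∀ y ∈ N, S (y ξ) = T (y ξ)) : S * pcycN N ξ = T * pcycN N ξ := by
  have key : (Submodule.span ℂ {v : E | ∃ y ∈ N, v = y ξ}).topologicalClosure ≤
      LinearMap.eqLocus (S : E →ₗ[ℂ] E) (T : E →ₗ[ℂ] E) := by
    refine Submodule.topologicalClosure_minimal _ ?_ ?_
    · intro v hv
      obtain ⟨y, hy, rfl⟩ := (rm_mem N ξ v).1 hv
      exact h y hy
    · exact isClosed_eq S.continuous T.continuous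
  ext ζ
  rw [mul_apply_eq_comp, mul_apply_eq_comp]
  exact key (Submodule.starProjection_apply_mem _ ζ)

private theorem rm_norm (N : VonNeumannAlgebra E) (ξ : E) (hξ : TrVec N ξ) (b : E →L[ℂ] E)
    (hb : b ∈ N) (y : E →L[ℂ] E) (hy : y ∈ N) : ‖(y * b) ξ‖ ≤ ‖b‖ * ‖y ξ‖ := by
  have hn : ∀ z : E →L[ℂ] E, z ∈ N → ‖z ξ‖ = ‖(star z) ξ‖ := by
    intro z hz
    have h1 : ⟪z ξ, z ξ⟫_ℂ = ⟪(star z) ξ, (star z) ξ⟫_ℂ := by
      have h2 := hξ.tracial (star z) (star_mem hz) z hz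
      rw [mul_apply_eq_comp, mul_apply_eq_comp] at h2
      have e1 : ⟪ξ, (star z) (z ξ)⟫_ℂ = ⟪z ξ, z ξ⟫_ℂ := by
        rw [ContinuousLinearMap.star_eq_adjoint, ContinuousLinearMap.adjoint_inner_right]
      have e2 : ⟪ξ, z ((star z) ξ)⟫_ℂ = ⟪(star z) ξ, (star z) ξ⟫_ℂ := by
        rw [ContinuousLinearMap.star_eq_adjoint, ContinuousLinearMap.adjoint_inner_left]
      rw [← e1, ← e2, h2]
    have h3 : ‖z ξ‖ ^ 2 = ‖(star z) ξ‖ ^ 2 := by
      rw [@norm_sq_eq_re_inner ℂ, @norm_sq_eq_re_inner ℂ, h1]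
    exact (sq_eq_sq₀ (norm_nonneg _) (norm_nonneg _)).1 h3
  rw [hn (y * b) (mul_mem hy hb), star_mul, mul_apply_eq_comp]
  calc ‖(star b) ((star y) ξ)‖ ≤ ‖star b‖ * ‖(star y) ξ‖ := (star b).le_opNorm _
    _ = ‖b‖ * ‖y ξ‖ := by rw [norm_star, ← hn y hy]

private theorem rm_ext (N : VonNeumannAlgebra E) (ξ : E) (hξ : TrVec N ξ) (b : E →L[ℂ] E)
    (hb : b ∈ N) :
    ∃ R : E →L[ℂ] E, (∀ y ∈ N, R (y ξ) = (y * b) ξ) ∧ R * pcycN N ξ = R ∧ ‖R‖ ≤ ‖b‖ := by
  obtain ⟨V, hV⟩ : ∃ V : Submodule ℂ E,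
      V = (Submodule.span ℂ {v : E | ∃ y ∈ N, v = y ξ}).topologicalClosure := ⟨_, rfl⟩
  have : CompleteSpace V := by
    rw [hV]; exact (Submodule.isClosed_topologicalClosure _).completeSpace_coe
  have hmem : ∀ y ∈ N, y ξ ∈ V := fun y hy => by rw [hV]; exact rm_mem' N ξ y hy
  let e : N.toStarSubalgebra →ₗ[ℂ] V :=
    { toFun := fun y => ⟨(y : E →L[ℂ] E) ξ, hmem _ y.2⟩
      map_add' := fun y z => by ext; simp
      map_smul' := fun c y => by ext; simp }
  let f : N.toStarSubalgebra →ₗ[ℂ] E :=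
    { toFun := fun y => ((y : E →L[ℂ] E) * b) ξ
      map_add' := fun y z => by simp
      map_smul' := fun c y => by simp }
  have hd : DenseRange e := by
    intro v
    rw [mem_closure_iff_nhds]
    intro t ht
    have hv : (v : E) ∈ closure ((Submodule.span ℂ {v : E | ∃ y ∈ N, v = y ξ} : Submodule ℂ E) :
        Set E) := hV.le v.2
    rw [nhds_subtype_eq_comap, Filter.mem_comap] at ht
    obtain ⟨s, hs, hst⟩ := ht
    obtain ⟨w, hw1, hw2⟩ := mem_closure_iff_nhds.1 hv s hs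
    obtain ⟨y, hy, rfl⟩ := (rm_mem N ξ w).1 hw2
    exact ⟨e ⟨y, hy⟩, hst hw1, ⟨⟨y, hy⟩, rfl⟩⟩
  have hn : ∀ y, ‖f y‖ ≤ ‖b‖ * ‖e y‖ := fun y => rm_norm N ξ hξ b hb _ y.2
  have hP : pcycN N ξ = V.starProjection := by
    subst hV
    rfl
  refine ⟨(f.extendOfNorm e) ∘L V.orthogonalProjectionOnto, ?_, ?_, ?_⟩
  · intro y hy
    have h1 : V.orthogonalProjectionOnto (y ξ) = e ⟨y, hy⟩ :=
      Submodule.orthogonalProjectionOnto_mem_subspace_eq_self (K := V) (e ⟨y, hy⟩)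
    rw [ContinuousLinearMap.comp_apply, h1, LinearMap.extendOfNorm_eq hd ⟨_, hn⟩]
    rfl
  · ext ζ
    rw [mul_apply_eq_comp, ContinuousLinearMap.comp_apply,
      ContinuousLinearMap.comp_apply, hP]
    congr 1
    exact Submodule.orthogonalProjectionOnto_mem_subspace_eq_self (K := V) _
  · refine (ContinuousLinearMap.opNorm_comp_le _ _).trans ?_
    calc ‖f.extendOfNorm e‖ * ‖V.orthogonalProjectionOnto‖ ≤ ‖b‖ * 1 := by
          refine mul_le_mul (LinearMap.opNorm_extendOfNorm_le hd (norm_nonneg _) hn)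
            (Submodule.orthogonalProjectionOnto_norm_le V) (ContinuousLinearMap.opNorm_nonneg _)
            (norm_nonneg _)
      _ = ‖b‖ := mul_one _

theorem exists_rm (N : VonNeumannAlgebra E) (ξ : E) (hξ : TrVec N ξ) (b : E →L[ℂ] E)
    (hb : b ∈ N) :
    ∃ R ∈ N.commutant, (∀ y ∈ N, R (y ξ) = (y * b) ξ) ∧ R * pcycN N ξ = R ∧
      pcycN N ξ * R = R ∧ ‖R‖ ≤ ‖b‖ := by
  obtain ⟨R, h1, h2, h3⟩ := rm_ext N ξ hξ b hb
  have hPc := VonNeumannAlgebra.mem_commutant_iff.1 (pcycN_mem N ξ)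
  refine ⟨R, ?_, h1, h2, ?_, h3⟩
  · rw [VonNeumannAlgebra.mem_commutant_iff]
    intro x hx
    have h4 := eq_of_eq_on N ξ (x * R) (R * x) (fun y hy => by
      rw [mul_apply_eq_comp, mul_apply_eq_comp, h1 y hy]
      have h5 := h1 (x * y) (mul_mem hx hy)
      rw [mul_apply_eq_comp] at h5
      rw [h5, mul_assoc, mul_apply_eq_comp x])
    rw [mul_assoc, h2, mul_assoc, hPc x hx, ← mul_assoc, h2] at h4
    exact h4
  · have h4 := eq_of_eq_on N ξ (pcycN N ξ * R) R (fun y hy => by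
      rw [mul_apply_eq_comp, h1 y hy, pcycN_apply N ξ _ (mul_mem hy hb)])
    rw [mul_assoc, h2] at h4
    exact h4

private theorem rm_star (N : VonNeumannAlgebra E) (ξ : E) (hξ : TrVec N ξ) (b : E →L[ℂ] E)
    (hb : b ∈ N) (R : E →L[ℂ] E) (h1 : ∀ y ∈ N, R (y ξ) = (y * b) ξ)
    (h2 : R * pcycN N ξ = R) (y : E →L[ℂ] E) (hy : y ∈ N) :
    (star R) (y ξ) = (y * star b) ξ := by
  have hPs := isProj_pcycN N ξ
  have h3 : pcycN N ξ * star R = star R := by
    have := congrArg star h2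
    rwa [star_mul, hPs.1] at this
  -- the difference lies in the closed span and is orthogonal to it
  obtain ⟨d, hd⟩ : ∃ d, d = (star R) (y ξ) - (y * star b) ξ := ⟨_, rfl⟩
  have hPd : pcycN N ξ d = d := by
    rw [hd, map_sub, pcycN_apply N ξ _ (mul_mem hy (star_mem hb)), ← mul_apply_eq_comp,
      h3]
  have hperp : ∀ z ∈ N, ⟪z ξ, d⟫_ℂ = 0 := by
    intro z hz
    have adj : ∀ x y : E →L[ℂ] E, ⟪x ξ, y ξ⟫_ℂ = ⟪ξ, (star x * y) ξ⟫_ℂ := fun x y => by
      rw [mul_apply_eq_comp, ContinuousLinearMap.star_eq_adjoint,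
        ContinuousLinearMap.adjoint_inner_right]
    have e0 : ⟪z ξ, (star R) (y ξ)⟫_ℂ = ⟪R (z ξ), y ξ⟫_ℂ := by
      rw [ContinuousLinearMap.star_eq_adjoint, ContinuousLinearMap.adjoint_inner_right]
    rw [hd, inner_sub_right, sub_eq_zero, e0, h1 z hz, adj, adj, star_mul, mul_assoc,
      hξ.tracial (star b) (star_mem hb) (star z * y) (mul_mem (star_mem hz) hy), mul_assoc]
  have hz : d = 0 := by
    have h5 : pcycN N ξ d = 0 := by
      rw [pcycN, Submodule.starProjection_apply_eq_zero_iff, Submodule.orthogonal_closure]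
      intro w hw
      obtain ⟨z, hz, rfl⟩ := (rm_mem N ξ w).1 hw
      exact hperp z hz
    rw [← hPd, h5]
  rw [hd, sub_eq_zero] at hz
  exact hz

theorem exists_rm_rep {K : Type*} [Group K] (N : VonNeumannAlgebra E) (ξ : E) (hξ : TrVec N ξ)
    (σ : K →* unitary (E →L[ℂ] E)) (hσ : ∀ k, (σ k : E →L[ℂ] E) ∈ N) :
    ∃ ρ0 : K →* unitary (E →L[ℂ] E), (∀ k, (ρ0 k : E →L[ℂ] E) ∈ N.commutant) ∧
      (∀ k, ∀ y ∈ N, (ρ0 k : E →L[ℂ] E) (y ξ) = (y * star (σ k : E →L[ℂ] E)) ξ) ∧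
      (∀ k, (ρ0 k : E →L[ℂ] E) * pcycN N ξ = pcycN N ξ * (ρ0 k : E →L[ℂ] E)) ∧
      ∀ k ζ, pcycN N ξ ζ = 0 → (ρ0 k : E →L[ℂ] E) ζ = ζ := by
  have hex := fun k => exists_rm N ξ hξ (star (σ k : E →L[ℂ] E)) (star_mem (hσ k))
  choose R hRc hR1 hR2 hR3 hR4 using hex
  obtain ⟨P, hP⟩ : ∃ P, P = pcycN N ξ := ⟨_, rfl⟩
  have hPc : P ∈ N.commutant := by rw [hP]; exact pcycN_mem N ξ
  have hPs : star P = P := by rw [hP]; exact (isProj_pcycN N ξ).1
  have hPP : P * P = P := by rw [hP]; exact (isProj_pcycN N ξ).2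
  have hPy : ∀ y ∈ N, P (y ξ) = y ξ := fun y hy => by rw [hP]; exact pcycN_apply N ξ y hy
  have hag : ∀ S T : E →L[ℂ] E, S * P = S → T * P = T → (∀ y ∈ N, S (y ξ) = T (y ξ)) → S = T := by
    intro S T hS hT h
    have := eq_of_eq_on N ξ S T h
    rwa [← hP, hS, hT] at this
  rw [← hP] at hR2 hR3
  have hmul : ∀ k l, R k * R l = R (k * l) := by
    intro k l
    refine hag _ _ (by rw [mul_assoc, hR2]) (hR2 _) fun y hy => ?_
    rw [mul_apply_eq_comp, hR1 l y hy, hR1 k _ (mul_mem hy (star_mem (hσ l))), hR1 (k * l) y hy,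
      map_mul, Submonoid.coe_mul, star_mul, mul_assoc]
  have hone : R 1 = P := by
    refine hag _ _ (hR2 _) hPP fun y hy => ?_
    rw [hR1 1 y hy, hPy y hy, map_one, OneMemClass.coe_one, star_one, mul_one]
  have hstar : ∀ k, star (R k) = R k⁻¹ := by
    intro k
    refine hag _ _ ?_ (hR2 _) fun y hy => ?_
    · have := congrArg star (hR3 k)
      rwa [star_mul, hPs] at this
    · rw [rm_star N ξ hξ _ (star_mem (hσ k)) (R k) (hR1 k) (by rw [← hP]; exact hR2 k) y hy,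
        star_star, hR1 k⁻¹ y hy, map_inv]
      have : ((σ k)⁻¹ : unitary (E →L[ℂ] E)) = star (σ k) := rfl
      rw [this, Unitary.coe_star, star_star]
  have hUmul : ∀ k l, (R k + (1 - P)) * (R l + (1 - P)) = R (k * l) + (1 - P) := by
    intro k l
    have e : (R k + (1 - P)) * (R l + (1 - P)) = R k * R l + (R k - R k * P) + (R l - P * R l) +
        (1 - P - P + P * P) := by noncomm_ring
    rw [e, hmul, hR2, hR3, hPP]
    abel
  have hUone : R 1 + (1 - P) = 1 := by rw [hone]; abel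
  have hUstar : ∀ k, star (R k + (1 - P)) = R k⁻¹ + (1 - P) := by
    intro k
    rw [star_add, star_sub, star_one, hPs, hstar]
  let ρ0 : K →* unitary (E →L[ℂ] E) :=
    { toFun := fun k => ⟨R k + (1 - P), by
        constructor
        · rw [hUstar, hUmul, inv_mul_cancel, hUone]
        · rw [hUstar, hUmul, mul_inv_cancel, hUone]⟩
      map_one' := Subtype.ext hUone
      map_mul' := fun k l => Subtype.ext (hUmul k l).symm }
  have hρ : ∀ k, (ρ0 k : E →L[ℂ] E) = R k + (1 - P) := fun k => rfl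
  refine ⟨ρ0, fun k => ?_, fun k y hy => ?_, fun k => ?_, fun k ζ hζ => ?_⟩
  · rw [hρ]
    exact add_mem (hRc k) (sub_mem (one_mem _) hPc)
  · rw [hρ, ContinuousLinearMap.add_apply, ContinuousLinearMap.sub_apply, hPy y hy, hR1 k y hy,
      ContinuousLinearMap.one_apply, sub_self, add_zero]
  · rw [hρ, ← hP, add_mul, mul_add, hR2, hR3, sub_mul, mul_sub, one_mul, mul_one]
  · rw [← hP] at hζ
    have h1 : R k ζ = 0 := by
      rw [← hR2 k, mul_apply_eq_comp, hζ, map_zero]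
    rw [hρ, ContinuousLinearMap.add_apply, ContinuousLinearMap.sub_apply, h1, hζ,
      ContinuousLinearMap.one_apply, sub_zero, zero_add]

end Pool.Agent.Helper93.SP
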