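/-
Block SQ-WI (about 180 lines).  Weak integrals of bounded operator valued functions with respect to
an invariant mean μ (IsInvMean).

* mean_conj: μ(conj f) = conj μ(f) for bounded f.  First for real f: if μ(f) = a + i b then for real
  t: |a + i (b + t)|^2 = |μ(f + i t)|^2 ≤ C^2 + t^2 for all t, so b = 0.  Then linearity.
* wint_spec: for bounded f, ⟪θ, (wint μ f) ζ⟫ = μ(k ↦ ⟪θ, f k ζ⟫) (bounded sesquilinear form gives an
  operator, as in block AVG, Pool/Agent/Helper93/SP/Avg.lean, whose proof contains all this).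
* the other statements follow by testing with vectors (`ext_inner_left` / norm by
  `ContinuousLinearMap.opNorm_le_of_...`): e.g. ‖⟪θ, wint ζ⟫‖ ≤ C ‖θ‖ ‖ζ‖ by IsInvMean.le.
* wint_mem: if all f k lie in a von Neumann algebra A then wint does: for T in the commutant
  ⟪θ, T (wint f) ζ⟫ = μ(⟪T* θ, f k ζ⟫) = μ(⟪θ, f k T ζ⟫); A = (A')'.
-/
import Pool.Agent.Helper93.SP2.Defs2
import Pool.Agent.Helper93.SP.Avg

set_option autoImplicit false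

open scoped InnerProductSpace ComplexConjugate ENNReal NNReal
open Filter Topology

namespace Pool.Agent.Helper93.SP

variable {K : Type*} [Group K] {E : Type*} [NormedAddCommGroup E] [InnerProductSpace ℂ E]
  [CompleteSpace E] {μ : (K → ℂ) → ℂ}

omit [CompleteSpace E] in
private theorem wi_norm_le (R : E →L[ℂ] E) (C : ℝ) (hC : 0 ≤ C)
    (h : ∀ θ ζ, ‖⟪θ, R ζ⟫_ℂ‖ ≤ C * ‖θ‖ * ‖ζ‖) : ‖R‖ ≤ C := by
  refine R.opNorm_le_bound hC fun ζ => ?_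
  have h1 := h (R ζ) ζ
  rw [inner_self_eq_norm_sq_to_K] at h1
  rw [norm_pow, RCLike.norm_ofReal, abs_norm] at h1
  rcases eq_or_lt_of_le (norm_nonneg (R ζ)) with h0 | h0
  · rw [← h0]; positivity
  · by_contra hlt
    push Not at hlt
    nlinarith

omit [Group K] [CompleteSpace E] in
private theorem wi_bdd {S : K → E →L[ℂ] E} {C : ℝ} (hS : ∀ k, ‖S k‖ ≤ C) (θ ζ : E) (k : K) :
    ‖⟪θ, S k ζ⟫_ℂ‖ ≤ C * ‖θ‖ * ‖ζ‖ := by
  calc ‖⟪θ, S k ζ⟫_ℂ‖ ≤ ‖θ‖ * ‖S k ζ‖ := norm_inner_le_norm _ _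
    _ ≤ ‖θ‖ * (C * ‖ζ‖) := by
        gcongr
        exact ((S k).le_opNorm ζ).trans (mul_le_mul_of_nonneg_right (hS k) (norm_nonneg _))
    _ = C * ‖θ‖ * ‖ζ‖ := by ring

private theorem wi_exists (hμ : IsInvMean μ)
    (S : K → E →L[ℂ] E) (C : ℝ) (hS : ∀ k, ‖S k‖ ≤ C) :
    ∃ T' : E →L[ℂ] E, ∀ θ ζ, ⟪θ, T' ζ⟫_ℂ = μ (fun k => ⟪θ, S k ζ⟫_ℂ) := by
  have hb : ∀ θ ζ : E, ∃ C', ∀ k, ‖⟪θ, S k ζ⟫_ℂ‖ ≤ C' := fun θ ζ => ⟨_, wi_bdd hS θ ζ⟩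
  let B : E →ₗ⋆[ℂ] E →ₗ[ℂ] ℂ := LinearMap.mk₂'ₛₗ (starRingEnd ℂ) (RingHom.id ℂ)
    (fun θ ζ => μ (fun k => ⟪θ, S k ζ⟫_ℂ))
    (fun θ₁ θ₂ ζ => by
      rw [← hμ.add _ _ (hb θ₁ ζ) (hb θ₂ ζ)]
      simp only [inner_add_left])
    (fun c θ ζ => by
      rw [smul_eq_mul, ← hμ.smul _ _ (hb θ ζ)]
      simp only [inner_smul_left])
    (fun θ ζ₁ ζ₂ => by
      rw [← hμ.add _ _ (hb θ ζ₁) (hb θ ζ₂)]
      simp only [map_add, inner_add_right])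
    (fun c θ ζ => by
      rw [RingHom.id_apply, smul_eq_mul, ← hμ.smul _ _ (hb θ ζ)]
      simp only [map_smul, inner_smul_right])
  have hB : ∀ θ ζ, ‖B θ ζ‖ ≤ C * ‖θ‖ * ‖ζ‖ := fun θ ζ => hμ.le _ _ (wi_bdd hS θ ζ)
  refine ⟨ContinuousLinearMap.adjoint
    (InnerProductSpace.continuousLinearMapOfBilin (B.mkContinuous₂ C hB)), fun θ ζ => ?_⟩
  rw [ContinuousLinearMap.adjoint_inner_right,
    InnerProductSpace.continuousLinearMapOfBilin_apply]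
  rfl

/-- The mean of a real function is real. -/
private theorem wi_real (hμ : IsInvMean μ) (f : K → ℝ) (C : ℝ) (hf : ∀ k, |f k| ≤ C) :
    (μ (fun k => (f k : ℂ))).im = 0 := by
  have hf' : ∀ k, ‖(f k : ℂ)‖ ≤ C := fun k => by
    rw [Complex.norm_real]
    exact hf k
  set w := μ (fun k => (f k : ℂ)) with hw
  have key : ∀ t : ℝ, (w.im + t) ^ 2 ≤ C ^ 2 + t ^ 2 := by
    intro t
    have h1 : μ (fun k => (f k : ℂ) + (t * Complex.I) * 1) = w + t * Complex.I := by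
      rw [hμ.add (fun k => (f k : ℂ)) (fun _ => (t * Complex.I) * 1) ⟨C, hf'⟩ ⟨_, fun _ => le_rfl⟩,
        hμ.smul (t * Complex.I) (fun _ => 1) ⟨_, fun _ => le_rfl⟩, hμ.one, mul_one]
    have h2 : ‖w + t * Complex.I‖ ≤ Real.sqrt (C ^ 2 + t ^ 2) := by
      rw [← h1]
      refine hμ.le _ _ fun k => ?_
      rw [Complex.norm_def]
      refine Real.sqrt_le_sqrt ?_
      rw [Complex.normSq_apply]
      simp only [mul_one, Complex.add_re, Complex.ofReal_re, Complex.mul_re, Complex.I_re,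
        mul_zero, Complex.ofReal_im, Complex.I_im, sub_zero, add_zero, Complex.add_im,
        Complex.mul_im, zero_add]
      have h3 := abs_le.1 (hf k)
      nlinarith
    have h3 : |(w + t * Complex.I).im| ≤ ‖w + t * Complex.I‖ := Complex.abs_im_le_norm _
    have h4 : (w + t * Complex.I).im = w.im + t := by simp
    rw [h4] at h3
    have h5 := h3.trans h2
    have h6 : 0 ≤ C ^ 2 + t ^ 2 := by positivity
    calc (w.im + t) ^ 2 = |w.im + t| ^ 2 := (sq_abs _).symm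
      _ ≤ Real.sqrt (C ^ 2 + t ^ 2) ^ 2 := pow_le_pow_left₀ (abs_nonneg _) h5 2
      _ = C ^ 2 + t ^ 2 := Real.sq_sqrt h6
  by_contra hne
  have h1 := key ((C ^ 2 + 1) / (2 * w.im))
  have h2 : 2 * w.im * ((C ^ 2 + 1) / (2 * w.im)) = C ^ 2 + 1 := by
    field_simp
  nlinarith [sq_nonneg w.im]

omit [CompleteSpace E] in
private theorem wi_ext {S T : E →L[ℂ] E} (h : ∀ θ ζ, ⟪θ, S ζ⟫_ℂ = ⟪θ, T ζ⟫_ℂ) : S = T :=
  ContinuousLinearMap.ext fun ζ => ext_inner_left ℂ fun θ => h θ ζ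

theorem mean_conj (hμ : IsInvMean μ) (f : K → ℂ) (hf : ∃ C, ∀ k, ‖f k‖ ≤ C) :
    μ (fun k => conj (f k)) = conj (μ f) := by
  obtain ⟨C, hC⟩ := hf
  have hre : ∀ k, |(f k).re| ≤ C := fun k => (Complex.abs_re_le_norm _).trans (hC k)
  have him : ∀ k, |(f k).im| ≤ C := fun k => (Complex.abs_im_le_norm _).trans (hC k)
  have hre' : ∃ C : ℝ, ∀ k, ‖((f k).re : ℂ)‖ ≤ C := ⟨C, fun k => by
    rw [Complex.norm_real]
    exact hre k⟩
  have him' : ∃ C : ℝ, ∀ k, ‖((f k).im : ℂ)‖ ≤ C := ⟨C, fun k => by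
    rw [Complex.norm_real]
    exact him k⟩
  have hIm : ∀ c : ℂ, ‖c‖ ≤ 1 → ∃ C : ℝ, ∀ k, ‖c * ((f k).im : ℂ)‖ ≤ C := fun c hc =>
    ⟨C, fun k => by
      rw [norm_mul, Complex.norm_real]
      calc ‖c‖ * ‖(f k).im‖ ≤ 1 * ‖(f k).im‖ := mul_le_mul_of_nonneg_right hc (norm_nonneg _)
        _ ≤ C := by rw [one_mul]; exact him k⟩
  have h1 := wi_real hμ (fun k => (f k).re) C hre
  have h2 := wi_real hμ (fun k => (f k).im) C him
  set A := μ (fun k => ((f k).re : ℂ)) with hA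
  set B := μ (fun k => ((f k).im : ℂ)) with hB
  have hf1 : μ f = A + Complex.I * B := by
    have h3 : f = fun k => ((f k).re : ℂ) + Complex.I * ((f k).im : ℂ) := by
      funext k
      rw [mul_comm]
      exact (Complex.re_add_im (f k)).symm
    rw [h3, hμ.add _ _ hre' (hIm Complex.I (by simp)), hμ.smul _ _ him']
  have hf2 : μ (fun k => conj (f k)) = A + (-Complex.I) * B := by
    have h3 : (fun k => conj (f k)) = fun k => ((f k).re : ℂ) + (-Complex.I) * ((f k).im : ℂ) := by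
      funext k
      apply Complex.ext <;> simp
    rw [h3, hμ.add _ _ hre' (hIm (-Complex.I) (by simp)), hμ.smul _ _ him']
  rw [hf1, hf2]
  apply Complex.ext
  · simp [h2]
  · simp [h1]

theorem wint_spec (hμ : IsInvMean μ) (f : K → E →L[ℂ] E) (hf : ∃ C, ∀ k, ‖f k‖ ≤ C) (θ ζ : E) :
    ⟪θ, wint μ f ζ⟫_ℂ = μ (fun k => ⟪θ, f k ζ⟫_ℂ) := by
  obtain ⟨C, hC⟩ := hf
  have h : ∃ T : E →L[ℂ] E, ∀ θ ζ : E, ⟪θ, T ζ⟫_ℂ = μ (fun k => ⟪θ, f k ζ⟫_ℂ) :=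
    wi_exists hμ f C hC
  rw [wint, dif_pos h]
  exact h.choose_spec θ ζ

theorem norm_wint_le (hμ : IsInvMean μ) (f : K → E →L[ℂ] E) (C : ℝ) (hf : ∀ k, ‖f k‖ ≤ C) :
    ‖wint μ f‖ ≤ C := by
  refine wi_norm_le _ C ((norm_nonneg _).trans (hf 1)) fun θ ζ => ?_
  rw [wint_spec hμ f ⟨C, hf⟩]
  exact hμ.le _ _ (wi_bdd hf θ ζ)

theorem wint_const (hμ : IsInvMean μ) (T : E →L[ℂ] E) : wint μ (fun _ : K => T) = T := by
  refine wi_ext fun θ ζ => ?_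
  rw [wint_spec hμ _ ⟨_, fun _ => le_rfl⟩]
  have := hμ.smul (⟪θ, T ζ⟫_ℂ) (fun _ => 1) ⟨1, fun _ => by simp⟩
  simpa [hμ.one] using this

theorem wint_sub (hμ : IsInvMean μ) (f g : K → E →L[ℂ] E) (hf : ∃ C, ∀ k, ‖f k‖ ≤ C)
    (hg : ∃ C, ∀ k, ‖g k‖ ≤ C) : wint μ (fun k => f k - g k) = wint μ f - wint μ g := by
  obtain ⟨C, hC⟩ := hf
  obtain ⟨C', hC'⟩ := hg
  refine wi_ext fun θ ζ => ?_
  rw [ContinuousLinearMap.sub_apply, inner_sub_right, wint_spec hμ _ ⟨C, hC⟩,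
    wint_spec hμ _ ⟨C', hC'⟩, wint_spec hμ _ ⟨C + C', fun k =>
      (norm_sub_le _ _).trans (add_le_add (hC k) (hC' k))⟩]
  have h1 : (fun k => ⟪θ, (f k - g k) ζ⟫_ℂ) =
      fun k => ⟪θ, f k ζ⟫_ℂ + (-1) * ⟪θ, g k ζ⟫_ℂ := by
    funext k
    rw [ContinuousLinearMap.sub_apply, inner_sub_right]
    ring
  rw [h1, hμ.add _ _ ⟨_, wi_bdd hC θ ζ⟩ ⟨C' * ‖θ‖ * ‖ζ‖, fun k => by
    rw [norm_mul, norm_neg, norm_one, one_mul]
    exact wi_bdd hC' θ ζ k⟩, hμ.smul _ _ ⟨_, wi_bdd hC' θ ζ⟩]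
  ring

theorem wint_add (hμ : IsInvMean μ) (f g : K → E →L[ℂ] E) (hf : ∃ C, ∀ k, ‖f k‖ ≤ C)
    (hg : ∃ C, ∀ k, ‖g k‖ ≤ C) : wint μ (fun k => f k + g k) = wint μ f + wint μ g := by
  obtain ⟨C, hC⟩ := hf
  obtain ⟨C', hC'⟩ := hg
  refine wi_ext fun θ ζ => ?_
  rw [ContinuousLinearMap.add_apply, inner_add_right, wint_spec hμ _ ⟨C, hC⟩,
    wint_spec hμ _ ⟨C', hC'⟩, wint_spec hμ _ ⟨C + C', fun k =>
      (norm_add_le _ _).trans (add_le_add (hC k) (hC' k))⟩]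
  have h1 : (fun k => ⟪θ, (f k + g k) ζ⟫_ℂ) =
      fun k => ⟪θ, f k ζ⟫_ℂ + ⟪θ, g k ζ⟫_ℂ := by
    funext k
    rw [ContinuousLinearMap.add_apply, inner_add_right]
  rw [h1, hμ.add _ _ ⟨_, wi_bdd hC θ ζ⟩ ⟨_, wi_bdd hC' θ ζ⟩]

theorem wint_mul (hμ : IsInvMean μ) (a b : E →L[ℂ] E) (f : K → E →L[ℂ] E)
    (hf : ∃ C, ∀ k, ‖f k‖ ≤ C) : wint μ (fun k => a * f k * b) = a * wint μ f * b := by
  have hf' : ∃ C, ∀ k, ‖a * f k * b‖ ≤ C := by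
    obtain ⟨C, hC⟩ := hf
    refine ⟨‖a‖ * C * ‖b‖, fun k => ?_⟩
    refine (norm_mul_le _ _).trans (mul_le_mul_of_nonneg_right ?_ (norm_nonneg _))
    exact (norm_mul_le _ _).trans (mul_le_mul_of_nonneg_left (hC k) (norm_nonneg _))
  refine wi_ext fun θ ζ => ?_
  have e1 : (a * wint μ f * b) ζ = a (wint μ f (b ζ)) := rfl
  rw [e1, wint_spec hμ _ hf', ← ContinuousLinearMap.adjoint_inner_left a, wint_spec hμ _ hf]
  congr 1
  funext k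
  rw [ContinuousLinearMap.adjoint_inner_left]
  rfl

theorem star_wint (hμ : IsInvMean μ) (f : K → E →L[ℂ] E) (hf : ∃ C, ∀ k, ‖f k‖ ≤ C) :
    star (wint μ f) = wint μ (fun k => star (f k)) := by
  have hf' : ∃ C, ∀ k, ‖star (f k)‖ ≤ C := by
    obtain ⟨C, hC⟩ := hf
    refine ⟨C, fun k => ?_⟩
    rw [norm_star]
    exact hC k
  refine wi_ext fun θ ζ => ?_
  have hb : ∃ C', ∀ k, ‖⟪ζ, f k θ⟫_ℂ‖ ≤ C' := by
    obtain ⟨C, hC⟩ := hf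
    exact ⟨_, wi_bdd hC ζ θ⟩
  rw [ContinuousLinearMap.star_eq_adjoint, ContinuousLinearMap.adjoint_inner_right,
    ← inner_conj_symm, wint_spec hμ _ hf, ← mean_conj hμ _ hb, wint_spec hμ _ hf']
  congr 1
  funext k
  rw [inner_conj_symm, ContinuousLinearMap.star_eq_adjoint,
    ContinuousLinearMap.adjoint_inner_right]

theorem wint_inv (hμ : IsInvMean μ) (f : K → E →L[ℂ] E) (hf : ∃ C, ∀ k, ‖f k‖ ≤ C) (h : K) :
    wint μ (fun k => f (h * k)) = wint μ f := by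
  obtain ⟨C, hC⟩ := hf
  refine wi_ext fun θ ζ => ?_
  rw [wint_spec hμ _ ⟨C, hC⟩, wint_spec hμ _ ⟨C, fun k => hC (h * k)⟩]
  exact hμ.inv h (fun k => ⟪θ, f k ζ⟫_ℂ) ⟨_, wi_bdd hC θ ζ⟩

theorem wint_mem (hμ : IsInvMean μ) (A : VonNeumannAlgebra E) (f : K → E →L[ℂ] E)
    (hf : ∃ C, ∀ k, ‖f k‖ ≤ C) (hA : ∀ k, f k ∈ A) : wint μ f ∈ A := by
  rw [← A.commutant_commutant, VonNeumannAlgebra.mem_commutant_iff]
  intro T hT
  rw [VonNeumannAlgebra.mem_commutant_iff] at hT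
  have h1 := wint_mul hμ T 1 f hf
  have h2 := wint_mul hμ 1 T f hf
  simp only [mul_one, one_mul] at h1 h2
  rw [← h1, ← h2]
  congr 1
  funext k
  exact (hT (f k) (hA k)).symm

theorem norm_wint_sub_le (hμ : IsInvMean μ) (f : K → E →L[ℂ] E) (hf : ∃ C, ∀ k, ‖f k‖ ≤ C)
    (T : E →L[ℂ] E) (C : ℝ) (h : ∀ k, ‖f k - T‖ ≤ C) : ‖wint μ f - T‖ ≤ C := by
  have h1 := wint_sub hμ f (fun _ => T) hf ⟨_, fun _ => le_rfl⟩
  rw [wint_const hμ] at h1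
  rw [← h1]
  exact norm_wint_le hμ _ C h

end Pool.Agent.Helper93.SP
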