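/-
Block SQ-KZ1 (kz_step, about 180 lines; kz_limit and kz are block SQ-KZ2 in KZB.lean).  Kazhdan's theorem on almost representations of
an amenable group in a von Neumann algebra A, with intertwiner.

(kz_step)  F : K → unitaries of A, ‖F(gh) - F(g)F(h)‖ ≤ D ≤ 1/100 for all g, h.
 A1(g) = wint over h of F(gh) F(h)* = F(g) + C(g), C(g) = wint of c(g,h) = F(gh)F(h)* - F(g),
 ‖c‖ ≤ D, ‖C‖ ≤ D.  Since F(gkh)F(h)* = F(g(kh))F(kh)* F(kh)F(h)* = (F(g) + c(g,kh)) (F(k) + c(k,h)),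
 integrating over h (wint_inv for h ↦ kh in the term with c(g,kh) alone):
   A1(gk) = F(g)F(k) + F(g) C(k) + C(g) F(k) + wint c(g,kh)c(k,h) = A1(g)A1(k) - C(g)C(k) + wint(...),
 so ‖A1(gk) - A1(g)A1(k)‖ ≤ 2D^2.  A1(1) = 1.  A1(g)* = wint F(h) F(gh)* = A1(g⁻¹) (substitute
 h → g⁻¹ h: star_wint, wint_inv).  So ‖A1(g)* A1(g) - 1‖ ≤ 2D^2 and the same for A1(g) A1(g)*.
 F'(g) = unitary part of A1(g) (in A; for the sharper estimate ‖F'(g) - A1(g)‖ = ‖1 - |A1(g)|‖
 ≤ ‖1 - A1(g)* A1(g)‖ ≤ 2D^2 redo the two lines of uni_part: F' = A1 |A1|⁻¹).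
 Then ‖F'(g) - F(g)‖ ≤ D + 2D^2 ≤ 2D and
 ‖F'(gk) - F'(g)F'(k)‖ ≤ 2D^2 + 2D^2 + 2·2D^2·(1 + 2D^2) ≤ 10 D^2 ≤ D/10.
(kz_limit)  Iterate: F_n with defects ≤ D 10^(-n), ‖F_(n+1) - F_n‖ ≤ 2 D 10^(-n); the uniform limit
 ρ is a homomorphism into the unitaries of A (A is norm closed: e.g. it is a commutant), and
 ‖ρ(k) - F(k)‖ ≤ 4 D.
(kz)  ρ0 a unitary representation of K on E, every ρ0(k) within ε ≤ 1/2000 of A.  F(k) = unitary part
 (uni_part with U = ρ0(k), T = a_k in A): ‖F(k) - ρ0(k)‖ ≤ 4ε, defect ≤ 12 ε =: D ≤ 1/100.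
 ρ from kz_limit: ‖ρ(k) - ρ0(k)‖ ≤ 52 ε.  T = wint of ρ(k) ρ0(k)*: ‖T - 1‖ ≤ 52 ε ≤ 1/10 and
 ρ(h) T = T ρ0(h) (wint_mul, wint_inv), so T ρ0(h) = ρ(h) T; w = unitary part with U = 1:
 ‖w - 1‖ ≤ 208 ε, w ρ0(h) = ρ(h) w, so w ρ0(h) w* = ρ(h) is in A.  If x commutes with A and with all
 ρ0(k) then x commutes with T and T* (with the functions under the integral), so with w.
-/
import Pool.Agent.Helper93.SP2.WI
import Pool.Agent.Helper93.SP2.Uni

set_option autoImplicit false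

open scoped InnerProductSpace ComplexConjugate ENNReal NNReal
open Filter Topology

namespace Pool.Agent.Helper93.SP

variable {K : Type*} [Group K] {E : Type*} [NormedAddCommGroup E] [InnerProductSpace ℂ E]
  [CompleteSpace E]

private theorem norm_uni34 (U : unitary (E →L[ℂ] E)) : ‖(U : E →L[ℂ] E)‖ ≤ 1 := by
  have h := CStarRing.norm_coe_unitary_mul U (1 : E →L[ℂ] E)
  rw [mul_one] at h
  rw [h]
  exact ContinuousLinearMap.norm_id_le

/-- unitary part with the sharp estimate -/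
private theorem uni_sharp34 (T : E →L[ℂ] E) (η : ℝ) (hη : η ≤ 1 / 2) (h1 : ‖star T * T - 1‖ ≤ η)
    (h2 : ‖T * star T - 1‖ ≤ η) : ∃ V : unitary (E →L[ℂ] E), ‖(V : E →L[ℂ] E) - T‖ ≤ η ∧
      ∀ A : VonNeumannAlgebra E, T ∈ A → (V : E →L[ℂ] E) ∈ A := by
  have hη0 : 0 ≤ η := (norm_nonneg _).trans h1
  set a : E →L[ℂ] E := star T * T with ha_def
  have ha : IsSelfAdjoint a := IsSelfAdjoint.star_mul_self T
  have hsp : ∀ t ∈ spectrum ℝ a, |t - 1| ≤ η := by
    intro t ht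
    have h3 : (t - 1) + 1 ∈ spectrum ℝ a := by simpa using ht
    rw [spectrum.add_mem_iff, map_one] at h3
    have h4 := spectrum.norm_le_norm_mul_of_mem h3
    have h5 : ‖(-1 : E →L[ℂ] E) + a‖ ≤ η := by
      rw [neg_add_eq_sub]; exact h1
    have h6 : ‖(1 : E →L[ℂ] E)‖ ≤ 1 := ContinuousLinearMap.norm_id_le
    rw [Real.norm_eq_abs] at h4
    calc |t - 1| ≤ ‖(-1 : E →L[ℂ] E) + a‖ * ‖(1 : E →L[ℂ] E)‖ := h4
      _ ≤ η * 1 := mul_le_mul h5 h6 (norm_nonneg _) hη0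
      _ = η := mul_one _
  have hpos : ∀ t ∈ spectrum ℝ a, 0 < t := by
    intro t ht
    have := (abs_le.1 (hsp t ht)).1
    linarith
  have hsq : ∀ t ∈ spectrum ℝ a, √t ≠ 0 := fun t ht => (Real.sqrt_pos.2 (hpos t ht)).ne'
  set g : ℝ → ℝ := fun t => (√t)⁻¹ with hg
  have hgc : ContinuousOn g (spectrum ℝ a) :=
    Real.continuous_sqrt.continuousOn.inv₀ hsq
  have hsc : ContinuousOn (fun t : ℝ => √t) (spectrum ℝ a) := Real.continuous_sqrt.continuousOn
  set R : E →L[ℂ] E := cfc g a with hR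
  set S : E →L[ℂ] E := cfc (fun t : ℝ => √t) a with hS
  have hRs : star R = R := (cfc_predicate g a : IsSelfAdjoint (cfc g a)).star_eq
  have hRS : R * S = 1 := by
    rw [hR, hS, ← cfc_mul g (fun t : ℝ => √t) a hgc hsc, ← cfc_const_one ℝ a]
    refine cfc_congr fun t ht => ?_
    exact inv_mul_cancel₀ (hsq t ht)
  have hSR : S * R = 1 := by
    rw [hR, hS, ← cfc_mul (fun t : ℝ => √t) g a hsc hgc, ← cfc_const_one ℝ a]
    refine cfc_congr fun t ht => ?_
    exact mul_inv_cancel₀ (hsq t ht)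
  have hSS : S * S = a := by
    rw [hS, ← cfc_mul (fun t : ℝ => √t) (fun t : ℝ => √t) a hsc hsc]
    conv_rhs => rw [← cfc_id ℝ a]
    refine cfc_congr fun t ht => ?_
    exact Real.mul_self_sqrt (hpos t ht).le
  have hRaR : R * a * R = 1 := by
    rw [← hSS, ← mul_assoc, hRS, one_mul, hSR]
  have hun : IsUnit (T * R) := by
    have hu1 : IsUnit a := by
      have := (Units.oneSub (1 - a) (lt_of_le_of_lt (by rw [norm_sub_rev]; exact h1)
        (lt_of_le_of_lt hη (by norm_num)))).isUnit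
      simpa using this
    have hu2 : IsUnit (T * star T) := by
      have := (Units.oneSub (1 - T * star T) (lt_of_le_of_lt (by rw [norm_sub_rev]; exact h2)
        (lt_of_le_of_lt hη (by norm_num)))).isUnit
      simpa using this
    have hT : IsUnit T := by
      obtain ⟨u1, hu1'⟩ := hu1
      obtain ⟨u2, hu2'⟩ := hu2
      refine isUnit_iff_exists_and_exists.2 ⟨⟨star T * (↑u2⁻¹ : E →L[ℂ] E), ?_⟩,
        ⟨(↑u1⁻¹ : E →L[ℂ] E) * star T, ?_⟩⟩
      · rw [← mul_assoc, ← hu2', Units.mul_inv]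
      · rw [mul_assoc, ← ha_def, ← hu1', Units.inv_mul]
    have hRu : IsUnit R := isUnit_iff_exists.2 ⟨S, hRS, hSR⟩
    exact hT.mul hRu
  have hVV : star (T * R) * (T * R) = 1 := by
    rw [star_mul, hRs, mul_assoc, ← mul_assoc (star T), ← ha_def, ← mul_assoc, hRaR]
  have hVV' : (T * R) * star (T * R) = 1 := by
    obtain ⟨u, hu⟩ := hun
    have h3 : star (T * R) = (↑u⁻¹ : E →L[ℂ] E) := by
      calc star (T * R) = star (T * R) * (T * R * (↑u⁻¹ : E →L[ℂ] E)) := by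
            rw [← hu, Units.mul_inv, mul_one]
        _ = (↑u⁻¹ : E →L[ℂ] E) := by rw [← mul_assoc, hVV, one_mul]
    rw [h3, ← hu, Units.mul_inv]
  have hVm : T * R ∈ unitary (E →L[ℂ] E) := ⟨hVV, hVV'⟩
  refine ⟨⟨T * R, hVm⟩, ?_, fun A hA => ?_⟩
  · have h3 : (T * R) - T = (T * R) * (1 - S) := by
      rw [mul_sub, mul_one, mul_assoc, hRS, mul_one]
    have h4 := CStarRing.norm_coe_unitary_mul (⟨T * R, hVm⟩ : unitary (E →L[ℂ] E)) (1 - S)
    change ‖(T * R) - T‖ ≤ η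
    change ‖(T * R) * (1 - S)‖ = _ at h4
    rw [h3, h4]
    have h5 : 1 - S = cfc (fun t : ℝ => 1 - √t) a := by
      rw [cfc_sub (fun _ : ℝ => (1 : ℝ)) (fun t : ℝ => √t) a (by fun_prop) hsc, cfc_const_one ℝ a]
    rw [h5]
    refine norm_cfc_le hη0 fun t ht => ?_
    rw [Real.norm_eq_abs]
    have h6 := Real.sqrt_nonneg t
    have h7 := Real.mul_self_sqrt (hpos t ht).le
    have h8 : |1 - √t| * |1 + √t| = |t - 1| := by
      rw [← abs_mul, ← abs_neg (t - 1)]; congr 1; nlinarith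
    have h9 : 1 ≤ |1 + √t| := by rw [abs_of_nonneg (by linarith)]; linarith
    have h10 := abs_nonneg (1 - √t)
    have h11 := hsp t ht
    nlinarith
  · change T * R ∈ A
    have hTs : star T ∈ A := star_mem hA
    have haA : a ∈ A := mul_mem hTs hA
    refine mul_mem hA ?_
    rw [← VonNeumannAlgebra.commutant_commutant A, VonNeumannAlgebra.mem_commutant_iff]
    intro x hx
    rw [VonNeumannAlgebra.mem_commutant_iff] at hx
    have h3 : Commute a x := hx a haA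
    exact (ha.commute_cfc h3 g).symm.eq

theorem kz_step (hK : Amen K) (A : VonNeumannAlgebra E) (F : K → unitary (E →L[ℂ] E))
    (hF : ∀ k, (F k : E →L[ℂ] E) ∈ A) (D : ℝ) (hD : D ≤ 1 / 100)
    (h : ∀ g k, ‖(F (g * k) : E →L[ℂ] E) - (F g : E →L[ℂ] E) * (F k : E →L[ℂ] E)‖ ≤ D) :
    ∃ F' : K → unitary (E →L[ℂ] E), (∀ k, (F' k : E →L[ℂ] E) ∈ A) ∧
      (∀ k, ‖(F' k : E →L[ℂ] E) - (F k : E →L[ℂ] E)‖ ≤ 2 * D) ∧
      ∀ g k, ‖(F' (g * k) : E →L[ℂ] E) - (F' g : E →L[ℂ] E) * (F' k : E →L[ℂ] E)‖ ≤ D / 10 := by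
  obtain ⟨μ, hμ⟩ := hK
  have hD0 : 0 ≤ D := (norm_nonneg _).trans (h 1 1)
  set f : K → E →L[ℂ] E := fun k => (F k : E →L[ℂ] E) with hf
  have hf1 : ∀ k, ‖f k‖ ≤ 1 := fun k => norm_uni34 (F k)
  have hfs : ∀ k, ‖star (f k)‖ ≤ 1 := fun k => by rw [norm_star]; exact hf1 k
  have hfu : ∀ k, f k * star (f k) = 1 := fun k => Unitary.mul_star_self_of_mem (F k).2
  have hfu' : ∀ k, star (f k) * f k = 1 := fun k => Unitary.star_mul_self_of_mem (F k).2
  have hfA : ∀ k, f k ∈ A := hF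
  -- the cocycle defect
  set c : K → K → E →L[ℂ] E := fun g k => f (g * k) * star (f k) - f g with hc
  have hcn : ∀ g k, ‖c g k‖ ≤ D := by
    intro g k
    have h3 : c g k = (f (g * k) - f g * f k) * star (f k) := by
      rw [sub_mul, mul_assoc (f g), hfu, mul_one]
    rw [h3]
    calc ‖(f (g * k) - f g * f k) * star (f k)‖ ≤ ‖f (g * k) - f g * f k‖ * ‖star (f k)‖ :=
          norm_mul_le _ _
      _ ≤ D * 1 := mul_le_mul (h g k) (hfs k) (norm_nonneg _) hD0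
      _ = D := mul_one D
  have hcb : ∀ g, ∃ C, ∀ k, ‖c g k‖ ≤ C := fun g => ⟨D, hcn g⟩
  set C : K → E →L[ℂ] E := fun g => wint μ (c g) with hC
  have hCn : ∀ g, ‖C g‖ ≤ D := fun g => norm_wint_le hμ (c g) D (hcn g)
  set T : K → E →L[ℂ] E := fun g => wint μ (fun k => f (g * k) * star (f k)) with hT
  have hprod : ∀ g k, ‖f (g * k) * star (f k)‖ ≤ 1 := fun g k =>
    (norm_mul_le _ _).trans (by
      calc ‖f (g * k)‖ * ‖star (f k)‖ ≤ 1 * 1 :=
            mul_le_mul (hf1 _) (hfs _) (norm_nonneg _) zero_le_one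
        _ = 1 := one_mul 1)
  have hTn : ∀ g, ‖T g‖ ≤ 1 := fun g => norm_wint_le hμ _ 1 (hprod g)
  have hTC : ∀ g, T g = f g + C g := by
    intro g
    have h3 : wint μ (c g) = wint μ (fun k => f (g * k) * star (f k)) - wint μ (fun _ : K => f g) :=
      wint_sub hμ _ _ ⟨1, hprod g⟩ ⟨1, fun _ => hf1 g⟩
    rw [wint_const hμ] at h3
    change T g = f g + wint μ (c g)
    rw [h3]
    abel
  have hTA : ∀ g, T g ∈ A := fun g => wint_mem hμ A _ ⟨1, hprod g⟩ fun k =>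
    mul_mem (hfA _) (star_mem (hfA _))
  have hT1 : T 1 = 1 := by
    change wint μ (fun k => f (1 * k) * star (f k)) = 1
    have : (fun k : K => f (1 * k) * star (f k)) = fun _ => (1 : E →L[ℂ] E) := by
      funext k
      rw [one_mul, hfu]
    rw [this, wint_const hμ]
  have hTs : ∀ g, star (T g) = T g⁻¹ := by
    intro g
    change star (wint μ (fun k => f (g * k) * star (f k))) = wint μ (fun k => f (g⁻¹ * k) * star (f k))
    rw [star_wint hμ _ ⟨1, hprod g⟩]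
    have h3 := wint_inv hμ (fun k => star (f (g * k) * star (f k)))
      ⟨1, fun k => by rw [norm_star]; exact hprod g k⟩ g⁻¹
    rw [← h3]
    congr 1
    funext k
    rw [star_mul, star_star, mul_inv_cancel_left]
  -- almost multiplicativity
  have hmul : ∀ g k, ‖T (g * k) - T g * T k‖ ≤ 2 * D ^ 2 := by
    intro g k
    have hcc : ∀ x, ‖c g (k * x) * c k x‖ ≤ D ^ 2 := fun x =>
      (norm_mul_le _ _).trans (by
        calc ‖c g (k * x)‖ * ‖c k x‖ ≤ D * D := mul_le_mul (hcn _ _) (hcn _ _) (norm_nonneg _) hD0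
          _ = D ^ 2 := by ring)
    have e1 : (fun x => f (g * k * x) * star (f x)) =
        fun x => ((f g * f k + f g * c k x) + c g (k * x) * f k) + c g (k * x) * c k x := by
      funext x
      have h3 : f (g * k * x) * star (f x) =
          (f (g * (k * x)) * star (f (k * x))) * (f (k * x) * star (f x)) := by
        rw [mul_assoc (f (g * (k * x))), ← mul_assoc (star (f (k * x))), hfu', one_mul, mul_assoc g k x]
      have h4 : f (g * (k * x)) * star (f (k * x)) = f g + c g (k * x) := by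
        change _ = f g + (f (g * (k * x)) * star (f (k * x)) - f g)
        abel
      have h5 : f (k * x) * star (f x) = f k + c k x := by
        change _ = f k + (f (k * x) * star (f x) - f k)
        abel
      rw [h3, h4, h5, add_mul, mul_add, mul_add]
      abel
    have b1 : ∃ B, ∀ x : K, ‖f g * f k‖ ≤ B := ⟨_, fun _ => le_rfl⟩
    have b2 : ∃ B, ∀ x : K, ‖f g * c k x‖ ≤ B := ⟨‖f g‖ * D, fun x =>
      (norm_mul_le _ _).trans (mul_le_mul_of_nonneg_left (hcn _ _) (norm_nonneg _))⟩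
    have b3 : ∃ B, ∀ x : K, ‖c g (k * x) * f k‖ ≤ B := ⟨D * ‖f k‖, fun x =>
      (norm_mul_le _ _).trans (mul_le_mul_of_nonneg_right (hcn _ _) (norm_nonneg _))⟩
    have b4 : ∃ B, ∀ x : K, ‖c g (k * x) * c k x‖ ≤ B := ⟨_, hcc⟩
    have b12 : ∃ B, ∀ x : K, ‖f g * f k + f g * c k x‖ ≤ B := by
      obtain ⟨B1, hB1⟩ := b1; obtain ⟨B2, hB2⟩ := b2
      exact ⟨B1 + B2, fun x => (norm_add_le _ _).trans (add_le_add (hB1 x) (hB2 x))⟩
    have b123 : ∃ B, ∀ x : K, ‖(f g * f k + f g * c k x) + c g (k * x) * f k‖ ≤ B := by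
      obtain ⟨B1, hB1⟩ := b12; obtain ⟨B2, hB2⟩ := b3
      exact ⟨B1 + B2, fun x => (norm_add_le _ _).trans (add_le_add (hB1 x) (hB2 x))⟩
    have e2 : T (g * k) = ((f g * f k + f g * C k) + C g * f k) +
        wint μ (fun x => c g (k * x) * c k x) := by
      change wint μ (fun x => f (g * k * x) * star (f x)) = _
      rw [e1, wint_add hμ _ _ b123 b4, wint_add hμ _ _ b12 b3, wint_add hμ _ _ b1 b2, wint_const hμ]
      have h3 := wint_mul hμ (f g) 1 (c k) (hcb k)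
      simp only [mul_one] at h3
      have h4 := wint_mul hμ 1 (f k) (fun x => c g (k * x)) ⟨D, fun x => hcn _ _⟩
      simp only [one_mul] at h4
      rw [h3, h4, wint_inv hμ (c g) (hcb g) k]
    have e3 : T (g * k) - T g * T k = wint μ (fun x => c g (k * x) * c k x) - C g * C k := by
      rw [e2, hTC g, hTC k, add_mul, mul_add, mul_add]
      abel
    rw [e3]
    calc ‖wint μ (fun x => c g (k * x) * c k x) - C g * C k‖ ≤
        ‖wint μ (fun x => c g (k * x) * c k x)‖ + ‖C g * C k‖ := norm_sub_le _ _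
      _ ≤ D ^ 2 + D * D := by
        refine add_le_add (norm_wint_le hμ _ _ hcc) ((norm_mul_le _ _).trans ?_)
        exact mul_le_mul (hCn _) (hCn _) (norm_nonneg _) hD0
      _ = 2 * D ^ 2 := by ring
  have hη : 2 * D ^ 2 ≤ 1 / 2 := by nlinarith
  have hs1 : ∀ g, ‖star (T g) * T g - 1‖ ≤ 2 * D ^ 2 := by
    intro g
    have h3 := hmul g⁻¹ g
    rw [inv_mul_cancel, hT1, ← hTs, norm_sub_rev] at h3
    exact h3
  have hs2 : ∀ g, ‖T g * star (T g) - 1‖ ≤ 2 * D ^ 2 := by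
    intro g
    have h3 := hmul g g⁻¹
    rw [mul_inv_cancel, hT1, ← hTs, norm_sub_rev] at h3
    exact h3
  choose V hV hVA using fun g => uni_sharp34 (T g) (2 * D ^ 2) hη (hs1 g) (hs2 g)
  refine ⟨V, fun k => hVA k A (hTA k), fun k => ?_, fun g k => ?_⟩
  · have h3 : (V k : E →L[ℂ] E) - (F k : E →L[ℂ] E) = ((V k : E →L[ℂ] E) - T k) + C k := by
      rw [hTC k]
      change _ = ((V k : E →L[ℂ] E) - ((F k : E →L[ℂ] E) + C k)) + C k
      abel
    rw [h3]
    calc ‖((V k : E →L[ℂ] E) - T k) + C k‖ ≤ 2 * D ^ 2 + D :=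
          (norm_add_le _ _).trans (add_le_add (hV k) (hCn k))
      _ ≤ 2 * D := by nlinarith
  · have h3 : (V (g * k) : E →L[ℂ] E) - (V g : E →L[ℂ] E) * (V k : E →L[ℂ] E) =
        ((V (g * k) : E →L[ℂ] E) - T (g * k)) + (T (g * k) - T g * T k) +
        ((T g - (V g : E →L[ℂ] E)) * T k + (V g : E →L[ℂ] E) * (T k - (V k : E →L[ℂ] E))) := by
      rw [sub_mul, mul_sub]
      abel
    have h4 : ‖(T g - (V g : E →L[ℂ] E)) * T k‖ ≤ 2 * D ^ 2 := by
      refine (norm_mul_le _ _).trans ?_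
      rw [norm_sub_rev]
      calc ‖(V g : E →L[ℂ] E) - T g‖ * ‖T k‖ ≤ 2 * D ^ 2 * 1 :=
            mul_le_mul (hV g) (hTn k) (norm_nonneg _) (by positivity)
        _ = 2 * D ^ 2 := mul_one _
    have h5 : ‖(V g : E →L[ℂ] E) * (T k - (V k : E →L[ℂ] E))‖ ≤ 2 * D ^ 2 := by
      rw [CStarRing.norm_coe_unitary_mul, norm_sub_rev]
      exact hV k
    rw [h3]
    calc _ ≤ (2 * D ^ 2 + 2 * D ^ 2) + (2 * D ^ 2 + 2 * D ^ 2) :=
          (norm_add_le _ _).trans (add_le_add ((norm_add_le _ _).trans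
            (add_le_add (hV _) (hmul _ _))) ((norm_add_le _ _).trans (add_le_add h4 h5)))
      _ ≤ D / 10 := by nlinarith

end Pool.Agent.Helper93.SP
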