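/-
Block SQ-KZ2 (about 180 lines): kz_limit and kz.  The proof in words is in the header of KZ.lean.
-/
import Pool.Agent.Helper93.SP2.KZ

set_option autoImplicit false

open scoped InnerProductSpace ComplexConjugate ENNReal NNReal
open Filter Topology

namespace Pool.Agent.Helper93.SP

variable {K : Type*} [Group K] {E : Type*} [NormedAddCommGroup E] [InnerProductSpace ℂ E]
  [CompleteSpace E]

theorem kz_limit (hK : Amen K) (A : VonNeumannAlgebra E) (F : K → unitary (E →L[ℂ] E))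
    (hF : ∀ k, (F k : E →L[ℂ] E) ∈ A) (D : ℝ) (hD : D ≤ 1 / 100)
    (h : ∀ g k, ‖(F (g * k) : E →L[ℂ] E) - (F g : E →L[ℂ] E) * (F k : E →L[ℂ] E)‖ ≤ D) :
    ∃ ρ : K →* unitary (E →L[ℂ] E), (∀ k, (ρ k : E →L[ℂ] E) ∈ A) ∧
      ∀ k, ‖(ρ k : E →L[ℂ] E) - (F k : E →L[ℂ] E)‖ ≤ 4 * D := by
  have key : ∀ (F : K → unitary (E →L[ℂ] E)) (D : ℝ), ((∀ k, (F k : E →L[ℂ] E) ∈ A) ∧
      D ≤ 1 / 100 ∧
      ∀ g k, ‖(F (g * k) : E →L[ℂ] E) - (F g : E →L[ℂ] E) * (F k : E →L[ℂ] E)‖ ≤ D) →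
      ∃ F' : K → unitary (E →L[ℂ] E), (∀ k, (F' k : E →L[ℂ] E) ∈ A) ∧
        (∀ k, ‖(F' k : E →L[ℂ] E) - (F k : E →L[ℂ] E)‖ ≤ 2 * D) ∧
        ∀ g k, ‖(F' (g * k) : E →L[ℂ] E) - (F' g : E →L[ℂ] E) * (F' k : E →L[ℂ] E)‖ ≤ D / 10 :=
    fun F D hFD => kz_step hK A F hFD.1 D hFD.2.1 hFD.2.2
  choose! nxt hn1 hn2 hn3 using key
  have hD0 : 0 ≤ D := (norm_nonneg _).trans (h 1 1)
  obtain ⟨S, hS0, hSs⟩ : ∃ S : ℕ → K → unitary (E →L[ℂ] E), S 0 = F ∧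
      ∀ n, S (n + 1) = nxt (S n) (D * (1 / 10) ^ n) :=
    ⟨fun n => Nat.rec F (fun n Fn => nxt Fn (D * (1 / 10) ^ n)) n, rfl, fun n => rfl⟩
  have hDn : ∀ n : ℕ, D * (1 / 10) ^ n ≤ 1 / 100 := fun n =>
    (mul_le_of_le_one_right hD0 (pow_le_one₀ (by norm_num) (by norm_num))).trans hD
  have hinv : ∀ n, (∀ k, (S n k : E →L[ℂ] E) ∈ A) ∧ D * (1 / 10) ^ n ≤ 1 / 100 ∧
      ∀ g k, ‖(S n (g * k) : E →L[ℂ] E) - (S n g : E →L[ℂ] E) * (S n k : E →L[ℂ] E)‖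
        ≤ D * (1 / 10) ^ n := by
    intro n
    induction n with
    | zero => rw [hS0]; exact ⟨hF, hDn 0, by simpa using h⟩
    | succ n ih =>
      rw [hSs]
      refine ⟨hn1 _ _ ih, hDn (n + 1), fun g k => ?_⟩
      have := hn3 _ _ ih g k
      rw [pow_succ]
      linarith
  have hstep : ∀ n k, ‖(S (n + 1) k : E →L[ℂ] E) - (S n k : E →L[ℂ] E)‖
      ≤ 2 * (D * (1 / 10) ^ n) := by
    intro n k
    rw [hSs]
    exact hn2 _ _ (hinv n) k
  have hdist : ∀ k n, dist (S n k : E →L[ℂ] E) (S (n + 1) k : E →L[ℂ] E)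
      ≤ 2 * D * (1 / 10) ^ n := by
    intro k n
    rw [dist_comm, dist_eq_norm]
    have := hstep n k
    linarith
  have hlim : ∀ k, ∃ a : E →L[ℂ] E, Tendsto (fun n => (S n k : E →L[ℂ] E)) atTop (𝓝 a) :=
    fun k => cauchySeq_tendsto_of_complete
      (cauchySeq_of_le_geometric (1 / 10) (2 * D) (by norm_num) (hdist k))
  choose a ha using hlim
  have hau : ∀ k, a k ∈ unitary (E →L[ℂ] E) := by
    intro k
    have hst : Tendsto (fun n => star (S n k : E →L[ℂ] E)) atTop (𝓝 (star (a k))) :=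
      (continuous_star.tendsto _).comp (ha k)
    constructor
    · refine tendsto_nhds_unique (hst.mul (ha k)) ?_
      refine Tendsto.congr (fun n => ?_) tendsto_const_nhds
      exact (Unitary.star_mul_self_of_mem (S n k).2).symm
    · refine tendsto_nhds_unique ((ha k).mul hst) ?_
      refine Tendsto.congr (fun n => ?_) tendsto_const_nhds
      exact (Unitary.mul_star_self_of_mem (S n k).2).symm
  have hmul : ∀ g k, a (g * k) = a g * a k := by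
    intro g k
    have h1 : Tendsto (fun n => (S n (g * k) : E →L[ℂ] E) - (S n g : E →L[ℂ] E) *
        (S n k : E →L[ℂ] E)) atTop (𝓝 (a (g * k) - a g * a k)) :=
      (ha (g * k)).sub ((ha g).mul (ha k))
    have h2 : Tendsto (fun n : ℕ => D * (1 / 10 : ℝ) ^ n) atTop (𝓝 0) := by
      simpa using (tendsto_pow_atTop_nhds_zero_of_lt_one (r := (1 / 10 : ℝ)) (by norm_num)
        (by norm_num)).const_mul D
    have h3 : Tendsto (fun n => (S n (g * k) : E →L[ℂ] E) - (S n g : E →L[ℂ] E) *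
        (S n k : E →L[ℂ] E)) atTop (𝓝 0) :=
      squeeze_zero_norm (fun n => (hinv n).2.2 g k) h2
    exact sub_eq_zero.1 (tendsto_nhds_unique h1 h3)
  refine ⟨MonoidHom.mk' (fun k => (⟨a k, hau k⟩ : unitary (E →L[ℂ] E)))
    (fun g k => Subtype.ext (hmul g k)), fun k => ?_, fun k => ?_⟩
  · change a k ∈ A
    rw [← VonNeumannAlgebra.commutant_commutant A, VonNeumannAlgebra.mem_commutant_iff]
    intro g hg
    have hcomm : ∀ n, g * (S n k : E →L[ℂ] E) = (S n k : E →L[ℂ] E) * g := by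
      intro n
      exact ((VonNeumannAlgebra.mem_commutant_iff.1 hg) _ ((hinv n).1 k)).symm
    refine tendsto_nhds_unique ((ha k).const_mul g) ?_
    exact Tendsto.congr (fun n => (hcomm n).symm) ((ha k).mul_const g)
  · change ‖a k - (F k : E →L[ℂ] E)‖ ≤ 4 * D
    have h1 := dist_le_of_le_geometric_of_tendsto₀ (1 / 10) (2 * D) (by norm_num) (hdist k) (ha k)
    rw [hS0, dist_comm, dist_eq_norm] at h1
    refine h1.trans ?_
    have : 2 * D / (1 - 1 / 10) = 20 / 9 * D := by ring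
    rw [this]
    linarith

theorem kz (hK : Amen K) (A : VonNeumannAlgebra E) (ρ0 : K →* unitary (E →L[ℂ] E)) (ε : ℝ)
    (hε : ε ≤ 1 / 2000) (h : ∀ k, ∃ a ∈ A, ‖a - (ρ0 k : E →L[ℂ] E)‖ ≤ ε) :
    ∃ w : unitary (E →L[ℂ] E), ‖(w : E →L[ℂ] E) - 1‖ ≤ 250 * ε ∧
      (∀ k, (w : E →L[ℂ] E) * (ρ0 k : E →L[ℂ] E) * star (w : E →L[ℂ] E) ∈ A) ∧
      ∀ x : E →L[ℂ] E, (∀ a ∈ A, x * a = a * x) →
        (∀ k, x * (ρ0 k : E →L[ℂ] E) = (ρ0 k : E →L[ℂ] E) * x) →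
        x * (w : E →L[ℂ] E) = (w : E →L[ℂ] E) * x := by
  obtain ⟨μ, hμ⟩ := hK
  have hK : Amen K := ⟨μ, hμ⟩
  have hε0 : 0 ≤ ε := by
    obtain ⟨b, -, hb⟩ := h 1
    exact (norm_nonneg _).trans hb
  choose b hbA hb using h
  have huni := fun k => uni_part (b k) (ρ0 k : E →L[ℂ] E) (ρ0 k).2 ε (by linarith) (hb k)
  choose F hF1 hF2 hF3 hF4 using huni
  have hdef : ∀ g k, ‖(F (g * k) : E →L[ℂ] E) - (F g : E →L[ℂ] E) * (F k : E →L[ℂ] E)‖
      ≤ 12 * ε := by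
    intro g k
    have e1 : (F (g * k) : E →L[ℂ] E) - (F g : E →L[ℂ] E) * (F k : E →L[ℂ] E)
        = ((F (g * k) : E →L[ℂ] E) - (ρ0 (g * k) : E →L[ℂ] E))
          - ((F g : E →L[ℂ] E) - (ρ0 g : E →L[ℂ] E)) * (ρ0 k : E →L[ℂ] E)
          - (F g : E →L[ℂ] E) * ((F k : E →L[ℂ] E) - (ρ0 k : E →L[ℂ] E)) := by
      have : (ρ0 (g * k) : E →L[ℂ] E) = (ρ0 g : E →L[ℂ] E) * (ρ0 k : E →L[ℂ] E) := by
        rw [map_mul]; rfl
      rw [this]
      noncomm_ring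
    rw [e1]
    refine (norm_sub_le _ _).trans ?_
    have h1 := norm_sub_le ((F (g * k) : E →L[ℂ] E) - (ρ0 (g * k) : E →L[ℂ] E))
      (((F g : E →L[ℂ] E) - (ρ0 g : E →L[ℂ] E)) * (ρ0 k : E →L[ℂ] E))
    rw [CStarRing.norm_mul_coe_unitary] at h1
    rw [CStarRing.norm_coe_unitary_mul]
    have h2 := hF1 (g * k)
    have h3 := hF1 g
    have h4 := hF1 k
    linarith
  obtain ⟨ρ, hρA, hρF⟩ := kz_limit hK A F (fun k => hF2 k A (hbA k)) (12 * ε) (by linarith) hdef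
  have hρ0 : ∀ k, ‖(ρ k : E →L[ℂ] E) - (ρ0 k : E →L[ℂ] E)‖ ≤ 52 * ε := by
    intro k
    have h1 := hρF k
    have h2 := hF1 k
    have h3 : (ρ k : E →L[ℂ] E) - (ρ0 k : E →L[ℂ] E)
        = ((ρ k : E →L[ℂ] E) - (F k : E →L[ℂ] E)) + ((F k : E →L[ℂ] E) - (ρ0 k : E →L[ℂ] E)) := by
      abel
    rw [h3]
    refine (norm_add_le _ _).trans ?_
    linarith
  have hst : ∀ σ : K →* unitary (E →L[ℂ] E), ∀ k,
      star (σ k : E →L[ℂ] E) = (σ k⁻¹ : E →L[ℂ] E) := by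
    intro σ k
    rw [map_inv]
    rfl
  set f : K → E →L[ℂ] E := fun k => (ρ k : E →L[ℂ] E) * star (ρ0 k : E →L[ℂ] E) with hf
  have hf1 : ∀ k, ‖f k - 1‖ ≤ 52 * ε := by
    intro k
    have e1 : f k - 1 = ((ρ k : E →L[ℂ] E) - (ρ0 k : E →L[ℂ] E)) * (ρ0 k⁻¹ : E →L[ℂ] E) := by
      rw [hf]
      simp only
      rw [hst, sub_mul]
      congr 1
      rw [← hst]
      exact (Unitary.mul_star_self_of_mem (ρ0 k).2).symm
    rw [e1, CStarRing.norm_mul_coe_unitary]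
    exact hρ0 k
  have hfb : ∃ C, ∀ k, ‖f k‖ ≤ C := by
    refine ⟨52 * ε + ‖(1 : E →L[ℂ] E)‖, fun k => ?_⟩
    have : f k = (f k - 1) + 1 := by abel
    rw [this]
    exact (norm_add_le _ _).trans (add_le_add_left (hf1 k) _)
  set T : E →L[ℂ] E := wint μ f with hT
  have hT1 : ‖T - 1‖ ≤ 52 * ε := norm_wint_sub_le hμ f hfb 1 _ hf1
  have hinter : ∀ g, T * (ρ0 g : E →L[ℂ] E) = (ρ g : E →L[ℂ] E) * T := by
    intro g
    have h1 : (ρ g : E →L[ℂ] E) * T * star (ρ0 g : E →L[ℂ] E) = T := by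
      rw [hT, ← wint_mul hμ _ _ f hfb]
      rw [← wint_inv hμ f hfb g]
      congr 1
      funext k
      rw [hf]
      simp only
      have e1 : (ρ (g * k) : E →L[ℂ] E) = (ρ g : E →L[ℂ] E) * (ρ k : E →L[ℂ] E) := by
        rw [map_mul]; rfl
      have e2 : (ρ0 (g * k) : E →L[ℂ] E) = (ρ0 g : E →L[ℂ] E) * (ρ0 k : E →L[ℂ] E) := by
        rw [map_mul]; rfl
      rw [e1, e2, star_mul]
      noncomm_ring
    calc T * (ρ0 g : E →L[ℂ] E)
        = (ρ g : E →L[ℂ] E) * T * star (ρ0 g : E →L[ℂ] E) * (ρ0 g : E →L[ℂ] E) := by rw [h1]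
      _ = (ρ g : E →L[ℂ] E) * T * (star (ρ0 g : E →L[ℂ] E) * (ρ0 g : E →L[ℂ] E)) := by
          rw [mul_assoc]
      _ = (ρ g : E →L[ℂ] E) * T := by
          rw [Unitary.star_mul_self_of_mem (ρ0 g).2, mul_one]
  obtain ⟨w, hw1, hw2, hw3, hw4⟩ := uni_part T 1 (one_mem _) (52 * ε) (by linarith) hT1
  refine ⟨w, by linarith, fun k => ?_, fun x hxA hxρ => ?_⟩
  · rw [hw3 _ (ρ0 k).2 _ (ρ k).2 (hinter k), mul_assoc, Unitary.mul_star_self_of_mem w.2, mul_one]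
    exact hρA k
  · have hx0 : ∀ k, x * star (ρ0 k : E →L[ℂ] E) = star (ρ0 k : E →L[ℂ] E) * x := by
      intro k
      rw [hst]
      exact hxρ k⁻¹
    have hx1 : ∀ k, x * star (ρ k : E →L[ℂ] E) = star (ρ k : E →L[ℂ] E) * x := by
      intro k
      rw [hst]
      exact hxA _ (hρA k⁻¹)
    have hcm : ∀ φ : K → E →L[ℂ] E, (∃ C, ∀ k, ‖φ k‖ ≤ C) → (∀ k, x * φ k = φ k * x) →
        x * wint μ φ = wint μ φ * x := by
      intro φ hφ hcomm
      have h1 := wint_mul hμ x 1 φ hφ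
      have h2 := wint_mul hμ 1 x φ hφ
      rw [mul_one] at h1
      rw [one_mul] at h2
      rw [← h1, ← h2]
      congr 1
      funext k
      rw [mul_one, one_mul]
      exact hcomm k
    apply hw4
    · rw [hT]
      apply hcm f hfb
      intro k
      rw [hf]
      simp only
      rw [← mul_assoc, hxA _ (hρA k), mul_assoc, hx0 k, mul_assoc]
    · rw [hT, star_wint hμ f hfb]
      apply hcm
      · obtain ⟨C, hC⟩ := hfb
        exact ⟨C, fun k => by rw [norm_star]; exact hC k⟩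
      · intro k
        rw [hf]
        simp only
        rw [star_mul, star_star, ← mul_assoc, hxρ k, mul_assoc, hx1 k, mul_assoc]

end Pool.Agent.Helper93.SP
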