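/-
Block SQ-KTR (about 200 lines).  Relative commutants of π(K) and normalising unitaries.

π is Good for K (K amenable), Near (bi π) N δ with δ ≤ 1/10, π(k) in N for k in K.
* irr_N: y in N commuting with π(K) is a scalar.  Let B be the set of these y (a star algebra,
  closed under subtraction of scalars).  For y in B take x in bi π with ‖x - y‖ ≤ δ ‖y‖ and
  x' = wint over k of π(k) x π(k)* in bi π (wint_mem), commuting with π(K) (wint_inv, wint_mul), so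
  x' = c 1 by Good.irr, and ‖x' - y‖ ≤ δ ‖y‖ (norm_wint_sub_le; y commutes with π(k)).  So every y in B
  is within δ ‖y‖ of the scalars.  Let d = dist(y, ℂ 1); choose λ with ‖y - λ‖ ≤ 2d (if d > 0):
  d = dist(y - λ, ℂ 1) ≤ δ ‖y - λ‖ ≤ 2 δ d, so d = 0 and y is a scalar (ℂ 1 is closed).
* exists_v: for g in G there is a unitary v in N with v π(k) = π(g k g⁻¹) v for k in K.
  Let n in N with ‖n - π(g)‖ ≤ δ and v0 = wint over k of π(g k g⁻¹) n π(k)*; in N (π(gkg⁻¹) in N as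
  gkg⁻¹ in K), ‖v0 - π(g)‖ ≤ δ since π(gkg⁻¹) π(g) π(k)* = π(g); v0 π(h) = π(ghg⁻¹) v0 (invariance).
  v0* v0 and v0 v0* in N commute with π(K) (use the relation and its adjoint: v0* π(ghg⁻¹) =
  π(h) v0*; for v0 v0* every element of K is ghg⁻¹), so they are scalars, equal, c > 0 since v0 is
  invertible (‖v0 - π(g)‖ < 1); v = v0 / sqrt c.
* fixed_vec: ξ a TrVec for N, ζ in the range of pcycN N ξ, ρ0 as in exists_rm_rep for σ = π|K, and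
  π(k) ρ0(k) ζ = ζ for all k in K.  Then ζ = c ξ.  For y in N: φ(y) = ⟪ζ, y ξ⟫ satisfies
  φ(π(k) y π(k)*) = φ(y): ⟪ζ, π(k) y π(k)* ξ⟫ = ⟪ζ, π(k) ρ0(k) y ξ⟫ = ⟪(π(k)ρ0(k))* ζ, y ξ⟫ = φ(y)
  (ρ0(k) y ξ = y π(k)* ξ; ρ0(k) commutes with π(k); (π(k)ρ0(k))* ζ = ζ as it is unitary and fixes ζ).
  y' = wint π(k) y π(k)* in N commutes with π(K): y' = c(y) 1 by irr_N; wint_spec: φ(y') = mean of the
  constant φ(y) = φ(y), and in the same way ⟪ξ, y' ξ⟫ = ⟪ξ, y ξ⟫ (tracial), so c(y) = ⟪ξ, y ξ⟫ and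
  ⟪ζ, y ξ⟫ = ⟪ξ, y ξ⟫ ⟪ζ, ξ⟫ for all y in N; so ζ - conj(...) ξ is orthogonal to N ξ and in its
  closure.
-/
import Pool.Agent.Helper93.SP2.WI
import Pool.Agent.Helper93.SP2.RM

set_option autoImplicit false

open scoped InnerProductSpace ComplexConjugate ENNReal NNReal
open Filter Topology

namespace Pool.Agent.Helper93.SP

variable {G : Type*} [Group G] {E : Type*} [NormedAddCommGroup E] [InnerProductSpace ℂ E]
  [CompleteSpace E]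

/-! ### preliminary facts -/

private theorem ktr_norm_conj (u w : unitary (E →L[ℂ] E)) (x : E →L[ℂ] E) :
    ‖(u : E →L[ℂ] E) * x * star (w : E →L[ℂ] E)‖ ≤ ‖x‖ := by
  refine ContinuousLinearMap.opNorm_le_bound _ (norm_nonneg _) fun ζ => ?_
  have e : ((u : E →L[ℂ] E) * x * star (w : E →L[ℂ] E)) ζ =
      (u : E →L[ℂ] E) (x ((star (w : E →L[ℂ] E)) ζ)) := rfl
  rw [e, ContinuousLinearMap.norm_map_of_mem_unitary u.2]
  refine (x.le_opNorm _).trans (le_of_eq ?_)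
  rw [ContinuousLinearMap.norm_map_of_mem_unitary (Unitary.star_mem w.2)]

private theorem ktr_star (π : G →* unitary (E →L[ℂ] E)) (g : G) :
    star (π g : E →L[ℂ] E) = (π g⁻¹ : E →L[ℂ] E) := by
  rw [map_inv]
  rfl

private theorem ktr_mul (π : G →* unitary (E →L[ℂ] E)) (g h : G) :
    (π g : E →L[ℂ] E) * (π h : E →L[ℂ] E) = (π (g * h) : E →L[ℂ] E) := by
  rw [map_mul]
  rfl

private theorem ktr_one (π : G →* unitary (E →L[ℂ] E)) : (π 1 : E →L[ℂ] E) = 1 := by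
  rw [map_one]
  rfl

private theorem ktr_star_mul (π : G →* unitary (E →L[ℂ] E)) (g : G) :
    star (π g : E →L[ℂ] E) * (π g : E →L[ℂ] E) = 1 := by
  rw [ktr_star, ktr_mul, inv_mul_cancel, ktr_one]

private theorem ktr_mul_star (π : G →* unitary (E →L[ℂ] E)) (g : G) :
    (π g : E →L[ℂ] E) * star (π g : E →L[ℂ] E) = 1 := by
  rw [ktr_star, ktr_mul, mul_inv_cancel, ktr_one]

/-- the averaged operator -/
private theorem ktr_avg (K : Subgroup G) {μ : (K → ℂ) → ℂ} (hμ : IsInvMean μ)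
    (π : G →* unitary (E →L[ℂ] E)) (x : E →L[ℂ] E) (h : G) (hh : h ∈ K) :
    wint μ (fun k : K => (π k : E →L[ℂ] E) * x * star (π k : E →L[ℂ] E)) * (π h : E →L[ℂ] E) =
      (π h : E →L[ℂ] E) * wint μ (fun k : K => (π k : E →L[ℂ] E) * x * star (π k : E →L[ℂ] E)) := by
  have hb : ∃ C, ∀ k : K, ‖(π k : E →L[ℂ] E) * x * star (π k : E →L[ℂ] E)‖ ≤ C :=
    ⟨‖x‖, fun k => ktr_norm_conj _ _ _⟩
  have h1 := wint_inv hμ _ hb ⟨h, hh⟩
  have h2 := wint_mul hμ (π h : E →L[ℂ] E) (star (π h : E →L[ℂ] E)) _ hb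
  have h3 : (fun k : K => (π ((⟨h, hh⟩ * k : K) : G) : E →L[ℂ] E) * x *
      star (π ((⟨h, hh⟩ * k : K) : G) : E →L[ℂ] E)) =
      fun k : K => (π h : E →L[ℂ] E) * ((π k : E →L[ℂ] E) * x * star (π k : E →L[ℂ] E)) *
        star (π h : E →L[ℂ] E) := by
    funext k
    have e : ((⟨h, hh⟩ * k : K) : G) = h * k := rfl
    rw [e, ← ktr_mul, star_mul]
    noncomm_ring
  rw [h3] at h1
  rw [h1] at h2
  nth_rewrite 1 [h2]
  rw [mul_assoc, mul_assoc, ktr_star_mul, mul_one]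

private theorem ktr_near (K : Subgroup G) (hK : Amen K) (π : G →* unitary (E →L[ℂ] E))
    (hπ : Good K π) (N : VonNeumannAlgebra E) (δ : ℝ) (hδ : δ ≤ 1 / 10) (hN : Near (bi π) N δ)
    (y : E →L[ℂ] E) (hy : y ∈ N)
    (h : ∀ k ∈ K, y * (π k : E →L[ℂ] E) = (π k : E →L[ℂ] E) * y) :
    ∃ c : ℂ, ‖c • (1 : E →L[ℂ] E) - y‖ ≤ 1 / 10 * ‖y‖ := by
  obtain ⟨μ, hμ⟩ := hK
  obtain ⟨x, hx, hxy⟩ := hN.2 y hy
  have hb : ∃ C, ∀ k : K, ‖(π k : E →L[ℂ] E) * x * star (π k : E →L[ℂ] E)‖ ≤ C :=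
    ⟨‖x‖, fun k => ktr_norm_conj _ _ _⟩
  obtain ⟨c, hc⟩ := hπ.irr (wint μ fun k : K => (π k : E →L[ℂ] E) * x * star (π k : E →L[ℂ] E))
    (wint_mem hμ _ _ hb fun k => mul_mem (mul_mem (rep_mem_bi π _) hx) (star_mem (rep_mem_bi π _)))
    (fun k hk => ktr_avg K hμ π x k hk)
  refine ⟨c, ?_⟩
  rw [← hc]
  refine norm_wint_sub_le hμ _ hb y _ fun k => ?_
  have e : (π k : E →L[ℂ] E) * x * star (π k : E →L[ℂ] E) - y =
      (π k : E →L[ℂ] E) * (x - y) * star (π k : E →L[ℂ] E) := by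
    have e1 : (π k : E →L[ℂ] E) * y * star (π k : E →L[ℂ] E) = y := by
      rw [← h k k.2, mul_assoc, ktr_mul_star, mul_one]
    rw [mul_sub, sub_mul, e1]
  rw [e]
  exact (ktr_norm_conj _ _ _).trans (hxy.trans (mul_le_mul_of_nonneg_right hδ (norm_nonneg _)))

theorem irr_N (K : Subgroup G) (hK : Amen K) (π : G →* unitary (E →L[ℂ] E)) (hπ : Good K π)
    (N : VonNeumannAlgebra E) (δ : ℝ) (hδ : δ ≤ 1 / 10) (hN : Near (bi π) N δ)
    (hKN : ∀ k ∈ K, (π k : E →L[ℂ] E) ∈ N) (y : E →L[ℂ] E) (hy : y ∈ N)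
    (h : ∀ k ∈ K, y * (π k : E →L[ℂ] E) = (π k : E →L[ℂ] E) * y) :
    ∃ c : ℂ, y = c • (1 : E →L[ℂ] E) := by
  obtain ⟨V, hV⟩ : ∃ V : Submodule ℂ (E →L[ℂ] E), V = Submodule.span ℂ {(1 : E →L[ℂ] E)} := ⟨_, rfl⟩
  have hVc : IsClosed (V : Set (E →L[ℂ] E)) := by
    rw [hV]
    exact Submodule.closed_of_finiteDimensional _
  have hVne : (V : Set (E →L[ℂ] E)).Nonempty := ⟨0, V.zero_mem⟩
  have hmem : ∀ v : E →L[ℂ] E, v ∈ V ↔ ∃ c : ℂ, v = c • (1 : E →L[ℂ] E) := by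
    intro v
    rw [hV, Submodule.mem_span_singleton]
    exact ⟨fun ⟨c, hc⟩ => ⟨c, hc.symm⟩, fun ⟨c, hc⟩ => ⟨c, hc.symm⟩⟩
  rw [← hmem]
  have key : ∀ v ∈ (V : Set (E →L[ℂ] E)), 10 * Metric.infDist y V ≤ dist y v := by
    intro v hv
    obtain ⟨c, rfl⟩ := (hmem v).1 hv
    have hN1 : (1 : E →L[ℂ] E) ∈ N := one_mem N
    have hz : y - c • (1 : E →L[ℂ] E) ∈ N := sub_mem hy (N.toStarSubalgebra.smul_mem hN1 c)
    obtain ⟨c', hc'⟩ := ktr_near K hK π hπ N δ hδ hN (y - c • (1 : E →L[ℂ] E)) hz (by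
      intro k hk
      rw [sub_mul, mul_sub, h k hk, smul_mul_assoc, mul_smul_comm, one_mul, mul_one])
    have h1 : Metric.infDist y V ≤ dist y ((c' + c) • (1 : E →L[ℂ] E)) :=
      Metric.infDist_le_dist_of_mem ((hmem _).2 ⟨_, rfl⟩)
    have h2 : dist y ((c' + c) • (1 : E →L[ℂ] E)) = ‖c' • (1 : E →L[ℂ] E) - (y - c • (1 : E →L[ℂ] E))‖ := by
      rw [dist_comm, dist_eq_norm, add_smul]
      congr 1
      abel
    rw [h2] at h1
    rw [dist_eq_norm]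
    linarith
  have h3 : 10 * Metric.infDist y V ≤ Metric.infDist y V := (Metric.le_infDist hVne).2 fun v hv => key v hv
  have h4 : Metric.infDist y V = 0 := le_antisymm (by linarith) Metric.infDist_nonneg
  exact (hVc.mem_iff_infDist_zero hVne).2 h4

private theorem ktr_scalar_sq [Nontrivial E] {v : E →L[ℂ] E} {c : ℂ}
    (hc : star v * v = c • (1 : E →L[ℂ] E)) (hv : ∀ ζ, 9 / 10 * ‖ζ‖ ≤ ‖v ζ‖) :
    ∃ r : ℝ, 0 < r ∧ c = ((r ^ 2 : ℝ) : ℂ) := by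
  obtain ⟨ζ, hζ⟩ := exists_ne (0 : E)
  have hζn : 0 < ‖ζ‖ := norm_pos_iff.2 hζ
  have h1 : ⟪v ζ, v ζ⟫_ℂ = c * ⟪ζ, ζ⟫_ℂ := by
    have e : ⟪ζ, (star v * v) ζ⟫_ℂ = ⟪v ζ, v ζ⟫_ℂ := by
      rw [mul_apply_eq_comp, ContinuousLinearMap.star_eq_adjoint, ContinuousLinearMap.adjoint_inner_right]
    rw [← e, hc]
    change ⟪ζ, c • ζ⟫_ℂ = _
    rw [inner_smul_right]
  rw [inner_self_eq_norm_sq_to_K, inner_self_eq_norm_sq_to_K] at h1
  have hz : ((‖ζ‖ : ℂ) ^ 2) ≠ 0 := by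
    simpa using hζ
  have hvζ := hv ζ
  refine ⟨‖v ζ‖ / ‖ζ‖, div_pos (by linarith) hζn, ?_⟩
  push_cast
  rw [div_pow, eq_div_iff hz]
  exact h1.symm

theorem exists_v (K : Subgroup G) (hn : K.Normal) (hK : Amen K) (π : G →* unitary (E →L[ℂ] E))
    (hπ : Good K π) (N : VonNeumannAlgebra E) (δ : ℝ) (hδ : δ ≤ 1 / 10)
    (hN : Near (bi π) N δ) (hKN : ∀ k ∈ K, (π k : E →L[ℂ] E) ∈ N) (g : G) :
    ∃ v : unitary (E →L[ℂ] E), (v : E →L[ℂ] E) ∈ N ∧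
      ∀ k ∈ K, (v : E →L[ℂ] E) * (π k : E →L[ℂ] E) = (π (g * k * g⁻¹) : E →L[ℂ] E) * v := by
  rcases subsingleton_or_nontrivial E with hE | hE
  · refine ⟨1, ?_, fun k _ => Subsingleton.elim _ _⟩
    exact one_mem N
  have hKg : ∀ k ∈ K, g * k * g⁻¹ ∈ K := fun k hk => hn.conj_mem k hk g
  obtain ⟨n, hnN, hng⟩ := hN.1 _ (rep_mem_bi π g)
  have hng' : ‖(π g : E →L[ℂ] E) - n‖ ≤ 1 / 10 := by
    refine hng.trans ?_
    have h1 : ‖(π g : E →L[ℂ] E)‖ ≤ 1 := by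
      refine ContinuousLinearMap.opNorm_le_bound _ zero_le_one fun ζ => ?_
      rw [ContinuousLinearMap.norm_map_of_mem_unitary (π g).2, one_mul]
    calc δ * ‖(π g : E →L[ℂ] E)‖ ≤ 1 / 10 * ‖(π g : E →L[ℂ] E)‖ :=
          mul_le_mul_of_nonneg_right hδ (norm_nonneg _)
      _ ≤ 1 / 10 := by linarith
  have hK' := hK
  obtain ⟨μ, hμ⟩ := hK'
  obtain ⟨f, hf⟩ : ∃ f : K → E →L[ℂ] E, ∀ k : K, f k =
      (π (g * k * g⁻¹) : E →L[ℂ] E) * n * star (π k : E →L[ℂ] E) := ⟨_, fun _ => rfl⟩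
  have hb : ∃ C, ∀ k : K, ‖f k‖ ≤ C := ⟨‖n‖, fun k => by rw [hf]; exact ktr_norm_conj _ _ _⟩
  obtain ⟨v, hv⟩ : ∃ v, v = wint μ f := ⟨_, rfl⟩
  have hvN : v ∈ N := by
    rw [hv]
    refine wint_mem hμ N _ hb fun k => ?_
    rw [hf]
    exact mul_mem (mul_mem (hKN _ (hKg _ k.2)) hnN) (star_mem (hKN _ k.2))
  have hvg : ‖v - (π g : E →L[ℂ] E)‖ ≤ 1 / 10 := by
    rw [hv]
    refine norm_wint_sub_le hμ _ hb _ _ fun k => ?_
    have e : f k - (π g : E →L[ℂ] E) =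
        (π (g * k * g⁻¹) : E →L[ℂ] E) * (n - (π g : E →L[ℂ] E)) * star (π k : E →L[ℂ] E) := by
      have e1 : (π (g * k * g⁻¹) : E →L[ℂ] E) * (π g : E →L[ℂ] E) * star (π k : E →L[ℂ] E) =
          (π g : E →L[ℂ] E) := by
        rw [ktr_mul, inv_mul_cancel_right, ← ktr_mul, mul_assoc, ktr_mul_star, mul_one]
      rw [hf, mul_sub, sub_mul, e1]
    rw [e]
    refine (ktr_norm_conj _ _ _).trans ?_
    rw [norm_sub_rev]
    exact hng'
  have hrel : ∀ h ∈ K, v * (π h : E →L[ℂ] E) = (π (g * h * g⁻¹) : E →L[ℂ] E) * v := by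
    intro h hh
    have h1 := wint_inv hμ f hb ⟨h, hh⟩
    have h2 := wint_mul hμ (π (g * h * g⁻¹) : E →L[ℂ] E) (star (π h : E →L[ℂ] E)) f hb
    have h3 : (fun k : K => f (⟨h, hh⟩ * k)) =
        fun k : K => (π (g * h * g⁻¹) : E →L[ℂ] E) * f k * star (π h : E →L[ℂ] E) := by
      funext k
      have e : ((⟨h, hh⟩ * k : K) : G) = h * k := rfl
      rw [hf, hf, e, ← ktr_mul π h, star_mul,
        show g * (h * (k : G)) * g⁻¹ = (g * h * g⁻¹) * (g * k * g⁻¹) by group, ← ktr_mul]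
      noncomm_ring
    rw [h3, h2, ← hv] at h1
    nth_rewrite 1 [← h1]
    rw [mul_assoc, ktr_star_mul, mul_one]
  have hrel' : ∀ h ∈ K, star v * (π (g * h * g⁻¹) : E →L[ℂ] E) = (π h : E →L[ℂ] E) * star v := by
    intro h hh
    have h1 := congrArg star (hrel h⁻¹ (K.inv_mem hh))
    rw [star_mul, star_mul, ktr_star, ktr_star, inv_inv] at h1
    rw [h1]
    congr 3
    group
  have hA : ∀ h ∈ K, star v * v * (π h : E →L[ℂ] E) = (π h : E →L[ℂ] E) * (star v * v) := by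
    intro h hh
    rw [mul_assoc, hrel h hh, ← mul_assoc, hrel' h hh, mul_assoc]
  have hB : ∀ h ∈ K, v * star v * (π h : E →L[ℂ] E) = (π h : E →L[ℂ] E) * (v * star v) := by
    intro h hh
    have h1 : g⁻¹ * h * g ∈ K := by
      have := hn.conj_mem h hh g⁻¹
      rwa [inv_inv] at this
    have h2 : g * (g⁻¹ * h * g) * g⁻¹ = h := by group
    have h3 := hrel' _ h1
    have h4 := hrel _ h1
    rw [h2] at h3 h4
    rw [mul_assoc, h3, ← mul_assoc, h4, mul_assoc]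
  obtain ⟨c, hc⟩ := irr_N K hK π hπ N δ hδ hN hKN _ (mul_mem (star_mem hvN) hvN) hA
  obtain ⟨c', hc'⟩ := irr_N K hK π hπ N δ hδ hN hKN _ (mul_mem hvN (star_mem hvN)) hB
  have hlow : ∀ ζ, 9 / 10 * ‖ζ‖ ≤ ‖v ζ‖ := by
    intro ζ
    have h1 : ‖(v - (π g : E →L[ℂ] E)) ζ‖ ≤ 1 / 10 * ‖ζ‖ :=
      ((v - (π g : E →L[ℂ] E)).le_opNorm ζ).trans (mul_le_mul_of_nonneg_right hvg (norm_nonneg _))
    have h2 : ‖(π g : E →L[ℂ] E) ζ‖ = ‖ζ‖ := ContinuousLinearMap.norm_map_of_mem_unitary (π g).2 ζ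
    have h3 : (v - (π g : E →L[ℂ] E)) ζ = v ζ - (π g : E →L[ℂ] E) ζ := rfl
    have h4 := norm_sub_norm_le ((π g : E →L[ℂ] E) ζ) (v ζ)
    rw [h3, norm_sub_rev] at h1
    linarith
  obtain ⟨r, hr, hcr⟩ := ktr_scalar_sq hc hlow
  have hc0 : c ≠ 0 := by
    rw [hcr]
    exact_mod_cast (pow_pos hr 2).ne'
  have hcc : c' = c := by
    have h1 : v * (star v * v) = v * star v * v := (mul_assoc _ _ _).symm
    rw [hc, hc', mul_smul_comm, smul_mul_assoc, mul_one, one_mul] at h1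
    obtain ⟨ζ, hζ⟩ := exists_ne (0 : E)
    have hvζ : v ζ ≠ 0 := by
      intro h0
      have := hlow ζ
      rw [h0, norm_zero] at this
      have := norm_pos_iff.2 hζ
      linarith
    have h2 : c • v ζ = c' • v ζ := by
      have := congrArg (fun T : E →L[ℂ] E => T ζ) h1
      exact this
    exact (smul_left_injective ℂ hvζ h2).symm
  have hr2 : ((r : ℂ)⁻¹) * ((r : ℂ)⁻¹) * c = 1 := by
    have hr0 : (r : ℂ) ≠ 0 := by exact_mod_cast hr.ne'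
    rw [hcr]
    push_cast
    field_simp
  have hsr : star ((r : ℂ)⁻¹) = (r : ℂ)⁻¹ := by
    rw [star_inv₀]
    congr 1
    exact Complex.conj_ofReal r
  refine ⟨⟨((r : ℂ)⁻¹) • v, ?_, ?_⟩, ?_, ?_⟩
  · rw [star_smul, hsr, smul_mul_smul_comm, hc, smul_smul, hr2, one_smul]
  · rw [star_smul, hsr, smul_mul_smul_comm, hc', hcc, smul_smul, hr2, one_smul]
  · exact N.toStarSubalgebra.smul_mem hvN _
  · intro k hk
    change ((r : ℂ)⁻¹ • v) * (π k : E →L[ℂ] E) = (π (g * k * g⁻¹) : E →L[ℂ] E) * ((r : ℂ)⁻¹ • v)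
    rw [smul_mul_assoc, mul_smul_comm, hrel k hk]

theorem fixed_vec (K : Subgroup G) (hK : Amen K) (π : G →* unitary (E →L[ℂ] E)) (hπ : Good K π)
    (N : VonNeumannAlgebra E) (δ : ℝ) (hδ : δ ≤ 1 / 10) (hN : Near (bi π) N δ)
    (hKN : ∀ k ∈ K, (π k : E →L[ℂ] E) ∈ N) (ξ : E) (hξ : TrVec N ξ)
    (ρ0 : K →* unitary (E →L[ℂ] E)) (hρ : ∀ k, (ρ0 k : E →L[ℂ] E) ∈ N.commutant)
    (hρ1 : ∀ k : K, ∀ y ∈ N, (ρ0 k : E →L[ℂ] E) (y ξ) = (y * star (π k : E →L[ℂ] E)) ξ)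
    (ζ : E) (hζ : pcycN N ξ ζ = ζ)
    (h : ∀ k : K, (π k : E →L[ℂ] E) ((ρ0 k : E →L[ℂ] E) ζ) = ζ) : ∃ c : ℂ, ζ = c • ξ := by
  have hK' := hK
  obtain ⟨μ, hμ⟩ := hK'
  have hconst : ∀ a : ℂ, μ (fun _ : K => a) = a := by
    intro a
    have := hμ.smul a (fun _ => 1) ⟨1, fun _ => by simp⟩
    simpa [hμ.one] using this
  have hξξ : ⟪ξ, ξ⟫_ℂ = 1 := by
    rw [inner_self_eq_norm_sq_to_K, hξ.norm]
    simp
  have key : ∀ y ∈ N, ⟪ζ, y ξ⟫_ℂ = ⟪ξ, y ξ⟫_ℂ * ⟪ζ, ξ⟫_ℂ := by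
    intro y hy
    have hb : ∃ C, ∀ k : K, ‖(π k : E →L[ℂ] E) * y * star (π k : E →L[ℂ] E)‖ ≤ C :=
      ⟨‖y‖, fun k => ktr_norm_conj _ _ _⟩
    obtain ⟨c, hc⟩ := irr_N K hK π hπ N δ hδ hN hKN
      (wint μ fun k : K => (π k : E →L[ℂ] E) * y * star (π k : E →L[ℂ] E))
      (wint_mem hμ _ _ hb fun k => mul_mem (mul_mem (hKN _ k.2) hy) (star_mem (hKN _ k.2)))
      (fun k hk => ktr_avg K hμ π y k hk)
    have h1 := wint_spec hμ _ hb ζ ξ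
    have h2 := wint_spec hμ _ hb ξ ξ
    have e1 : (fun k : K => ⟪ζ, ((π k : E →L[ℂ] E) * y * star (π k : E →L[ℂ] E)) ξ⟫_ℂ) =
        fun _ => ⟪ζ, y ξ⟫_ℂ := by
      funext k
      have e : ((π k : E →L[ℂ] E) * y * star (π k : E →L[ℂ] E)) ξ =
          (π k : E →L[ℂ] E) ((ρ0 k : E →L[ℂ] E) (y ξ)) := by
        rw [hρ1 k y hy, mul_assoc, mul_apply_eq_comp]
      rw [e]
      nth_rewrite 1 [← h k]
      rw [ContinuousLinearMap.inner_map_map_of_mem_unitary (π (k : G)).2,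
        ContinuousLinearMap.inner_map_map_of_mem_unitary (ρ0 k).2]
    have e2 : (fun k : K => ⟪ξ, ((π k : E →L[ℂ] E) * y * star (π k : E →L[ℂ] E)) ξ⟫_ℂ) =
        fun _ => ⟪ξ, y ξ⟫_ℂ := by
      funext k
      rw [hξ.tracial _ (mul_mem (hKN _ k.2) hy) _ (star_mem (hKN _ k.2)), ← mul_assoc, ktr_star_mul,
        one_mul]
    rw [e1, hconst, hc] at h1
    rw [e2, hconst, hc] at h2
    have h3 : ⟪ζ, (c • (1 : E →L[ℂ] E)) ξ⟫_ℂ = c * ⟪ζ, ξ⟫_ℂ := by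
      change ⟪ζ, c • ξ⟫_ℂ = _
      rw [inner_smul_right]
    have h4 : ⟪ξ, (c • (1 : E →L[ℂ] E)) ξ⟫_ℂ = c := by
      change ⟪ξ, c • ξ⟫_ℂ = _
      rw [inner_smul_right, hξξ, mul_one]
    rw [h3] at h1
    rw [h4] at h2
    rw [← h1, ← h2]
  refine ⟨⟪ξ, ζ⟫_ℂ, ?_⟩
  obtain ⟨d, hd⟩ : ∃ d, d = ζ - ⟪ξ, ζ⟫_ℂ • ξ := ⟨_, rfl⟩
  have hξP : pcycN N ξ ξ = ξ := by
    have := pcycN_apply N ξ 1 (one_mem N)
    exact this
  have hPd : pcycN N ξ d = d := by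
    rw [hd, map_sub, hζ, map_smul, hξP]
  have hperp : ∀ y ∈ N, ⟪d, y ξ⟫_ℂ = 0 := by
    intro y hy
    rw [hd, inner_sub_left, inner_smul_left, inner_conj_symm, key y hy]
    ring
  have h5 : pcycN N ξ d = 0 := by
    rw [pcycN, Submodule.starProjection_apply_eq_zero_iff, Submodule.orthogonal_closure,
      Submodule.mem_orthogonal']
    intro w hw
    induction hw using Submodule.span_induction with
    | mem x hx =>
      obtain ⟨y, hy, rfl⟩ := hx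
      exact hperp y hy
    | zero => exact inner_zero_right _
    | add x y _ _ hx hy => rw [inner_add_right, hx, hy, add_zero]
    | smul c x _ hx => rw [inner_smul_right, hx, mul_zero]
  rw [hPd, hd, sub_eq_zero] at h5
  exact h5

end Pool.Agent.Helper93.SP
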