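/-
Block SQ-LB (about 100 lines).  M a factor (trivial centre) on E, p ≠ 0 a projection in M'.
* norm_mul_proj: ‖x‖ ≤ ‖x p‖ for x in M.  The map x ↦ x p is a star homomorphism of the C*-algebra
  M (norm closed) and injective: if x p = 0 then x S p = S x p = 0 for S in M', so x vanishes on
  the closure of M' p E, which is invariant under M' and M; its projection is in M ∩ M', nonzero,
  so it is 1 and x = 0.  An injective star homomorphism of C*-algebras is isometric
  (`NonUnitalStarAlgHom.isometry_of_injective`; or directly: for x ≥ 0 of norm 1 with ‖xp‖ < 1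
  apply a continuous function f with f = 0 on [0, ‖xp‖], f(1) = 1: f(x) p = f(xp) p = 0 but
  f(x) ≠ 0).
* lemB: Near M N δ with 4 δ < 1, y in N with p y p = 0.  Then y = 0.  Otherwise let x in M with
  ‖x - y‖ ≤ δ ‖y‖; ‖x‖ ≥ (1 - δ) ‖y‖.  y p = (y - x) p + p x p - p y p + p (y - x) p·(...): precisely
  y p = y p - p y p = (1-p) y p = (1-p)(y - x) p (x commutes with p), so ‖y p‖ ≤ δ ‖y‖, and
  ‖x p‖ ≤ ‖y p‖ + δ ‖y‖ ≤ 2 δ ‖y‖.  But ‖x p‖ ≥ ‖x‖ ≥ (1 - δ) ‖y‖: contradiction as 3 δ < 1.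
-/
import Pool.Agent.Helper93.SP2.Defs2

set_option autoImplicit false

open scoped InnerProductSpace ComplexConjugate ENNReal NNReal
open Filter Topology

namespace Pool.Agent.Helper93.SP

variable {E : Type*} [NormedAddCommGroup E] [InnerProductSpace ℂ E] [CompleteSpace E]

private theorem mem_vn93 (A : VonNeumannAlgebra E) (b : E →L[ℂ] E)
    (h : ∀ x : E →L[ℂ] E, (∀ c ∈ A, x * c = c * x) → x * b = b * x) : b ∈ A := by
  rw [← VonNeumannAlgebra.commutant_commutant A, VonNeumannAlgebra.mem_commutant_iff]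
  intro g hg
  rw [VonNeumannAlgebra.mem_commutant_iff] at hg
  exact h g fun c hc => (hg c hc).symm

private theorem proj_comm93 (W : Submodule ℂ E) [W.HasOrthogonalProjection] (g : E →L[ℂ] E)
    (h1 : ∀ v ∈ W, g v ∈ W) (h2 : ∀ v ∈ W, (star g) v ∈ W) :
    g * W.starProjection = W.starProjection * g := by
  ext v
  show g (W.starProjection v) = W.starProjection (g v)
  symm
  refine Submodule.eq_starProjection_of_mem_orthogonal ?_ ?_
  · exact h1 _ (W.starProjection_apply_mem v)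
  · rw [← map_sub, Submodule.mem_orthogonal]
    intro u hu
    rw [← ContinuousLinearMap.adjoint_inner_left, ← ContinuousLinearMap.star_eq_adjoint]
    exact (Submodule.mem_orthogonal _ _).1 (W.sub_starProjection_mem_orthogonal v) _ (h2 u hu)

/-- In a factor, `q A p` is nonzero for nonzero projections `p`, `q` in `A`. -/
private theorem corner93 (A : VonNeumannAlgebra E)
    (hA : ∀ x ∈ A, (∀ y ∈ A, x * y = y * x) → ∃ c : ℂ, x = c • (1 : E →L[ℂ] E))
    (p q : E →L[ℂ] E) (hpA : p ∈ A) (hq : ∀ a ∈ A, q * a * p = 0) (hp : p ≠ 0) : q = 0 := by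
  let S : Set E := {v | ∃ a ∈ A, ∃ ζ, v = a (p ζ)}
  let W : Submodule ℂ E := (Submodule.span ℂ S).topologicalClosure
  have hWc : IsClosed (W : Set E) := Submodule.isClosed_topologicalClosure _
  have : CompleteSpace W := hWc.completeSpace_coe
  have hinv : ∀ g : E →L[ℂ] E, (∀ v ∈ S, g v ∈ S) → ∀ v ∈ W, g v ∈ W := by
    intro g hg v hv
    have hsub : Submodule.span ℂ S ≤ W.comap g.toLinearMap := by
      rw [Submodule.span_le]
      intro u hu
      exact Submodule.le_topologicalClosure _ (Submodule.subset_span (hg u hu))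
    have hcl : IsClosed ((W.comap g.toLinearMap : Submodule ℂ E) : Set E) :=
      hWc.preimage g.continuous
    exact Submodule.topologicalClosure_minimal _ hsub hcl hv
  have hgA : ∀ g ∈ A, ∀ v ∈ W, g v ∈ W := by
    intro g hg
    refine hinv g ?_
    rintro _ ⟨a, ha, ζ, rfl⟩
    exact ⟨g * a, mul_mem hg ha, ζ, rfl⟩
  have hgC : ∀ g : E →L[ℂ] E, (∀ c ∈ A, g * c = c * g) → ∀ v ∈ W, g v ∈ W := by
    intro g hg
    refine hinv g ?_
    rintro _ ⟨a, ha, ζ, rfl⟩
    refine ⟨a, ha, g ζ, ?_⟩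
    have h1 := congrArg (fun T : E →L[ℂ] E => T ζ) (hg (a * p) (mul_mem ha hpA))
    exact h1
  have hz : W.starProjection ∈ A := by
    refine mem_vn93 A _ fun g hg => proj_comm93 W g (hgC g hg) (hgC (star g) ?_)
    intro c hc
    have h1 := congrArg star (hg (star c) (star_mem hc))
    rw [star_mul, star_mul, star_star] at h1
    exact h1.symm
  obtain ⟨c, hc⟩ := hA _ hz fun y hy =>
    (proj_comm93 W y (hgA y hy) (hgA (star y) (star_mem hy))).symm
  obtain ⟨ζ, hζ⟩ : ∃ ζ, p ζ ≠ 0 := by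
    by_contra h
    push Not at h
    exact hp (ContinuousLinearMap.ext fun v => h v)
  have h1 : W.starProjection (p ζ) = p ζ := Submodule.starProjection_eq_self_iff.2
    (Submodule.le_topologicalClosure _ (Submodule.subset_span ⟨1, one_mem _, ζ, rfl⟩))
  rw [hc] at h1
  have h2 : c • (p ζ) = p ζ := h1
  have hc1 : c = 1 := by
    have h3 : (c - 1) • (p ζ) = 0 := by rw [sub_smul, one_smul, h2, sub_self]
    rcases smul_eq_zero.1 h3 with h4 | h4
    · exact sub_eq_zero.1 h4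
    · exact absurd h4 hζ
  have h3 : ∀ v, v ∈ W := by
    intro v
    rw [← Submodule.starProjection_eq_self_iff, hc, hc1, one_smul]
    rfl
  have h4 : ∀ v ∈ W, q v = 0 := by
    intro v hv
    have hsub : Submodule.span ℂ S ≤ LinearMap.ker q.toLinearMap := by
      rw [Submodule.span_le]
      rintro _ ⟨a, ha, ζ, rfl⟩
      have h5 := congrArg (fun T : E →L[ℂ] E => T ζ) (hq a ha)
      exact h5
    have hcl : IsClosed ((LinearMap.ker q.toLinearMap : Submodule ℂ E) : Set E) :=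
      q.isClosed_ker
    exact Submodule.topologicalClosure_minimal _ hsub hcl hv
  exact ContinuousLinearMap.ext fun v => h4 v (h3 v)

theorem inj_mul_proj (M : VonNeumannAlgebra E)
    (hM : ∀ x ∈ M, (∀ y ∈ M, x * y = y * x) → ∃ c : ℂ, x = c • (1 : E →L[ℂ] E))
    (p : E →L[ℂ] E) (hp : IsProj p) (hp0 : p ≠ 0) (hpM : p ∈ M.commutant) (x : E →L[ℂ] E)
    (hx : x ∈ M) (h : x * p = 0) : x = 0 := by
  refine corner93 M.commutant ?_ p x hpM ?_ hp0
  · intro z hz hzc
    have hzM : z ∈ M := by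
      rw [← VonNeumannAlgebra.commutant_commutant M, VonNeumannAlgebra.mem_commutant_iff]
      intro g hg
      exact (hzc g hg).symm
    refine hM z hzM fun y hy => ?_
    rw [VonNeumannAlgebra.mem_commutant_iff] at hz
    exact (hz y hy).symm
  · intro a ha
    rw [VonNeumannAlgebra.mem_commutant_iff] at ha
    rw [ha x hx, mul_assoc, h, mul_zero]

theorem norm_mul_proj (M : VonNeumannAlgebra E)
    (hM : ∀ x ∈ M, (∀ y ∈ M, x * y = y * x) → ∃ c : ℂ, x = c • (1 : E →L[ℂ] E))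
    (p : E →L[ℂ] E) (hp : IsProj p) (hp0 : p ≠ 0) (hpM : p ∈ M.commutant) (x : E →L[ℂ] E)
    (hx : x ∈ M) : ‖x‖ ≤ ‖x * p‖ := by
  set h : E →L[ℂ] E := star x * x with hh
  set r : ℝ := ‖x * p‖ ^ 2 with hr
  have hr0 : 0 ≤ r := by positivity
  have hsa : IsSelfAdjoint h := IsSelfAdjoint.star_mul_self x
  have hhM : h ∈ M := mul_mem (star_mem hx) hx
  have hph : Commute h p := by
    rw [VonNeumannAlgebra.mem_commutant_iff] at hpM
    exact hpM h hhM
  -- the two functions
  set a : E →L[ℂ] E := cfc (fun t : ℝ => max (t - r) 0) h with ha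
  set b : E →L[ℂ] E := cfc (fun t : ℝ => Real.sqrt (max (t - r) 0)) h with hb
  have hca : ContinuousOn (fun t : ℝ => max (t - r) 0) (spectrum ℝ h) := by fun_prop
  have hcb : ContinuousOn (fun t : ℝ => Real.sqrt (max (t - r) 0)) (spectrum ℝ h) := by fun_prop
  have hasa : IsSelfAdjoint a := cfc_predicate _ _
  have hbsa : IsSelfAdjoint b := cfc_predicate _ _
  have hsub : cfc (fun t : ℝ => t - r) h = h - r • (1 : E →L[ℂ] E) := by
    rw [cfc_sub (fun t : ℝ => t) (fun _ => r) h, cfc_id' ℝ h hsa]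
    congr 1
    rw [cfc_const r h hsa, Algebra.algebraMap_eq_smul_one]
  have hbhb : b * (h - r • (1 : E →L[ℂ] E)) * b = a * a := by
    have hc1 : ContinuousOn (fun t : ℝ => t - r) (spectrum ℝ h) := by fun_prop
    have hcb1 : ContinuousOn (fun t : ℝ => Real.sqrt (max (t - r) 0) * (t - r)) (spectrum ℝ h) :=
      hcb.mul hc1
    rw [← hsub, hb, ha, ← cfc_mul _ _ h hcb hc1, ← cfc_mul _ _ h hcb1 hcb,
      ← cfc_mul _ _ h hca hca]
    refine cfc_congr fun t _ => ?_
    have h1 : Real.sqrt (max (t - r) 0) * Real.sqrt (max (t - r) 0) = max (t - r) 0 :=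
      Real.mul_self_sqrt (le_max_right _ _)
    have h2 : Real.sqrt (max (t - r) 0) * (t - r) * Real.sqrt (max (t - r) 0) =
        (t - r) * (Real.sqrt (max (t - r) 0) * Real.sqrt (max (t - r) 0)) := by ring
    show Real.sqrt (max (t - r) 0) * (t - r) * Real.sqrt (max (t - r) 0) =
      max (t - r) 0 * max (t - r) 0
    rw [h2, h1]
    rcases le_total (t - r) 0 with h3 | h3
    · rw [max_eq_right h3]
      ring
    · rw [max_eq_left h3]
  have hbp : Commute b p := Commute.cfc_real hph _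
  have haM : a ∈ M := by
    refine mem_vn93 M _ fun g hg => ?_
    exact ((Commute.cfc_real (show Commute h g from (hg h hhM).symm) _).eq).symm
  have hap : a * p = 0 := by
    ext ζ
    set v : E := p ζ with hv
    have hpv : p v = v := by
      have := congrArg (fun T : E →L[ℂ] E => T ζ) hp.2
      exact this
    have h1 : ‖a v‖ ^ 2 ≤ 0 := by
      have e1 : ((‖a v‖ ^ 2 : ℝ) : ℂ) = ⟪b v, (h - r • (1 : E →L[ℂ] E)) (b v)⟫_ℂ := by
        have e2 : ⟪b v, (h - r • (1 : E →L[ℂ] E)) (b v)⟫_ℂ = ⟪v, (a * a) v⟫_ℂ := by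
          rw [← hbhb, mul_assoc]
          show _ = ⟪v, b ((h - r • (1 : E →L[ℂ] E)) (b v))⟫_ℂ
          have e9 : ⟪(star b) v, (h - r • (1 : E →L[ℂ] E)) (b v)⟫_ℂ =
              ⟪v, b ((h - r • (1 : E →L[ℂ] E)) (b v))⟫_ℂ := by
            rw [ContinuousLinearMap.star_eq_adjoint, ContinuousLinearMap.adjoint_inner_left]
          rw [hbsa.star_eq] at e9
          exact e9
        rw [e2]
        show _ = ⟪v, a (a v)⟫_ℂ
        have e9 : ⟪(star a) v, a v⟫_ℂ = ⟪v, a (a v)⟫_ℂ := by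
          rw [ContinuousLinearMap.star_eq_adjoint, ContinuousLinearMap.adjoint_inner_left]
        rw [hasa.star_eq] at e9
        rw [← e9, inner_self_eq_norm_sq_to_K]
        norm_cast
      have hbv : p (b v) = b v := by
        have := congrArg (fun T : E →L[ℂ] E => T v) hbp.eq
        change b (p v) = p (b v) at this
        rw [← this, hpv]
      have e3 : ⟪b v, (h - r • (1 : E →L[ℂ] E)) (b v)⟫_ℂ =
          ((‖x (b v)‖ ^ 2 - r * ‖b v‖ ^ 2 : ℝ) : ℂ) := by
        have e4 : (h - r • (1 : E →L[ℂ] E)) (b v) = (star x) (x (b v)) - (r : ℂ) • (b v) := by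
          rfl
        rw [e4, inner_sub_right, ContinuousLinearMap.star_eq_adjoint,
          ContinuousLinearMap.adjoint_inner_right, inner_smul_right, inner_self_eq_norm_sq_to_K,
          inner_self_eq_norm_sq_to_K]
        push_cast
        rfl
      rw [e3] at e1
      have e5 : ‖a v‖ ^ 2 = ‖x (b v)‖ ^ 2 - r * ‖b v‖ ^ 2 := by exact_mod_cast e1
      have e6 : ‖x (b v)‖ ≤ ‖x * p‖ * ‖b v‖ := by
        have e7 : x (b v) = (x * p) (b v) := by
          show x (b v) = x (p (b v))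
          rw [hbv]
        rw [e7]
        exact (x * p).le_opNorm _
      have e8 : ‖x (b v)‖ ^ 2 ≤ (‖x * p‖ * ‖b v‖) ^ 2 := by gcongr
      rw [e5, hr]
      nlinarith
    have h2 : ‖a v‖ = 0 := by nlinarith [norm_nonneg (a v)]
    show a (p ζ) = 0
    exact norm_eq_zero.1 h2
  have ha0 : a = 0 := inj_mul_proj M hM p hp hp0 hpM a haM hap
  -- so the norm of h is at most r
  have hmin : h = cfc (fun t : ℝ => min t r) h := by
    have h1 : cfc (fun t : ℝ => min t r + max (t - r) 0) h = h := by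
      conv_rhs => rw [← cfc_id' ℝ h hsa]
      refine cfc_congr fun t _ => ?_
      show min t r + max (t - r) 0 = t
      rcases le_total t r with h3 | h3
      · rw [min_eq_left h3, max_eq_right (by linarith)]
        ring
      · rw [min_eq_right h3, max_eq_left (by linarith)]
        ring
    have hcm : ContinuousOn (fun t : ℝ => min t r) (spectrum ℝ h) := by fun_prop
    rw [cfc_add h (fun t : ℝ => min t r) (fun t : ℝ => max (t - r) 0) hcm hca, ← ha, ha0,
      add_zero] at h1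
    exact h1.symm
  have hnorm : ‖h‖ ≤ r := by
    rw [hmin]
    refine norm_cfc_le hr0 fun t ht => ?_
    have ht0 : 0 ≤ t := spectrum_star_mul_self_nonneg t ht
    rw [Real.norm_eq_abs, abs_of_nonneg (le_min ht0 hr0)]
    exact min_le_right _ _
  have h3 : ‖x‖ ^ 2 ≤ ‖x * p‖ ^ 2 := by
    have h4 : ‖star x * x‖ = ‖x‖ * ‖x‖ := CStarRing.norm_star_mul_self
    rw [← hh] at h4
    rw [sq, ← h4]
    exact hnorm
  exact (abs_le_of_sq_le_sq' h3 (norm_nonneg _)).2

theorem lemB (M N : VonNeumannAlgebra E)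
    (hM : ∀ x ∈ M, (∀ y ∈ M, x * y = y * x) → ∃ c : ℂ, x = c • (1 : E →L[ℂ] E))
    (p : E →L[ℂ] E) (hp : IsProj p) (hp0 : p ≠ 0) (hpM : p ∈ M.commutant) (δ : ℝ)
    (hδ : 4 * δ < 1) (hN : Near M N δ) (y : E →L[ℂ] E) (hy : y ∈ N) (h : p * y * p = 0) :
    y = 0 := by
  by_contra hy0
  have hyn : 0 < ‖y‖ := norm_pos_iff.2 hy0
  obtain ⟨x, hx, hxy⟩ := hN.2 y hy
  have hpn : ‖p‖ ≤ 1 := by
    have h1 : ‖star p * p‖ = ‖p‖ * ‖p‖ := CStarRing.norm_star_mul_self
    rw [hp.1, hp.2] at h1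
    nlinarith [norm_nonneg p]
  have hpn1 : ‖1 - p‖ ≤ 1 := by
    have h1 : ‖star (1 - p) * (1 - p)‖ = ‖1 - p‖ * ‖1 - p‖ := CStarRing.norm_star_mul_self
    have h2 : star (1 - p) * (1 - p) = 1 - p := by
      rw [star_sub, star_one, hp.1, sub_mul, one_mul, mul_sub, mul_one, hp.2, sub_self, sub_zero]
    rw [h2] at h1
    nlinarith [norm_nonneg (1 - p)]
  have hxp : p * x = x * p := by
    rw [VonNeumannAlgebra.mem_commutant_iff] at hpM
    exact (hpM x hx).symm
  have h1 : y * p = (1 - p) * (y - x) * p := by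
    have e1 : (1 - p) * (y - x) * p = y * p - p * y * p - (x * p - p * x * p) := by noncomm_ring
    rw [e1, h, hxp, mul_assoc x p p, hp.2]
    simp
  have h2 : ‖y * p‖ ≤ δ * ‖y‖ := by
    rw [h1]
    calc ‖(1 - p) * (y - x) * p‖ ≤ ‖(1 - p) * (y - x)‖ * ‖p‖ := norm_mul_le _ _
      _ ≤ (‖1 - p‖ * ‖y - x‖) * 1 := by
          gcongr
          exact norm_mul_le _ _
      _ ≤ (1 * ‖y - x‖) * 1 := by gcongr
      _ = ‖x - y‖ := by rw [one_mul, mul_one, norm_sub_rev]
      _ ≤ δ * ‖y‖ := hxy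
  have h3 : ‖x * p‖ ≤ 2 * δ * ‖y‖ := by
    have e1 : x * p = (x - y) * p + y * p := by rw [sub_mul]; abel
    rw [e1]
    calc ‖(x - y) * p + y * p‖ ≤ ‖(x - y) * p‖ + ‖y * p‖ := norm_add_le _ _
      _ ≤ ‖x - y‖ * ‖p‖ + δ * ‖y‖ := add_le_add (norm_mul_le _ _) h2
      _ ≤ (δ * ‖y‖) * 1 + δ * ‖y‖ := by
          have hd : 0 ≤ δ * ‖y‖ := (norm_nonneg _).trans hxy
          gcongr
      _ = 2 * δ * ‖y‖ := by ring
  have h4 : ‖x‖ ≤ 2 * δ * ‖y‖ := (norm_mul_proj M hM p hp hp0 hpM x hx).trans h3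
  have h5 : ‖y‖ ≤ ‖x‖ + δ * ‖y‖ := by
    calc ‖y‖ = ‖x - (x - y)‖ := by rw [sub_sub_cancel]
      _ ≤ ‖x‖ + ‖x - y‖ := norm_sub_le _ _
      _ ≤ ‖x‖ + δ * ‖y‖ := by gcongr
  nlinarith

end Pool.Agent.Helper93.SP
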