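/-
Block SQ-SB1 (about 200 lines).  The standard level, after the perturbations.

Hypotheses: (K, L) in Cls; π Good; Near (bi π) N δ, δ ≤ 1/10; π(K) ⊆ N; ξ a TrVec of N;
P = pcycN N ξ in comm π; ρ0 : K → U(N') with ρ0(k) y ξ = y π(k)* ξ (y in N), commuting with P,
identity on the complement of P, and ρ0(k) in comm π.
Conclusion: the vectors π(g) ξ are orthonormal and pcyc π ξ = P.

Proof.
(1) ω(x) = ⟪ξ, x ξ⟫ on bi π satisfies ω(π(k) x π(k)*) = ω(x) for k in K: π(k)* ξ = ρ0(k) ξ, and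
    ρ0(k) commutes with x in bi π (it is in comm π) and is unitary.  For g ≠ 1: ω(π(g)) =
    ω(π(kgk⁻¹)) for all k in K, infinitely many elements kgk⁻¹, mixing: ω(π g) = 0.  So the π(g) ξ
    are orthonormal.
(2) For g in G let v_g in N be as in exists_v.  s = v_g* π(g) commutes with π(k), k in K
    (v_g* π(gkg⁻¹) = π(k) v_g*), and with ρ0(k) (v_g in N, π(g) vs comm π), and P s ξ = s P ξ = s ξ
    (P commutes with N and π(g)).  π(k) ρ0(k) s ξ = s π(k) ρ0(k) ξ = s ξ, since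
    π(k) ρ0(k) ξ = π(k) π(k)* ξ = ξ.  So s ξ = c_g ξ (fixed_vec), π(g) ξ = c_g v_g ξ, |c_g| = 1.
(3) v_g v_h and v_{gh} differ by a scalar: v_{gh}* v_g v_h in N commutes with π(K), so it is a scalar
    (irr_N); likewise v_g⁻¹ v_g... : v_{g⁻¹} v_g is a scalar, so v_g* is a multiple of v_{g⁻¹}.
    p = pcyc π ξ = projection onto the closed span of the v_g ξ.  p commutes with all π(g) (orbit),
    and with all v_g: v_g maps v_h ξ to a multiple of v_{gh} ξ, and so does v_g*.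
(4) C = N ∩ {p}' is a von Neumann algebra (the commutant of N' ∪ {p}); v_g in C; C ξ is contained
    in p E (a ξ = a p ξ = p a ξ) and its closure is p E.  ξ is separating for N: if a ξ = 0, a in N,
    then a y ξ = 0 for y in N (‖a y ξ‖^2 = τ(y* a* a y) = τ(a y y* a*) ≤ ‖y‖^2 τ(a a*) =
    ‖y‖^2 τ(a* a) = 0), so a P = 0, and N is a factor (irr_N) and P ≠ 0 in N': inj_mul_proj, a = 0.
(5) y in N: `ce` for C, T = y (hypothesis hT by traciality) gives y0 in C with p (y - y0) p = 0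
    (C ξ is dense in p E).  p is in comm π, p ≠ 0, so lemB (M = bi π, a factor by Good.irr; its
    commutant is comm π) gives y = y0 in C.  So all y in N commute with p.  Then y ξ = y p ξ = p y ξ
    is in p E for all y in N, so P ≤ p; and p ≤ P since π(g) ξ = P π(g) ξ.  So p = P.
-/
import Pool.Agent.Helper93.SP2.KTR
import Pool.Agent.Helper93.SP2.CE
import Pool.Agent.Helper93.SP2.LB

set_option autoImplicit false

set_option linter.deprecated false
set_option linter.unusedSectionVars false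

open scoped InnerProductSpace ComplexConjugate ENNReal NNReal
open Filter Topology

namespace Pool.Agent.Helper93.SP

variable {G : Type*} [Group G] {E : Type*} [NormedAddCommGroup E] [InnerProductSpace ℂ E]
  [CompleteSpace E]

/-- The projection onto a subspace invariant under b and its adjoint commutes with b. -/
private theorem proj_comm76 (V : Submodule ℂ E) [V.HasOrthogonalProjection] (b : E →L[ℂ] E)
    (h1 : ∀ v ∈ V, b v ∈ V) (h2 : ∀ v ∈ V, (star b) v ∈ V) :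
    V.starProjection * b = b * V.starProjection := by
  ext x
  rw [ContinuousLinearMap.mul_apply, ContinuousLinearMap.mul_apply]
  refine Submodule.eq_starProjection_of_mem_of_inner_eq_zero
    (h1 _ (Submodule.starProjection_apply_mem V x)) fun w hw => ?_
  have h3 : b x - b (V.starProjection x) = b (x - V.starProjection x) := by rw [map_sub]
  rw [h3, ← ContinuousLinearMap.adjoint_inner_right, ← ContinuousLinearMap.star_eq_adjoint]
  exact Submodule.starProjection_inner_eq_zero x _ (h2 w hw)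

/-- A closed span is invariant if the generators are mapped into it. -/
private theorem inv76 (S : Set E) (T : E →L[ℂ] E)
    (h : ∀ s ∈ S, T s ∈ (Submodule.span ℂ S).topologicalClosure) :
    ∀ v ∈ (Submodule.span ℂ S).topologicalClosure,
      T v ∈ (Submodule.span ℂ S).topologicalClosure := by
  intro v hv
  have h1 : (Submodule.span ℂ S).topologicalClosure ≤
      (Submodule.span ℂ S).topologicalClosure.comap (T : E →ₗ[ℂ] E) := by
    refine Submodule.topologicalClosure_minimal _ (Submodule.span_le.2 h) ?_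
    exact (Submodule.isClosed_topologicalClosure _).preimage T.continuous
  exact h1 hv

private theorem isProj_pcyc76 (π : G →* unitary (E →L[ℂ] E)) (ξ : E) : IsProj (pcyc π ξ) := by
  have h := isStarProjection_starProjection
    (U := (Submodule.span ℂ (Set.range fun g => (π g : E →L[ℂ] E) ξ)).topologicalClosure)
  exact ⟨h.isSelfAdjoint, h.isIdempotentElem⟩

private theorem pcyc_apply76 (π : G →* unitary (E →L[ℂ] E)) (ξ : E) (g : G) :
    pcyc π ξ ((π g : E →L[ℂ] E) ξ) = (π g : E →L[ℂ] E) ξ := by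
  rw [pcyc, Submodule.starProjection_eq_self_iff]
  exact Submodule.le_topologicalClosure _ (Submodule.subset_span ⟨g, rfl⟩)

/-- Test a product with the projection on the orbit. -/
private theorem mul_pcyc76 (π : G →* unitary (E →L[ℂ] E)) (ξ : E) (A B : E →L[ℂ] E)
    (h : ∀ g, A ((π g : E →L[ℂ] E) ξ) = B ((π g : E →L[ℂ] E) ξ)) :
    A * pcyc π ξ = B * pcyc π ξ := by
  have h1 : (Submodule.span ℂ (Set.range fun g => (π g : E →L[ℂ] E) ξ)).topologicalClosure ≤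
      LinearMap.ker ((A - B : E →L[ℂ] E) : E →ₗ[ℂ] E) := by
    refine Submodule.topologicalClosure_minimal _ (Submodule.span_le.2 ?_) ?_
    · rintro _ ⟨g, rfl⟩
      change (A - B) ((π g : E →L[ℂ] E) ξ) = 0
      rw [ContinuousLinearMap.sub_apply, h g, sub_self]
    · exact (A - B).isClosed_ker
  ext x
  have h2 := h1 (Submodule.starProjection_apply_mem
    (Submodule.span ℂ (Set.range fun g => (π g : E →L[ℂ] E) ξ)).topologicalClosure x)
  have h3 : (A - B) (pcyc π ξ x) = 0 := h2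
  rw [ContinuousLinearMap.sub_apply, sub_eq_zero] at h3
  exact h3

/-- Test a compression to the cyclic subspace on the orbit. -/
private theorem compr76 (π : G →* unitary (E →L[ℂ] E)) (ξ : E) (A : E →L[ℂ] E)
    (h : ∀ g k, ⟪(π g : E →L[ℂ] E) ξ, A ((π k : E →L[ℂ] E) ξ)⟫_ℂ = 0) :
    pcyc π ξ * A * pcyc π ξ = 0 := by
  have h1 : (pcyc π ξ * A) * pcyc π ξ = 0 * pcyc π ξ := by
    refine mul_pcyc76 π ξ _ _ fun k => ?_
    rw [ContinuousLinearMap.mul_apply, ContinuousLinearMap.zero_apply, pcyc,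
      Submodule.starProjection_apply_eq_zero_iff, Submodule.orthogonal_closure,
      Submodule.mem_orthogonal]
    intro u hu
    induction hu using Submodule.span_induction with
    | mem x hx =>
      obtain ⟨g, rfl⟩ := hx
      exact h g k
    | zero => exact inner_zero_left _
    | add x y _ _ hx hy => rw [inner_add_left, hx, hy, add_zero]
    | smul a x _ hx => rw [inner_smul_left, hx, mul_zero]
  rw [h1, zero_mul]

private theorem star_rep76 (π : G →* unitary (E →L[ℂ] E)) (g : G) :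
    star (π g : E →L[ℂ] E) = (π g⁻¹ : E →L[ℂ] E) := by
  rw [map_inv]
  rfl

private theorem rep_mul76 (π : G →* unitary (E →L[ℂ] E)) (g h : G) :
    (π (g * h) : E →L[ℂ] E) = (π g : E →L[ℂ] E) * (π h : E →L[ℂ] E) := by
  rw [map_mul]
  rfl

private theorem inner_uni76 (u : unitary (E →L[ℂ] E)) (x y : E) :
    ⟪(u : E →L[ℂ] E) x, (u : E →L[ℂ] E) y⟫_ℂ = ⟪x, y⟫_ℂ := by
  rw [← ContinuousLinearMap.adjoint_inner_right, ← ContinuousLinearMap.star_eq_adjoint,
    ← ContinuousLinearMap.mul_apply, Unitary.coe_star_mul_self, ContinuousLinearMap.one_apply]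

/-- Step (1). -/
private theorem inner_zero76 (K L : Subgroup G) (hc : Cls K L) (π : G →* unitary (E →L[ℂ] E))
    (hπ : Good K π) (ξ : E) (ρ0 : K →* unitary (E →L[ℂ] E))
    (hρ1 : ∀ k : K, (ρ0 k : E →L[ℂ] E) ξ = star (π k : E →L[ℂ] E) ξ)
    (hρ2 : ∀ k, (ρ0 k : E →L[ℂ] E) ∈ comm π) (g : G) (hg : g ≠ 1) :
    ⟪ξ, (π g : E →L[ℂ] E) ξ⟫_ℂ = 0 := by
  have h1 : ∀ k : K, ⟪ξ, (π ((k : G) * g * (k : G)⁻¹) : E →L[ℂ] E) ξ⟫_ℂ =
      ⟪ξ, (π g : E →L[ℂ] E) ξ⟫_ℂ := by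
    intro k
    have e1 : (π ((k : G) * g * (k : G)⁻¹) : E →L[ℂ] E) ξ =
        (π k : E →L[ℂ] E) ((π g : E →L[ℂ] E) (star (π k : E →L[ℂ] E) ξ)) := by
      rw [rep_mul76, rep_mul76, star_rep76]
      rfl
    have e2 : (π g : E →L[ℂ] E) ((ρ0 k : E →L[ℂ] E) ξ) =
        (ρ0 k : E →L[ℂ] E) ((π g : E →L[ℂ] E) ξ) := by
      have := (mem_comm π _).1 (hρ2 k) g
      rw [← ContinuousLinearMap.mul_apply, ← this]
      rfl
    rw [e1, ← ContinuousLinearMap.adjoint_inner_left, ← ContinuousLinearMap.star_eq_adjoint,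
      ← hρ1 k, e2, inner_uni76]
  by_contra hne
  have h2 := hπ.mixing ξ ξ ‖⟪ξ, (π g : E →L[ℂ] E) ξ⟫_ℂ‖ (norm_pos_iff.2 hne)
  refine (hc.icc g hg) (h2.subset ?_)
  rintro _ ⟨k, rfl⟩
  change ‖⟪ξ, (π g : E →L[ℂ] E) ξ⟫_ℂ‖ ≤
    ‖⟪ξ, (π ((k : G) * g * (k : G)⁻¹) : E →L[ℂ] E) ξ⟫_ℂ‖
  rw [h1 k]

private theorem orth76 (K L : Subgroup G) (hc : Cls K L) (π : G →* unitary (E →L[ℂ] E))
    (hπ : Good K π) (ξ : E) (hξ : ‖ξ‖ = 1) (ρ0 : K →* unitary (E →L[ℂ] E))
    (hρ1 : ∀ k : K, (ρ0 k : E →L[ℂ] E) ξ = star (π k : E →L[ℂ] E) ξ)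
    (hρ2 : ∀ k, (ρ0 k : E →L[ℂ] E) ∈ comm π) :
    Orthonormal ℂ fun g : G => (π g : E →L[ℂ] E) ξ := by
  constructor
  · intro g
    have h := inner_uni76 (π g) ξ ξ
    rw [inner_self_eq_norm_sq_to_K, inner_self_eq_norm_sq_to_K, hξ] at h
    have h2 : ‖(π g : E →L[ℂ] E) ξ‖ ^ 2 = 1 ^ 2 := by exact_mod_cast h
    exact (pow_left_inj₀ (norm_nonneg _) zero_le_one two_ne_zero).1 h2
  · intro g h hgh
    have e : ⟪(π g : E →L[ℂ] E) ξ, (π h : E →L[ℂ] E) ξ⟫_ℂ =
        ⟪ξ, (π (g⁻¹ * h) : E →L[ℂ] E) ξ⟫_ℂ := by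
      rw [rep_mul76, ContinuousLinearMap.mul_apply, ← star_rep76,
        ContinuousLinearMap.star_eq_adjoint, ContinuousLinearMap.adjoint_inner_right]
    change ⟪(π g : E →L[ℂ] E) ξ, (π h : E →L[ℂ] E) ξ⟫_ℂ = 0
    rw [e]
    refine inner_zero76 K L hc π hπ ξ ρ0 hρ1 hρ2 _ ?_
    intro h1
    exact hgh (inv_mul_eq_one.1 h1)

private theorem star_zero76 (N : VonNeumannAlgebra E) (ξ : E) (hξ : TrVec N ξ) (x : E →L[ℂ] E)
    (hx : x ∈ N) (h : x ξ = 0) : star x ξ = 0 := by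
  have h1 : ⟪star x ξ, star x ξ⟫_ℂ = ⟪ξ, (x * star x) ξ⟫_ℂ := by
    rw [ContinuousLinearMap.mul_apply, ContinuousLinearMap.star_eq_adjoint,
      ContinuousLinearMap.adjoint_inner_left]
  have h2 : ⟪ξ, (star x * x) ξ⟫_ℂ = 0 := by
    rw [ContinuousLinearMap.mul_apply, h, map_zero, inner_zero_right]
  rw [hξ.tracial x hx (star x) (star_mem hx), h2] at h1
  exact inner_self_eq_zero.1 h1

private theorem xi_ne76 (N : VonNeumannAlgebra E) (ξ : E) (hξ : TrVec N ξ) : ξ ≠ 0 := by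
  intro h
  have := hξ.norm
  rw [h, norm_zero] at this
  exact zero_ne_one this

private theorem sep76 (N : VonNeumannAlgebra E) (ξ : E) (hξ : TrVec N ξ)
    (hf : ∀ x ∈ N, (∀ y ∈ N, x * y = y * x) → ∃ c : ℂ, x = c • (1 : E →L[ℂ] E))
    (a : E →L[ℂ] E) (ha : a ∈ N) (h : a ξ = 0) : a = 0 := by
  have h0 : star a ξ = 0 := star_zero76 N ξ hξ a ha h
  have h1 : ∀ y ∈ N, a (y ξ) = (0 : E →L[ℂ] E) (y ξ) := by
    intro y hy
    have h2 : star (a * y) ξ = 0 := by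
      rw [star_mul, ContinuousLinearMap.mul_apply, h0, map_zero]
    have h3 := star_zero76 N ξ hξ (star (a * y)) (star_mem (mul_mem ha hy)) h2
    rw [star_star, ContinuousLinearMap.mul_apply] at h3
    rw [h3, ContinuousLinearMap.zero_apply]
  have h4 := eq_of_eq_on N ξ a 0 h1
  rw [zero_mul] at h4
  refine inj_mul_proj N hf (pcycN N ξ) (isProj_pcycN N ξ) ?_ (pcycN_mem N ξ) a ha h4
  intro h5
  have h6 := pcycN_apply N ξ 1 (one_mem N)
  rw [h5, ContinuousLinearMap.zero_apply, ContinuousLinearMap.one_apply] at h6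
  exact xi_ne76 N ξ hξ h6.symm

/-- Normalising elements of N. -/
private def Nr76 (K : Subgroup G) (π : G →* unitary (E →L[ℂ] E)) (N : VonNeumannAlgebra E) (g : G)
    (u : E →L[ℂ] E) : Prop :=
  u ∈ N ∧ ∀ k ∈ K, u * (π k : E →L[ℂ] E) = (π (g * k * g⁻¹) : E →L[ℂ] E) * u

private theorem nr_mul76 (K : Subgroup G) (hK : K.Normal) (π : G →* unitary (E →L[ℂ] E))
    (N : VonNeumannAlgebra E) (g h : G) (u w : E →L[ℂ] E) (hu : Nr76 K π N g u)
    (hw : Nr76 K π N h w) : Nr76 K π N (g * h) (u * w) := by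
  refine ⟨mul_mem hu.1 hw.1, fun k hk => ?_⟩
  rw [mul_assoc, hw.2 k hk, ← mul_assoc, hu.2 _ (hK.conj_mem k hk h), mul_assoc]
  congr 3
  group

private theorem nr_star76 (K : Subgroup G) (hK : K.Normal) (π : G →* unitary (E →L[ℂ] E))
    (N : VonNeumannAlgebra E) (g : G) (u : unitary (E →L[ℂ] E))
    (hu : Nr76 K π N g (u : E →L[ℂ] E)) : Nr76 K π N g⁻¹ (star (u : E →L[ℂ] E)) := by
  refine ⟨star_mem hu.1, fun k hk => ?_⟩
  have h1 := hu.2 (g⁻¹ * k * g) (by simpa using hK.conj_mem k hk g⁻¹)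
  have h2 : g * (g⁻¹ * k * g) * g⁻¹ = k := by group
  rw [h2] at h1
  have h3 : (π (g⁻¹ * k * g⁻¹⁻¹) : E →L[ℂ] E) = (π (g⁻¹ * k * g) : E →L[ℂ] E) := by
    rw [inv_inv]
  rw [h3]
  calc star (u : E →L[ℂ] E) * (π k : E →L[ℂ] E)
      = star (u : E →L[ℂ] E) * ((π k : E →L[ℂ] E) * (u : E →L[ℂ] E)) *
          star (u : E →L[ℂ] E) := by
        rw [mul_assoc, mul_assoc, Unitary.mul_star_self_of_mem u.2, mul_one]
    _ = (π (g⁻¹ * k * g) : E →L[ℂ] E) * star (u : E →L[ℂ] E) := by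
        rw [← h1, ← mul_assoc, Unitary.star_mul_self_of_mem u.2, one_mul]



private theorem fac_N76 (K L : Subgroup G) (hc : Cls K L) (π : G →* unitary (E →L[ℂ] E))
    (hπ : Good K π) (N : VonNeumannAlgebra E) (δ : ℝ) (hδ : δ ≤ 1 / 10) (hN : Near (bi π) N δ)
    (hKN : ∀ k ∈ K, (π k : E →L[ℂ] E) ∈ N) :
    ∀ x ∈ N, (∀ y ∈ N, x * y = y * x) → ∃ c : ℂ, x = c • (1 : E →L[ℂ] E) :=
  fun x hx h => irr_N K hc.amen π hπ N δ hδ hN hKN x hx fun k hk => h _ (hKN k hk)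

private theorem fac_bi76 (K : Subgroup G) (π : G →* unitary (E →L[ℂ] E)) (hπ : Good K π) :
    ∀ x ∈ bi π, (∀ y ∈ bi π, x * y = y * x) → ∃ c : ℂ, x = c • (1 : E →L[ℂ] E) :=
  fun x hx h => hπ.irr x hx fun k _ => h _ (rep_mem_bi π k)

/-- Step (2). -/
private theorem rep_xi76 (K L : Subgroup G) (hc : Cls K L) (π : G →* unitary (E →L[ℂ] E))
    (hπ : Good K π) (N : VonNeumannAlgebra E) (δ : ℝ) (hδ : δ ≤ 1 / 10) (hN : Near (bi π) N δ)
    (hKN : ∀ k ∈ K, (π k : E →L[ℂ] E) ∈ N) (ξ : E) (hξ : TrVec N ξ)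
    (hP : pcycN N ξ ∈ comm π)
    (ρ0 : K →* unitary (E →L[ℂ] E)) (hρ : ∀ k, (ρ0 k : E →L[ℂ] E) ∈ N.commutant)
    (hρ1 : ∀ k : K, ∀ y ∈ N, (ρ0 k : E →L[ℂ] E) (y ξ) = (y * star (π k : E →L[ℂ] E)) ξ)
    (hρ2 : ∀ k, (ρ0 k : E →L[ℂ] E) ∈ comm π) (g : G) (v : unitary (E →L[ℂ] E))
    (hv : Nr76 K π N g (v : E →L[ℂ] E)) :
    ∃ c : ℂ, c ≠ 0 ∧ (π g : E →L[ℂ] E) ξ = c • (v : E →L[ℂ] E) ξ := by
  obtain ⟨s, hs⟩ : ∃ s : E →L[ℂ] E, s = star (v : E →L[ℂ] E) * (π g : E →L[ℂ] E) := ⟨_, rfl⟩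
  have hvs : star (v : E →L[ℂ] E) ∈ N := star_mem hv.1
  have hPs : pcycN N ξ * s = s * pcycN N ξ := by
    have e1 := (mem_comm π _).1 hP g
    have e2 := VonNeumannAlgebra.mem_commutant_iff.1 (pcycN_mem N ξ) _ hvs
    rw [hs, ← mul_assoc, ← e2, mul_assoc, e1, mul_assoc]
  have h1ξ : pcycN N ξ ξ = ξ := by
    have := pcycN_apply N ξ 1 (one_mem N)
    rwa [ContinuousLinearMap.one_apply] at this
  have hζ : pcycN N ξ (s ξ) = s ξ := by
    rw [← ContinuousLinearMap.mul_apply, hPs, ContinuousLinearMap.mul_apply, h1ξ]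
  have hρξ : ∀ k : K, (ρ0 k : E →L[ℂ] E) ξ = star (π k : E →L[ℂ] E) ξ := by
    intro k
    have := hρ1 k 1 (one_mem N)
    rwa [ContinuousLinearMap.one_apply, one_mul] at this
  have hst : ∀ k ∈ K, s * (π k : E →L[ℂ] E) = (π k : E →L[ℂ] E) * s := by
    intro k hk
    have h1 := hv.2 k hk
    have h2 : star (v : E →L[ℂ] E) * (π (g * k * g⁻¹) : E →L[ℂ] E) =
        (π k : E →L[ℂ] E) * star (v : E →L[ℂ] E) := by
      calc star (v : E →L[ℂ] E) * (π (g * k * g⁻¹) : E →L[ℂ] E)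
          = star (v : E →L[ℂ] E) * ((π (g * k * g⁻¹) : E →L[ℂ] E) * (v : E →L[ℂ] E)) *
              star (v : E →L[ℂ] E) := by
            rw [mul_assoc (star (v : E →L[ℂ] E)), mul_assoc (π (g * k * g⁻¹) : E →L[ℂ] E),
              Unitary.mul_star_self_of_mem v.2, mul_one]
        _ = (π k : E →L[ℂ] E) * star (v : E →L[ℂ] E) := by
            rw [← h1, ← mul_assoc, Unitary.star_mul_self_of_mem v.2, one_mul]
    have h3 : (π g : E →L[ℂ] E) * (π k : E →L[ℂ] E) =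
        (π (g * k * g⁻¹) : E →L[ℂ] E) * (π g : E →L[ℂ] E) := by
      rw [← rep_mul76, ← rep_mul76]
      congr 2
      group
    rw [hs, mul_assoc, h3, ← mul_assoc, h2, mul_assoc]
  obtain ⟨c, hcs⟩ := fixed_vec K hc.amen π hπ N δ hδ hN hKN ξ hξ ρ0 hρ hρ1 (s ξ) hζ (by
    intro k
    have e1 : (ρ0 k : E →L[ℂ] E) (s ξ) = s ((ρ0 k : E →L[ℂ] E) ξ) := by
      have f1 := (mem_comm π _).1 (hρ2 k) g
      have f2 := VonNeumannAlgebra.mem_commutant_iff.1 (hρ k) _ hvs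
      have f3 : (ρ0 k : E →L[ℂ] E) * s = s * (ρ0 k : E →L[ℂ] E) := by
        rw [hs, ← mul_assoc, ← f2, mul_assoc, f1, mul_assoc]
      rw [← ContinuousLinearMap.mul_apply, f3, ContinuousLinearMap.mul_apply]
    have e2 : (π k : E →L[ℂ] E) (s (star (π k : E →L[ℂ] E) ξ)) = s ξ := by
      have := hst k k.2
      rw [← ContinuousLinearMap.mul_apply, ← this, ContinuousLinearMap.mul_apply,
        ← ContinuousLinearMap.mul_apply (π k : E →L[ℂ] E), Unitary.mul_star_self_of_mem (π k).2,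
        ContinuousLinearMap.one_apply]
    rw [e1, hρξ k, e2])
  have hfin : (π g : E →L[ℂ] E) ξ = c • (v : E →L[ℂ] E) ξ := by
    have e : (v : E →L[ℂ] E) (s ξ) = (π g : E →L[ℂ] E) ξ := by
      rw [hs, ← ContinuousLinearMap.mul_apply, ← mul_assoc, Unitary.mul_star_self_of_mem v.2,
        one_mul]
    rw [← e, hcs, map_smul]
  refine ⟨c, ?_, hfin⟩
  rintro rfl
  rw [zero_smul] at hfin
  have h3 := inner_uni76 (π g) ξ ξ
  rw [hfin, inner_zero_left] at h3
  exact xi_ne76 N ξ hξ (inner_self_eq_zero.1 h3.symm)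

/-- Step (3). -/
private theorem nr_scalar76 (K L : Subgroup G) (hc : Cls K L) (π : G →* unitary (E →L[ℂ] E))
    (hπ : Good K π) (N : VonNeumannAlgebra E) (δ : ℝ) (hδ : δ ≤ 1 / 10) (hN : Near (bi π) N δ)
    (hKN : ∀ k ∈ K, (π k : E →L[ℂ] E) ∈ N) (g : G) (v : unitary (E →L[ℂ] E))
    (hv : Nr76 K π N g (v : E →L[ℂ] E)) (u : E →L[ℂ] E) (hu : Nr76 K π N g u) :
    ∃ c : ℂ, u = c • (v : E →L[ℂ] E) := by
  have h1 := nr_mul76 K hc.normK π N g⁻¹ g _ _ (nr_star76 K hc.normK π N g v hv) hu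
  obtain ⟨c, hcc⟩ := irr_N K hc.amen π hπ N δ hδ hN hKN _ h1.1 (by
    intro k hk
    have := h1.2 k hk
    rw [this]
    congr 3
    group)
  refine ⟨c, ?_⟩
  calc u = (v : E →L[ℂ] E) * (star (v : E →L[ℂ] E) * u) := by
        rw [← mul_assoc, Unitary.mul_star_self_of_mem v.2, one_mul]
    _ = c • (v : E →L[ℂ] E) := by
        rw [hcc, mul_smul_comm, mul_one]

theorem sb1 (K L : Subgroup G) (hc : Cls K L) (π : G →* unitary (E →L[ℂ] E)) (hπ : Good K π)
    (N : VonNeumannAlgebra E) (δ : ℝ) (hδ : δ ≤ 1 / 10) (hN : Near (bi π) N δ)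
    (hKN : ∀ k ∈ K, (π k : E →L[ℂ] E) ∈ N) (ξ : E) (hξ : TrVec N ξ)
    (hP : pcycN N ξ ∈ comm π)
    (ρ0 : K →* unitary (E →L[ℂ] E)) (hρ : ∀ k, (ρ0 k : E →L[ℂ] E) ∈ N.commutant)
    (hρ1 : ∀ k : K, ∀ y ∈ N, (ρ0 k : E →L[ℂ] E) (y ξ) = (y * star (π k : E →L[ℂ] E)) ξ)
    (hρ2 : ∀ k, (ρ0 k : E →L[ℂ] E) ∈ comm π) :
    (Orthonormal ℂ fun g : G => (π g : E →L[ℂ] E) ξ) ∧ pcyc π ξ = pcycN N ξ := by
  classical
  have hρξ : ∀ k : K, (ρ0 k : E →L[ℂ] E) ξ = star (π k : E →L[ℂ] E) ξ := by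
    intro k
    have := hρ1 k 1 (one_mem N)
    rwa [ContinuousLinearMap.one_apply, one_mul] at this
  refine ⟨orth76 K L hc π hπ ξ hξ.norm ρ0 hρξ hρ2, ?_⟩
  have hfN := fac_N76 K L hc π hπ N δ hδ hN hKN
  choose v hv using fun g => exists_v K hc.normK hc.amen π hπ N δ hδ hN hKN g
  have hnv : ∀ g, Nr76 K π N g (v g : E →L[ℂ] E) := fun g => hv g
  choose c hc0 hcv using fun g => rep_xi76 K L hc π hπ N δ hδ hN hKN ξ hξ hP ρ0 hρ hρ1 hρ2 g (v g)
    (hnv g)
  -- a normalising element maps ξ to a multiple of π g ξ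
  have hnr : ∀ g, ∀ u : E →L[ℂ] E, Nr76 K π N g u →
      ∃ a : ℂ, u ξ = a • (π g : E →L[ℂ] E) ξ := by
    intro g u hu
    obtain ⟨b, hb⟩ := nr_scalar76 K L hc π hπ N δ hδ hN hKN g (v g) (hnv g) u hu
    refine ⟨b * (c g)⁻¹, ?_⟩
    rw [hcv g, smul_smul, mul_assoc, inv_mul_cancel₀ (hc0 g), mul_one, hb,
      ContinuousLinearMap.smul_apply]
  obtain ⟨p, hpdef⟩ : ∃ p, p = pcyc π ξ := ⟨_, rfl⟩
  have hp : IsProj p := hpdef ▸ isProj_pcyc76 π ξ
  have hpξ : p ξ = ξ := by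
    have := pcyc_apply76 π ξ 1
    rw [hpdef]
    simpa using this
  -- p commutes with π g and with v g
  have hpπ : p ∈ comm π := by
    rw [mem_comm]
    intro g
    rw [hpdef, pcyc]
    refine proj_comm76 _ _ (inv76 _ _ ?_) (inv76 _ _ ?_)
    · rintro _ ⟨h, rfl⟩
      refine Submodule.le_topologicalClosure _ (Submodule.subset_span ⟨g * h, ?_⟩)
      change (π (g * h) : E →L[ℂ] E) ξ = _
      rw [rep_mul76]
      rfl
    · rintro _ ⟨h, rfl⟩
      refine Submodule.le_topologicalClosure _ (Submodule.subset_span ⟨g⁻¹ * h, ?_⟩)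
      change (π (g⁻¹ * h) : E →L[ℂ] E) ξ = _
      rw [rep_mul76, star_rep76]
      rfl
  have hin : ∀ g h, ∀ u : E →L[ℂ] E, Nr76 K π N g u →
      u ((π h : E →L[ℂ] E) ξ) ∈
        (Submodule.span ℂ (Set.range fun g => (π g : E →L[ℂ] E) ξ)).topologicalClosure := by
    intro g h u hu
    obtain ⟨a, ha⟩ := hnr (g * h) _ (nr_mul76 K hc.normK π N g h u _ hu (hnv h))
    have e : u ((π h : E →L[ℂ] E) ξ) = (c h * a) • (π (g * h) : E →L[ℂ] E) ξ := by
      rw [hcv h, map_smul, ← ContinuousLinearMap.mul_apply, ha, smul_smul]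
    rw [e]
    exact Submodule.le_topologicalClosure _
      (Submodule.smul_mem _ _ (Submodule.subset_span ⟨g * h, rfl⟩))
  have hpv : ∀ g, p * (v g : E →L[ℂ] E) = (v g : E →L[ℂ] E) * p := by
    intro g
    rw [hpdef, pcyc]
    refine proj_comm76 _ _ (inv76 _ _ ?_) (inv76 _ _ ?_)
    · rintro _ ⟨h, rfl⟩
      exact hin g h _ (hnv g)
    · rintro _ ⟨h, rfl⟩
      exact hin g⁻¹ h _ (nr_star76 K hc.normK π N g (v g) (hnv g))
  -- the algebra C
  obtain ⟨C, hCdef⟩ : ∃ C, C = cenVN ((N.commutant : Set (E →L[ℂ] E)) ∪ {p}) := ⟨_, rfl⟩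
  have hC : ∀ x, x ∈ C ↔ x ∈ N ∧ p * x = x * p := by
    intro x
    rw [hCdef, mem_cenVN]
    constructor
    · intro h
      refine ⟨?_, (h p (Or.inr rfl)).1⟩
      rw [← N.commutant_commutant, VonNeumannAlgebra.mem_commutant_iff]
      exact fun y hy => (h y (Or.inl hy)).1
    · rintro ⟨h1, h2⟩ y (hy | hy)
      · have hx : ∀ z ∈ N.commutant, z * x = x * z := fun z hz =>
          (VonNeumannAlgebra.mem_commutant_iff.1 hz x h1).symm
        exact ⟨hx y hy, hx _ (star_mem hy)⟩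
      · rw [Set.mem_singleton_iff] at hy
        subst hy
        exact ⟨h2, by rw [hp.1]; exact h2⟩
  have hvC : ∀ g, (v g : E →L[ℂ] E) ∈ C := fun g => (hC _).2 ⟨(hnv g).1, hpv g⟩
  have hCN : ∀ x ∈ C, x ∈ N := fun x hx => ((hC x).1 hx).1
  have hp0 : p ≠ 0 := by
    rintro rfl
    rw [ContinuousLinearMap.zero_apply] at hpξ
    exact xi_ne76 N ξ hξ hpξ.symm
  have hpM : p ∈ (bi π).commutant := by
    rw [bi, VonNeumannAlgebra.commutant_commutant]
    exact hpπ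
  have key : ∀ y ∈ N, p * y = y * p := by
    intro y hy
    obtain ⟨y0, hy0C, hy0⟩ := ce C ξ (fun a ha b hb => hξ.tracial a (hCN a ha) b (hCN b hb))
      (fun a ha h => sep76 N ξ hξ hfN a (hCN a ha) h) y (by
        intro a ha b hb c' hc'
        have e1 : ⟪c' ξ, y ((a * b) ξ)⟫_ℂ = ⟪ξ, ((star c' * (y * a)) * b) ξ⟫_ℂ := by
          simp only [ContinuousLinearMap.mul_apply]
          rw [ContinuousLinearMap.star_eq_adjoint, ContinuousLinearMap.adjoint_inner_right]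
        have e2 : ⟪(c' * star b) ξ, y (a ξ)⟫_ℂ = ⟪ξ, (b * (star c' * (y * a))) ξ⟫_ℂ := by
          rw [← ContinuousLinearMap.adjoint_inner_right, ← ContinuousLinearMap.star_eq_adjoint,
            star_mul, star_star]
          simp only [ContinuousLinearMap.mul_apply]
        rw [e1, e2]
        exact hξ.tracial _ (mul_mem (star_mem (hCN c' hc')) (mul_mem hy (hCN a ha))) _ (hCN b hb))
    have hz : p * (y - y0) * p = 0 := by
      rw [hpdef]
      refine compr76 π ξ _ fun g h => ?_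
      rw [hcv g, hcv h, map_smul, inner_smul_left, inner_smul_right,
        ContinuousLinearMap.sub_apply, inner_sub_right, hy0 _ (hvC h) _ (hvC g), sub_self,
        mul_zero, mul_zero]
    have h5 := lemB (bi π) N (fac_bi76 K π hπ) p hp hp0 hpM δ (by linarith) hN (y - y0)
      (sub_mem hy (hCN _ hy0C)) hz
    rw [sub_eq_zero] at h5
    rw [h5]
    exact ((hC y0).1 hy0C).2
  -- conclusion
  have h1 : p * pcycN N ξ = pcycN N ξ := by
    have := eq_of_eq_on N ξ p 1 (fun y hy => by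
      rw [← ContinuousLinearMap.mul_apply, key y hy, ContinuousLinearMap.mul_apply, hpξ,
        ContinuousLinearMap.one_apply])
    rwa [one_mul] at this
  have h2 : pcycN N ξ * p = p := by
    have := mul_pcyc76 π ξ (pcycN N ξ) 1 (fun g => by
      have e1 := (mem_comm π _).1 hP g
      have h1ξ : pcycN N ξ ξ = ξ := by
        have := pcycN_apply N ξ 1 (one_mem N)
        rwa [ContinuousLinearMap.one_apply] at this
      rw [← ContinuousLinearMap.mul_apply, e1, ContinuousLinearMap.mul_apply, h1ξ,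
        ContinuousLinearMap.one_apply])
    rwa [one_mul, ← hpdef] at this
  have h3 := congrArg star h1
  rw [star_mul, hp.1, (isProj_pcycN N ξ).1] at h3
  rw [← hpdef, ← h2, h3]


end Pool.Agent.Helper93.SP
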