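/-
Block SQ-SB2 (about 250 lines).  The perturbations.  (K, L) in Cls, π Good, ξ a TrVec of N,
Near (bi π) N δ, δ ≤ 10^(-13).  Then there is a unit vector η such that the π(g) η are orthonormal and
‖pcyc π η - pcycN N ξ‖ ≤ 1/100.

Proof.  P = pcycN N ξ.  Facts used (block SQ-CJ):
 (F1) For T in N', ‖T‖ ≤ 1 there is S in comm π with ‖T - S‖ ≤ 54 δ: for x in grpAlg π (in bi π) and y
      in N with ‖x - y‖ ≤ δ ‖x‖, T x - x T = T (x - y) - (x - y) T; Dk27.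
 (F2) Conjugation: if w is unitary, ‖w - 1‖ ≤ η0 and Near (bi π) N δ then
      Near (bi (conjRep w π)) N (δ + 2 η0) (bi (conjRep w π) = w (bi π) w*, ‖w x w* - x‖ ≤ 2 η0 ‖x‖);
      Good is preserved; comm (conjRep w π) = w (comm π) w*; pcyc (conjRep w π) (w η) = w (pcyc π η) w*.
 Step 1: F1 for P, near_proj: projection Q in comm π with ‖P - Q‖ ≤ 216 δ; proj_conj: w0 with
   w0 Q = P w0, ‖w0 - 1‖ ≤ 864 δ.  π0 = conjRep w0 π: P in comm π0; Near constant δ1 = 1729 δ.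
 Step 2: kz for K, A = N, ρ0 = π0 restricted to K (within δ1 of N): w1 with w1 π0(k) w1* in N,
   ‖w1 - 1‖ ≤ 250 δ1, and w1 commutes with P (P commutes with N and with π0(K)).
   π1 = conjRep w1 π0; P in comm π1; Near constant δ2 = 501 δ1; π1(K) ⊆ N.
 Step 3: ρ0 from exists_rm_rep (σ = π1 restricted to K).  By F1 (for π1, δ2) ρ0(k) is within 54 δ2 of
   some T in comm π1, hence of P T P + (1-P) T (1-P) in A = the commutant of π1(G) ∪ {P}
   (ρ0(k) commutes with P).  kz with this A: w2, ‖w2 - 1‖ ≤ 13500 δ2, w2 ρ0(k) w2* in A ⊆ comm π1;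
   w2 commutes with P and with all π1(k), k in K (they commute with A, and with ρ0(K) ⊆ N' because
   π1(k) in N; P commutes with ρ0).
   π2 = conjRep w2* π1: π2(k) = π1(k) in N for k in K, P in comm π2, ρ0(k) = w2* (w2 ρ0(k) w2*) w2 in
   comm π2; Near constant δ3 = δ2 + 27000 δ2 ≤ 1/10.  ρ0(k) y ξ = y π2(k)* ξ.
 sb1 for π2: π2(g) ξ orthonormal and pcyc π2 ξ = P.  π2 = conjRep w π with w = w2* w1 w0, ‖w - 1‖ ≤
 864 δ + 250 δ1 + 13500 δ2 ≤ 1/1000.  η = w* ξ: π(g) η = w* π2(g) ξ orthonormal, pcyc π η = w* P w, and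
 ‖w* P w - P‖ ≤ 2 ‖w - 1‖ ≤ 1/100.
-/
import Pool.Agent.Helper93.SP2.SB1
import Pool.Agent.Helper93.SP2.KZB
import Pool.Agent.Helper93.SP2.CJ

set_option autoImplicit false

open scoped InnerProductSpace ComplexConjugate ENNReal NNReal
open Filter Topology

namespace Pool.Agent.Helper93.SP

variable {G : Type*} [Group G] {E : Type*} [NormedAddCommGroup E] [InnerProductSpace ℂ E]
  [CompleteSpace E]

private theorem star_mul27 (w : unitary (E →L[ℂ] E)) :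
    star (w : E →L[ℂ] E) * (w : E →L[ℂ] E) = 1 := Unitary.star_mul_self_of_mem w.2

private theorem mul_star27 (w : unitary (E →L[ℂ] E)) :
    (w : E →L[ℂ] E) * star (w : E →L[ℂ] E) = 1 := Unitary.mul_star_self_of_mem w.2

private theorem norm_le27 (w : unitary (E →L[ℂ] E)) : ‖(w : E →L[ℂ] E)‖ ≤ 1 := by
  have h := CStarRing.norm_coe_unitary_mul w (1 : E →L[ℂ] E)
  rw [mul_one] at h
  rw [h]
  exact ContinuousLinearMap.norm_id_le

private theorem norm_proj27 (P : E →L[ℂ] E) (hP : IsProj P) : ‖P‖ ≤ 1 := by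
  have h1 : ‖P‖ * ‖P‖ = ‖P‖ := by
    rw [← CStarRing.norm_star_mul_self, hP.1, hP.2]
  by_contra hc
  push Not at hc
  nlinarith

private theorem conj_conj27 (a b : unitary (E →L[ℂ] E)) (π : G →* unitary (E →L[ℂ] E)) :
    conjRep a (conjRep b π) = conjRep (a * b) π := by
  ext1 g
  change a * (b * π g * b⁻¹) * a⁻¹ = (a * b) * π g * (a * b)⁻¹
  simp only [mul_inv_rev, mul_assoc]

private theorem norm_star_sub27 (w : unitary (E →L[ℂ] E)) (c : ℝ)
    (h : ‖(w : E →L[ℂ] E) - 1‖ ≤ c) : ‖((w⁻¹ : unitary (E →L[ℂ] E)) : E →L[ℂ] E) - 1‖ ≤ c := by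
  have h1 : ((w⁻¹ : unitary (E →L[ℂ] E)) : E →L[ℂ] E) - 1 = star ((w : E →L[ℂ] E) - 1) := by
    rw [star_sub, star_one]
    rfl
  rw [h1, norm_star]
  exact h

private theorem norm_mul_sub27 (a b : unitary (E →L[ℂ] E)) (c d : ℝ)
    (ha : ‖(a : E →L[ℂ] E) - 1‖ ≤ c) (hb : ‖(b : E →L[ℂ] E) - 1‖ ≤ d) :
    ‖((a * b : unitary (E →L[ℂ] E)) : E →L[ℂ] E) - 1‖ ≤ c + d := by
  have h1 : ((a * b : unitary (E →L[ℂ] E)) : E →L[ℂ] E) - 1 =
      ((a : E →L[ℂ] E) - 1) + (a : E →L[ℂ] E) * ((b : E →L[ℂ] E) - 1) := by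
    rw [Submonoid.coe_mul, mul_sub, mul_one]
    abel
  rw [h1]
  refine (norm_add_le _ _).trans (add_le_add ha ?_)
  rw [CStarRing.norm_coe_unitary_mul]
  exact hb

private theorem isProj_pcyc27 (π : G →* unitary (E →L[ℂ] E)) (ξ : E) : IsProj (pcyc π ξ) := by
  have h := isStarProjection_starProjection
    (U := (Submodule.span ℂ (Set.range fun g => (π g : E →L[ℂ] E) ξ)).topologicalClosure)
  exact ⟨h.isSelfAdjoint, h.isIdempotentElem⟩

private theorem pcyc_apply27 (π : G →* unitary (E →L[ℂ] E)) (ξ : E) (g : G) :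
    pcyc π ξ ((π g : E →L[ℂ] E) ξ) = (π g : E →L[ℂ] E) ξ := by
  rw [pcyc, Submodule.starProjection_eq_self_iff]
  exact Submodule.le_topologicalClosure _ (Submodule.subset_span ⟨g, rfl⟩)

private theorem mul_pcyc27 (π : G →* unitary (E →L[ℂ] E)) (ξ : E) (A B : E →L[ℂ] E)
    (h : ∀ g, A ((π g : E →L[ℂ] E) ξ) = B ((π g : E →L[ℂ] E) ξ)) :
    A * pcyc π ξ = B * pcyc π ξ := by
  have h1 : (Submodule.span ℂ (Set.range fun g => (π g : E →L[ℂ] E) ξ)).topologicalClosure ≤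
      LinearMap.ker ((A - B : E →L[ℂ] E) : E →ₗ[ℂ] E) := by
    refine Submodule.topologicalClosure_minimal _ (Submodule.span_le.2 ?_) ?_
    · rintro _ ⟨g, rfl⟩
      change (A - B) ((π g : E →L[ℂ] E) ξ) = 0
      rw [ContinuousLinearMap.sub_apply, h g, sub_self]
    · exact (A - B).isClosed_ker
  ext x
  have h2 := h1 (Submodule.starProjection_apply_mem
    (Submodule.span ℂ (Set.range fun g => (π g : E →L[ℂ] E) ξ)).topologicalClosure x)
  have h3 : (A - B) (pcyc π ξ x) = 0 := h2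
  rw [ContinuousLinearMap.sub_apply, sub_eq_zero] at h3
  exact h3

/-- The projection of a conjugated representation. -/
private theorem pcyc_conj27 (w : unitary (E →L[ℂ] E)) (π : G →* unitary (E →L[ℂ] E)) (ξ : E) :
    pcyc π (star (w : E →L[ℂ] E) ξ) =
      star (w : E →L[ℂ] E) * pcyc (conjRep w π) ξ * (w : E →L[ℂ] E) := by
  have e1 := star_mul27 w
  have e2 := mul_star27 w
  obtain ⟨p1, p2⟩ := isProj_pcyc27 π (star (w : E →L[ℂ] E) ξ)
  obtain ⟨q1, q2⟩ := isProj_pcyc27 (conjRep w π) ξ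
  have f1 : (star (w : E →L[ℂ] E) * pcyc (conjRep w π) ξ * (w : E →L[ℂ] E)) *
      pcyc π (star (w : E →L[ℂ] E) ξ) = 1 * pcyc π (star (w : E →L[ℂ] E) ξ) := by
    refine mul_pcyc27 π _ _ _ fun g => ?_
    have h1 := pcyc_apply27 (conjRep w π) ξ g
    rw [conjRep_apply] at h1
    change (star (w : E →L[ℂ] E)) (pcyc (conjRep w π) ξ ((w : E →L[ℂ] E)
      ((π g : E →L[ℂ] E) (star (w : E →L[ℂ] E) ξ)))) = (π g : E →L[ℂ] E) (star (w : E →L[ℂ] E) ξ)
    change pcyc (conjRep w π) ξ ((w : E →L[ℂ] E) ((π g : E →L[ℂ] E) (star (w : E →L[ℂ] E) ξ))) =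
      (w : E →L[ℂ] E) ((π g : E →L[ℂ] E) (star (w : E →L[ℂ] E) ξ)) at h1
    rw [h1]
    change (star (w : E →L[ℂ] E) * (w : E →L[ℂ] E)) ((π g : E →L[ℂ] E) (star (w : E →L[ℂ] E) ξ)) = _
    rw [e1]
    rfl
  have f2 : ((w : E →L[ℂ] E) * pcyc π (star (w : E →L[ℂ] E) ξ) * star (w : E →L[ℂ] E)) *
      pcyc (conjRep w π) ξ = 1 * pcyc (conjRep w π) ξ := by
    refine mul_pcyc27 (conjRep w π) _ _ _ fun g => ?_
    have h1 := pcyc_apply27 π (star (w : E →L[ℂ] E) ξ) g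
    rw [conjRep_apply]
    change (w : E →L[ℂ] E) (pcyc π (star (w : E →L[ℂ] E) ξ) ((star (w : E →L[ℂ] E) *
      (w : E →L[ℂ] E)) ((π g : E →L[ℂ] E) (star (w : E →L[ℂ] E) ξ)))) =
        (w : E →L[ℂ] E) ((π g : E →L[ℂ] E) (star (w : E →L[ℂ] E) ξ))
    rw [e1]
    change (w : E →L[ℂ] E) (pcyc π (star (w : E →L[ℂ] E) ξ)
      ((π g : E →L[ℂ] E) (star (w : E →L[ℂ] E) ξ))) = _
    rw [h1]
  rw [one_mul] at f1 f2
  generalize pcyc π (star (w : E →L[ℂ] E) ξ) = p at *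
  generalize pcyc (conjRep w π) ξ = q at *
  have f3 : p * (star (w : E →L[ℂ] E) * q * (w : E →L[ℂ] E)) =
      star (w : E →L[ℂ] E) * q * (w : E →L[ℂ] E) := by
    calc p * (star (w : E →L[ℂ] E) * q * (w : E →L[ℂ] E))
        = (star (w : E →L[ℂ] E) * (w : E →L[ℂ] E)) * p * (star (w : E →L[ℂ] E) * q *
            (w : E →L[ℂ] E)) := by rw [e1, one_mul]
      _ = star (w : E →L[ℂ] E) * (((w : E →L[ℂ] E) * p * star (w : E →L[ℂ] E)) * q) *
            (w : E →L[ℂ] E) := by simp only [mul_assoc]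
      _ = star (w : E →L[ℂ] E) * q * (w : E →L[ℂ] E) := by rw [f2]
  have f4 := congrArg star f1
  rw [star_mul, star_mul, star_mul, star_star, p1, q1] at f4
  rw [← f4]
  calc p * (star (w : E →L[ℂ] E) * (q * (w : E →L[ℂ] E))) =
      p * (star (w : E →L[ℂ] E) * q * (w : E →L[ℂ] E)) := by simp only [mul_assoc]
    _ = _ := f3

private theorem step1_27 (K L : Subgroup G) (hc : Cls K L) (π : G →* unitary (E →L[ℂ] E))
    (hπ : Good K π) (N : VonNeumannAlgebra E) (δ : ℝ) (hδ0 : 0 ≤ δ) (hδ : δ ≤ 1 / 10 ^ 13)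
    (hN : Near (bi π) N δ) (P : E →L[ℂ] E) (hP : IsProj P) (hPN : P ∈ N.commutant) :
    ∃ w : unitary (E →L[ℂ] E), ‖(w : E →L[ℂ] E) - 1‖ ≤ 864 * δ ∧ P ∈ comm (conjRep w π) := by
  obtain ⟨S, hS, h1⟩ := near_commutant K L hc π hπ N δ hδ0 hN P hPN
  have hn := norm_proj27 P hP
  have h2 : ‖P - S‖ ≤ 54 * δ :=
    h1.trans (mul_le_of_le_one_right (by positivity) hn)
  obtain ⟨Q, hQ, hQp, h3⟩ := near_proj (comm π) P S hP hS (54 * δ) (by linarith) h2
  obtain ⟨w, hw1, hw2⟩ := proj_conj P Q hP hQp (4 * (54 * δ)) (by linarith) h3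
  refine ⟨w, by linarith, ?_⟩
  rw [mem_comm_conjRep]
  have h4 : star (w : E →L[ℂ] E) * P * (w : E →L[ℂ] E) = Q := by
    rw [mul_assoc, ← hw2, ← mul_assoc, star_mul27, one_mul]
  rw [h4]
  exact hQ

private theorem step2_27 (K L : Subgroup G) (hc : Cls K L) (π : G →* unitary (E →L[ℂ] E))
    (N : VonNeumannAlgebra E) (δ : ℝ) (hδ0 : 0 ≤ δ) (hδ : δ ≤ 1 / 2000)
    (hN : Near (bi π) N δ) (P : E →L[ℂ] E) (hPN : P ∈ N.commutant) (hPc : P ∈ comm π) :
    ∃ w : unitary (E →L[ℂ] E), ‖(w : E →L[ℂ] E) - 1‖ ≤ 250 * δ ∧ P ∈ comm (conjRep w π) ∧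
      ∀ k ∈ K, (conjRep w π k : E →L[ℂ] E) ∈ N := by
  obtain ⟨w, hw1, hw2, hw3⟩ := kz hc.amen N (π.comp K.subtype) δ hδ (by
    intro k
    obtain ⟨y, hy, h1⟩ := hN.1 _ (rep_mem_bi π k)
    refine ⟨y, hy, ?_⟩
    rw [norm_sub_rev]
    exact h1.trans (mul_le_of_le_one_right hδ0 (norm_le27 _)))
  have h1 : P * (w : E →L[ℂ] E) = (w : E →L[ℂ] E) * P := by
    refine hw3 P ?_ ?_
    · intro a ha
      exact ((VonNeumannAlgebra.mem_commutant_iff.1 hPN) a ha).symm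
    · intro k
      exact (mem_comm π P).1 hPc k
  refine ⟨w, hw1, ?_, ?_⟩
  · rw [mem_comm_conjRep, mul_assoc, h1, ← mul_assoc, star_mul27, one_mul]
    exact hPc
  · intro k hk
    exact hw2 ⟨k, hk⟩

/-- The average over a symmetry. -/
private theorem pinch27 (P T R : E →L[ℂ] E) (hP : IsProj P) (hR : R * P = P * R) (c : ℝ)
    (h : ‖R - T‖ ≤ c) : ‖(P * T * P + (1 - P) * T * (1 - P)) - R‖ ≤ 2 * c := by
  have hn := norm_proj27 P hP
  have hP' : IsProj (1 - P) := by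
    refine ⟨by rw [star_sub, star_one, hP.1], ?_⟩
    rw [mul_sub, mul_one, sub_mul, one_mul, hP.2, sub_self, sub_zero]
  have hn' := norm_proj27 (1 - P) hP'
  have hR' : R = P * R * P + (1 - P) * R * (1 - P) := by
    rw [← hR, mul_assoc, hP.2]
    have h1 : (1 - P) * R = R * (1 - P) := by
      rw [sub_mul, one_mul, ← hR, mul_sub, mul_one]
    rw [h1, mul_assoc, hP'.2, mul_sub, mul_one]
    abel
  have h2 : (P * T * P + (1 - P) * T * (1 - P)) - R =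
      P * (T - R) * P + (1 - P) * (T - R) * (1 - P) := by
    conv_lhs => rw [hR']
    simp only [mul_sub, sub_mul]
    abel
  have h3 : ∀ Q : E →L[ℂ] E, ‖Q‖ ≤ 1 → ‖Q * (T - R) * Q‖ ≤ c := by
    intro Q hQ
    calc ‖Q * (T - R) * Q‖ ≤ ‖Q * (T - R)‖ * ‖Q‖ := norm_mul_le _ _
      _ ≤ ‖Q * (T - R)‖ * 1 := mul_le_mul_of_nonneg_left hQ (norm_nonneg _)
      _ ≤ ‖Q‖ * ‖T - R‖ := by rw [mul_one]; exact norm_mul_le _ _
      _ ≤ 1 * ‖T - R‖ := mul_le_mul_of_nonneg_right hQ (norm_nonneg _)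
      _ ≤ c := by rw [one_mul, norm_sub_rev]; exact h
  rw [h2]
  refine (norm_add_le _ _).trans ?_
  have := h3 P hn
  have := h3 (1 - P) hn'
  linarith

private theorem step3_27 (K L : Subgroup G) (hc : Cls K L) (π : G →* unitary (E →L[ℂ] E))
    (hπ : Good K π) (N : VonNeumannAlgebra E) (δ : ℝ) (hδ0 : 0 ≤ δ) (hδ : 108 * δ ≤ 1 / 2000)
    (hN : Near (bi π) N δ) (P : E →L[ℂ] E) (hP : IsProj P)
    (hPc : P ∈ comm π) (hKN : ∀ k ∈ K, (π k : E →L[ℂ] E) ∈ N)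
    (ρ0 : K →* unitary (E →L[ℂ] E)) (hρ : ∀ k, (ρ0 k : E →L[ℂ] E) ∈ N.commutant)
    (hρP : ∀ k, (ρ0 k : E →L[ℂ] E) * P = P * (ρ0 k : E →L[ℂ] E)) :
    ∃ w : unitary (E →L[ℂ] E), ‖(w : E →L[ℂ] E) - 1‖ ≤ 250 * (108 * δ) ∧
      P ∈ comm (conjRep w π) ∧ (∀ k ∈ K, (conjRep w π k : E →L[ℂ] E) = (π k : E →L[ℂ] E)) ∧
      ∀ k, (ρ0 k : E →L[ℂ] E) ∈ comm (conjRep w π) := by
  have hmem : ∀ T : E →L[ℂ] E,
      T ∈ cenVN ((Set.range fun g => (π g : E →L[ℂ] E)) ∪ {P}) ↔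
        (∀ g, T * (π g : E →L[ℂ] E) = (π g : E →L[ℂ] E) * T) ∧ T * P = P * T := by
    intro T
    rw [mem_cenVN]
    constructor
    · intro h
      exact ⟨fun g => ((h _ (Or.inl ⟨g, rfl⟩)).1).symm, ((h _ (Or.inr rfl)).1).symm⟩
    · rintro ⟨h1, h2⟩ x (⟨g, rfl⟩ | hx)
      · refine ⟨(h1 g).symm, ?_⟩
        have h3 : star (π g : E →L[ℂ] E) = (π g⁻¹ : E →L[ℂ] E) := by
          rw [map_inv]
          rfl
        change star (π g : E →L[ℂ] E) * T = T * star (π g : E →L[ℂ] E)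
        rw [h3]
        exact (h1 g⁻¹).symm
      · have hx' : x = P := hx
        rw [hx', hP.1]
        exact ⟨h2.symm, h2.symm⟩
  obtain ⟨w, hw1, hw2, hw3⟩ := kz hc.amen
    (cenVN ((Set.range fun g => (π g : E →L[ℂ] E)) ∪ {P})) ρ0 (108 * δ) hδ (by
    intro k
    obtain ⟨T, hT, h1⟩ := near_commutant K L hc π hπ N δ hδ0 hN (ρ0 k) (hρ k)
    have h2 : ‖(ρ0 k : E →L[ℂ] E) - T‖ ≤ 54 * δ :=
      h1.trans (mul_le_of_le_one_right (by positivity) (norm_le27 _))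
    refine ⟨P * T * P + (1 - P) * T * (1 - P), ?_, ?_⟩
    · rw [hmem]
      have hTc := (mem_comm π T).1 hT
      have hPc' := (mem_comm π P).1 hPc
      constructor
      · intro g
        have a1 : (1 - P) * (π g : E →L[ℂ] E) = (π g : E →L[ℂ] E) * (1 - P) := by
          rw [sub_mul, one_mul, hPc' g, mul_sub, mul_one]
        calc (P * T * P + (1 - P) * T * (1 - P)) * (π g : E →L[ℂ] E)
            = P * T * (P * (π g : E →L[ℂ] E)) + (1 - P) * T * ((1 - P) * (π g : E →L[ℂ] E)) := by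
              rw [add_mul]; simp only [mul_assoc]
          _ = P * (T * (π g : E →L[ℂ] E)) * P + (1 - P) * (T * (π g : E →L[ℂ] E)) * (1 - P) := by
              rw [hPc' g, a1]; simp only [mul_assoc]
          _ = (P * (π g : E →L[ℂ] E)) * T * P + ((1 - P) * (π g : E →L[ℂ] E)) * T * (1 - P) := by
              rw [hTc g]; simp only [mul_assoc]
          _ = (π g : E →L[ℂ] E) * (P * T * P + (1 - P) * T * (1 - P)) := by
              rw [hPc' g, a1, mul_add]; simp only [mul_assoc]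
      · have b1 : (1 - P) * P = 0 := by rw [sub_mul, one_mul, hP.2, sub_self]
        have b2 : P * (1 - P) = 0 := by rw [mul_sub, mul_one, hP.2, sub_self]
        calc (P * T * P + (1 - P) * T * (1 - P)) * P
            = P * T * (P * P) + (1 - P) * T * ((1 - P) * P) := by
              rw [add_mul]; simp only [mul_assoc]
          _ = P * T * P := by rw [hP.2, b1, mul_zero, add_zero]
          _ = (P * P) * T * P + (P * (1 - P)) * T * (1 - P) := by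
              rw [hP.2, b2, zero_mul, zero_mul, add_zero]
          _ = P * (P * T * P + (1 - P) * T * (1 - P)) := by
              rw [mul_add]; simp only [mul_assoc]
    · have h3 := pinch27 P T (ρ0 k) hP (hρP k) (54 * δ) h2
      linarith)
  have hP1 : P * (w : E →L[ℂ] E) = (w : E →L[ℂ] E) * P := by
    refine hw3 P ?_ ?_
    · intro a ha
      exact (((hmem a).1 ha).2).symm
    · intro k
      exact (hρP k).symm
  have hk1 : ∀ k ∈ K, (π k : E →L[ℂ] E) * (w : E →L[ℂ] E) =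
      (w : E →L[ℂ] E) * (π k : E →L[ℂ] E) := by
    intro k hk
    refine hw3 _ ?_ ?_
    · intro a ha
      exact (((hmem a).1 ha).1 k).symm
    · intro k'
      exact (VonNeumannAlgebra.mem_commutant_iff.1 (hρ k')) _ (hKN k hk)
  have e1 := star_mul27 w
  have e2 := mul_star27 w
  have hstar : ∀ x : E →L[ℂ] E, x * (w : E →L[ℂ] E) = (w : E →L[ℂ] E) * x →
      (w : E →L[ℂ] E) * x * star (w : E →L[ℂ] E) = x ∧
        star (w : E →L[ℂ] E) * x * (w : E →L[ℂ] E) = x := by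
    intro x hx
    constructor
    · rw [← hx, mul_assoc, e2, mul_one]
    · rw [mul_assoc, hx, ← mul_assoc, e1, one_mul]
  have hinv : ((w⁻¹ : unitary (E →L[ℂ] E)) : E →L[ℂ] E) = star (w : E →L[ℂ] E) := rfl
  refine ⟨w⁻¹, norm_star_sub27 w _ hw1, ?_, ?_, ?_⟩
  · rw [mem_comm_conjRep, hinv, star_star, (hstar P hP1).1]
    exact hPc
  · intro k hk
    rw [conjRep_apply, hinv, star_star, (hstar _ (hk1 k hk)).2]
  · intro k
    rw [mem_comm_conjRep, hinv, star_star, mem_comm]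
    exact ((hmem _).1 (hw2 k)).1

theorem sb2 (K L : Subgroup G) (hc : Cls K L) (π : G →* unitary (E →L[ℂ] E)) (hπ : Good K π)
    (N : VonNeumannAlgebra E) (δ : ℝ) (hδ0 : 0 ≤ δ) (hδ : δ ≤ 1 / 10 ^ 13)
    (hN : Near (bi π) N δ) (ξ : E) (hξ : TrVec N ξ) :
    ∃ η : E, (Orthonormal ℂ fun g : G => (π g : E →L[ℂ] E) η) ∧
      ‖pcyc π η - pcycN N ξ‖ ≤ 1 / 100 := by
  have hP := isProj_pcycN N ξ
  have hPN := pcycN_mem N ξ
  have hδ' : δ * 10 ^ 13 ≤ 1 := by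
    have := mul_le_mul_of_nonneg_right hδ (by positivity : (0:ℝ) ≤ 10 ^ 13)
    linarith
  -- step 1
  obtain ⟨w0, hw0, hc0⟩ := step1_27 K L hc π hπ N δ hδ0 hδ hN _ hP hPN
  have hN0 := near_conjRep w0 π N δ (864 * δ) hδ0 hw0 hN
  have hπ0 := good_conjRep K w0 π hπ
  -- step 2
  obtain ⟨w1, hw1, hc1, hKN⟩ := step2_27 K L hc (conjRep w0 π) N (δ + 2 * (864 * δ))
    (by positivity) (by linarith) hN0 _ hPN hc0
  have hN1 := near_conjRep w1 (conjRep w0 π) N (δ + 2 * (864 * δ)) _ (by positivity) hw1 hN0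
  have hπ1 := good_conjRep K w1 _ hπ0
  -- step 3
  obtain ⟨ρ0, r1, r2, r3, -⟩ := exists_rm_rep N ξ hξ
    ((conjRep w1 (conjRep w0 π)).comp K.subtype) (fun k => hKN k k.2)
  obtain ⟨w2, hw2, hc2, hk2, hr2⟩ := step3_27 K L hc (conjRep w1 (conjRep w0 π)) hπ1 N
    (δ + 2 * (864 * δ) + 2 * (250 * (δ + 2 * (864 * δ)))) (by positivity) (by linarith) hN1 _
    hP hc1 hKN ρ0 r1 r3
  have hN2 := near_conjRep w2 (conjRep w1 (conjRep w0 π)) N _ _ (by positivity) hw2 hN1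
  have hπ2 := good_conjRep K w2 _ hπ1
  obtain ⟨o1, o2⟩ := sb1 K L hc (conjRep w2 (conjRep w1 (conjRep w0 π))) hπ2 N _ (by linarith)
    hN2 (fun k hk => by rw [hk2 k hk]; exact hKN k hk) ξ hξ hc2 ρ0 r1
    (fun k y hy => by rw [hk2 k k.2]; exact r2 k y hy) hr2
  rw [conj_conj27, conj_conj27] at o1 o2
  have hw := norm_mul_sub27 (w2 * w1) w0 _ _ (norm_mul_sub27 w2 w1 _ _ hw2 hw1) hw0
  generalize w2 * w1 * w0 = w at *
  have e1 := star_mul27 w
  have e2 := mul_star27 w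
  have hin : ∀ x y : E, ⟪(w : E →L[ℂ] E) x, (w : E →L[ℂ] E) y⟫_ℂ = ⟪x, y⟫_ℂ := by
    intro x y
    rw [← ContinuousLinearMap.adjoint_inner_right, ← ContinuousLinearMap.star_eq_adjoint]
    change ⟪x, (star (w : E →L[ℂ] E) * (w : E →L[ℂ] E)) y⟫_ℂ = _
    rw [e1]
    rfl
  refine ⟨star (w : E →L[ℂ] E) ξ, ?_, ?_⟩
  · have hg : ∀ g, (conjRep w π g : E →L[ℂ] E) ξ =
        (w : E →L[ℂ] E) ((π g : E →L[ℂ] E) (star (w : E →L[ℂ] E) ξ)) := fun g => rfl
    classical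
    rw [orthonormal_iff_ite] at o1 ⊢
    intro g h
    have h1 := o1 g h
    simp only [hg] at h1
    rw [hin] at h1
    exact h1
  · rw [pcyc_conj27, o2]
    have hn := norm_proj27 _ hP
    generalize pcycN N ξ = P at *
    have h1 : star (w : E →L[ℂ] E) * P * (w : E →L[ℂ] E) - P =
        ((w⁻¹ : unitary (E →L[ℂ] E)) : E →L[ℂ] E) *
          (P * ((w : E →L[ℂ] E) - 1) - ((w : E →L[ℂ] E) - 1) * P) := by
      change _ = star (w : E →L[ℂ] E) * _
      have h2 : P * ((w : E →L[ℂ] E) - 1) - ((w : E →L[ℂ] E) - 1) * P =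
          P * (w : E →L[ℂ] E) - (w : E →L[ℂ] E) * P := by
        rw [mul_sub, sub_mul, mul_one, one_mul]
        abel
      rw [h2, mul_sub, ← mul_assoc, ← mul_assoc, e1, one_mul]
    have h3 : ‖P * ((w : E →L[ℂ] E) - 1)‖ ≤ ‖(w : E →L[ℂ] E) - 1‖ :=
      (norm_mul_le _ _).trans (mul_le_of_le_one_left (norm_nonneg _) hn)
    have h4 : ‖((w : E →L[ℂ] E) - 1) * P‖ ≤ ‖(w : E →L[ℂ] E) - 1‖ :=
      (norm_mul_le _ _).trans (mul_le_of_le_one_right (norm_nonneg _) hn)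
    rw [h1, CStarRing.norm_coe_unitary_mul]
    refine (norm_sub_le _ _).trans ?_
    linarith

end Pool.Agent.Helper93.SP
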