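/-
Block SQ-SPL (about 150 lines).  The splitting step.

(K, L) in Cls, π Good, Near (bi π) N δ, 0 ≤ δ ≤ 10^(-13).
* near_proj_comm: P a projection in N'.  near_commutant (‖P‖ ≤ 1) and near_proj (A = comm π,
  ε = 54 δ) give a projection R in comm π with ‖P - R‖ ≤ 216 δ ≤ 1/1000.
* split_step: b a TrVec of N, Pb = pcycN N b; P a projection in N' with P Pb = 0; R a projection in
  comm π with ‖R - (P + Pb)‖ ≤ 1/100.  sb2 gives c with orthonormal orbit and ‖pcyc π c - Pb‖ ≤ 1/100.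
  ‖(1 - R) pcyc π c‖ ≤ ‖(1 - (P + Pb)) Pb‖ + 2/100 = 2/100 (P Pb = 0 and Pb Pb = Pb); precisely
  (1 - R) p = (1 - R)(p - Pb) + ((P + Pb) - R) Pb + (1 - P - Pb) Pb.  iso_of_near (A = comm π): V in
  comm π with V* V = p, R V = V, ‖V - p‖ ≤ 4/100.  ‖V V* - p‖ ≤ ‖V (V - p)*‖ + ‖(V - p) p‖ ≤ 8/100 (p = p*),
  ‖V V* - Pb‖ ≤ 9/100, ‖(R - V V*) - P‖ ≤ 1/10.
* sub_isProj: R V = V, V* V a projection, R a projection: V V* is a projection, R - V V* is a
  projection (R V V* = V V*), orthogonal to V V*.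
-/
import Pool.Agent.Helper93.SP2.SB2
import Pool.Agent.Helper93.SP2.Dimk

set_option autoImplicit false

open scoped InnerProductSpace ComplexConjugate ENNReal NNReal
open Filter Topology

namespace Pool.Agent.Helper93.SP

variable {G : Type*} [Group G] {E : Type*} [NormedAddCommGroup E] [InnerProductSpace ℂ E]
  [CompleteSpace E]

theorem isProj_norm_le (P : E →L[ℂ] E) (hP : IsProj P) : ‖P‖ ≤ 1 := by
  have h := CStarRing.norm_star_mul_self (x := P)
  rw [hP.1, hP.2] at h
  by_contra hcon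
  push Not at hcon
  nlinarith

theorem pi_norm_le (V : E →L[ℂ] E) (hV : IsProj (star V * V)) : ‖V‖ ≤ 1 := by
  have h := CStarRing.norm_star_mul_self (x := V)
  have h1 := isProj_norm_le _ hV
  rw [h] at h1
  by_contra hcon
  push Not at hcon
  nlinarith

theorem pi_mul (V : E →L[ℂ] E) (hV : IsProj (star V * V)) : V * (star V * V) = V := by
  have h : star (V * (star V * V) - V) * (V * (star V * V) - V) = 0 := by
    have e : star (V * (star V * V) - V) * (V * (star V * V) - V) =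
        star (star V * V) * (star V * V) * (star V * V) - star (star V * V) * (star V * V) -
          (star V * V) * (star V * V) + star V * V := by
      simp only [star_sub, star_mul, star_star]
      noncomm_ring
    rw [e, hV.1, hV.2, hV.2]
    abel
  exact sub_eq_zero.1 ((CStarRing.star_mul_self_eq_zero_iff _).1 h)

theorem sub_isProj (R V : E →L[ℂ] E) (hR : IsProj R) (hV : IsProj (star V * V))
    (h : R * V = V) :
    IsProj (V * star V) ∧ IsProj (R - V * star V) ∧ (R - V * star V) * (V * star V) = 0 ∧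
      R * (R - V * star V) = R - V * star V ∧ (R - V * star V) * V = 0 := by
  have h1 := pi_mul V hV
  have h2 : V * star V * (V * star V) = V * star V := by
    calc V * star V * (V * star V) = V * (star V * V) * star V := by simp only [mul_assoc]
      _ = _ := by rw [h1]
  have h3 : R * (V * star V) = V * star V := by rw [← mul_assoc, h]
  have h4 : V * star V * R = V * star V := by
    have := congrArg star h3
    rwa [star_mul, star_mul, star_star, hR.1] at this
  refine ⟨⟨by rw [star_mul, star_star], h2⟩, ⟨by rw [star_sub, star_mul, star_star, hR.1], ?_⟩, ?_, ?_, ?_⟩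
  · rw [sub_mul, mul_sub, mul_sub, hR.2, h3, h4, h2]
    abel
  · rw [sub_mul, h3, h2, sub_self]
  · rw [mul_sub, hR.2, h3]
  · rw [sub_mul, h, mul_assoc, h1, sub_self]

theorem near_proj_comm (K L : Subgroup G) (hc : Cls K L) (π : G →* unitary (E →L[ℂ] E))
    (hπ : Good K π) (N : VonNeumannAlgebra E) (δ : ℝ) (hδ0 : 0 ≤ δ) (hδ : δ ≤ 1 / 10 ^ 13)
    (hN : Near (bi π) N δ) (P : E →L[ℂ] E) (hP : IsProj P) (hPN : P ∈ N.commutant) :
    ∃ R ∈ comm π, IsProj R ∧ ‖P - R‖ ≤ 1 / 1000 := by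
  obtain ⟨S, hS, hPS⟩ := near_commutant K L hc π hπ N δ hδ0 hN P hPN
  have h1 : ‖P - S‖ ≤ 54 * δ := by
    refine hPS.trans ?_
    calc 54 * δ * ‖P‖ ≤ 54 * δ * 1 := mul_le_mul_of_nonneg_left (isProj_norm_le P hP) (by positivity)
      _ = _ := mul_one _
  have h2 : δ ≤ 1 / 10 ^ 6 := hδ.trans (by norm_num)
  obtain ⟨Q, hQ, hQP, hPQ⟩ := near_proj (comm π) P S hP hS (54 * δ) (by linarith) h1
  exact ⟨Q, hQ, hQP, hPQ.trans (by linarith)⟩

theorem split_step (K L : Subgroup G) (hc : Cls K L) (π : G →* unitary (E →L[ℂ] E))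
    (hπ : Good K π) (N : VonNeumannAlgebra E) (δ : ℝ) (hδ0 : 0 ≤ δ) (hδ : δ ≤ 1 / 10 ^ 13)
    (hN : Near (bi π) N δ) (b : E) (hb : TrVec N b) (P R : E →L[ℂ] E) (hP : IsProj P)
    (horth : P * pcycN N b = 0) (hR : IsProj R) (hRc : R ∈ comm π)
    (h : ‖R - (P + pcycN N b)‖ ≤ 1 / 100) :
    ∃ c : E, (Orthonormal ℂ fun g : G => (π g : E →L[ℂ] E) c) ∧ ∃ V ∈ comm π,
      star V * V = pcyc π c ∧ R * V = V ∧ ‖(R - V * star V) - P‖ ≤ 1 / 10 := by
  obtain ⟨c, hco, hcp⟩ := sb2 K L hc π hπ N δ hδ0 hδ hN b hb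
  obtain ⟨p, hp⟩ : ∃ p, p = pcyc π c := ⟨_, rfl⟩
  obtain ⟨q, hq⟩ : ∃ q, q = pcycN N b := ⟨_, rfl⟩
  have hpP : IsProj p := by rw [hp]; exact isProj_pcyc π c
  have hqP : IsProj q := by rw [hq]; exact isProj_pcycN N b
  rw [← hp, ← hq] at hcp
  rw [← hq] at h horth
  have h1R : ‖1 - R‖ ≤ 1 := isProj_norm_le _ ⟨by rw [star_sub, star_one, hR.1], by
    rw [sub_mul, one_mul, mul_sub, mul_one, hR.2, sub_self, sub_zero]⟩
  have hε : ‖(1 - R) * p‖ ≤ 2 / 100 := by
    have e : (1 - R) * p = (1 - R) * (p - q) + ((P + q) - R) * q := by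
      have e1 : (P + q) * q = q := by rw [add_mul, horth, hqP.2, zero_add]
      rw [mul_sub, sub_mul (P + q), e1, sub_mul 1 R q, one_mul]
      abel
    rw [e]
    have h2 : ‖(1 - R) * (p - q)‖ ≤ 1 / 100 :=
      (norm_mul_le _ _).trans ((mul_le_mul h1R hcp (norm_nonneg _) zero_le_one).trans (by norm_num))
    have h3 : ‖((P + q) - R) * q‖ ≤ 1 / 100 := by
      refine (norm_mul_le _ _).trans ?_
      rw [norm_sub_rev] at h
      exact (mul_le_mul h (isProj_norm_le q hqP) (norm_nonneg _) (by norm_num)).trans (by norm_num)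
    exact (norm_add_le _ _).trans (by linarith)
  obtain ⟨V, hV, hVV, hRV, hVp⟩ := iso_of_near (comm π) p R hpP hR (by rw [hp]; exact pcyc_mem π c) hRc
    (2 / 100) (by norm_num) hε
  refine ⟨c, hco, V, hV, by rw [hVV, hp], hRV, ?_⟩
  have hVn : ‖V‖ ≤ 1 := pi_norm_le V (by rw [hVV]; exact hpP)
  have h4 : ‖V * star V - p‖ ≤ 8 / 100 := by
    have e : V * star V - p = V * star (V - p) + (V - p) * p := by
      rw [star_sub, hpP.1, mul_sub, sub_mul, hpP.2]
      abel
    rw [e]
    have h5 : ‖V * star (V - p)‖ ≤ 4 / 100 := by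
      refine (norm_mul_le _ _).trans ?_
      rw [norm_star]
      exact (mul_le_mul hVn hVp (norm_nonneg _) zero_le_one).trans (by norm_num)
    have h6 : ‖(V - p) * p‖ ≤ 4 / 100 :=
      (norm_mul_le _ _).trans ((mul_le_mul hVp (isProj_norm_le p hpP) (norm_nonneg _) (by norm_num)).trans
        (by norm_num))
    exact (norm_add_le _ _).trans (by linarith)
  have e : R - V * star V - P = (R - (P + q)) + ((q - p) + (p - V * star V)) := by abel
  rw [e]
  rw [norm_sub_rev] at h4 hcp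
  have h7 := norm_add_le (q - p) (p - V * star V)
  have h8 := norm_add_le (R - (P + q)) ((q - p) + (p - V * star V))
  linarith

end Pool.Agent.Helper93.SP
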