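/-
Block SQ-UP (about 250 lines).  From orthogonal standard vectors of N to those of M = π(G)''.

P_i = pcycN N (ζ_i) are mutually orthogonal projections in N' (⟪ζ_i, y ζ_j⟫ = 0 for all y in N, i ≠ j;
sum_pcycN: the partial sums S_j = Σ_(i < j) P_i are projections in N').
* up_near (induction on j ≤ k): for every projection R in comm π with ‖R - S_j‖ ≤ 1/100 there are j
  vectors η_i with R η_i = η_i and OrbOrth π η.
  j = 0: nothing.  j + 1: split_step (P = S_j, b = ζ_j) gives c, V, put R' = R - V V*,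
  ‖R' - S_j‖ ≤ 1/10; near_proj_comm gives a projection R_j in comm π with ‖S_j - R_j‖ ≤ 1/1000; the
  induction hypothesis gives j vectors in R_j; iso_of_near (A = comm π, Q = R_j, Q' = R'):
  ‖(1 - R') R_j‖ = ‖(R_j - R') R_j‖ ≤ ‖R_j - R'‖ ≤ 1/9 ≤ 1/2 gives V' in comm π, V'* V' = R_j, R' V' = V';
  the vectors V' η_i (in R') and V c (in V V*, orthogonal to R') do it; R is ≥ both.
* up: Z a projection in comm π and in N' with Z ζ_i = ζ_i.  Z S_k = S_k (Z y ζ_i = y Z ζ_i = y ζ_i).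
  near_proj_comm: R_k near S_k; up_near: k vectors in R_k; iso_of_near (Q = R_k, Q' = Z):
  ‖(1 - Z) R_k‖ = ‖(1 - Z)(R_k - S_k)‖ ≤ 1/1000; move the vectors by V in comm π into Z.
-/
import Pool.Agent.Helper93.SP2.Split
import Pool.Agent.Helper93.SP2.RM
import Pool.Agent.Helper93.SP2.Uni

set_option autoImplicit false

open scoped InnerProductSpace ComplexConjugate ENNReal NNReal
open Filter Topology

namespace Pool.Agent.Helper93.SP

variable {G : Type*} [Group G] {E : Type*} [NormedAddCommGroup E] [InnerProductSpace ℂ E]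
  [CompleteSpace E]

/-- The sum of the first j projections onto the closures of N ζ_i. -/
noncomputable def sumP (N : VonNeumannAlgebra E) (ζ : ℕ → E) (j : ℕ) : E →L[ℂ] E :=
  ∑ i ∈ Finset.range j, pcycN N (ζ i)

/-- The first k vectors ζ_i are tracial for N and N ζ_i is orthogonal to N ζ_j for i ≠ j. -/
structure TrFam (N : VonNeumannAlgebra E) (ζ : ℕ → E) (k : ℕ) : Prop where
  tr : ∀ i < k, TrVec N (ζ i)
  orth : ∀ i < k, ∀ j < k, i ≠ j → ∀ y ∈ N, ⟪ζ i, y (ζ j)⟫_ℂ = 0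

private theorem comm_apply52 {π : G →* unitary (E →L[ℂ] E)} {V : E →L[ℂ] E} (hV : V ∈ comm π)
    (g : G) (x : E) : V ((π g : E →L[ℂ] E) x) = (π g : E →L[ℂ] E) (V x) :=
  DFunLike.congr_fun ((mem_comm π V).1 hV g) x

private theorem inner_star52 (V : E →L[ℂ] E) (x y : E) : ⟪V x, y⟫_ℂ = ⟪x, (star V) y⟫_ℂ := by
  rw [ContinuousLinearMap.star_eq_adjoint, ContinuousLinearMap.adjoint_inner_right]

/-- the projections onto the closures of N ζ_i, N ζ_j are orthogonal -/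
private theorem orth_mul52 (N : VonNeumannAlgebra E) (ξ ζ : E) (h : ∀ y ∈ N, ⟪ξ, y ζ⟫_ℂ = 0) :
    pcycN N ξ * pcycN N ζ = 0 := by
  have h0 : pcycN N ξ ζ = 0 := by
    unfold pcycN
    rw [Submodule.starProjection_apply_eq_zero_iff, Submodule.orthogonal_closure,
      Submodule.mem_orthogonal]
    intro v hv
    induction hv using Submodule.span_induction with
    | mem x hx =>
      obtain ⟨y, hy, rfl⟩ := hx
      rw [inner_star52]
      exact h _ (star_mem hy)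
    | zero => exact inner_zero_left _
    | add x y _ _ hx hy => rw [inner_add_left, hx, hy, add_zero]
    | smul c x _ hx => rw [inner_smul_left, hx, mul_zero]
  have h1 := eq_of_eq_on N ζ (pcycN N ξ) 0 (fun y hy => by
    have h2 := (VonNeumannAlgebra.mem_commutant_iff.1 (pcycN_mem N ξ)) y hy
    have h3 := DFunLike.congr_fun h2 ζ
    have h4 : y (pcycN N ξ ζ) = pcycN N ξ (y ζ) := h3
    rw [← h4, h0, map_zero]
    rfl)
  rw [h1, zero_mul]

private theorem sumP_succ52 (N : VonNeumannAlgebra E) (ζ : ℕ → E) (j : ℕ) :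
    sumP N ζ (j + 1) = sumP N ζ j + pcycN N (ζ j) :=
  Finset.sum_range_succ _ _

private theorem sumP_mul52 (N : VonNeumannAlgebra E) (ζ : ℕ → E) (k : ℕ) (h : TrFam N ζ k) (j : ℕ)
    (hj : j < k) : sumP N ζ j * pcycN N (ζ j) = 0 := by
  unfold sumP
  rw [Finset.sum_mul]
  refine Finset.sum_eq_zero fun i hi => ?_
  have hij := Finset.mem_range.1 hi
  exact orth_mul52 N _ _ (h.orth i (by omega) j hj (by omega))

theorem sumP_isProj (N : VonNeumannAlgebra E) (ζ : ℕ → E) (k : ℕ) (h : TrFam N ζ k) (j : ℕ)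
    (hj : j ≤ k) : IsProj (sumP N ζ j) ∧ sumP N ζ j ∈ N.commutant := by
  induction j with
  | zero =>
    have h0 : sumP N ζ 0 = 0 := Finset.sum_range_zero _
    rw [h0]
    exact ⟨⟨star_zero _, zero_mul _⟩, zero_mem _⟩
  | succ j ih =>
    obtain ⟨⟨h1, h2⟩, h3⟩ := ih (by omega)
    have h4 := sumP_mul52 N ζ k h j (by omega)
    have h5 := isProj_pcycN N (ζ j)
    have h6 : pcycN N (ζ j) * sumP N ζ j = 0 := by
      have h7 := congrArg star h4
      rwa [star_mul, h1, h5.1, star_zero] at h7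
    rw [sumP_succ52]
    refine ⟨⟨?_, ?_⟩, add_mem h3 (pcycN_mem N (ζ j))⟩
    · rw [star_add, h1, h5.1]
    · rw [mul_add, add_mul, add_mul, h2, h4, h6, h5.2, add_zero, zero_add]

theorem sumP_orth (N : VonNeumannAlgebra E) (ζ : ℕ → E) (k : ℕ) (h : TrFam N ζ k) (j : ℕ)
    (hj : j < k) : sumP N ζ j * pcycN N (ζ j) = 0 :=
  sumP_mul52 N ζ k h j hj

/-- partial isometries of the commutant preserve the inner products -/
private theorem iso_inner52 {π : G →* unitary (E →L[ℂ] E)} {V Q : E →L[ℂ] E} (hV : V ∈ comm π)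
    (h : star V * V = Q) {a b : E} (hb : Q b = b) (g g' : G) :
    ⟪(π g : E →L[ℂ] E) (V a), (π g' : E →L[ℂ] E) (V b)⟫_ℂ =
      ⟪(π g : E →L[ℂ] E) a, (π g' : E →L[ℂ] E) b⟫_ℂ := by
  have hQ : Q ∈ comm π := by
    rw [← h]
    exact mul_mem (star_mem hV) hV
  rw [← comm_apply52 hV, ← comm_apply52 hV, inner_star52]
  have h1 : (star V) (V ((π g' : E →L[ℂ] E) b)) = Q ((π g' : E →L[ℂ] E) b) := by
    rw [← h]
    rfl
  rw [h1, comm_apply52 hQ, hb]

private theorem iso_orb52 {π : G →* unitary (E →L[ℂ] E)} {V Q : E →L[ℂ] E} (hV : V ∈ comm π)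
    (h : star V * V = Q) {ι : Type*} {η : ι → E} (hη : OrbOrth π η) (hQ : ∀ i, Q (η i) = η i) :
    OrbOrth π fun i => V (η i) := by
  classical
  unfold OrbOrth at hη ⊢
  rw [orthonormal_iff_ite] at hη ⊢
  rintro ⟨g, i⟩ ⟨g', i'⟩
  rw [← hη (g, i) (g', i')]
  exact iso_inner52 hV h (hQ i') g g'

private theorem orb_cons52 {π : G →* unitary (E →L[ℂ] E)} {j : ℕ} {a : E} {η : Fin j → E}
    (ha : Orthonormal ℂ fun g : G => (π g : E →L[ℂ] E) a) (hη : OrbOrth π η)
    (h : ∀ g g' i, ⟪(π g : E →L[ℂ] E) a, (π g' : E →L[ℂ] E) (η i)⟫_ℂ = 0) :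
    OrbOrth π (Fin.cons a η : Fin (j + 1) → E) := by
  unfold OrbOrth at hη ⊢
  refine ⟨?_, ?_⟩
  · rintro ⟨g, i⟩
    refine Fin.cases ?_ (fun i => ?_) i
    · exact ha.1 g
    · exact hη.1 (g, i)
  · rintro ⟨g, i⟩ ⟨g', i'⟩
    refine Fin.cases ?_ (fun i => ?_) i
    · refine Fin.cases ?_ (fun i' => ?_) i'
      · intro hne
        exact ha.2 fun hgg => hne (by
          have h1 : g = g' := hgg
          rw [h1])
      · intro _
        exact h g g' i'
    · refine Fin.cases ?_ (fun i' => ?_) i'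
      · intro _
        change ⟪(π g : E →L[ℂ] E) (η i), (π g' : E →L[ℂ] E) a⟫_ℂ = 0
        rw [← inner_conj_symm, h g' g i, map_zero]
      · intro hne
        have hne' : ((g, i) : G × Fin j) ≠ (g', i') := by
          intro hh
          apply hne
          rw [Prod.mk.injEq] at hh
          rw [hh.1, hh.2]
        exact hη.2 hne'

theorem up_near (K L : Subgroup G) (hc : Cls K L) (π : G →* unitary (E →L[ℂ] E))
    (hπ : Good K π) (N : VonNeumannAlgebra E) (δ : ℝ) (hδ0 : 0 ≤ δ) (hδ : δ ≤ 1 / 10 ^ 13)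
    (hN : Near (bi π) N δ) (ζ : ℕ → E) (k : ℕ) (hζ : TrFam N ζ k) (j : ℕ) (hj : j ≤ k)
    (R : E →L[ℂ] E) (hR : IsProj R) (hRc : R ∈ comm π) (h : ‖R - sumP N ζ j‖ ≤ 1 / 100) :
    ∃ η : Fin j → E, OrbOrth π η ∧ ∀ i, R (η i) = η i := by
  induction j generalizing R with
  | zero => exact ⟨Fin.elim0, ⟨fun p => p.2.elim0, fun p => p.2.elim0⟩, fun i => i.elim0⟩
  | succ j ih =>
    obtain ⟨hS, hSN⟩ := sumP_isProj N ζ k hζ j (by omega)
    rw [sumP_succ52] at h
    obtain ⟨c, hco, V, hV, hVV, hRV, hn⟩ := split_step K L hc π hπ N δ hδ0 hδ hN (ζ j)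
      (hζ.tr j (by omega)) (sumP N ζ j) R hS (sumP_orth N ζ k hζ j (by omega)) hR hRc h
    have hVp : IsProj (star V * V) := by
      rw [hVV]
      exact isProj_pcyc π c
    obtain ⟨hp1, hp2, hp3, hp4, hp5⟩ := sub_isProj R V hR hVp hRV
    set R' := R - V * star V with hR'
    have hR'c : R' ∈ comm π := sub_mem hRc (mul_mem hV (star_mem hV))
    obtain ⟨Q, hQc, hQ, hQn⟩ := near_proj_comm K L hc π hπ N δ hδ0 hδ hN (sumP N ζ j) hS hSN
    obtain ⟨η, hη, hQη⟩ := ih (by omega) Q hQ hQc (by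
      rw [norm_sub_rev]
      exact hQn.trans (by norm_num))
    have hnear : ‖(1 - R') * Q‖ ≤ 1 / 2 := by
      have h1 : (1 - R') * Q = (Q - R') * Q := by
        rw [sub_mul (1 : E →L[ℂ] E) R' Q, sub_mul Q R' Q, one_mul, hQ.2]
      have h2 := isProj_norm_le Q hQ
      have h3 : ‖Q - R'‖ ≤ 1 / 1000 + 1 / 10 := by
        have h4 : Q - R' = -(sumP N ζ j - Q) - (R' - sumP N ζ j) := by abel
        rw [h4]
        refine (norm_sub_le _ _).trans ?_
        rw [norm_neg]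
        exact add_le_add hQn hn
      rw [h1]
      calc ‖(Q - R') * Q‖ ≤ ‖Q - R'‖ * ‖Q‖ := norm_mul_le _ _
        _ ≤ (1 / 1000 + 1 / 10) * 1 := mul_le_mul h3 h2 (norm_nonneg _) (by norm_num)
        _ ≤ 1 / 2 := by norm_num
    obtain ⟨W, hW, hWW, hRW, -⟩ := iso_of_near (comm π) Q R' hQ hp2 hQc hR'c (1 / 2) le_rfl hnear
    refine ⟨Fin.cons (V c) fun i => W (η i), ?_, ?_⟩
    · refine orb_cons52 (orb_comm π c hco V hV hVV) (iso_orb52 hW hWW hη hQη) ?_
      intro g g' i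
      rw [← comm_apply52 hV, ← comm_apply52 hW]
      have h1 : W ((π g' : E →L[ℂ] E) (η i)) = R' (W ((π g' : E →L[ℂ] E) (η i))) := by
        conv_lhs => rw [← hRW]
        rfl
      have h2 : R' (V ((π g : E →L[ℂ] E) c)) = 0 := by
        have h3 := DFunLike.congr_fun hp5 ((π g : E →L[ℂ] E) c)
        exact h3
      rw [h1, ← hp2.1, ← inner_star52, h2, inner_zero_left]
    · intro i
      refine Fin.cases ?_ (fun i => ?_) i
      · exact DFunLike.congr_fun hRV c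
      · change R (W (η i)) = W (η i)
        have h1 : R * W = W := by
          rw [← hRW, ← mul_assoc, hp4]
        exact DFunLike.congr_fun h1 (η i)

theorem up (K L : Subgroup G) (hc : Cls K L) (π : G →* unitary (E →L[ℂ] E))
    (hπ : Good K π) (N : VonNeumannAlgebra E) (δ : ℝ) (hδ0 : 0 ≤ δ) (hδ : δ ≤ 1 / 10 ^ 13)
    (hN : Near (bi π) N δ) (ζ : ℕ → E) (k : ℕ) (hζ : TrFam N ζ k)
    (Z : E →L[ℂ] E) (hZ : IsProj Z) (hZc : Z ∈ comm π) (hZN : Z ∈ N.commutant)
    (hZζ : ∀ i < k, Z (ζ i) = ζ i) :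
    ∃ η : Fin k → E, OrbOrth π η ∧ ∀ i, Z (η i) = η i := by
  obtain ⟨hS, hSN⟩ := sumP_isProj N ζ k hζ k le_rfl
  have hZS : Z * sumP N ζ k = sumP N ζ k := by
    unfold sumP
    rw [Finset.mul_sum]
    refine Finset.sum_congr rfl fun i hi => ?_
    have h1 := eq_of_eq_on N (ζ i) Z 1 (fun y hy => by
      have h2 := (VonNeumannAlgebra.mem_commutant_iff.1 hZN) y hy
      have h3 : y (Z (ζ i)) = Z (y (ζ i)) := DFunLike.congr_fun h2 (ζ i)
      rw [← h3, hZζ i (Finset.mem_range.1 hi)]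
      rfl)
    rw [h1, one_mul]
  obtain ⟨Q, hQc, hQ, hQn⟩ := near_proj_comm K L hc π hπ N δ hδ0 hδ hN (sumP N ζ k) hS hSN
  obtain ⟨η, hη, hQη⟩ := up_near K L hc π hπ N δ hδ0 hδ hN ζ k hζ k le_rfl Q hQ hQc (by
    rw [norm_sub_rev]
    exact hQn.trans (by norm_num))
  have hnear : ‖(1 - Z) * Q‖ ≤ 1 / 2 := by
    have h1 : (1 - Z) * Q = (1 - Z) * (Q - sumP N ζ k) := by
      rw [mul_sub, sub_mul (1 : E →L[ℂ] E) Z (sumP N ζ k), one_mul, hZS, sub_self, sub_zero]
    have h2 : IsProj (1 - Z) := by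
      refine ⟨by rw [star_sub, star_one, hZ.1], ?_⟩
      rw [sub_mul, mul_sub, mul_sub, one_mul, mul_one, hZ.2, one_mul, sub_self, sub_zero]
    have h3 := isProj_norm_le (1 - Z) h2
    rw [h1]
    calc ‖(1 - Z) * (Q - sumP N ζ k)‖ ≤ ‖1 - Z‖ * ‖Q - sumP N ζ k‖ := norm_mul_le _ _
      _ ≤ 1 * (1 / 1000) := mul_le_mul h3 (by rw [norm_sub_rev]; exact hQn) (norm_nonneg _)
          (by norm_num)
      _ ≤ 1 / 2 := by norm_num
  obtain ⟨W, hW, hWW, hZW, -⟩ := iso_of_near (comm π) Q Z hQ hZ hQc hZc (1 / 2) le_rfl hnear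
  exact ⟨fun i => W (η i), iso_orb52 hW hWW hη hQη, fun i => DFunLike.congr_fun hZW (η i)⟩

end Pool.Agent.Helper93.SP
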