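/-
Block SQ-FNB (about 200 lines).  inner_tau and main_up.
* inner_tau: OrbOrth (ampRep π) η implies ⟪η i, cst ℕ x (η j)⟫ = δ_ij τM(x) for x in M: both sides are
  normal functionals of x (coordinates of η i, η j; IsTrace.normal), equal on π(G): for g = 1
  orthonormality, for g ≠ 1 both are 0 (τM(π g) = 0: the trace of IsGroupVN and trace_unique);
  normal_ext or normal_zero.
* main_up: from EmbL2 N τN k n.  ζ_i = embv (η i) for i < k (0 for i ≥ k): TrFam (ampVN N) ζ k by
  inner_embv and mem_ampVN (norm: y = 1, τN 1 = 1).  up with Z = cutP n (cutP_facts, cutP_embv,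
  good_ampRep, near_amp): η' with OrbOrth (ampRep π) η' in the range of cutP n; embv_of_cutP,
  inner_embv, inner_tau.
-/
import Pool.Agent.Helper93.SP2.Up
import Pool.Agent.Helper93.SP2.AmpB
import Pool.Agent.Helper93.SP2.FinA

set_option autoImplicit false

open scoped InnerProductSpace ComplexConjugate ENNReal NNReal
open Filter Topology

namespace Pool.Agent.Helper93.SP

variable {G : Type*} [Group G] {H : Type*} [NormedAddCommGroup H] [InnerProductSpace ℂ H]
  [CompleteSpace H]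

theorem inner_tau (M : VonNeumannAlgebra H) (hM : IsIIOneFactor M)
    (π : G →* unitary (H →L[ℂ] H)) (hG : IsGroupVN M π) (τ : (H →L[ℂ] H) → ℂ)
    (hτ : IsTrace M τ) {k : ℕ} (η : Fin k → El ℕ H) (hη : OrbOrth (ampRep π) η) (i j : Fin k)
    (x : H →L[ℂ] H) (hx : x ∈ M) :
    ⟪η i, cst ℕ x (η j)⟫_ℂ = if i = j then τ x else 0 := by
  classical
  have hsq : ∀ f : El ℕ H, Summable fun n => ‖f n‖ ^ 2 := by
    intro f
    have h := lp.memℓp f
    rw [memℓp_gen_iff (by norm_num)] at h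
    simpa using h
  have hφ : IsNormalFun M fun y => ⟪η i, cst ℕ (y : H →L[ℂ] H) (η j)⟫_ℂ := by
    refine ⟨fun n => η i n, fun n => η j n, hsq _, hsq _, fun y => ?_⟩
    exact lp.inner_eq_tsum (η i) (cst ℕ (y : H →L[ℂ] H) (η j))
  have hψ : IsNormalFun M fun y => if i = j then τ (y : H →L[ℂ] H) else 0 := by
    by_cases hij : i = j
    · obtain ⟨a, ha, hf⟩ := hτ.normal
      refine ⟨a, a, ha, ha, fun y => ?_⟩
      exact (if_pos hij).trans (hf _ y.2)
    · refine ⟨fun _ => 0, fun _ => 0, by simp, by simp, fun y => ?_⟩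
      refine (if_neg hij).trans ?_
      simp
  have hτg : ∀ g : G, τ (π g : H →L[ℂ] H) = if g = 1 then 1 else 0 := by
    intro g
    by_cases hg : g = 1
    · subst hg
      rw [if_pos rfl, map_one]
      exact hτ.one
    · obtain ⟨τ', hτ', h0⟩ := hG.trace
      rw [if_neg hg, trace_unique hM hG τ' τ hτ' hτ _ (hG.mem g), h0 g hg]
  have hone : ((ampRep π 1 : unitary (El ℕ H →L[ℂ] El ℕ H)) : El ℕ H →L[ℂ] El ℕ H) (η i) = η i := by
    rw [map_one]
    rfl
  have hφψ := normal_ext M π hG.mem hG.gen _ _ hφ hψ (by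
    intro g
    have h1 := (orthonormal_iff_ite.1 hη) (1, i) (g, j)
    simp only at h1
    rw [hone, ampRep_apply] at h1
    simp only
    rw [h1, hτg g]
    by_cases hij : i = j
    · by_cases hg : g = 1
      · simp [hij, hg]
      · simp [hij, hg, Ne.symm hg]
    · simp [hij])
  exact congrFun hφψ ⟨x, hx⟩

theorem main_up (K L : Subgroup G) (hc : Cls K L) (M N : VonNeumannAlgebra H)
    (hM : IsIIOneFactor M) (π : G →* unitary (H →L[ℂ] H)) (hG : IsGroupVN M π) (δ : ℝ)
    (hδ0 : 0 ≤ δ) (hδ : δ ≤ 1 / 10 ^ 13) (hN : Near M N δ) (τM τN : (H →L[ℂ] H) → ℂ)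
    (hτM : IsTrace M τM) (hτN : IsTrace N τN) (k n : ℕ) (h : EmbL2 N τN k n) :
    EmbL2 M τM k n := by
  obtain ⟨η, hη⟩ := h
  have hin : ∀ i j : Fin k, ∀ y ∈ N, ⟪embv (η i), cst ℕ y (embv (η j))⟫_ℂ = if i = j then τN y else 0 := by
    intro i j y hy
    rw [inner_embv]
    exact hη i j y hy
  have hcst1 : (cst ℕ (1 : H →L[ℂ] H) : El ℕ H →L[ℂ] El ℕ H) = 1 := by
    ext f x
    rfl
  have hζ : TrFam (ampVN N) (fun i => if hi : i < k then embv (η ⟨i, hi⟩) else 0) k := by
    constructor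
    · intro i hi
      simp only [hi, dif_pos]
      constructor
      · have h1 := hin ⟨i, hi⟩ ⟨i, hi⟩ 1 (one_mem N)
        rw [if_pos rfl, hcst1, hτN.one, one_apply_eq_self, inner_self_eq_norm_sq_to_K] at h1
        have h2' : ((‖embv (η ⟨i, hi⟩)‖ ^ 2 : ℝ) : ℂ) = 1 := by simpa using h1
        have h2 : ‖embv (η ⟨i, hi⟩)‖ ^ 2 = 1 := by exact_mod_cast h2'
        have h3 : 0 ≤ ‖embv (η ⟨i, hi⟩)‖ := norm_nonneg _
        nlinarith
      · intro x hx y hy
        obtain ⟨x0, hx0, rfl⟩ := (mem_ampVN N x).1 hx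
        obtain ⟨y0, hy0, rfl⟩ := (mem_ampVN N y).1 hy
        rw [cst_mul, cst_mul, hin _ _ _ (mul_mem hx0 hy0), hin _ _ _ (mul_mem hy0 hx0), if_pos rfl,
          if_pos rfl, hτN.tracial _ hx0 _ hy0]
    · intro i hi j hj hij y hy
      simp only [hi, hj, dif_pos]
      obtain ⟨y0, hy0, rfl⟩ := (mem_ampVN N y).1 hy
      rw [hin _ _ _ hy0, if_neg]
      intro h
      exact hij (Fin.mk.inj_iff.1 h)
  have hN' : Near (bi π) N δ := by
    rw [eq_bi M π hG]
    exact hN
  obtain ⟨hZ, hZc, hZN⟩ := cutP_facts π N n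
  obtain ⟨η', hη', hcut⟩ := up K L hc (ampRep π) (good_ampRep K π (good_of_group K L hc M π hG))
    (ampVN N) δ hδ0 hδ (near_amp π N δ hN') _ k hζ (cutP H n) hZ hZc hZN (by
      intro i hi
      simp only [hi, dif_pos]
      exact cutP_embv _)
  refine ⟨fun i l => η' i (l : ℕ), fun i j x hx => ?_⟩
  rw [← inner_tau M hM π hG τM hτM η' hη' i j x hx, ← inner_embv, embv_of_cutP _ (hcut i),
    embv_of_cutP _ (hcut j)]

end Pool.Agent.Helper93.SP
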