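/-
Block SQ-LOW (about 250 lines).  From orthogonal standard vectors of M = π(G)'' to those of N.

N is a factor, a is a TrVec of N, q = pcycN N a; Z a projection in comm π and in N'; ζ_1..ζ_k (k ≥ 1)
with OrbOrth π and Z ζ_i = ζ_i.  Call a family b_0, ..., b_(j-1) good if Z b_i = b_i and
⟪b_i, y b_l⟫ = δ_il ⟪a, y a⟫ for y in N.  Claim: there is a good family of length k - 1.
Suppose not; let j be the largest length of a good family (subfamilies of good families are good, so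
all lengths are < k - 1; length 0 is good), so j + 1 ≤ k - 1; ζ' : ℕ → E extends the family b by
0, TrFam N ζ' j (b_i has norm 1: y = 1; tracial since a is).
 P = sumP N b j ≤ Z in N'.  comparability in A = N' (a factor: its centre is N ∩ N') for q and Z - P:
 (1) V in N', V* V = q, (Z - P) V = V: b_j = V a satisfies ⟪V a, y V a⟫ = ⟪a, y V*V a⟫ = ⟪a, y a⟫,
     Z b_j = b_j and ⟪b_i, y b_j⟫ = ⟪y* b_i, (Z - P) V a⟫ = 0 since P y* b_i = y* b_i and P ≤ Z: a good
     family of length j + 1, contradiction.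
 (2) V1 in N', V1* V1 = Z - P, q V1 = V1.  near_proj_comm: R_P in comm π, ‖P - R_P‖ ≤ 1/1000.
     iso_of_near (A = comm π, Q = R_P, Q' = Z; (1 - Z) R_P = (1 - Z)(R_P - P)): V in comm π,
     V* V = R_P, Z V = V, ‖V - R_P‖ ≤ 2/1000.  R'' = V V* ≤ Z: small_near gives Small π R_P j, and
     small_sub (with V*: (V*)* V* = R'', R_P V* = V*) gives Small π R'' j.  ‖R'' - P‖ ≤ 5/1000.
     R' = Z - R'' is a projection in comm π, ‖R' - (Z - P)‖ ≤ 5/1000.
     near_commutant: V1' in comm π, ‖V1 - V1'‖ ≤ 54 δ.  sb2 for a: c with orthonormal orbit,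
     ‖pcyc π c - q‖ ≤ 1/100.  B = pcyc π c V1' R' in comm π.  For R' v = v: ‖B v‖ ≥ ‖q V1 v‖ -
     ‖(pcyc π c - q) V1 v‖ - ‖(V1 - V1') v‖ ≥ ‖V1 v‖ - (1/100 + 54 δ) ‖v‖ and ‖V1 v‖ = ‖(Z - P) v‖ ≥
     (1 - 5/1000) ‖v‖ so ‖B v‖ ≥ 1/2 ‖v‖.  iso_of_bdd_below (Q = R', Q' = pcyc π c): V2 in comm π,
     V2* V2 = R', pcyc π c V2 = V2.  small_add: Small π (R'' + R') (j + 1), R'' + R' = Z.  dimk:
     k ≤ j + 1 ≤ k - 1, contradiction (k ≥ 1).
-/
import Pool.Agent.Helper93.SP2.SmN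
import Pool.Agent.Helper93.SP2.Cmp

set_option autoImplicit false

open scoped InnerProductSpace ComplexConjugate ENNReal NNReal
open Filter Topology

namespace Pool.Agent.Helper93.SP

variable {G : Type*} [Group G] {E : Type*} [NormedAddCommGroup E] [InnerProductSpace ℂ E]
  [CompleteSpace E]

private theorem inner_star32 (V : E →L[ℂ] E) (x y : E) : ⟪V x, y⟫_ℂ = ⟪x, (star V) y⟫_ℂ := by
  rw [ContinuousLinearMap.star_eq_adjoint, ContinuousLinearMap.adjoint_inner_right]

private theorem orth32 (N : VonNeumannAlgebra E) (ξ ζ : E) (h : ∀ y ∈ N, ⟪ξ, y ζ⟫_ℂ = 0) :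
    pcycN N ξ ζ = 0 := by
  unfold pcycN
  rw [Submodule.starProjection_apply_eq_zero_iff, Submodule.orthogonal_closure,
    Submodule.mem_orthogonal]
  intro v hv
  induction hv using Submodule.span_induction with
  | mem x hx =>
    obtain ⟨y, hy, rfl⟩ := hx
    rw [inner_star32]
    exact h _ (star_mem hy)
  | zero => exact inner_zero_left _
  | add x y _ _ hx hy => rw [inner_add_left, hx, hy, add_zero]
  | smul c x _ hx => rw [inner_smul_left, hx, mul_zero]

private theorem comm32 {N : VonNeumannAlgebra E} {T y : E →L[ℂ] E} (hT : T ∈ N.commutant)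
    (hy : y ∈ N) (x : E) : y (T x) = T (y x) :=
  DFunLike.congr_fun (VonNeumannAlgebra.mem_commutant_iff.1 hT y hy) x

private theorem one_sub32 {Z : E →L[ℂ] E} (hZ : IsProj Z) : IsProj (1 - Z) := by
  refine ⟨by rw [star_sub, star_one, hZ.1], ?_⟩
  rw [mul_sub, sub_mul, sub_mul, mul_one, one_mul, mul_one, hZ.2]
  abel

private theorem step32 (K L : Subgroup G) (hc : Cls K L) (π : G →* unitary (E →L[ℂ] E))
    (hπ : Good K π) (N : VonNeumannAlgebra E)
    (hfac : ∀ x ∈ N, (∀ y ∈ N, x * y = y * x) → ∃ c : ℂ, x = c • (1 : E →L[ℂ] E))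
    (δ : ℝ) (hδ0 : 0 ≤ δ) (hδ : δ ≤ 1 / 10 ^ 13) (hN : Near (bi π) N δ) (a : E)
    (ha : TrVec N a) (Z : E →L[ℂ] E) (hZ : IsProj Z) (hZc : Z ∈ comm π)
    (hZN : Z ∈ N.commutant) (k : ℕ) (ζ : Fin k → E) (hζ : OrbOrth π ζ)
    (hZζ : ∀ i, Z (ζ i) = ζ i) (j : ℕ) (hj : j + 2 ≤ k) (b : Fin j → E)
    (hb1 : ∀ i, Z (b i) = b i)
    (hb2 : ∀ i l, ∀ y ∈ N, ⟪b i, y (b l)⟫_ℂ = if i = l then ⟪a, y a⟫_ℂ else 0) :
    ∃ b' : Fin (j + 1) → E, (∀ i, Z (b' i) = b' i) ∧
      ∀ i l, ∀ y ∈ N, ⟪b' i, y (b' l)⟫_ℂ = if i = l then ⟪a, y a⟫_ℂ else 0 := by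
  classical
  set ζ' : ℕ → E := fun i => if h : i < j then b ⟨i, h⟩ else 0 with hζ'
  have hζ'b : ∀ i (hi : i < j), ζ' i = b ⟨i, hi⟩ := fun i hi => by
    rw [hζ']
    exact dif_pos hi
  have hTF : TrFam N ζ' j := by
    refine ⟨fun i hi => ⟨?_, ?_⟩, fun i hi l hl hil y hy => ?_⟩
    · rw [hζ'b i hi]
      have h1 := hb2 ⟨i, hi⟩ ⟨i, hi⟩ 1 (one_mem N)
      rw [if_pos rfl] at h1
      have h2 : ⟪b ⟨i, hi⟩, b ⟨i, hi⟩⟫_ℂ = ⟪a, a⟫_ℂ := h1
      rw [inner_self_eq_norm_sq_to_K, inner_self_eq_norm_sq_to_K, ha.norm] at h2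
      have h3 : ‖b ⟨i, hi⟩‖ ^ 2 = 1 ^ 2 := by exact_mod_cast h2
      exact (sq_eq_sq₀ (norm_nonneg _) zero_le_one).1 h3
    · intro x hx y hy
      rw [hζ'b i hi, hb2 _ _ _ (mul_mem hx hy), hb2 _ _ _ (mul_mem hy hx), if_pos rfl, if_pos rfl]
      exact ha.tracial x hx y hy
    · rw [hζ'b i hi, hζ'b l hl, hb2 _ _ y hy, if_neg]
      intro h
      exact hil (congrArg Fin.val h)
  obtain ⟨hP, hPN⟩ := sumP_isProj N ζ' j hTF j le_rfl
  set P := sumP N ζ' j with hPdef
  -- Z P = P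
  have hZP : Z * P = P := by
    rw [hPdef, sumP, Finset.mul_sum]
    refine Finset.sum_congr rfl fun i hi => ?_
    have hij := Finset.mem_range.1 hi
    have h1 := eq_of_eq_on N (ζ' i) Z 1 (fun y hy => by
      rw [← comm32 hZN hy, hζ'b i hij, hb1]
      rfl)
    rw [h1, one_mul]
  have hPZ : P * Z = P := by
    have h1 := congrArg star hZP
    rwa [star_mul, hP.1, hZ.1] at h1
  -- P b_i = b_i
  have hPb : ∀ i, P (b i) = b i := by
    intro i
    rw [hPdef, sumP, sum_apply, Finset.sum_eq_single (i : ℕ)]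
    · rw [hζ'b i i.2]
      exact pcycN_apply N (b i) 1 (one_mem N)
    · intro l hl hli
      have hlj := Finset.mem_range.1 hl
      refine orth32 N _ _ fun y hy => ?_
      rw [hζ'b l hlj, hb2 _ _ y hy, if_neg]
      intro h
      exact hli (congrArg Fin.val h)
    · intro h
      exact absurd (Finset.mem_range.2 i.2) h
  have hWp : IsProj (Z - P) := by
    refine ⟨by rw [star_sub, hZ.1, hP.1], ?_⟩
    rw [mul_sub, sub_mul, sub_mul, hZ.2, hPZ, hZP, hP.2]
    abel
  have hWN : Z - P ∈ N.commutant := sub_mem hZN hPN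
  have hfac' : ∀ x ∈ N.commutant, (∀ y ∈ N.commutant, x * y = y * x) →
      ∃ c : ℂ, x = c • (1 : E →L[ℂ] E) := by
    intro x hx hxy
    have hxN : x ∈ N := by
      rw [← N.commutant_commutant, VonNeumannAlgebra.mem_commutant_iff]
      intro g hg
      exact (hxy g hg).symm
    exact hfac x hxN fun y hy => (VonNeumannAlgebra.mem_commutant_iff.1 hx y hy).symm
  have hq := isProj_pcycN N a
  have hqa : pcycN N a a = a := pcycN_apply N a 1 (one_mem N)
  rcases comparability N.commutant hfac' (pcycN N a) (Z - P) hq hWp (pcycN_mem N a) hWN with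
    ⟨V, hV, hV1, hV2⟩ | ⟨V1, hV1N, hV11, hV12⟩
  · -- case 1
    have hZV : Z * V = V := by
      have h1 : Z * (Z - P) = Z - P := by rw [mul_sub, hZ.2, hZP]
      calc Z * V = Z * ((Z - P) * V) := by rw [hV2]
        _ = V := by rw [← mul_assoc, h1, hV2]
    have hin : ∀ i, ∀ y ∈ N, ⟪b i, y (V a)⟫_ℂ = 0 := by
      intro i y hy
      have h1 : V a = (Z - P) (V a) := (DFunLike.congr_fun hV2 a).symm
      rw [h1, comm32 hWN hy]
      have h2 : ⟪b i, (Z - P) (y (V a))⟫_ℂ = ⟪(Z - P) (b i), y (V a)⟫_ℂ := by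
        rw [inner_star32, hWp.1]
      have h3 : (Z - P) (b i) = 0 := by
        rw [sub_apply, hb1, hPb, sub_self]
      rw [h2, h3, inner_zero_left]
    have hin' : ∀ i, ∀ y ∈ N, ⟪V a, y (b i)⟫_ℂ = 0 := by
      intro i y hy
      have h1 := hin i (star y) (star_mem hy)
      have h2 : ⟪V a, y (b i)⟫_ℂ = ⟪(star y) (V a), b i⟫_ℂ := by
        rw [inner_star32 (star y), star_star]
      rw [h2, ← inner_conj_symm, h1, map_zero]
    have hVV : ∀ y ∈ N, ⟪V a, y (V a)⟫_ℂ = ⟪a, y a⟫_ℂ := by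
      intro y hy
      rw [comm32 hV hy, inner_star32]
      have h1 : (star V) (V (y a)) = (star V * V) (y a) := rfl
      rw [h1, hV1, pcycN_apply N a y hy]
    refine ⟨Fin.cons (V a) b, fun i => ?_, fun i l y hy => ?_⟩
    · refine Fin.cases ?_ (fun i => ?_) i
      · exact DFunLike.congr_fun hZV a
      · exact hb1 i
    · refine Fin.cases ?_ (fun i => ?_) i
      · refine Fin.cases ?_ (fun l => ?_) l
        · rw [if_pos rfl]
          exact hVV y hy
        · rw [if_neg (Fin.succ_ne_zero l).symm]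
          exact hin' l y hy
      · refine Fin.cases ?_ (fun l => ?_) l
        · rw [if_neg (Fin.succ_ne_zero i)]
          exact hin i y hy
        · have h1 := hb2 i l y hy
          simp only [Fin.succ_inj]
          exact h1
  · -- case 2
    exfalso
    have hδ' : 54 * δ ≤ 1 / 1000 := by
      have : (54 : ℝ) * (1 / 10 ^ 13) ≤ 1 / 1000 := by norm_num
      linarith
    obtain ⟨RP, hRPc, hRP, hRPn⟩ := near_proj_comm K L hc π hπ N δ hδ0 hδ hN P hP hPN
    have hnear : ‖(1 - Z) * RP‖ ≤ 1 / 1000 := by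
      have e : (1 - Z) * RP = (1 - Z) * (RP - P) := by
        rw [mul_sub, sub_mul 1 Z P, one_mul, hZP, sub_self, sub_zero]
      rw [e]
      refine (norm_mul_le _ _).trans ?_
      have h1 := isProj_norm_le _ (one_sub32 hZ)
      rw [norm_sub_rev] at hRPn
      calc ‖(1 : E →L[ℂ] E) - Z‖ * ‖RP - P‖ ≤ 1 * (1 / 1000) :=
            mul_le_mul h1 hRPn (norm_nonneg _) (by norm_num)
        _ = 1 / 1000 := by norm_num
    obtain ⟨V, hV, hVV, hZV, hVn⟩ := iso_of_near (comm π) RP Z hRP hZ hRPc hZc (1 / 1000)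
      (by norm_num) hnear
    have hVp : IsProj (star V * V) := by
      rw [hVV]
      exact hRP
    obtain ⟨hR2, hR1, hR12, hR3, -⟩ := sub_isProj Z V hZ hVp hZV
    have hVn1 := pi_norm_le V hVp
    have hVRP : V * RP = V := by
      rw [← hVV]
      exact pi_mul V hVp
    have hsm : Small π RP j := small_near K L hc π hπ N δ hδ0 hδ hN ζ' j hTF j le_rfl RP hRP hRPc
      (by
        rw [norm_sub_rev]
        exact hRPn.trans (by norm_num))
    have hsm2 : Small π (V * star V) j := small_sub π RP _ (star V) j hsm (star_mem hV)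
      (by rw [star_star]) (by
        have h6 := congrArg star hVRP
        rwa [star_mul, hRP.1] at h6)
    have hR''n : ‖V * star V - P‖ ≤ 5 / 1000 := by
      have e : V * star V - P = V * star (V - RP) + (V - RP) * RP + (RP - P) := by
        rw [star_sub, hRP.1, mul_sub, sub_mul, hRP.2, hVRP]
        abel
      rw [e]
      have h1 : ‖V * star (V - RP)‖ ≤ 2 / 1000 := by
        refine (norm_mul_le _ _).trans ?_
        rw [norm_star]
        calc ‖V‖ * ‖V - RP‖ ≤ 1 * (2 * (1 / 1000)) :=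
              mul_le_mul hVn1 hVn (norm_nonneg _) (by norm_num)
          _ = 2 / 1000 := by norm_num
      have h2 : ‖(V - RP) * RP‖ ≤ 2 / 1000 := by
        refine (norm_mul_le _ _).trans ?_
        calc ‖V - RP‖ * ‖RP‖ ≤ (2 * (1 / 1000)) * 1 :=
              mul_le_mul hVn (isProj_norm_le _ hRP) (norm_nonneg _) (by norm_num)
          _ = 2 / 1000 := by norm_num
      have h3 : ‖RP - P‖ ≤ 1 / 1000 := by
        rw [norm_sub_rev]
        exact hRPn
      have h4 := norm_add_le (V * star (V - RP) + (V - RP) * RP) (RP - P)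
      have h5 := norm_add_le (V * star (V - RP)) ((V - RP) * RP)
      linarith
    set R' := Z - V * star V with hR'
    have hR'c : R' ∈ comm π := sub_mem hZc (mul_mem hV (star_mem hV))
    obtain ⟨V1', hV1'c, hV1'n⟩ := near_commutant K L hc π hπ N δ hδ0 hN V1 hV1N
    have hV1p : IsProj (star V1 * V1) := by
      rw [hV11]
      exact hWp
    have hV1n := pi_norm_le V1 hV1p
    have hV1'n2 : ‖V1 - V1'‖ ≤ 1 / 1000 := by
      have h1 : 54 * δ * ‖V1‖ ≤ 54 * δ * 1 :=
        mul_le_mul_of_nonneg_left hV1n (by positivity)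
      linarith
    obtain ⟨c, hco, hcn⟩ := sb2 K L hc π hπ N δ hδ0 hδ hN a ha
    have hpc := isProj_pcyc π c
    have hBc : pcyc π c * V1' * R' ∈ comm π := mul_mem (mul_mem (pcyc_mem π c) hV1'c) hR'c
    have hB' : pcyc π c * (pcyc π c * V1' * R') * R' = pcyc π c * V1' * R' := by
      rw [← mul_assoc, ← mul_assoc, hpc.2, mul_assoc, hR1.2]
    have hbelow : ∀ v : E, R' v = v → (1 / 2) * ‖v‖ ≤ ‖(pcyc π c * V1' * R') v‖ := by
      intro v hv
      have e1 : (pcyc π c * V1' * R') v = pcyc π c (V1' v) := by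
        change pcyc π c (V1' (R' v)) = _
        rw [hv]
      have e2 : pcyc π c (V1' v) =
          V1 v + (pcyc π c - pcycN N a) (V1 v) - pcyc π c ((V1 - V1') v) := by
        have h1 : pcycN N a (V1 v) = V1 v := DFunLike.congr_fun hV12 v
        rw [sub_apply, sub_apply, map_sub, h1]
        abel
      have e3 : ‖V1 v‖ = ‖(Z - P) v‖ := by
        have h1 : ⟪V1 v, V1 v⟫_ℂ = ⟪(Z - P) v, (Z - P) v⟫_ℂ := by
          rw [inner_star32, inner_star32, hWp.1]
          have h2 : (star V1) (V1 v) = (star V1 * V1) v := rfl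
          have h3 : (Z - P) ((Z - P) v) = ((Z - P) * (Z - P)) v := rfl
          rw [h2, hV11, h3, hWp.2]
        rw [inner_self_eq_norm_sq_to_K, inner_self_eq_norm_sq_to_K] at h1
        have h2 : ‖V1 v‖ ^ 2 = ‖(Z - P) v‖ ^ 2 := by exact_mod_cast h1
        exact (sq_eq_sq₀ (norm_nonneg _) (norm_nonneg _)).1 h2
      have e4 : ‖v‖ - 5 / 1000 * ‖v‖ ≤ ‖V1 v‖ := by
        rw [e3]
        have h1 : (Z - P) v = v + (V * star V - P) v := by
          have h2 : (Z - V * star V) v = v := hv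
          rw [sub_apply] at h2
          rw [sub_apply, sub_apply]
          have h3 : Z v = v + (V * star V) v := sub_eq_iff_eq_add.1 h2
          rw [h3]
          abel
        rw [h1]
        have h2 : ‖(V * star V - P) v‖ ≤ 5 / 1000 * ‖v‖ :=
          ((V * star V - P).le_opNorm v).trans
            (mul_le_mul_of_nonneg_right hR''n (norm_nonneg _))
        have h3 : ‖v‖ ≤ ‖v + (V * star V - P) v‖ + ‖(V * star V - P) v‖ := by
          have h4 := norm_sub_le (v + (V * star V - P) v) ((V * star V - P) v)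
          rwa [add_sub_cancel_right] at h4
        linarith
      have e5 : ‖(pcyc π c - pcycN N a) (V1 v)‖ ≤ 1 / 100 * ‖v‖ := by
        refine ((pcyc π c - pcycN N a).le_opNorm _).trans ?_
        refine mul_le_mul hcn ?_ (norm_nonneg _) (by norm_num)
        refine (V1.le_opNorm v).trans ?_
        exact mul_le_of_le_one_left (norm_nonneg _) hV1n
      have e6 : ‖pcyc π c ((V1 - V1') v)‖ ≤ 1 / 1000 * ‖v‖ := by
        refine ((pcyc π c).le_opNorm _).trans ?_
        refine (mul_le_of_le_one_left (norm_nonneg _) (isProj_norm_le _ hpc)).trans ?_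
        exact ((V1 - V1').le_opNorm v).trans (mul_le_mul_of_nonneg_right hV1'n2 (norm_nonneg _))
      rw [e1, e2]
      have h1 := norm_sub_norm_le (V1 v + (pcyc π c - pcycN N a) (V1 v))
        (pcyc π c ((V1 - V1') v))
      have h2 : ‖V1 v‖ ≤ ‖V1 v + (pcyc π c - pcycN N a) (V1 v)‖ +
          ‖(pcyc π c - pcycN N a) (V1 v)‖ := by
        have h4 := norm_sub_le (V1 v + (pcyc π c - pcycN N a) (V1 v))
          ((pcyc π c - pcycN N a) (V1 v))
        rwa [add_sub_cancel_right] at h4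
      have h3 := norm_nonneg v
      linarith
    obtain ⟨V2, hV2c, hV21, hV22⟩ := iso_of_bdd_below (comm π) R' (pcyc π c)
      (pcyc π c * V1' * R') hR1 hpc hR'c (pcyc_mem π c) hBc hB' (1 / 2) (by norm_num) hbelow
    have hfin := small_add π (V * star V) R' V2 c j hsm2 hco hV2c hV21 hV22
    rw [hR', add_sub_cancel] at hfin
    have := dimk π Z hZ (j + 1) k hfin ζ hζ hZζ
    omega

theorem low (K L : Subgroup G) (hc : Cls K L) (π : G →* unitary (E →L[ℂ] E))
    (hπ : Good K π) (N : VonNeumannAlgebra E)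
    (hfac : ∀ x ∈ N, (∀ y ∈ N, x * y = y * x) → ∃ c : ℂ, x = c • (1 : E →L[ℂ] E))
    (δ : ℝ) (hδ0 : 0 ≤ δ) (hδ : δ ≤ 1 / 10 ^ 13) (hN : Near (bi π) N δ) (a : E)
    (ha : TrVec N a) (Z : E →L[ℂ] E) (hZ : IsProj Z) (hZc : Z ∈ comm π)
    (hZN : Z ∈ N.commutant) (k : ℕ) (ζ : Fin k → E) (hζ : OrbOrth π ζ)
    (hZζ : ∀ i, Z (ζ i) = ζ i) :
    ∃ b : Fin (k - 1) → E, (∀ i, Z (b i) = b i) ∧
      ∀ i j, ∀ y ∈ N, ⟪b i, y (b j)⟫_ℂ = if i = j then ⟪a, y a⟫_ℂ else 0 := by
  have key : ∀ j, j ≤ k - 1 → ∃ b : Fin j → E, (∀ i, Z (b i) = b i) ∧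
      ∀ i l, ∀ y ∈ N, ⟪b i, y (b l)⟫_ℂ = if i = l then ⟪a, y a⟫_ℂ else 0 := by
    intro j
    induction j with
    | zero =>
      intro _
      exact ⟨Fin.elim0, fun i => i.elim0, fun i => i.elim0⟩
    | succ j ih =>
      intro hj
      obtain ⟨b, hb1, hb2⟩ := ih (by omega)
      exact step32 K L hc π hπ N hfac δ hδ0 hδ hN a ha Z hZ hZc hZN k ζ hζ hZζ j (by omega) b
        hb1 hb2
  exact key (k - 1) le_rfl

end Pool.Agent.Helper93.SP
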