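/-
Block SQ-FNC (about 120 lines).  main_low.
* main_low: from EmbL2 M τM k n.  ζ_i = embv (η i) satisfy OrbOrth (ampRep π): ⟪π̂(g) ζ_i, π̂(h) ζ_j⟫ =
  ⟪ζ_i, π̂(g⁻¹ h) ζ_j⟫ = δ_ij τM(π(g⁻¹h)) = δ.  low (factor_amp, trvec_amp) gives b_i, i < k - 1.
-/
import Pool.Agent.Helper93.SP2.Low
import Pool.Agent.Helper93.SP2.FinB

set_option autoImplicit false

open scoped InnerProductSpace ComplexConjugate ENNReal NNReal
open Filter Topology

namespace Pool.Agent.Helper93.SP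

variable {G : Type*} [Group G] {H : Type*} [NormedAddCommGroup H] [InnerProductSpace ℂ H]
  [CompleteSpace H]

theorem main_low (K L : Subgroup G) (hc : Cls K L) (M N : VonNeumannAlgebra H)
    (hM : IsIIOneFactor M) (hN1 : IsIIOneFactor N) (π : G →* unitary (H →L[ℂ] H))
    (hG : IsGroupVN M π) (δ : ℝ) (hδ0 : 0 ≤ δ) (hδ : δ ≤ 1 / 10 ^ 13) (hN : Near M N δ)
    (τM τN : (H →L[ℂ] H) → ℂ) (hτM : IsTrace M τM) (hτN : IsTrace N τN) (k n : ℕ)
    (h : EmbL2 M τM k n) : EmbL2 N τN (k - 1) n := by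
  classical
  have hbi := eq_bi M π hG
  have hgood : Good K (ampRep π) := good_ampRep K π (good_of_group K L hc M π hG)
  have hnear : Near (bi (ampRep π)) (ampVN N) δ := near_amp π N δ (by rw [hbi]; exact hN)
  obtain ⟨a, ha, hay⟩ := trvec_amp N τN hτN
  obtain ⟨hZ, hZc, hZN⟩ := cutP_facts π N n
  obtain ⟨η, hη⟩ := h
  -- the trace vanishes on the group elements
  have htr : ∀ g, g ≠ 1 → τM (π g : H →L[ℂ] H) = 0 := by
    intro g hg
    obtain ⟨τ, hτ, hτg⟩ := hG.trace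
    rw [trace_unique hM hG τ τM hτ hτM _ (hG.mem g)]
    exact hτg g hg
  have horth : OrbOrth (ampRep π) fun i => embv (η i) := by
    rw [OrbOrth, orthonormal_iff_ite]
    rintro ⟨g, i⟩ ⟨g', j⟩
    have h1 : ⟪(ampRep π g : El ℕ H →L[ℂ] El ℕ H) (embv (η i)),
        (ampRep π g' : El ℕ H →L[ℂ] El ℕ H) (embv (η j))⟫_ℂ =
        ⟪embv (η i), cst ℕ (π (g⁻¹ * g') : H →L[ℂ] H) (embv (η j))⟫_ℂ := by
      rw [← ContinuousLinearMap.adjoint_inner_right, ← ContinuousLinearMap.star_eq_adjoint]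
      congr 1
      have h2 : star (ampRep π g : El ℕ H →L[ℂ] El ℕ H) * (ampRep π g' : El ℕ H →L[ℂ] El ℕ H) =
          cst ℕ (π (g⁻¹ * g') : H →L[ℂ] H) := by
        rw [← ampRep_apply, map_mul, map_inv]
        rfl
      rw [← h2]
      rfl
    have h3 := hη i j _ (hG.mem (g⁻¹ * g'))
    change ⟪(ampRep π g : El ℕ H →L[ℂ] El ℕ H) (embv (η i)),
        (ampRep π g' : El ℕ H →L[ℂ] El ℕ H) (embv (η j))⟫_ℂ = _
    rw [h1, inner_embv, h3]
    by_cases hij : i = j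
    · rw [if_pos hij]
      by_cases hg : g = g'
      · rw [if_pos (by rw [hij, hg]), hg, inv_mul_cancel, map_one]
        exact hτM.one
      · rw [if_neg (fun h => hg (Prod.mk.inj h).1)]
        refine htr _ fun h => hg ?_
        exact (inv_mul_eq_one.1 h)
    · rw [if_neg hij, if_neg (fun h => hij (Prod.mk.inj h).2)]
  obtain ⟨b, hZb, hb⟩ := low K L hc (ampRep π) hgood (ampVN N) (factor_amp N hN1.factor) δ hδ0 hδ
    hnear a ha (cutP H n) hZ hZc hZN k (fun i => embv (η i)) horth fun i => cutP_embv (η i)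
  refine ⟨fun i l => b i (l : ℕ), fun i j x hx => ?_⟩
  have h1 := hb i j (cst ℕ x) ((mem_ampVN N _).2 ⟨x, hx, rfl⟩)
  rw [hay x hx] at h1
  rw [← h1, ← inner_embv (fun l : Fin n => b i (l : ℕ)) (fun l : Fin n => b j (l : ℕ)) x,
    embv_of_cutP _ (hZb i), embv_of_cutP _ (hZb j)]

end Pool.Agent.Helper93.SP
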