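/-
Project SP, part 2: equality of the coupling constants (from the blocks).
-/
import Pool.Agent.Helper93.SP2.FinC
import Pool.Agent.Helper93.SP2.Cd

set_option autoImplicit false

open scoped InnerProductSpace ComplexConjugate ENNReal NNReal
open Filter Topology

namespace Pool.Agent.Helper93.SP

variable {G : Type*} [Group G] {H : Type*} [NormedAddCommGroup H] [InnerProductSpace ℂ H]
  [CompleteSpace H]

theorem cDim_eq (K L : Subgroup G) (hc : Cls K L) (M N : VonNeumannAlgebra H)
    (hM : IsIIOneFactor M) (hN1 : IsIIOneFactor N) (π : G →* unitary (H →L[ℂ] H))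
    (hG : IsGroupVN M π) (hd : kkDist M N < 1 / 10 ^ 13) (τM τN : (H →L[ℂ] H) → ℂ)
    (hτM : IsTrace M τM) (hτN : IsTrace N τN) : cDim M τM = cDim N τN := by
  have hN := near_of_kk M N _ hd
  apply le_antisymm
  · exact cDim_le_of M N τM τN fun k n h =>
      main_low K L hc M N hM hN1 π hG _ (by positivity) le_rfl hN τM τN hτM hτN k n h
  · exact iSup_mono fun k => iSup_mono fun n => iSup_mono fun _ => iSup_mono' fun h =>
      ⟨main_up K L hc M N hM π hG _ (by positivity) le_rfl hN τM τN hτM hτN k n h, le_rfl⟩

end Pool.Agent.Helper93.SP
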