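/-
Block SQ-ICCW (about 150 lines).  In S_∞ wr Γ every g ≠ 1 has infinitely many conjugates under the
base group SBase Γ; so (SBase Γ, SBase Γ) is in the class Cls.

g = (f, γ).  If γ = 1: f(x) ≠ 1 for some x in Γ, f(x) moves a point n; conjugation by the base
element which is the transposition (n m) at x (and 1 elsewhere), for m not moved by f(x), m ≠ n:
the conjugate moves exactly the points ... in particular it moves m and fixes n... (f(x)(n) = n' ≠ n,
choose m fixed by f(x), different from n, n'; the conjugate s f(x) s⁻¹ moves m, and the set of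
points moved by the conjugate is (supp f(x) minus n) ∪ {m}), so different m give different
conjugates (infinitely many m).  If γ ≠ 1: conjugation by base elements k with k(1) = s (one
coordinate, x = 1): k g k⁻¹ = (k · f · γ(k)⁻¹, γ), whose value at x = 1 is s f(1) k(γ⁻¹)⁻¹ = s f(1), as
γ⁻¹ ≠ 1; infinitely many s give infinitely many values.
Use normal_SBase, hasFreeLetters_SBase (SP/Wr.lean), amen_SBase (SP/Lf.lean).
-/
import Pool.Agent.Helper93.SP2.Defs2
import Pool.Agent.Helper93.SP.Wr
import Pool.Agent.Helper93.SP.Lf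

set_option autoImplicit false

namespace Pool.Agent.Helper93.SP

open Classical in
/-- The element of the base group with the value `s` at `x` and `1` elsewhere. -/
private noncomputable def iw_k (Γ : Type*) [Group Γ] (x : Γ) (s : Equiv.Perm ℕ) (hs : Finitary s) :
    SBase Γ :=
  ⟨⟨⟨fun y => if y = x then s else 1, 1⟩, by
    constructor
    · refine (Set.finite_singleton x).subset fun y hy => ?_
      by_contra hne
      exact hy (if_neg hne)
    · intro y
      by_cases h : y = x
      · simp only [if_pos h]
        exact hs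
      · simp only [if_neg h]
        simp [Finitary]⟩, rfl⟩

private theorem iw_left (Γ : Type*) [Group Γ] (x y : Γ) (s : Equiv.Perm ℕ) (hs : Finitary s)
    (g : SWr Γ) :
    (((iw_k Γ x s hs : SBase Γ) : SWr Γ) * g * ((iw_k Γ x s hs : SBase Γ) : SWr Γ)⁻¹ :
      SWr Γ).1.left y =
      ((iw_k Γ x s hs : SBase Γ) : SWr Γ).1.left y * g.1.left y *
        (((iw_k Γ x s hs : SBase Γ) : SWr Γ).1.left (g.1.right⁻¹ * y))⁻¹ := by
  have hr : ((iw_k Γ x s hs : SBase Γ) : SWr Γ).1.right = 1 := rfl
  simp only [Subgroup.coe_mul, Subgroup.coe_inv, RegularWreathProduct.mul_left, Pi.mul_apply,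
    RegularWreathProduct.inv_left, RegularWreathProduct.mul_right, hr, inv_one, one_mul,
    Pi.inv_apply]

private theorem iw_same (Γ : Type*) [Group Γ] (x : Γ) (s : Equiv.Perm ℕ) (hs : Finitary s) :
    ((iw_k Γ x s hs : SBase Γ) : SWr Γ).1.left x = s := by
  simp only [iw_k, if_true]

private theorem iw_ne (Γ : Type*) [Group Γ] (x y : Γ) (h : y ≠ x) (s : Equiv.Perm ℕ)
    (hs : Finitary s) : ((iw_k Γ x s hs : SBase Γ) : SWr Γ).1.left y = 1 := by
  simp only [iw_k, if_neg h]

private theorem iw_swap (a b : ℕ) : Finitary (Equiv.swap a b) := by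
  refine (Set.toFinite {a, b}).subset fun n hn => ?_
  by_contra hne
  simp only [Set.mem_insert_iff, Set.mem_singleton_iff, not_or] at hne
  exact hn (Equiv.swap_apply_of_ne_of_ne hne.1 hne.2)

theorem icc_SBase (Γ : Type*) [Group Γ] (g : SWr Γ) (hg : g ≠ 1) :
    (Set.range fun k : SBase Γ => (k : SWr Γ) * g * (k : SWr Γ)⁻¹).Infinite := by
  by_cases hγ : g.1.right = 1
  · -- an element of the base group
    obtain ⟨x, hx⟩ : ∃ x, g.1.left x ≠ 1 := by
      by_contra hcon
      push Not at hcon
      apply hg
      apply Subtype.ext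
      apply RegularWreathProduct.ext
      · funext x
        exact hcon x
      · exact hγ
    obtain ⟨n, hn⟩ : ∃ n, g.1.left x n ≠ n := by
      by_contra hcon
      push Not at hcon
      exact hx (Equiv.ext hcon)
    have hinf : {m : ℕ | g.1.left x m = m}.Infinite := by
      have h1 := (g.2.2 x : Finitary (g.1.left x)).infinite_compl
      refine h1.mono fun m hm => ?_
      by_contra h2
      exact hm h2
    refine Set.infinite_of_injOn_mapsTo
      (f := fun m : ℕ => ((iw_k Γ x (Equiv.swap n m) (iw_swap n m) : SBase Γ) : SWr Γ) * g *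
        ((iw_k Γ x (Equiv.swap n m) (iw_swap n m) : SBase Γ) : SWr Γ)⁻¹) ?_ ?_ hinf
    · intro m hm m' hm' h1
      by_contra hne
      have hm1 : g.1.left x m = m := hm
      have hm2 : g.1.left x m' = m' := hm'
      have h2 := congrArg (fun a : SWr Γ => a.1.left x m) h1
      simp only [iw_left, iw_same, hγ, inv_one, one_mul, Equiv.Perm.mul_apply,
        Equiv.swap_inv] at h2
      have hmn : m ≠ n := by
        rintro rfl
        exact hn hm1
      have hm'n : m' ≠ n := by
        rintro rfl
        exact hn hm2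
      have hn' : g.1.left x n ≠ m := by
        intro h3
        have h4 := (g.1.left x).injective (h3.trans hm1.symm)
        exact hmn h4.symm
      rw [Equiv.swap_apply_right, Equiv.swap_apply_of_ne_of_ne hn hn',
        Equiv.swap_apply_of_ne_of_ne hmn hne, hm1, Equiv.swap_apply_of_ne_of_ne hmn hne] at h2
      exact hn' h2
    · intro m _
      exact ⟨_, rfl⟩
  · -- an element outside the base group
    have hne : g.1.right⁻¹ ≠ (1 : Γ) := fun h => hγ (inv_eq_one.1 h)
    refine Set.infinite_of_injective_forall_mem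
      (f := fun m : ℕ => ((iw_k Γ 1 (Equiv.swap 0 m) (iw_swap 0 m) : SBase Γ) : SWr Γ) * g *
        ((iw_k Γ 1 (Equiv.swap 0 m) (iw_swap 0 m) : SBase Γ) : SWr Γ)⁻¹) ?_ ?_
    · intro m m' h1
      have h2 := congrArg (fun a : SWr Γ => a.1.left 1) h1
      simp only [iw_left, iw_same, mul_one] at h2
      rw [iw_ne Γ 1 _ hne, iw_ne Γ 1 _ hne, inv_one, mul_one, mul_one] at h2
      have h3 := mul_right_cancel h2
      have h4 := congrArg (fun σ : Equiv.Perm ℕ => σ 0) h3
      simpa using h4
    · intro m
      exact ⟨_, rfl⟩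

theorem cls_SBase (Γ : Type*) [Group Γ] : Cls (SBase Γ) (SBase Γ) where
  normK := normal_SBase Γ
  normL := normal_SBase Γ
  le := le_rfl
  letters := hasFreeLetters_SBase Γ
  amen := amen_SBase Γ
  icc := icc_SBase Γ

end Pool.Agent.Helper93.SP
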