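/-
Block SQ-SMN (about 120 lines).  Projections near the sum of the P_i are small.  P_i = pcycN N (ζ_i),
S_j = sumP N ζ j (Up.lean).
* small_near (induction on j ≤ k): every projection R in comm π with ‖R - S_j‖ ≤ 1/100 satisfies
  Small π R j.  j = 0: ‖R‖ ≤ 1/100 < 1 so R = 0.  j + 1: split_step (P = S_j, b = ζ_j) gives c, V, put R' = R - V V*,
  ‖R' - S_j‖ ≤ 1/10, near_proj_comm: R_j in comm π, ‖S_j - R_j‖ ≤ 1/1000; V V* is below pcyc π c via V*:
  (V*)* V* = V V*, pcyc π c V* = V* (V pcyc π c = V); R' is below R_j: iso_of_near with Q = R',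
  Q' = R_j; Small π R_j j by induction, small_sub gives Small π R' j, small_add gives
  Small π (R' + V V*) (j + 1).
-/
import Pool.Agent.Helper93.SP2.Up

set_option autoImplicit false

open scoped InnerProductSpace ComplexConjugate ENNReal NNReal
open Filter Topology

namespace Pool.Agent.Helper93.SP

variable {G : Type*} [Group G] {E : Type*} [NormedAddCommGroup E] [InnerProductSpace ℂ E]
  [CompleteSpace E]

theorem small_near (K L : Subgroup G) (hc : Cls K L) (π : G →* unitary (E →L[ℂ] E))
    (hπ : Good K π) (N : VonNeumannAlgebra E) (δ : ℝ) (hδ0 : 0 ≤ δ) (hδ : δ ≤ 1 / 10 ^ 13)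
    (hN : Near (bi π) N δ) (ζ : ℕ → E) (k : ℕ) (hζ : TrFam N ζ k) (j : ℕ) (hj : j ≤ k)
    (R : E →L[ℂ] E) (hR : IsProj R) (hRc : R ∈ comm π) (h : ‖R - sumP N ζ j‖ ≤ 1 / 100) :
    Small π R j := by
  induction j generalizing R with
  | zero =>
    have h0 : sumP N ζ 0 = 0 := by simp [sumP]
    rw [h0, sub_zero] at h
    have h1 : ‖R‖ = ‖R‖ * ‖R‖ := by
      conv_lhs => rw [← hR.2]
      nth_rewrite 1 [← hR.1]
      exact CStarRing.norm_star_mul_self
    have h2 : R = 0 := by
      rw [← norm_eq_zero]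
      nlinarith [norm_nonneg R]
    rw [h2]
    exact small_zero π
  | succ j ih =>
    have hjk : j < k := hj
    have hS : sumP N ζ (j + 1) = sumP N ζ j + pcycN N (ζ j) := by
      rw [sumP, Finset.sum_range_succ]
      rfl
    rw [hS] at h
    obtain ⟨hSj, hSjN⟩ := sumP_isProj N ζ k hζ j hjk.le
    obtain ⟨c, hcorth, V, hV, hV1, hV2, hV3⟩ := split_step K L hc π hπ N δ hδ0 hδ hN (ζ j)
      (hζ.tr j hjk) (sumP N ζ j) R hSj (sumP_orth N ζ k hζ j hjk) hR hRc h
    have hVp : IsProj (star V * V) := by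
      rw [hV1]
      exact isProj_pcyc π c
    obtain ⟨-, hR', -, -, -⟩ := sub_isProj R V hR hVp hV2
    have hR'c : R - V * star V ∈ comm π := sub_mem hRc (mul_mem hV (star_mem hV))
    obtain ⟨Rj, hRjc, hRj, hRj1⟩ := near_proj_comm K L hc π hπ N δ hδ0 hδ hN (sumP N ζ j) hSj hSjN
    have hsm : Small π Rj j := by
      refine ih hjk.le Rj hRj hRjc ?_
      rw [norm_sub_rev]
      exact hRj1.trans (by norm_num)
    have hdist : ‖(R - V * star V) - Rj‖ ≤ 101 / 1000 := by
      have e : (R - V * star V) - Rj = ((R - V * star V) - sumP N ζ j) + (sumP N ζ j - Rj) := by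
        abel
      rw [e]
      refine (norm_add_le _ _).trans ?_
      linarith
    have hnear : ‖(1 - Rj) * (R - V * star V)‖ ≤ 1 / 2 := by
      have e : (1 - Rj) * (R - V * star V) = ((R - V * star V) - Rj) * (R - V * star V) := by
        rw [sub_mul, sub_mul, one_mul, hR'.2]
      rw [e]
      refine (norm_mul_le _ _).trans ?_
      have h5 := isProj_norm_le _ hR'
      calc ‖(R - V * star V) - Rj‖ * ‖R - V * star V‖ ≤ 101 / 1000 * 1 :=
            mul_le_mul hdist h5 (norm_nonneg _) (by norm_num)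
        _ ≤ 1 / 2 := by norm_num
    obtain ⟨W, hW, hW1, hW2, -⟩ := iso_of_near (comm π) (R - V * star V) Rj hR' hRj hR'c hRjc
      (1 / 2) le_rfl hnear
    have hsm' : Small π (R - V * star V) j := small_sub π Rj _ W j hsm hW hW1 hW2
    have hfin := small_add π (R - V * star V) (V * star V) (star V) c j hsm' hcorth (star_mem hV)
      (by rw [star_star]) (by
        have h6 := congrArg star (pi_mul V hVp)
        rw [star_mul, star_mul, star_star, hV1] at h6
        exact h6)
    rwa [sub_add_cancel] at hfin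

end Pool.Agent.Helper93.SP
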