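/-
Blocks SQ-SUM1 (sum_letters, this file), SQ-SUM2 (sum_amen, file SumA.lean), SQ-SUM3 (sum_icc,
file SumI.lean).  A criterion: K is the internal restricted direct sum of subgroups A y (y in Y)
permuted by G, where an element of G fixes an index iff it is in K (then it fixes all indices).
Examples: A wr Γ (Γ infinite), more generally wreath-like products.

Basic facts (put here the projections; they are used in all three blocks): every k in K is
uniquely a product of k_y in A y, k_y = 1 for all but finitely many y (the support of k is finite):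
there are homomorphisms coord y : K →* A y with coord y (a) = a for a in A y, coord y (b) = 1 for b
in A z, z ≠ y; finitely many y with coord y k ≠ 1; coord y k = 1 for all y implies k = 1; and
coord (g y) (g k g⁻¹) = g (coord y k) g⁻¹.  (exists_coord below.)

(sum_letters)  L = K.  Given m, E, F, D.  Let Λ be the finite set of cosets c which occur in the
words of F.  A finite set S of indices contains the supports of all e in E and of all d in D ∩ K.
For w in F choose y_w in Y such that the points r_c⁻¹ y_w (w in F, c in Λ, r_c = c.out) are pairwise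
distinct, not in S, and y_w not in S.  For fixed w they are distinct: r_c⁻¹ y = r_c'⁻¹ y implies
r_c' r_c⁻¹ in K, so c = c' (K normal).  For different w: y_w must avoid the finitely many points
r_c r_c'⁻¹ y_w' (Y infinite; induction over the finite set F).
By Lawless choose for each w in F elements t_w (i, c) in A y_w with w(t_w) ≠ 1 (the letters which do
not occur are irrelevant; Lawless is for Fin m, use an injection of the finitely many letters of w
into Fin m').  x_i = product over w in F, c in Λ of r_c⁻¹ t_w(i,c) r_c in A (r_c⁻¹ y_w).  Then x_i in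
K commutes with E (disjoint supports), and coord y_w of r_c x_i r_c⁻¹ is t_w(i,c), so
coord y_w (w(x)) = w(t_w) ≠ 1, while coord y_w d = 1 for d in D ∩ K, and w(x) is in K.
-/
import Pool.Agent.Helper93.SP2.Defs2

set_option autoImplicit false

namespace Pool.Agent.Helper93.SP

variable {G Y : Type*} [Group G] [MulAction G Y]

/-- `K` is the internal restricted direct sum of the subgroups `A y`, which are permuted by G by
conjugation; an element of G fixes an index iff it is in K. -/
structure FreeSum (K : Subgroup G) (A : Y → Subgroup G) : Prop where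
  sup : ⨆ y, A y = K
  indep : ∀ y, Disjoint (A y) (⨆ z, ⨆ _ : z ≠ y, A z)
  comm : ∀ y z, y ≠ z → ∀ a ∈ A y, ∀ b ∈ A z, a * b = b * a
  conj : ∀ g y, ∀ a ∈ A y, g * a * g⁻¹ ∈ A (g • y)
  fixed : ∀ (g : G) (y : Y), g • y = y ↔ g ∈ K

/-- The group satisfies no law (no nontrivial group identity). -/
def Lawless (A : Type*) [Group A] : Prop :=
  ∀ (m : ℕ) (w : FreeGroup (Fin m)), w ≠ 1 → ∃ x : Fin m → A, FreeGroup.lift x w ≠ 1

theorem sum_normal (K : Subgroup G) (A : Y → Subgroup G) (hs : FreeSum K A) : K.Normal := by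
  constructor
  intro k hk g
  rw [← hs.sup] at hk
  refine Subgroup.iSup_induction (C := fun k => g * k * g⁻¹ ∈ K) A hk ?_ ?_ ?_
  · intro y a ha
    rw [← hs.sup]
    exact Subgroup.mem_iSup_of_mem (g • y) (hs.conj g y a ha)
  · simp [K.one_mem]
  · intro a b ha hb
    have h : g * (a * b) * g⁻¹ = g * a * g⁻¹ * (g * b * g⁻¹) := by group
    rw [h]
    exact K.mul_mem ha hb

/-- The complement of `A y`. -/
private def cp (A : Y → Subgroup G) (y : Y) : Subgroup G := ⨆ z, ⨆ _ : z ≠ y, A z

omit [MulAction G Y] in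
private theorem le_cp (A : Y → Subgroup G) {y z : Y} (h : z ≠ y) : A z ≤ cp A y :=
  le_iSup_of_le z (le_iSup_of_le h le_rfl)

private theorem cp_comm {K : Subgroup G} {A : Y → Subgroup G} (hs : FreeSum K A) (y : Y) :
    ∀ a ∈ A y, ∀ b ∈ cp A y, a * b = b * a := by
  intro a ha b hb
  have h : cp A y ≤ Subgroup.centralizer {a} := by
    refine iSup_le fun z => iSup_le fun hz => ?_
    intro c hc
    rw [Subgroup.mem_centralizer_singleton_iff]
    exact (hs.comm y z hz.symm a ha c hc).symm
  have := h hb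
  rw [Subgroup.mem_centralizer_singleton_iff] at this
  exact this.symm

private theorem A_le {K : Subgroup G} {A : Y → Subgroup G} (hs : FreeSum K A) (y : Y) :
    A y ≤ K := by
  rw [← hs.sup]
  exact le_iSup A y

private theorem cp_le {K : Subgroup G} {A : Y → Subgroup G} (hs : FreeSum K A) (y : Y) :
    cp A y ≤ K := iSup_le fun z => iSup_le fun _ => A_le hs z

/-- Every element of `K` is a product. -/
private theorem exists_split {K : Subgroup G} {A : Y → Subgroup G} (hs : FreeSum K A) (y : Y)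
    {k : G} (hk : k ∈ K) : ∃ a ∈ A y, ∃ b ∈ cp A y, k = a * b := by
  rw [← hs.sup] at hk
  refine Subgroup.iSup_induction (C := fun k => ∃ a ∈ A y, ∃ b ∈ cp A y, k = a * b) A hk ?_ ?_ ?_
  · intro z c hc
    by_cases h : z = y
    · subst h
      exact ⟨c, hc, 1, (cp A z).one_mem, by simp⟩
    · exact ⟨1, (A y).one_mem, c, le_cp A h hc, by simp⟩
  · exact ⟨1, (A y).one_mem, 1, (cp A y).one_mem, by simp⟩
  · rintro _ _ ⟨a, ha, b, hb, rfl⟩ ⟨a', ha', b', hb', rfl⟩
    refine ⟨a * a', (A y).mul_mem ha ha', b * b', (cp A y).mul_mem hb hb', ?_⟩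
    have := cp_comm hs y a' ha' b hb
    calc a * b * (a' * b') = a * (b * a') * b' := by group
      _ = a * (a' * b) * b' := by rw [this]
      _ = a * a' * (b * b') := by group

private theorem split_unique {K : Subgroup G} {A : Y → Subgroup G} (hs : FreeSum K A) (y : Y)
    {a b a' b' : G} (ha : a ∈ A y) (hb : b ∈ cp A y) (ha' : a' ∈ A y) (hb' : b' ∈ cp A y)
    (h : a * b = a' * b') : a = a' := by
  have h1 : a'⁻¹ * a = b' * b⁻¹ := by
    calc a'⁻¹ * a = a'⁻¹ * (a * b) * b⁻¹ := by group
      _ = a'⁻¹ * (a' * b') * b⁻¹ := by rw [h]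
      _ = b' * b⁻¹ := by group
  have h2 : a'⁻¹ * a ∈ A y := (A y).mul_mem ((A y).inv_mem ha') ha
  have h3 : a'⁻¹ * a ∈ cp A y := by
    rw [h1]
    exact (cp A y).mul_mem hb' ((cp A y).inv_mem hb)
  have h4 := (Subgroup.disjoint_def.1 (hs.indep y)) h2 h3
  have h5 := inv_mul_eq_one.1 h4
  exact h5.symm

/-- The component in `A y`. -/
private noncomputable def co {K : Subgroup G} {A : Y → Subgroup G} (hs : FreeSum K A) (y : Y)
    (k : K) : A y :=
  ⟨(exists_split hs y k.2).choose, (exists_split hs y k.2).choose_spec.1⟩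

private theorem co_eq {K : Subgroup G} {A : Y → Subgroup G} (hs : FreeSum K A) (y : Y)
    (k : K) {a b : G} (ha : a ∈ A y) (hb : b ∈ cp A y) (h : (k : G) = a * b) :
    (co hs y k : G) = a := by
  obtain ⟨b', hb', h'⟩ := (exists_split hs y k.2).choose_spec.2
  exact split_unique hs y (exists_split hs y k.2).choose_spec.1 hb' ha hb (h'.symm.trans h)

private theorem co_split {K : Subgroup G} {A : Y → Subgroup G} (hs : FreeSum K A) (y : Y)
    (k : K) : ∃ b ∈ cp A y, (k : G) = co hs y k * b :=
  (exists_split hs y k.2).choose_spec.2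

private noncomputable def coH {K : Subgroup G} {A : Y → Subgroup G} (hs : FreeSum K A) (y : Y) :
    K →* A y where
  toFun := co hs y
  map_one' := by
    apply Subtype.ext
    exact co_eq hs y 1 (A y).one_mem (cp A y).one_mem (by simp)
  map_mul' k l := by
    apply Subtype.ext
    obtain ⟨b, hb, h⟩ := co_split hs y k
    obtain ⟨b', hb', h'⟩ := co_split hs y l
    refine co_eq hs y (k * l) ((A y).mul_mem (co hs y k).2 (co hs y l).2) ((cp A y).mul_mem hb hb') ?_
    have := cp_comm hs y _ (co hs y l).2 b hb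
    calc ((k * l : K) : G) = (co hs y k : G) * b * (co hs y l * b') := by
          rw [Subgroup.coe_mul, h, h']
      _ = co hs y k * (b * co hs y l) * b' := by group
      _ = co hs y k * (co hs y l * b) * b' := by rw [this]
      _ = co hs y k * co hs y l * (b * b') := by group

/-- Elements of the sup of two commuting subgroups are products. -/
private theorem exists_mul_of_sup {P R : Subgroup G} (h : ∀ a ∈ P, ∀ b ∈ R, a * b = b * a) {x : G}
    (hx : x ∈ P ⊔ R) : ∃ a ∈ P, ∃ b ∈ R, x = a * b := by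
  have hc : ∀ (a : P) (b : R), Commute (P.subtype a) (R.subtype b) := fun a b => h a a.2 b b.2
  have hr := MonoidHom.noncommCoprod_range P.subtype R.subtype hc
  rw [Subgroup.range_subtype, Subgroup.range_subtype] at hr
  rw [← hr] at hx
  obtain ⟨⟨a, b⟩, rfl⟩ := hx
  exact ⟨a, a.2, b, b.2, by simp⟩

/-- Elements with trivial components are trivial. -/
private theorem eq_one_of {K : Subgroup G} {A : Y → Subgroup G} (hs : FreeSum K A)
    (S : Finset Y) : ∀ k : K, (k : G) ∈ (⨆ y ∈ S, A y) → (∀ y, coH hs y k = 1) → k = 1 := by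
  classical
  induction S using Finset.induction_on with
  | empty =>
    intro k hk _
    apply Subtype.ext
    simpa using hk
  | insert y S hy ih =>
    intro k hk h
    refine ih k ?_ h
    rw [Finset.iSup_insert] at hk
    have hle : (⨆ z ∈ S, A z) ≤ cp A y := by
      refine iSup₂_le fun z hz => le_cp A ?_
      rintro rfl
      exact hy hz
    obtain ⟨a, ha, b, hb, hk'⟩ := exists_mul_of_sup
      (fun a ha b hb => cp_comm hs y a ha b (hle hb)) hk
    have h1 := co_eq hs y k ha (hle hb) hk'
    have h2 : (coH hs y k : G) = 1 := by rw [h y]; rfl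
    have h3 : a = 1 := h1.symm.trans h2
    rw [hk', h3, one_mul]
    exact hb

/-- Every element of `K` has finite support. -/
private theorem exists_finset {K : Subgroup G} {A : Y → Subgroup G} (hs : FreeSum K A)
    {k : G} (hk : k ∈ K) : ∃ S : Finset Y, k ∈ (⨆ y ∈ S, A y) := by
  classical
  rw [← hs.sup] at hk
  refine Subgroup.iSup_induction (C := fun k => ∃ S : Finset Y, k ∈ (⨆ y ∈ S, A y)) A hk ?_ ?_ ?_
  · intro y a ha
    refine ⟨{y}, ?_⟩
    simpa using ha
  · exact ⟨∅, Subgroup.one_mem _⟩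
  · rintro a b ⟨S, hS⟩ ⟨T, hT⟩
    refine ⟨S ∪ T, Subgroup.mul_mem _ ?_ ?_⟩
    · exact (biSup_mono fun y hy => Finset.mem_union_left T hy : (⨆ y ∈ S, A y) ≤ _) hS
    · exact (biSup_mono fun y hy => Finset.mem_union_right S hy : (⨆ y ∈ T, A y) ≤ _) hT

private theorem coH_ne {K : Subgroup G} {A : Y → Subgroup G} (hs : FreeSum K A) {y : Y} {k : K}
    (hk : (k : G) ∈ cp A y) : coH hs y k = 1 := by
  apply Subtype.ext
  exact co_eq hs y k (A y).one_mem hk (by simp)

theorem exists_coord (K : Subgroup G) (A : Y → Subgroup G) (hs : FreeSum K A) :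
    ∃ cd : ∀ y : Y, K →* A y,
      (∀ y, ∀ k : K, (k : G) ∈ A y → (cd y k : G) = k) ∧
      (∀ y z, y ≠ z → ∀ k : K, (k : G) ∈ A z → cd y k = 1) ∧
      (∀ k : K, {y | cd y k ≠ 1}.Finite) ∧
      (∀ k : K, (∀ y, cd y k = 1) → k = 1) ∧
      ∀ (g : G) (k k' : K), (k' : G) = g * k * g⁻¹ → ∀ y,
        (cd (g • y) k' : G) = g * (cd y k : G) * g⁻¹ := by
  refine ⟨coH hs, ?_, ?_, ?_, ?_, ?_⟩
  · intro y k hk
    exact co_eq hs y k hk (cp A y).one_mem (by simp)
  · intro y z hyz k hk
    exact coH_ne hs (le_cp A hyz.symm hk)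
  · intro k
    obtain ⟨S, hS⟩ := exists_finset hs k.2
    refine S.finite_toSet.subset ?_
    intro y hy
    by_contra h
    refine hy (coH_ne hs ?_)
    refine (iSup₂_le fun z hz => le_cp A ?_ : (⨆ y ∈ S, A y) ≤ cp A y) hS
    rintro rfl
    exact h hz
  · intro k h
    obtain ⟨S, hS⟩ := exists_finset hs k.2
    exact eq_one_of hs S k hS h
  · intro g k k' hk y
    obtain ⟨b, hb, h⟩ := co_split hs y k
    refine co_eq hs (g • y) k' (hs.conj g y _ (co hs y k).2) (b := g * b * g⁻¹) ?_ ?_
    · have hle : cp A y ≤ (cp A (g • y)).comap (MulAut.conj g).toMonoidHom := by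
        refine iSup₂_le fun z hz => ?_
        intro c hc
        refine le_cp A (z := g • z) ?_ (hs.conj g z c hc)
        exact fun h => hz (MulAction.injective g h)
      exact hle hb
    · calc (k' : G) = g * (co hs y k * b) * g⁻¹ := by rw [hk, ← h]
        _ = g * co hs y k * g⁻¹ * (g * b * g⁻¹) := by group

/-- Every word involves only finitely many letters. -/
private theorem exists_letters {α : Type*} (w : FreeGroup α) :
    ∃ T : Finset α, w ∈ Subgroup.closure (FreeGroup.of '' (T : Set α)) := by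
  classical
  induction w using FreeGroup.induction_on with
  | C1 => exact ⟨∅, Subgroup.one_mem _⟩
  | of a => exact ⟨{a}, Subgroup.subset_closure ⟨a, by simp, rfl⟩⟩
  | inv_of a h =>
    obtain ⟨T, hT⟩ := h
    exact ⟨T, Subgroup.inv_mem _ hT⟩
  | mul a b ha hb =>
    obtain ⟨S, hS⟩ := ha
    obtain ⟨T, hT⟩ := hb
    refine ⟨S ∪ T, Subgroup.mul_mem _ ?_ ?_⟩
    · exact Subgroup.closure_mono (Set.image_mono (by simp)) hS
    · exact Subgroup.closure_mono (Set.image_mono (by simp)) hT

/-- Two homomorphisms which agree on the letters of a word agree on the word. -/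
private theorem hom_congr {α B : Type*} [Group B] (f g : FreeGroup α →* B) (T : Finset α)
    (h : ∀ a ∈ T, f (FreeGroup.of a) = g (FreeGroup.of a)) {w : FreeGroup α}
    (hw : w ∈ Subgroup.closure (FreeGroup.of '' (T : Set α))) : f w = g w := by
  refine MonoidHom.eqOn_closure (f := f) (g := g) ?_ hw
  rintro _ ⟨a, ha, rfl⟩
  exact h a ha

/-- A lawless group satisfies no law in arbitrary letters. -/
private theorem lawless_any {B : Type*} [Group B] (hB : Lawless B) {α : Type*} (w : FreeGroup α)
    (hw : w ≠ 1) : ∃ x : α → B, FreeGroup.lift x w ≠ 1 := by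
  classical
  obtain ⟨T, hT⟩ := exists_letters w
  let e := T.equivFin
  let f : α → FreeGroup (Fin T.card) := fun a => if h : a ∈ T then FreeGroup.of (e ⟨a, h⟩) else 1
  let g : Fin T.card → FreeGroup α := fun j => FreeGroup.of (e.symm j).1
  have h1 : FreeGroup.lift g (FreeGroup.lift f w) = w := by
    have := hom_congr ((FreeGroup.lift g).comp (FreeGroup.lift f)) (MonoidHom.id _) T ?_ hT
    · simpa using this
    · intro a ha
      simp [f, g, ha]
  obtain ⟨x', hx'⟩ := hB T.card (FreeGroup.lift f w) (by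
    intro h
    rw [h, map_one] at h1
    exact hw h1.symm)
  refine ⟨fun a => FreeGroup.lift x' (f a), ?_⟩
  have h2 : FreeGroup.lift (fun a => FreeGroup.lift x' (f a)) =
      (FreeGroup.lift x').comp (FreeGroup.lift f) := by
    ext a
    simp
  rw [h2]
  exact hx'

/-- Elements of `K` with prescribed components. -/
private theorem exists_elt {K : Subgroup G} {A : Y → Subgroup G} (hs : FreeSum K A)
    (cd : ∀ y : Y, K →* A y) (h1 : ∀ y, ∀ k : K, (k : G) ∈ A y → (cd y k : G) = k)
    (h2 : ∀ y z, y ≠ z → ∀ k : K, (k : G) ∈ A z → cd y k = 1) (S : Finset Y) :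
    ∀ f : ∀ y, A y, (∀ y ∉ S, f y = 1) → ∃ k : K, ∀ y, cd y k = f y := by
  classical
  induction S using Finset.induction_on with
  | empty =>
    intro f hf
    exact ⟨1, fun y => by rw [map_one, hf y (by simp)]⟩
  | insert z S hz ih =>
    intro f hf
    obtain ⟨k, hk⟩ := ih (Function.update f z 1) (by
      intro y hy
      by_cases h : y = z
      · subst h
        simp
      · rw [Function.update_of_ne h]
        exact hf y (by simp [h, hy]))
    refine ⟨k * ⟨f z, A_le hs z (f z).2⟩, fun y => ?_⟩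
    rw [map_mul, hk]
    by_cases h : y = z
    · subst h
      rw [Function.update_self, one_mul]
      exact Subtype.ext (h1 y _ (f y).2)
    · rw [Function.update_of_ne h, h2 y z h _ (f z).2, mul_one]

/-- The choice of the indices. -/
private theorem exists_points [Infinite Y] {ι Q : Type*} (F : Finset ι) (Λ : Finset Q) (r : Q → G)
    (hr : ∀ c c' : Q, ∀ y : Y, (r c)⁻¹ • y = (r c')⁻¹ • y → c = c') (S : Finset Y) :
    ∃ y : ι → Y, (∀ w ∈ F, y w ∉ S ∧ ∀ c ∈ Λ, (r c)⁻¹ • y w ∉ S) ∧
      ∀ w ∈ F, ∀ w' ∈ F, ∀ c ∈ Λ, ∀ c' ∈ Λ, (r c)⁻¹ • y w = (r c')⁻¹ • y w' → w = w' ∧ c = c' := by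
  classical
  induction F using Finset.induction_on with
  | empty =>
    obtain ⟨y⟩ := (inferInstance : Nonempty Y)
    exact ⟨fun _ => y, by simp, by simp⟩
  | insert w F hw ih =>
    obtain ⟨y, h1, h2⟩ := ih
    obtain ⟨z, hz⟩ := Infinite.exists_notMem_finset
      (S ∪ (Λ ×ˢ S).image (fun p => r p.1 • p.2) ∪
        (Λ ×ˢ (Λ ×ˢ F)).image (fun p => r p.1 • ((r p.2.1)⁻¹ • y p.2.2)))
    simp only [Finset.mem_union, Finset.mem_image, Finset.mem_product, Prod.exists, not_or, not_exists,
      not_and] at hz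
    obtain ⟨⟨hz1, hz2⟩, hz3⟩ := hz
    have key : ∀ c ∈ Λ, ∀ c' ∈ Λ, ∀ w' ∈ F, (r c)⁻¹ • z ≠ (r c')⁻¹ • y w' := by
      intro c hc c' hc' w' hw' h
      refine hz3 c c' w' ⟨hc, hc', hw'⟩ ?_
      rw [← h, smul_inv_smul]
    refine ⟨Function.update y w z, ?_, ?_⟩
    · intro v hv
      by_cases h : v = w
      · subst h
        rw [Function.update_self]
        refine ⟨hz1, fun c hc h => hz2 c _ ⟨hc, h⟩ ?_⟩
        rw [smul_inv_smul]
      · rw [Function.update_of_ne h]
        exact h1 v (Finset.mem_of_mem_insert_of_ne hv h)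
    · intro v hv v' hv' c hc c' hc' h
      by_cases e : v = w <;> by_cases e' : v' = w
      · subst e
        subst e'
        exact ⟨rfl, hr c c' _ h⟩
      · subst e
        rw [Function.update_self, Function.update_of_ne e'] at h
        exact absurd h (key c hc c' hc' v' (Finset.mem_of_mem_insert_of_ne hv' e'))
      · subst e'
        rw [Function.update_self, Function.update_of_ne e] at h
        exact absurd h.symm (key c' hc' c hc v (Finset.mem_of_mem_insert_of_ne hv e))
      · rw [Function.update_of_ne e, Function.update_of_ne e'] at h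
        exact h2 v (Finset.mem_of_mem_insert_of_ne hv e) v' (Finset.mem_of_mem_insert_of_ne hv' e')
          c hc c' hc' h

theorem sum_letters [Infinite Y] (K : Subgroup G) (A : Y → Subgroup G) (hs : FreeSum K A)
    (hl : ∀ y, Lawless (A y)) : HasFreeLetters K K := by
  classical
  have hK := sum_normal K A hs
  obtain ⟨cd, h1, h2, h3, h4, h5⟩ := exists_coord K A hs
  intro m E F D hE hF hD hEK h1F
  -- letters
  choose T hT using fun w : FreeGroup (Fin m × (G ⧸ K)) => exists_letters w
  let Λ : Finset (G ⧸ K) := (hF.toFinset.biUnion T).image Prod.snd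
  -- the supports
  let supp : K → Finset Y := fun k => (h3 k).toFinset
  have hsupp : ∀ k y, y ∉ supp k → cd y k = 1 := by
    intro k y hy
    by_contra h
    exact hy (by simpa [supp] using h)
  let pk : G → K := fun g => if h : g ∈ K then ⟨g, h⟩ else 1
  let S : Finset Y := (hE.toFinset ∪ hD.toFinset).biUnion fun g => supp (pk g)
  have hS : ∀ g ∈ E ∪ D, ∀ hg : g ∈ K, ∀ y ∉ S, cd y ⟨g, hg⟩ = 1 := by
    intro g hg hgK y hy
    refine hsupp _ y fun h => hy ?_
    simp only [S, Finset.mem_biUnion, Finset.mem_union, Set.Finite.mem_toFinset]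
    refine ⟨g, hg, ?_⟩
    simpa only [pk, dif_pos hgK] using h
  -- the points
  obtain ⟨y, hy1, hy2⟩ := exists_points (Y := Y) hF.toFinset Λ (fun c : G ⧸ K => c.out) (by
    intro c c' z hz
    have hz' : (c'.out * c.out⁻¹) • z = z := by
      rw [mul_smul, hz, smul_inv_smul]
    have hz2 := (hs.fixed _ _).1 hz'
    rw [hK.mem_comm_iff] at hz2
    have := QuotientGroup.eq.2 hz2
    simpa using this) S
  -- the components
  have hlw : ∀ w : FreeGroup (Fin m × (G ⧸ K)), ∃ t : Fin m × (G ⧸ K) → A (y w),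
      w ≠ 1 → FreeGroup.lift t w ≠ 1 := by
    intro w
    by_cases hw : w = 1
    · exact ⟨fun _ => 1, fun h => absurd hw h⟩
    · obtain ⟨t, ht⟩ := lawless_any (hl (y w)) w hw
      exact ⟨t, fun _ => ht⟩
  choose t ht using hlw
  have hmem : ∀ (w : FreeGroup (Fin m × (G ⧸ K))) (p : Fin m × (G ⧸ K)),
      (p.2.out)⁻¹ * (t w p : G) * p.2.out ∈ A ((p.2.out)⁻¹ • y w) := by
    intro w p
    have := hs.conj (p.2.out)⁻¹ (y w) _ (t w p).2
    rwa [inv_inv] at this
  let f : Fin m → ∀ z : Y, A z := fun i z =>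
    if h : ∃ p : FreeGroup (Fin m × (G ⧸ K)) × (G ⧸ K), p.1 ∈ hF.toFinset ∧ p.2 ∈ Λ ∧
      (p.2.out)⁻¹ • y p.1 = z then
      ⟨(h.choose.2.out)⁻¹ * (t h.choose.1 (i, h.choose.2) : G) * h.choose.2.out, by
        have := hmem h.choose.1 (i, h.choose.2)
        rw [h.choose_spec.2.2] at this
        exact this⟩
    else 1
  have hf1 : ∀ i, ∀ w ∈ hF.toFinset, ∀ c ∈ Λ,
      (f i ((c.out)⁻¹ • y w) : G) = (c.out)⁻¹ * (t w (i, c) : G) * c.out := by
    intro i w hw c hc
    have h : ∃ p : FreeGroup (Fin m × (G ⧸ K)) × (G ⧸ K), p.1 ∈ hF.toFinset ∧ p.2 ∈ Λ ∧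
      (p.2.out)⁻¹ • y p.1 = (c.out)⁻¹ • y w := ⟨(w, c), hw, hc, rfl⟩
    have hh := hy2 h.choose.1 h.choose_spec.1 w hw h.choose.2 h.choose_spec.2.1 c hc
      h.choose_spec.2.2
    simp only [f, dif_pos h]
    have aux : ∀ w' c', w' = w → c' = c → (c'.out)⁻¹ * (t w' (i, c') : G) * c'.out =
        (c.out)⁻¹ * (t w (i, c) : G) * c.out := by
      rintro _ _ rfl rfl
      rfl
    exact aux _ _ hh.1 hh.2
  have hf2 : ∀ i z, z ∈ S → f i z = 1 := by
    intro i z hz
    simp only [f]
    rw [dif_neg]
    rintro ⟨p, hp1, hp2, rfl⟩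
    exact (hy1 p.1 hp1).2 p.2 hp2 hz
  have hf3 : ∀ i, ∀ z ∉ (hF.toFinset ×ˢ Λ).image
      (fun p : FreeGroup (Fin m × (G ⧸ K)) × (G ⧸ K) => (p.2.out)⁻¹ • y p.1), f i z = 1 := by
    intro i z hz
    simp only [f]
    rw [dif_neg]
    rintro ⟨p, hp1, hp2, rfl⟩
    exact hz (Finset.mem_image_of_mem _ (Finset.mem_product.2 ⟨hp1, hp2⟩))
  choose x hx using fun i => exists_elt hs cd h1 h2 _ (f i) (hf3 i)
  refine ⟨fun i => x i, fun i => (x i).2, ?_, ?_⟩
  · intro i e he
    have heK : e ∈ K := hEK he
    have : (⟨e, heK⟩ : K) * x i * (⟨e, heK⟩ : K)⁻¹ * (x i)⁻¹ = 1 := by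
      apply h4
      intro z
      rw [map_mul, map_mul, map_mul, map_inv, map_inv, hx i z]
      by_cases hz : z ∈ S
      · rw [hf2 i z hz]
        simp
      · rw [hS e (Or.inl he) heK z hz]
        simp
    have h6 : (⟨e, heK⟩ : K) * x i = x i * (⟨e, heK⟩ : K) := by
      rw [mul_inv_eq_one, mul_inv_eq_iff_eq_mul] at this
      exact this
    exact congrArg (Subtype.val) h6
  · intro w hw hwD
    have hwF : w ∈ hF.toFinset := by simpa using hw
    have hw1 : w ≠ 1 := by
      rintro rfl
      exact h1F hw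
    -- the word in K
    let Φ : FreeGroup (Fin m × (G ⧸ K)) →* K := FreeGroup.lift fun p =>
      ⟨p.2.out * (x p.1 : G) * (p.2.out)⁻¹, hK.conj_mem _ (x p.1).2 _⟩
    have hΦ : ∀ v, ((Φ v : K) : G) = letterHom K (fun i => (x i : G)) v := by
      have : (K.subtype).comp Φ = letterHom K (fun i => (x i : G)) := by
        unfold letterHom
        ext p
        simp [Φ]
      intro v
      rw [← this]
      rfl
    have hy := (hy1 w hwF).1
    have hin : letterHom K (fun i => (x i : G)) w ∈ K := by
      rw [← hΦ]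
      exact (Φ w).2
    have e1 := hS _ (Or.inr hwD) hin (y w) hy
    have e2 : (⟨letterHom K (fun i => (x i : G)) w, hin⟩ : K) = Φ w := Subtype.ext (hΦ w).symm
    rw [e2] at e1
    refine ht w hw1 ?_
    rw [← e1]
    refine hom_congr (FreeGroup.lift (t w)) ((cd (y w)).comp Φ) (T w) ?_ (hT w)
    rintro ⟨i, c⟩ hic
    have hc : c ∈ Λ := by
      simp only [Λ, Finset.mem_image, Finset.mem_biUnion]
      exact ⟨(i, c), ⟨w, hwF, hic⟩, rfl⟩
    apply Subtype.ext
    have h6 := h5 c.out (x i) (Φ (FreeGroup.of (i, c))) (by simp [Φ]) ((c.out)⁻¹ • y w)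
    rw [smul_inv_smul, hx i, hf1 i w hwF c hc] at h6
    rw [MonoidHom.comp_apply, h6, FreeGroup.lift_apply_of]
    group

end Pool.Agent.Helper93.SP
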