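/-
Block SQ-SUM2 (about 150 lines).  The restricted direct sum K of amenable subgroups A y is amenable.

For a finite list y_1, ..., y_n of distinct indices with means μ_i on A y_i put
 μ(f) = μ_1(a_1 ↦ μ_2(a_2 ↦ ... μ_n(a_n ↦ f(a_1 ... a_n)) ...)),
a mean on bounded functions on K (n = 0: f(1)), invariant under left translation by A y_i for each i
(the A y commute with each other).  So for every finite set S of indices there is a mean μ_S on
bounded functions on K (satisfying add, smul, one, le of IsInvMean) with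
μ_S(k ↦ f(h k)) = μ_S(f) for h in A y, y in S (induction over S: μ_(S ∪ y)(f) = μ_y(a ↦ μ_S(k ↦ f(a k)))).
Take the limit along an ultrafilter on Finset Y finer than atTop (as in block SP-LF,
Pool/Agent/Helper93/SP/Lf.lean).  The set of h in K with μ(f(h ·)) = μ(f) for all bounded f is a
subgroup containing all A y, so it is K (the subgroups of K: use Subgroup.iSup_induction or
closure induction on (h : G) in ⨆ A y).
-/
import Pool.Agent.Helper93.SP2.Sum

set_option autoImplicit false

namespace Pool.Agent.Helper93.SP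

open Filter Topology

section means

variable {K : Type*} [Group K]

/-- A mean on bounded functions (no invariance). -/
private structure Mean52 (μ : (K → ℂ) → ℂ) : Prop where
  add : ∀ f g : K → ℂ, (∃ C, ∀ k, ‖f k‖ ≤ C) → (∃ C, ∀ k, ‖g k‖ ≤ C) →
    μ (fun k => f k + g k) = μ f + μ g
  smul : ∀ (c : ℂ) (f : K → ℂ), (∃ C, ∀ k, ‖f k‖ ≤ C) → μ (fun k => c * f k) = c * μ f
  one : μ (fun _ => 1) = 1
  le : ∀ (f : K → ℂ) (C : ℝ), (∀ k, ‖f k‖ ≤ C) → ‖μ f‖ ≤ C

/-- Left invariance under one element. -/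
private def Inv52 (μ : (K → ℂ) → ℂ) (h : K) : Prop :=
  ∀ f : K → ℂ, (∃ C, ∀ k, ‖f k‖ ≤ C) → μ (fun k => f (h * k)) = μ f

/-- Limit of means along the finite sets. -/
private theorem limit52 {Y : Type*} (m : Finset Y → (K → ℂ) → ℂ) (hm : ∀ S, Mean52 (m S)) :
    ∃ μ : (K → ℂ) → ℂ, Mean52 μ ∧
      ∀ h : K, (∀ᶠ S in (atTop : Filter (Finset Y)), Inv52 (m S) h) → Inv52 μ h := by
  classical
  set U : Ultrafilter (Finset Y) := Ultrafilter.of (atTop : Filter (Finset Y)) with hU
  have hlim : ∀ f : K → ℂ, (∃ C, ∀ k, ‖f k‖ ≤ C) →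
      Tendsto (fun S => m S f) (↑U : Filter (Finset Y))
        (𝓝 (limUnder (↑U : Filter (Finset Y)) fun S => m S f)) := by
    rintro f ⟨C, hC⟩
    have hcomp : IsCompact (Metric.closedBall (0 : ℂ) C) := isCompact_closedBall 0 C
    obtain ⟨x, _, hx⟩ := hcomp.ultrafilter_le_nhds (U.map (fun S => m S f)) (by
      rw [le_principal_iff]
      have h1 : (fun S => m S f) ⁻¹' (Metric.closedBall (0 : ℂ) C) ∈ (↑U : Filter (Finset Y)) := by
        refine Filter.mem_of_superset Filter.univ_mem fun S _ => ?_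
        rw [Set.mem_preimage, mem_closedBall_zero_iff]
        exact (hm S).le f C hC
      exact h1)
    have hx' : Tendsto (fun S => m S f) (↑U : Filter (Finset Y)) (𝓝 x) := hx
    rw [hx'.limUnder_eq]
    exact hx'
  refine ⟨fun f => limUnder (↑U : Filter (Finset Y)) fun S => m S f, ⟨?_, ?_, ?_, ?_⟩, ?_⟩
  · intro f g hf hg
    have h1 := hlim f hf
    have h2 := hlim g hg
    obtain ⟨C, hC⟩ := hf
    obtain ⟨C', hC'⟩ := hg
    have h3 := hlim (fun k => f k + g k)
      ⟨C + C', fun k => (norm_add_le _ _).trans (add_le_add (hC k) (hC' k))⟩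
    have h4 : (fun S => m S (fun k => f k + g k)) = fun S => m S f + m S g := by
      ext1 S
      exact (hm S).add f g ⟨C, hC⟩ ⟨C', hC'⟩
    exact tendsto_nhds_unique h3 (by rw [h4]; exact h1.add h2)
  · intro c f hf
    have h1 := hlim f hf
    obtain ⟨C, hC⟩ := hf
    have h3 := hlim (fun k => c * f k) ⟨‖c‖ * C, fun k => by
      rw [norm_mul]
      exact mul_le_mul_of_nonneg_left (hC k) (norm_nonneg _)⟩
    have h4 : (fun S => m S (fun k => c * f k)) = fun S => c * m S f := by
      ext1 S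
      exact (hm S).smul c f ⟨C, hC⟩
    exact tendsto_nhds_unique h3 (by rw [h4]; exact h1.const_mul c)
  · have h3 := hlim (fun _ => 1) ⟨1, fun k => by rw [norm_one]⟩
    have h4 : (fun S => m S (fun _ => 1)) = fun _ => 1 := by
      ext1 S
      exact (hm S).one
    exact tendsto_nhds_unique h3 (by rw [h4]; exact tendsto_const_nhds)
  · intro f C hf
    have h3 := hlim f ⟨C, hf⟩
    exact le_of_tendsto h3.norm (Filter.Eventually.of_forall fun S => (hm S).le f C hf)
  · intro h hh f hf
    have h1 := hlim f hf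
    obtain ⟨C, hC⟩ := hf
    have h3 := hlim (fun k => f (h * k)) ⟨C, fun k => hC _⟩
    have h4 : ∀ᶠ S in (↑U : Filter (Finset Y)), m S (fun k => f (h * k)) = m S f := by
      have h5 : ∀ᶠ S in (atTop : Filter (Finset Y)), m S (fun k => f (h * k)) = m S f := by
        filter_upwards [hh] with S hS
        exact hS f ⟨C, hC⟩
      exact Filter.Eventually.filter_mono (Ultrafilter.of_le _) h5
    exact tendsto_nhds_unique (h3.congr' h4) h1

end means

variable {G Y : Type*} [Group G] [MulAction G Y]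

/-- The mean for a finite set of indices. -/
private theorem fin52 (K : Subgroup G) (A : Y → Subgroup G) (hs : FreeSum K A)
    (ha : ∀ y, Amen (A y)) (S : Finset Y) :
    ∃ μ : (K → ℂ) → ℂ, Mean52 μ ∧ ∀ y ∈ S, ∀ h : K, (h : G) ∈ A y → Inv52 μ h := by
  classical
  have hK : ∀ y, A y ≤ K := fun y => by
    rw [← hs.sup]
    exact le_iSup A y
  induction S using Finset.induction_on with
  | empty =>
    refine ⟨fun f => f 1, ⟨fun f g _ _ => rfl, fun c f _ => rfl, rfl, fun f C hf => hf 1⟩, ?_⟩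
    intro y hy
    simp at hy
  | insert y S hy ih =>
    obtain ⟨m, hm, hinv⟩ := ih
    obtain ⟨ν, hν⟩ := ha y
    have hb : ∀ (f : K → ℂ) (C : ℝ), (∀ k, ‖f k‖ ≤ C) → ∀ a : A y,
        ‖m (fun k => f (⟨a, hK y a.2⟩ * k))‖ ≤ C := fun f C hf a => hm.le _ C fun k => hf _
    refine ⟨fun f => ν fun a => m fun k => f (⟨a, hK y a.2⟩ * k), ⟨?_, ?_, ?_, ?_⟩, ?_⟩
    · rintro f g ⟨C, hC⟩ ⟨C', hC'⟩
      have h1 : (fun a : A y => m fun k => f (⟨a, hK y a.2⟩ * k) + g (⟨a, hK y a.2⟩ * k)) =
          fun a : A y => (m fun k => f (⟨a, hK y a.2⟩ * k)) + m fun k => g (⟨a, hK y a.2⟩ * k) := by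
        ext1 a
        exact hm.add (fun k => f (⟨a, hK y a.2⟩ * k)) (fun k => g (⟨a, hK y a.2⟩ * k))
          ⟨C, fun k => hC _⟩ ⟨C', fun k => hC' _⟩
      change ν (fun a : A y => m fun k => f (⟨a, hK y a.2⟩ * k) + g (⟨a, hK y a.2⟩ * k)) = _
      rw [h1]
      exact hν.add _ _ ⟨C, hb f C hC⟩ ⟨C', hb g C' hC'⟩
    · rintro c f ⟨C, hC⟩
      have h1 : (fun a : A y => m fun k => c * f (⟨a, hK y a.2⟩ * k)) =
          fun a : A y => c * m fun k => f (⟨a, hK y a.2⟩ * k) := by
        ext1 a
        exact hm.smul c (fun k => f (⟨a, hK y a.2⟩ * k)) ⟨C, fun k => hC _⟩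
      change ν (fun a : A y => m fun k => c * f (⟨a, hK y a.2⟩ * k)) = _
      rw [h1]
      exact hν.smul c _ ⟨C, hb f C hC⟩
    · change ν (fun _ => m fun _ => 1) = 1
      rw [hm.one]
      exact hν.one
    · intro f C hf
      exact hν.le _ C (hb f C hf)
    · intro z hz h hh
      rintro f ⟨C, hC⟩
      change ν (fun a : A y => m fun k => f (h * (⟨a, hK y a.2⟩ * k))) =
        ν (fun a : A y => m fun k => f (⟨a, hK y a.2⟩ * k))
      by_cases hzy : z = y
      · subst hzy
        have h1 := hν.inv ⟨h, hh⟩ (fun a : A z => m fun k => f (⟨a, hK z a.2⟩ * k))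
          ⟨C, hb f C hC⟩
        rw [← h1]
        congr 1
        ext1 a
        congr 1
        ext1 k
        congr 1
        rw [← mul_assoc]
        rfl
      · have hzS : z ∈ S := by
          rcases Finset.mem_insert.1 hz with h2 | h2
          · exact absurd h2 hzy
          · exact h2
        congr 1
        ext1 a
        have h2 : (fun k : K => f (h * (⟨a, hK y a.2⟩ * k))) =
            fun k : K => (fun k' : K => f (⟨a, hK y a.2⟩ * k')) (h * k) := by
          ext1 k
          change f _ = f _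
          congr 1
          rw [← mul_assoc, ← mul_assoc]
          congr 1
          apply Subtype.ext
          exact hs.comm z y hzy h hh a a.2
        rw [h2]
        exact hinv z hzS h hh _ ⟨C, fun k => hC _⟩

theorem sum_amen (K : Subgroup G) (A : Y → Subgroup G) (hs : FreeSum K A)
    (ha : ∀ y, Amen (A y)) : Amen K := by
  classical
  have hK : ∀ y, A y ≤ K := fun y => by
    rw [← hs.sup]
    exact le_iSup A y
  choose m hm hinv using fun S => fin52 K A hs ha S
  obtain ⟨μ, hμ, hμi⟩ := limit52 m hm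
  have key : ∀ x ∈ ⨆ y, A y, ∃ hx : x ∈ K, Inv52 μ (⟨x, hx⟩ : K) := by
    intro x hx
    refine Subgroup.iSup_induction A
      (C := fun x => ∃ hx : x ∈ K, Inv52 μ (⟨x, hx⟩ : K)) hx ?_ ?_ ?_
    · intro y a hay
      refine ⟨hK y hay, hμi _ ?_⟩
      filter_upwards [Filter.eventually_ge_atTop ({y} : Finset Y)] with S hS
      exact hinv S y (hS (Finset.mem_singleton_self y)) _ hay
    · refine ⟨one_mem K, fun f _ => ?_⟩
      congr 1
      ext1 k
      congr 1
      exact one_mul k
    · rintro a b ⟨h1, h2⟩ ⟨h3, h4⟩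
      refine ⟨mul_mem h1 h3, fun f hf => ?_⟩
      obtain ⟨C, hC⟩ := hf
      have h5 := h4 (fun k => f (⟨a, h1⟩ * k)) ⟨C, fun k => hC _⟩
      have h6 := h2 f ⟨C, hC⟩
      rw [← h6, ← h5]
      congr 1
      ext1 k
      congr 1
      rw [← mul_assoc]
      rfl
  refine ⟨μ, hμ.add, hμ.smul, hμ.one, hμ.le, fun h f hf => ?_⟩
  obtain ⟨hx, h1⟩ := key h (by rw [hs.sup]; exact h.2)
  exact h1 f hf

end Pool.Agent.Helper93.SP
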