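/-
Block SQ-SUM3 (helper35).  Infinite K-conjugacy classes for the restricted direct sum.

g in K, g ≠ 1: some coordinate g_y ≠ 1 (exists_coord); for b in A y the coordinate at y of b g b⁻¹
is b g_y b⁻¹, which takes infinitely many values.
g not in K: g y ≠ y for all y.  For y in Y pick a_y ≠ 1 in A y.  a_y g a_y⁻¹ = (a_y (g a_y⁻¹ g⁻¹)) g,
and the element a_y (g a_y⁻¹ g⁻¹) of K has coordinate a_y at y (g a_y⁻¹ g⁻¹ is in A (g y), g y ≠ y).
If there were only finitely many conjugates, one of them would come from infinitely many y's, but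
the support of the corresponding element of K is finite.
-/
import Pool.Agent.Helper93.SP2.Sum

set_option autoImplicit false

namespace Pool.Agent.Helper93.SP

variable {G Y : Type*} [Group G] [MulAction G Y]

theorem sum_icc [Infinite Y] (K : Subgroup G) (A : Y → Subgroup G) (hs : FreeSum K A)
    (hi : ∀ y, ∃ a ∈ A y, a ≠ 1)
    (hi2 : ∀ y, ∀ a ∈ A y, a ≠ 1 → {x : G | ∃ b ∈ A y, x = b * a * b⁻¹}.Infinite)
    (g : G) (hg : g ≠ 1) : (Set.range fun k : K => (k : G) * g * (k : G)⁻¹).Infinite := by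
  obtain ⟨cd, h1, h2, h3, h4, -⟩ := exists_coord K A hs
  have hle : ∀ y, A y ≤ K := fun y => hs.sup ▸ le_iSup A y
  by_cases hgK : g ∈ K
  · -- an element of K
    obtain ⟨y, hy⟩ : ∃ y, cd y ⟨g, hgK⟩ ≠ 1 := by
      by_contra hcon
      push Not at hcon
      exact hg (congrArg Subtype.val (h4 ⟨g, hgK⟩ hcon))
    have hy' : (cd y ⟨g, hgK⟩ : G) ≠ 1 := fun h => hy (Subtype.ext h)
    intro hfin
    refine hi2 y _ (cd y ⟨g, hgK⟩).2 hy' ?_
    have hfin2 : (Set.range fun k : K => k * ⟨g, hgK⟩ * k⁻¹).Finite := by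
      refine Set.Finite.of_finite_image (f := (Subtype.val : K → G)) ?_
        Subtype.val_injective.injOn
      refine hfin.subset ?_
      rintro _ ⟨_, ⟨k, rfl⟩, rfl⟩
      exact ⟨k, rfl⟩
    refine (hfin2.image fun k : K => (cd y k : G)).subset ?_
    rintro x ⟨b, hb, rfl⟩
    refine ⟨_, ⟨⟨b, hle y hb⟩, rfl⟩, ?_⟩
    have hb1 : (cd y ⟨b, hle y hb⟩ : G) = b := h1 y ⟨b, hle y hb⟩ hb
    simp only [map_mul, map_inv, Subgroup.coe_mul, Subgroup.coe_inv, hb1]
  · -- an element outside K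
    have hmove : ∀ y : Y, g • y ≠ y := fun y h => hgK ((hs.fixed g y).1 h)
    choose a ha ha1 using hi
    intro hfin
    have : Finite (Set.range fun k : K => (k : G) * g * (k : G)⁻¹) := hfin
    let φ : Y → (Set.range fun k : K => (k : G) * g * (k : G)⁻¹) := fun y =>
      ⟨a y * g * (a y)⁻¹, ⟨⟨a y, hle y (ha y)⟩, rfl⟩⟩
    obtain ⟨c, hc⟩ := Finite.exists_infinite_fiber φ
    have hc' : (φ ⁻¹' {c}).Infinite := Set.infinite_coe_iff.1 hc
    -- the element of K attached to y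
    have hinv : ∀ y, g * (a y)⁻¹ * g⁻¹ ∈ A (g • y) := fun y =>
      hs.conj g y _ (inv_mem (ha y))
    have hk : ∀ y, a y * (g * (a y)⁻¹ * g⁻¹) ∈ K := fun y =>
      mul_mem (hle y (ha y)) (hle _ (hinv y))
    obtain ⟨y0, hy0⟩ := hc'.nonempty
    refine hc' ((h3 ⟨_, hk y0⟩).subset ?_)
    intro y hy
    have e1 : a y * (g * (a y)⁻¹ * g⁻¹) = a y0 * (g * (a y0)⁻¹ * g⁻¹) := by
      have e2 : a y * g * (a y)⁻¹ = a y0 * g * (a y0)⁻¹ := by
        have := (show φ y = φ y0 from (hy : φ y = c).trans (hy0 : φ y0 = c).symm)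
        exact congrArg Subtype.val this
      calc a y * (g * (a y)⁻¹ * g⁻¹) = a y * g * (a y)⁻¹ * g⁻¹ := by group
        _ = a y0 * g * (a y0)⁻¹ * g⁻¹ := by rw [e2]
        _ = a y0 * (g * (a y0)⁻¹ * g⁻¹) := by group
    have e3 : (⟨_, hk y0⟩ : K) = ⟨a y, hle y (ha y)⟩ * ⟨_, hle _ (hinv y)⟩ := by
      apply Subtype.ext
      exact e1.symm
    change cd y ⟨_, hk y0⟩ ≠ 1
    rw [e3, map_mul, h2 y (g • y) (hmove y).symm ⟨_, hle _ (hinv y)⟩ (hinv y), mul_one]
    intro h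
    have := h1 y ⟨a y, hle y (ha y)⟩ (ha y)
    rw [h] at this
    exact ha1 y this.symm

end Pool.Agent.Helper93.SP
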